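import Pool.Agent.NSN.Lacun
import Pool.Agent.NSK.KDense

/-!
# MP_fd8964_an: density of the good data in `B^{-1}_{∞,q}`, `q > 2`, up to small errors in the dual of `V`
-/

open MeasureTheory Set Filter Topology
open scoped RealInnerProductSpace ContDiff

noncomputable section

namespace Pool.Agent.NSN

open Pool.Agent.NSD Pool.Agent.NSK

/-- LAC. A finite sum of kicks is reached by good data, up to an error which is small weakly and in
`B^{-1}_{∞,q}`. -/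
def Stmt_Lac : Prop := ∀ (Ω : Set E), IsOpen Ω → Bornology.IsBounded Ω → ∀ (η : ℝ) (Gd : ℝ → Set (V Ω)),
    KickClosed Ω η Gd → ∀ (x₀ : V Ω), (∀ ε, 0 < ε → x₀ ∈ Gd ε) → ∀ (n : ℕ) (Gk : Fin n → E → E)
    (p : Fin n → V Ω), (∀ i, IsKick Ω η (Gk i)) → (∀ i, Represents Ω (Gk i) (p i)) →
    ∀ (K : Set (V Ω)), IsCompact K → ∀ (q ε δ : ℝ), 2 < q → 0 < ε → 0 < δ → ∃ x ∈ Gd ε,
      (∀ φ ∈ K, |⟪fld x, fld φ⟫ - ⟪fld (x₀ + ∑ i, p i), fld φ⟫| < δ) ∧
      besov (x - (x₀ + ∑ i, p i)) q ≤ ENNReal.ofReal δ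

/-- BESOV. Every `l ∈ V'` is approximated by good data, in the dual of `V` plus `B^{-1}_{∞,q}`, and uniformly on
compact subsets of `V`. -/
def Stmt_Besov : Prop := ∀ (Ω : Set E), IsOpen Ω → Bornology.IsBounded Ω → ∀ (η : ℝ), 0 < η →
    ∀ (Gd : ℝ → Set (V Ω)), KickClosed Ω η Gd → ∀ (x₀ : V Ω), (∀ ε, 0 < ε → x₀ ∈ Gd ε) →
    ∀ (l : V Ω →L[ℝ] ℝ) (K : Set (V Ω)), IsCompact K → ∀ (q ε : ℝ), 2 < q → 0 < ε → ∃ x ∈ Gd ε, ∃ y : V Ω,
      (∀ φ : V Ω, |⟪fld y, fld φ⟫ - l φ| ≤ ε * ‖φ‖) ∧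
      (∀ φ ∈ K, |⟪fld x, fld φ⟫ - l φ| < ε) ∧ besov (x - y) q ≤ ENNReal.ofReal ε

namespace Besov

open Lacun

/-- A kick divided by `M`. -/
lemma kick_div {Ω : Set E} {η : ℝ} {n : ℕ} {a : Fin n → E → ℝ} {k ξ : Fin n → E} {q : E → ℝ} {G : E → E}
    (hK : Kick Ω η n a k ξ q G) {c : ℝ} (hc : 0 ≤ c) :
    Kick Ω η n (fun m x => √c * a m x) k ξ (fun x => c * q x) (fun x => c • G x) := by
  refine ⟨fun m => Cone.IsBump.const_mul (hK.bump m) _, fun m m' hm => ?_, hK.k_unit, hK.ξ_unit, hK.orth,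
    Cone.IsBump.const_mul hK.pres _, ?_, fun x => ?_⟩
  · refine (hK.disj m m' hm).mono ?_ ?_
    · exact tsupport_mul_subset_right (f := fun _ => √c) (g := a m)
    · exact tsupport_mul_subset_right (f := fun _ => √c) (g := a m')
  · exact hK.test.smul c
  · have h1 : ∀ m, dd (ξ m) (fun y => (√c * a m y) ^ 2) x = c * dd (ξ m) (fun y => a m y ^ 2) x := by
      intro m
      have h2 : (fun y => (√c * a m y) ^ 2) = fun y => c * (a m y ^ 2) := by
        funext y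
        rw [mul_pow, Real.sq_sqrt hc]
      rw [h2]
      exact Cone.dd_const_mul ((Cone.IsBump.diff (hK.bump m)).pow 2) c _ _
    have h3 := hK.eq x
    rw [Cone.gradS_const_mul (Cone.IsBump.diff hK.pres)]
    calc ∑ m, (dd (ξ m) (fun y => (√c * a m y) ^ 2) x) • ξ m
        = ∑ m, c • ((dd (ξ m) (fun y => a m y ^ 2) x) • ξ m) := by
          refine Finset.sum_congr rfl fun m _ => ?_
          rw [h1 m, smul_smul]
      _ = c • ((4 * η) • G x + gradS q x) := by rw [← Finset.smul_sum, h3]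
      _ = (4 * η) • (c • G x) + c • gradS q x := by
          rw [smul_add, smul_smul, smul_smul, mul_comm c (4 * η)]

lemma waveA_smul {n : ℕ} {a : Fin n → E → ℝ} (ha : ∀ m, Differentiable ℝ (a m)) (k ξ : Fin n → E) (N c : ℝ)
    (x : E) : waveA N (fun m x => c * a m x) k ξ x = c • waveA N a k ξ x := by
  unfold waveA
  rw [Finset.smul_sum]
  refine Finset.sum_congr rfl fun m _ => ?_
  have hg : Differentiable ℝ (gS N (k m) (a m)) := by
    unfold gS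
    have h1 : Differentiable ℝ fun y : E => N * ⟪k m, y⟫ :=
      ((differentiable_const _).inner ℝ differentiable_id).const_mul N
    exact h1.sin.mul (ha m)
  have e1 : gS N (k m) (fun x => c * a m x) = fun y => c * gS N (k m) (a m) y := by
    funext y
    simp only [gS]
    ring
  simp only [stream]
  rw [e1, Cone.dd_const_mul hg, Cone.dd_const_mul hg, smul_sub, smul_smul, smul_smul]

lemma bump_univ {Ω : Set E} {a : E → ℝ} (h : IsBump Ω a) : IsBump univ a := ⟨h.1, h.2.1, subset_univ _⟩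

/-- One small kick. -/
lemma step {Ω : Set E} (hΩ : IsOpen Ω) (hb : Bornology.IsBounded Ω) (hW : Stmt_Weak) {η : ℝ}
    {Gd : ℝ → Set (V Ω)} (hGd : KickClosed Ω η Gd) {n : ℕ} {a : Fin n → E → ℝ} {k ξ : Fin n → E} {q : E → ℝ}
    {G : E → E} (hK : Kick Ω η n a k ξ q G) {p : V Ω} (hp : Represents Ω G p) {C : ℝ}
    (hC : ∀ (N t : ℝ) (x : E), 1 ≤ N → 0 < t →
      √t * ‖∫ y, heatK t (x - y) • waveA N a k ξ y‖ ≤ C * kap (N * √t))
    {c : ℝ} (hc : 0 < c) {K : Set (V Ω)} (hKc : IsCompact K) {ε ε' δ N₁ : ℝ} (hε : 0 < ε) (hεε' : ε < ε')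
    (hδ : 0 < δ) {x : V Ω} (hx : x ∈ Gd ε) :
    ∃ N : ℝ, 1 ≤ N ∧ N₁ ≤ N ∧ ∃ W : V Ω, x + (c • p + W) ∈ Gd ε' ∧ (∀ φ ∈ K, |⟪fld W, fld φ⟫| ≤ δ) ∧
      ∀ (t : ℝ) (y : E), 0 < t → √t * ‖heatExt W t y‖ ≤ (√c * C) * kap (N * √t) := by
  have hkd := kick_div hK hc.le
  obtain ⟨N₀, hN₀, hgood⟩ := hGd ε ε' hε hεε' x hx n _ k ξ _ _ hkd
  obtain ⟨hwt, hwk⟩ := hW Ω hΩ hb η n _ k ξ _ _ hkd
  obtain ⟨N₂, hN₂⟩ := hwk K δ hKc hδ
  set N : ℝ := max (max N₀ N₁) N₂ with hN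
  have h0 : N₀ ≤ N := (le_max_left _ _).trans (le_max_left _ _)
  have h1 : N₁ ≤ N := (le_max_right _ _).trans (le_max_left _ _)
  have h2 : N₂ ≤ N := le_max_right _ _
  obtain ⟨W, hWr⟩ := Rep_proof Ω _ (hwt N)
  refine ⟨N, hN₀.trans h0, h1, W, ?_, hN₂ N h2 W hWr, fun t y ht => ?_⟩
  · refine hgood N h0 _ ?_
    have h3 := rep_smul c hK.test.differentiable hp
    exact rep_add (hK.test.smul c).differentiable (hwt N).differentiable h3 hWr
  · rw [heatExt_rep hΩ (hwt N) hWr]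
    have e1 : ∫ z, heatK t (y - z) • waveA N (fun m x => √c * a m x) k ξ z
        = √c • ∫ z, heatK t (y - z) • waveA N a k ξ z := by
      rw [← integral_smul]
      refine integral_congr_ae (Filter.Eventually.of_forall fun z => ?_)
      simp only
      rw [waveA_smul (fun m => Cone.IsBump.diff (hK.bump m)), smul_comm]
    rw [e1, norm_smul, Real.norm_of_nonneg (Real.sqrt_nonneg _)]
    calc √t * (√c * ‖∫ z, heatK t (y - z) • waveA N a k ξ z‖)
        = √c * (√t * ‖∫ z, heatK t (y - z) • waveA N a k ξ z‖) := by ring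
      _ ≤ √c * (C * kap (N * √t)) :=
        mul_le_mul_of_nonneg_left (hC N t y (hN₀.trans h0) ht) (Real.sqrt_nonneg _)
      _ = _ := by ring

/-- Many small kicks. -/
lemma many {Ω : Set E} (hΩ : IsOpen Ω) (hb : Bornology.IsBounded Ω) (hW : Stmt_Weak) {η : ℝ}
    {Gd : ℝ → Set (V Ω)} (hGd : KickClosed Ω η Gd) {x₀ : V Ω} (hx₀ : ∀ ε, 0 < ε → x₀ ∈ Gd ε)
    {n : ℕ} {Gk : Fin n → E → E} {p : Fin n → V Ω} (hG : ∀ i, IsKick Ω η (Gk i))
    (hp : ∀ i, Represents Ω (Gk i) (p i)) {K : Set (V Ω)} (hKc : IsCompact K) :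
    ∃ C : ℝ, 0 ≤ C ∧ ∀ (c : ℝ), 0 < c → ∀ (js : List (Fin n)) (δ ε : ℝ), 0 < δ → 0 < ε →
      ∃ x ∈ Gd ε, ∃ l : List ℝ, l.length = js.length ∧ Lac l ∧ ∃ W : V Ω,
        x = x₀ + (js.map fun i => c • p i).sum + W ∧
        (∀ φ ∈ K, |⟪fld W, fld φ⟫| ≤ js.length * δ) ∧
        ∀ (t : ℝ) (y : E), 0 < t → √t * ‖heatExt W t y‖ ≤ (√c * C) * lacF l √t := by
  choose nn a k ξ q hK using hG
  have hwb := fun i => waveA_heat (a i) (k i) (ξ i) (fun m => bump_univ ((hK i).bump m)) (hK i).k_unit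
    (hK i).ξ_unit (hK i).orth
  choose C hC0 hC using hwb
  refine ⟨∑ i, C i, Finset.sum_nonneg fun i _ => hC0 i, fun c hc js => ?_⟩
  induction js with
  | nil =>
    intro δ ε _ hε
    refine ⟨x₀, hx₀ ε hε, [], rfl, ⟨by simp, by simp⟩, 0, by simp, fun φ _ => ?_, fun t y ht => ?_⟩
    · have : fld (0 : V Ω) = 0 := rfl
      simp [this]
    · rw [heatExt_zero]
      simp [lacF]
  | cons i js ih =>
    intro δ ε hδ hε
    obtain ⟨x, hx, l, hl, hLac, W, hxW, hWK, hWt⟩ := ih δ (ε / 2) hδ (by positivity)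
    obtain ⟨N, hN1, hN2, W', hx', hWK', hWt'⟩ := step hΩ hb hW hGd (hK i) (hp i) (hC i) hc hKc
      (N₁ := 2 * l.headD 1) (by positivity : 0 < ε / 2) (by linarith : ε / 2 < ε) hδ hx
    refine ⟨_, hx', N :: l, by simp [hl], ⟨?_, ?_⟩, W + W', ?_, fun φ hφ => ?_, fun t y ht => ?_⟩
    · intro M hM
      rcases List.mem_cons.1 hM with h | h
      · rw [h]; exact hN1
      · exact hLac.1 M h
    · cases l with
      | nil => simp
      | cons M l => exact List.isChain_cons_cons.2 ⟨by simpa using hN2, hLac.2⟩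
    · rw [hxW]
      simp only [List.map_cons, List.sum_cons]
      abel
    · have h1 := hWK φ hφ
      have h2 := hWK' φ hφ
      rw [fld_add, inner_add_left]
      calc |⟪fld W, fld φ⟫ + ⟪fld W', fld φ⟫| ≤ |⟪fld W, fld φ⟫| + |⟪fld W', fld φ⟫| := abs_add_le _ _
        _ ≤ js.length * δ + δ := add_le_add h1 h2
        _ = _ := by push_cast [List.length_cons]; ring
    · rw [heatExt_add hb]
      have h1 := hWt t y ht
      have h2 := hWt' t y ht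
      have hs : 0 < √t := Real.sqrt_pos.2 ht
      have hk0 : 0 ≤ kap (N * √t) := kap_nonneg (mul_nonneg (by linarith) hs.le)
      have hCi : C i ≤ ∑ i, C i := Finset.single_le_sum (fun i _ => hC0 i) (Finset.mem_univ i)
      have e : lacF (N :: l) √t = kap (N * √t) + lacF l √t := by simp [lacF]
      have h3 : √c * C i * kap (N * √t) ≤ √c * (∑ i, C i) * kap (N * √t) := by gcongr
      calc √t * ‖heatExt W t y + heatExt W' t y‖ ≤ √t * (‖heatExt W t y‖ + ‖heatExt W' t y‖) := by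
            gcongr; exact norm_add_le _ _
        _ = √t * ‖heatExt W t y‖ + √t * ‖heatExt W' t y‖ := by ring
        _ ≤ √c * (∑ i, C i) * lacF l √t + √c * (∑ i, C i) * kap (N * √t) := add_le_add h1 (h2.trans h3)
        _ = _ := by rw [e]; ring

lemma sum_flatMap_rep {n : ℕ} {X : Type*} [AddCommMonoid X] (M : ℕ) (f : Fin n → X) (l : List (Fin n)) :
    ((l.flatMap fun i => List.replicate M i).map f).sum = (l.map fun i => M • f i).sum := by
  induction l with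
  | nil => simp
  | cons i l ih => simp [List.flatMap_cons, ih]

lemma length_flatMap_rep {n : ℕ} (M : ℕ) (l : List (Fin n)) :
    (l.flatMap fun i => List.replicate M i).length = l.length * M := by
  induction l with
  | nil => simp
  | cons i l ih => simp [List.flatMap_cons, ih]; ring

end Besov

open Besov Lacun in
theorem lac_proof (hW : Stmt_Weak) : Stmt_Lac := by
  intro Ω hΩ hb η Gd hGd x₀ hx₀ n Gk p hG hp K hKc q ε₁ ε hq hε₁ hε
  obtain ⟨C, hC, H⟩ := many hΩ hb hW hGd hx₀ hG hp hKc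
  -- choose `M`
  have hlim : Tendsto (fun M : ℕ => (2 * C) ^ (q - 1) * C * (2 * n) * ((M : ℝ) ^ ((q - 2) / 2))⁻¹) atTop
      (𝓝 ((2 * C) ^ (q - 1) * C * (2 * n) * 0)) := by
    refine Tendsto.const_mul _ (tendsto_inv_atTop_zero.comp ?_)
    exact (tendsto_rpow_atTop (by linarith : 0 < (q - 2) / 2)).comp tendsto_natCast_atTop_atTop
  rw [mul_zero] at hlim
  obtain ⟨M, hM1, hMpos⟩ := ((hlim.eventually (gt_mem_nhds hε)).and (eventually_gt_atTop 0)).exists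
  have hM : (0 : ℝ) < M := by exact_mod_cast hMpos
  set js : List (Fin n) := (List.finRange n).flatMap fun i => List.replicate M i with hjs
  have hlen : js.length = n * M := by rw [hjs, length_flatMap_rep]; simp
  obtain ⟨x, hx, l, hl, hLac, W, hxW, hWK, hWt⟩ := H (M : ℝ)⁻¹ (by positivity) js
    (ε / (2 * (n * M + 1))) ε₁ (by positivity) hε₁
  have hsum : (js.map fun i => (M : ℝ)⁻¹ • p i).sum = ∑ i, p i := by
    rw [hjs, sum_flatMap_rep]
    have : ∀ i : Fin n, M • ((M : ℝ)⁻¹ • p i) = p i := by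
      intro i
      rw [← Nat.cast_smul_eq_nsmul ℝ, smul_smul, mul_inv_cancel₀ hM.ne', one_smul]
    simp_rw [this]
    rw [← List.ofFn_eq_map, List.sum_ofFn]
  rw [hsum] at hxW
  have hdiff : x - (x₀ + ∑ i, p i) = W := by rw [hxW]; abel
  refine ⟨x, hx, fun φ hφ => ?_, ?_⟩
  · have h1 : ⟪fld x, fld φ⟫ - ⟪fld (x₀ + ∑ i, p i), fld φ⟫ = ⟪fld W, fld φ⟫ := by
      rw [← inner_sub_left, ← fld_sub, hdiff]
    rw [h1]
    refine (hWK φ hφ).trans_lt ?_
    rw [hlen]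
    push_cast
    have h2 : (0 : ℝ) < n * M + 1 := by positivity
    have h3 : (n : ℝ) * M * (ε / (2 * (n * M + 1))) = ε * (n * M) / (2 * (n * M + 1)) := by ring
    rw [h3, div_lt_iff₀ (by positivity)]
    nlinarith [mul_pos hε h2, mul_nonneg hε.le (by positivity : (0 : ℝ) ≤ n * M)]
  · rw [hdiff]
    refine (besov_le (D := √((M : ℝ)⁻¹) * C) (by positivity) (by linarith) hLac fun t y ht => hWt t y ht).trans ?_
    refine ENNReal.ofReal_le_ofReal (le_trans (le_of_eq ?_) hM1.le)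
    rw [hl, hlen]
    push_cast
    have hsM : √((M : ℝ)⁻¹) = ((M : ℝ) ^ (1 / 2 : ℝ))⁻¹ := by
      rw [Real.sqrt_inv, Real.sqrt_eq_rpow]
    have e1 : (2 * (√((M : ℝ)⁻¹) * C)) ^ (q - 1) = (2 * C) ^ (q - 1) * ((M : ℝ) ^ ((q - 1) / 2))⁻¹ := by
      have : 2 * (√((M : ℝ)⁻¹) * C) = (2 * C) * √((M : ℝ)⁻¹) := by ring
      rw [this, Real.mul_rpow (by positivity) (Real.sqrt_nonneg _), hsM, Real.inv_rpow (by positivity),
        ← Real.rpow_mul hM.le]
      congr 3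
      ring
    rw [e1, hsM]
    have e2 : (M : ℝ) ^ ((q - 1) / 2) * (M : ℝ) ^ (1 / 2 : ℝ) = (M : ℝ) ^ ((q - 2) / 2) * M := by
      have e3 : (M : ℝ) ^ ((q - 2) / 2) * (M : ℝ) ^ (1 : ℝ) = (M : ℝ) ^ ((q - 2) / 2 + 1) :=
        (Real.rpow_add hM _ _).symm
      rw [Real.rpow_one] at e3
      rw [← Real.rpow_add hM, e3]
      congr 1
      ring
    have hA : 0 < (M : ℝ) ^ ((q - 1) / 2) := Real.rpow_pos_of_pos hM _
    have hB : 0 < (M : ℝ) ^ (1 / 2 : ℝ) := Real.rpow_pos_of_pos hM _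
    have hD : 0 < (M : ℝ) ^ ((q - 2) / 2) := Real.rpow_pos_of_pos hM _
    calc (2 * C) ^ (q - 1) * ((M : ℝ) ^ ((q - 1) / 2))⁻¹ * (((M : ℝ) ^ (1 / 2 : ℝ))⁻¹ * C * (2 * (n * M)))
        = (2 * C) ^ (q - 1) * C * (2 * n) * (M / ((M : ℝ) ^ ((q - 1) / 2) * (M : ℝ) ^ (1 / 2 : ℝ))) := by
          field_simp
      _ = (2 * C) ^ (q - 1) * C * (2 * n) * (M / ((M : ℝ) ^ ((q - 2) / 2) * M)) := by rw [e2]
      _ = _ := by
          congr 1
          field_simp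

/-- BESOV. -/
theorem besov_proof (hL : Stmt_Lac) (hKD : Stmt_KDense) : Stmt_Besov := by
  intro Ω hΩ hb η hη Gd hGd x₀ hx₀ l K hKc q ε hq hε
  obtain ⟨R, hR0, hR⟩ : ∃ R : ℝ, 0 < R ∧ ∀ φ ∈ K, ‖φ‖ ≤ R := by
    obtain ⟨R, hR⟩ := hKc.isBounded.exists_norm_le
    exact ⟨max R 1, lt_max_of_lt_right one_pos, fun φ hφ => (hR φ hφ).trans (le_max_left _ _)⟩
  set δ : ℝ := min ε (ε / (2 * R)) with hδ
  have hδ0 : 0 < δ := lt_min hε (by positivity)
  obtain ⟨n, Gk, p, hG, hp, hl⟩ := hKD Ω hΩ hb η hη (l - (innerSL ℝ (fld x₀)).comp (fldLM Ω)) δ hδ0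
  obtain ⟨x, hx, hxK, hxB⟩ := hL Ω hΩ hb η Gd hGd x₀ hx₀ n Gk p hG hp K hKc q ε (ε / 2) hq hε (by positivity)
  have hy : ∀ φ : V Ω, |⟪fld (x₀ + ∑ i, p i), fld φ⟫ - l φ| ≤ δ * ‖φ‖ := by
    intro φ
    have h1 := hl φ
    have e1 : fld (x₀ + ∑ i, p i) = fld x₀ + ∑ i, fld (p i) := by
      rw [fld_add]
      congr 1
      exact map_sum (fldLM Ω) p Finset.univ
    have e2 : (l - (innerSL ℝ (fld x₀)).comp (fldLM Ω)) φ = l φ - ⟪fld x₀, fld φ⟫ := rfl
    rw [e2] at h1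
    rw [e1, inner_add_left, sum_inner]
    have e3 : ⟪fld x₀, fld φ⟫ + ∑ i, ⟪fld (p i), fld φ⟫ - l φ
        = ∑ i, ⟪fld (p i), fld φ⟫ - (l φ - ⟪fld x₀, fld φ⟫) := by ring
    rw [e3]
    exact h1
  refine ⟨x, hx, x₀ + ∑ i, p i, fun φ => (hy φ).trans ?_, fun φ hφ => ?_, hxB.trans ?_⟩
  · exact mul_le_mul_of_nonneg_right (min_le_left _ _) (norm_nonneg _)
  · have h1 := hxK φ hφ
    have h2 := hy φ
    have h3 : δ * ‖φ‖ ≤ ε / 2 := by
      calc δ * ‖φ‖ ≤ (ε / (2 * R)) * R := mul_le_mul (min_le_right _ _) (hR φ hφ) (norm_nonneg _) (by positivity)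
        _ = ε / 2 := by field_simp
    calc |⟪fld x, fld φ⟫ - l φ|
        = |(⟪fld x, fld φ⟫ - ⟪fld (x₀ + ∑ i, p i), fld φ⟫) + (⟪fld (x₀ + ∑ i, p i), fld φ⟫ - l φ)| := by
          congr 1; ring
      _ ≤ |⟪fld x, fld φ⟫ - ⟪fld (x₀ + ∑ i, p i), fld φ⟫| + |⟪fld (x₀ + ∑ i, p i), fld φ⟫ - l φ| := abs_add_le _ _
      _ < ε / 2 + ε / 2 := by linarith
      _ = ε := by ring
  · exact ENNReal.ofReal_le_ofReal (by linarith)

end Pool.Agent.NSN
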