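import Pool.Agent.NSK.SealedK

/-!
# MP_fd8964_an: the homogeneous Besov spaces `B^{-1}_{∞,q}`, over `Pool.Agent.NSD.Sealed`
-/

open MeasureTheory Set Filter Topology
open scoped RealInnerProductSpace ContDiff

noncomputable section

namespace Pool.Agent.NSBS

open Pool.Agent.NSDS

/-- The heat kernel of `ℝ³`. -/
def heatK (t : ℝ) (x : R3) : ℝ := Real.exp (-‖x‖ ^ 2 / (4 * t)) / (4 * Real.pi * t) ^ (3 / 2 : ℝ)

/-- The heat extension `(e^{tΔ}w)(x)` of `w ∈ V`, extended by `0` outside `Ω`. -/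
def heatExt {Ω : Set R3} (w : V Ω) (t : ℝ) (x : R3) : R3 := ∫ y in Ω, heatK t (x - y) • fn (fld w) y

/-- The `q`-th power of the norm of `w` in the homogeneous Besov space `B^{-1}_{∞,q}(ℝ³)`:
`∫₀^∞ (√t ‖e^{tΔ}w‖_{L^∞})^q dt/t`. -/
def besov {Ω : Set R3} (w : V Ω) (q : ℝ) : ENNReal :=
  ∫⁻ t in Ioi (0 : ℝ), (⨆ x : R3, ENNReal.ofReal (√t * ‖heatExt w t x‖)) ^ q * ENNReal.ofReal (1 / t)

end Pool.Agent.NSBS
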