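import Pool.Agent.NSN.Good
import Pool.Agent.NSN.Besov
import Pool.Agent.NSN.SealedB

/-!
# MP_fd8964_an: density of the good data in the dual of `V` plus `B^{-1}_{∞,q}`, and its transfer
-/

open MeasureTheory Set Filter Topology
open scoped RealInnerProductSpace ContDiff

noncomputable section

namespace Pool.Agent.NSN

open Pool.Agent.NSD Pool.Agent.NSK

theorem lac_all : Stmt_Lac := lac_proof (weak_proof pairXi_proof)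

theorem besov_all : Stmt_Besov := besov_proof lac_all kDense_all

end Pool.Agent.NSN

namespace Pool.Agent.NSBT

open Pool.Agent Pool.Agent.NSKT

section
variable (VV LE LG : Type) [NormedAddCommGroup VV] [InnerProductSpace ℝ VV] [NormedAddCommGroup LE]
  [InnerProductSpace ℝ LE] [NormedAddCommGroup LG] [InnerProductSpace ℝ LG]

/-- The theorem for a fixed domain, in terms of abstract spaces. -/
def AbsB (fl : VV → LE) (gr : VV → LG) (tri : VV → VV → VV → ℝ) (Hs : Submodule ℝ LE) (Test : VV → Prop)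
    (Bes : VV → ℝ → ENNReal) : Prop :=
  ∀ (η : ℝ), 0 < η → ∀ (f : ℝ → (VV →L[ℝ] ℝ)), Adm VV LE fl Hs f →
    ∀ (J : Set ℝ), (J = Ici 0 ∨ ∃ T : ℝ, 0 < T ∧ J = Icc 0 T) →
    ∀ (v : ℝ → VV), ((f = 0 ∧ v = 0) ∨ (Test (v 0) ∧ RegJ VV LE LG fl gr tri η J f v)) →
    ∀ (l : VV →L[ℝ] ℝ) (K : Set VV) (q ε : ℝ), IsCompact K → 2 < q → 0 < ε →
      ∃ u : ℝ → VV, Test (u 0) ∧ RegJ VV LE LG fl gr tri η J f u ∧
        (∀ φ ∈ K, |⟪fl (u 0), fl φ⟫ - l φ| < ε) ∧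
        (∃ y : VV, (∀ φ : VV, |⟪fl y, fl φ⟫ - l φ| ≤ ε * ‖φ‖) ∧ Bes (u 0 - y) q ≤ ENNReal.ofReal ε) ∧
        ∀ t ∈ J, ε ≤ t → ‖u t - v t‖ ≤ ε

end

theorem absB_unsealed (Ω : Set NSD.E) (hΩ : IsOpen Ω) (hb : Bornology.IsBounded Ω) :
    AbsB (NSD.V Ω) (NSD.L2 Ω) (NSD.L2G Ω) NSD.fld NSD.grd NSD.trilin (NSD.Hspace Ω) NSK.InTest NSN.besov := by
  intro η hη f hf J hJ v hv l K q ε hK hq hε
  obtain ⟨Gd, hGd, hv0, hsol⟩ := NSN.good_proof Ω hΩ hb η hη f hf J hJ v hv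
  obtain ⟨x, hx, y, h1, h2, h3⟩ := NSN.besov_all Ω hΩ hb η hη Gd hGd (v 0) hv0 l K hK q ε hq hε
  obtain ⟨u, hu0, hut, hus, huv⟩ := hsol ε hε x hx
  subst hu0
  exact ⟨u, hut, hus, h2, ⟨y, h1, h3⟩, huv⟩

theorem key (Ω : Set NSD.E) :
    AbsB (NSD.V Ω) (NSD.L2 Ω) (NSD.L2G Ω) NSD.fld NSD.grd NSD.trilin (NSD.Hspace Ω) NSK.InTest NSN.besov →
    AbsB (NSDS.V Ω) (NSDS.L2E Ω) (NSDS.L2G Ω) NSDS.fld NSDS.grd NSDS.trilin (NSDS.H Ω) NSKS.IsSmooth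
      NSBS.besov := by
  delta NSBS.besov NSBS.heatExt NSBS.heatK NSN.besov NSN.heatExt NSN.heatK NSKS.IsSmooth NSDS.trilin NSDS.fld NSDS.grd
    NSDS.H NSDS.vI NSDS.vN NSDS.V NSDS.Vsub NSDS.pgrd
    NSDS.pfld NSDS.pairI NSDS.pairN NSDS.Pair NSDS.gfn NSDS.l2gI NSDS.l2gN NSDS.L2G NSDS.fn NSDS.l2I
    NSDS.l2N NSDS.L2E NSDS.IsTest NSDS.divField NSDS.gradField NSDS.row NSDS.g3I NSDS.g3N NSDS.G3
    NSDS.bas NSDS.coord NSDS.r3M NSDS.r3I NSDS.r3N NSDS.R3 NSK.InTest NSD.trilin NSD.fld NSD.grd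
    NSD.Hspace NSD.V NSD.Represents NSD.IsTest NSD.divField NSD.gradField NSD.e NSD.L2 NSD.L2G NSD.H1
    NSD.G NSD.E
  exact fun h => h

theorem absB_all (Ω : Set NSDS.R3) (hΩ : IsOpen Ω) (hb : Bornology.IsBounded Ω) :
    AbsB (NSDS.V Ω) (NSDS.L2E Ω) (NSDS.L2G Ω) NSDS.fld NSDS.grd NSDS.trilin (NSDS.H Ω) NSKS.IsSmooth
      NSBS.besov := key Ω (absB_unsealed Ω hΩ hb)

end Pool.Agent.NSBT
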