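import Pool.Agent.NSN.SealedB

/-!
# MP_fd8964_an: angular momentum and the fields `curl (div M)`, over `Pool.Agent.NSD.Sealed`
-/

open MeasureTheory Set Filter Topology
open scoped RealInnerProductSpace ContDiff

noncomputable section

namespace Pool.Agent.NSCS

open Pool.Agent.NSDS

/-- The cross product of `ℝ³`. -/
def cross (x y : R3) : R3 :=
  (coord x 1 * coord y 2 - coord x 2 * coord y 1) • bas 0 + (coord x 2 * coord y 0 - coord x 0 * coord y 2) • bas 1 +
    (coord x 0 * coord y 1 - coord x 1 * coord y 0) • bas 2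

/-- The angular momentum `∫ x × w(x) dx` of `w ∈ V`. -/
def angMom {Ω : Set R3} (w : V Ω) : R3 := ∫ x in Ω, cross x (fn (fld w) x)

/-- The curl of a field. -/
def curl (F : R3 → R3) (x : R3) : R3 :=
  (coord (fderiv ℝ F x (bas 1)) 2 - coord (fderiv ℝ F x (bas 2)) 1) • bas 0 +
  (coord (fderiv ℝ F x (bas 2)) 0 - coord (fderiv ℝ F x (bas 0)) 2) • bas 1 +
  (coord (fderiv ℝ F x (bas 0)) 1 - coord (fderiv ℝ F x (bas 1)) 0) • bas 2

/-- The divergence `∑ ∂ᵢ Mᵢ` of the matrix field with the columns `M₀, M₁, M₂`. -/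
def divMat (M : Fin 3 → R3 → R3) (x : R3) : R3 := ∑ i : Fin 3, fderiv ℝ (M i) x (bas i)

/-- The closed subspace of `V` spanned by the fields `curl (div M)`, `M` a smooth matrix field with compact support in
`Ω`. -/
def curlDiv (Ω : Set R3) : Submodule ℝ (V Ω) :=
  (Submodule.span ℝ {p : V Ω | ∃ M : Fin 3 → R3 → R3,
    (∀ i, ContDiff ℝ ∞ (M i) ∧ HasCompactSupport (M i) ∧ tsupport (M i) ⊆ Ω) ∧
    (fn (fld p) =ᵐ[volume.restrict Ω] curl (divMat M) ∧
      gfn (grd p) =ᵐ[volume.restrict Ω] gradField (curl (divMat M)))}).topologicalClosure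

end Pool.Agent.NSCS
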