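import Pool.Agent.NSN.CurlDiv
import Pool.Agent.NSN.TransferB
import Pool.Agent.NSN.SealedC

/-!
# MP_fd8964_an: density of the good data in `B^{-1}_{∞,q}`, and its transfer
-/

open MeasureTheory Set Filter Topology
open scoped RealInnerProductSpace ContDiff

noncomputable section

namespace Pool.Agent.NSN

open Pool.Agent.NSD Pool.Agent.NSK

theorem vDense_all : Stmt_VDense :=
  vDense_proof (vOrth_proof lap_proof pairXi_proof grad_proof scale_proof profile_proof) cone_proof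

theorem pure_all : Stmt_Pure := pure_proof lac_all vDense_all

end Pool.Agent.NSN

namespace Pool.Agent.NSCT

open Pool.Agent Pool.Agent.NSKT

section
variable (VV LE LG : Type) [NormedAddCommGroup VV] [InnerProductSpace ℝ VV] [NormedAddCommGroup LE]
  [InnerProductSpace ℝ LE] [NormedAddCommGroup LG] [InnerProductSpace ℝ LG]

/-- The theorem for a fixed domain, in terms of abstract spaces. -/
def AbsP (fl : VV → LE) (gr : VV → LG) (tri : VV → VV → VV → ℝ) (Hs : Submodule ℝ LE) (Test : VV → Prop)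
    (Bes : VV → ℝ → ENNReal) (W : VV → Prop) : Prop :=
  ∀ (η : ℝ), 0 < η → ∀ (f : ℝ → (VV →L[ℝ] ℝ)), Adm VV LE fl Hs f →
    ∀ (J : Set ℝ), (J = Ici 0 ∨ ∃ T : ℝ, 0 < T ∧ J = Icc 0 T) →
    ∀ (v : ℝ → VV), ((f = 0 ∧ v = 0) ∨ (Test (v 0) ∧ RegJ VV LE LG fl gr tri η J f v)) →
    ∀ (u₀ : VV), W (u₀ - v 0) → ∀ (K : Set VV) (q ε : ℝ), IsCompact K → 2 < q → 0 < ε →
      ∃ u : ℝ → VV, Test (u 0) ∧ RegJ VV LE LG fl gr tri η J f u ∧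
        Bes (u 0 - u₀) q ≤ ENNReal.ofReal ε ∧
        (∀ φ ∈ K, |⟪fl (u 0), fl φ⟫ - ⟪fl u₀, fl φ⟫| < ε) ∧
        ∀ t ∈ J, ε ≤ t → ‖u t - v t‖ ≤ ε

end

def WD {Ω : Set NSD.E} (w : NSD.V Ω) : Prop :=
  ((∃ c : NSD.E, StarConvex ℝ c Ω) ∧ NSN.angMom w = 0) ∨ w ∈ NSN.curlDiv Ω

def WS {Ω : Set NSDS.R3} (w : NSDS.V Ω) : Prop :=
  ((∃ c : NSDS.R3, StarConvex ℝ c Ω) ∧ NSCS.angMom w = 0) ∨ w ∈ NSCS.curlDiv Ω

theorem absP_unsealed (Ω : Set NSD.E) (hΩ : IsOpen Ω) (hb : Bornology.IsBounded Ω) :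
    AbsP (NSD.V Ω) (NSD.L2 Ω) (NSD.L2G Ω) NSD.fld NSD.grd NSD.trilin (NSD.Hspace Ω) NSK.InTest NSN.besov WD := by
  intro η hη f hf J hJ v hv u₀ hu₀ K q ε hK hq hε
  have hmem : u₀ - v 0 ∈ NSN.curlW Ω := by
    rcases hu₀ with ⟨⟨c, hc⟩, ha⟩ | h
    · exact NSN.mem_of_angMom hΩ hc hb ha
    · exact NSN.curlDiv_le Ω h
  obtain ⟨Gd, hGd, hv0, hsol⟩ := NSN.good_proof Ω hΩ hb η hη f hf J hJ v hv
  obtain ⟨x, hx, h2, h3⟩ := NSN.pure_all Ω hΩ hb η hη Gd hGd (v 0) hv0 u₀ hmem K q ε hK hq hε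
  obtain ⟨u, hu0, hut, hus, huv⟩ := hsol ε hε x hx
  subst hu0
  exact ⟨u, hut, hus, h3, h2, huv⟩

theorem key (Ω : Set NSD.E) :
    AbsP (NSD.V Ω) (NSD.L2 Ω) (NSD.L2G Ω) NSD.fld NSD.grd NSD.trilin (NSD.Hspace Ω) NSK.InTest NSN.besov WD →
    AbsP (NSDS.V Ω) (NSDS.L2E Ω) (NSDS.L2G Ω) NSDS.fld NSDS.grd NSDS.trilin (NSDS.H Ω) NSKS.IsSmooth
      NSBS.besov WS := by
  delta WD WS NSCS.angMom NSCS.cross NSCS.curlDiv NSCS.curl NSCS.divMat NSN.angMom NSN.cross NSN.curlDiv NSN.curl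
    NSN.divMat NSBS.besov NSBS.heatExt NSBS.heatK NSN.besov NSN.heatExt NSN.heatK NSKS.IsSmooth NSDS.trilin NSDS.fld
    NSDS.grd NSDS.H NSDS.vI NSDS.vN NSDS.V NSDS.Vsub NSDS.pgrd
    NSDS.pfld NSDS.pairI NSDS.pairN NSDS.Pair NSDS.gfn NSDS.l2gI NSDS.l2gN NSDS.L2G NSDS.fn NSDS.l2I
    NSDS.l2N NSDS.L2E NSDS.IsTest NSDS.divField NSDS.gradField NSDS.row NSDS.g3I NSDS.g3N NSDS.G3
    NSDS.bas NSDS.coord NSDS.r3M NSDS.r3I NSDS.r3N NSDS.R3 NSK.InTest NSD.trilin NSD.fld NSD.grd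
    NSD.Hspace NSD.V NSD.Represents NSD.IsTest NSD.divField NSD.gradField NSD.e NSD.L2 NSD.L2G NSD.H1
    NSD.G NSD.E
  exact fun h => h

theorem absP_all (Ω : Set NSDS.R3) (hΩ : IsOpen Ω) (hb : Bornology.IsBounded Ω) :
    AbsP (NSDS.V Ω) (NSDS.L2E Ω) (NSDS.L2G Ω) NSDS.fld NSDS.grd NSDS.trilin (NSDS.H Ω) NSKS.IsSmooth
      NSBS.besov WS := key Ω (absP_unsealed Ω hΩ hb)

end Pool.Agent.NSCT
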