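import Pool.Agent.NSK.Conc
import Pool.Agent.NSK.WBd
import Pool.Agent.NSK.Weak
import Pool.Agent.NSK.BaseCalc

/-!
# MP_fd8964_an: the heat extension of a high frequency wave

`sqrt t |e^(t Lap) A_N| <= C b / (1+b)^2` with `b = N sqrt t`, for all `t > 0` and `N >= 1`.
-/

open MeasureTheory Set Filter Topology
open scoped RealInnerProductSpace ContDiff

noncomputable section

namespace Pool.Agent.NSN

open Pool.Agent.NSD Pool.Agent.NSK
open Pool.Agent.NSK.Weak (contDiff_dd tsupport_dd_subset contDiff_gS tsupport_gS)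

/-- The heat kernel in three dimensions. -/
def heatK (t : ℝ) (x : E) : ℝ := Real.exp (-‖x‖ ^ 2 / (4 * t)) / (4 * Real.pi * t) ^ (3 / 2 : ℝ)

namespace Heat

lemma heatK_nonneg {t : ℝ} (ht : 0 < t) (x : E) : 0 ≤ heatK t x := by
  unfold heatK
  have := Real.pi_pos
  positivity

lemma heatK_eq (t : ℝ) (x : E) :
    heatK t x = ((4 * Real.pi * t) ^ (3 / 2 : ℝ))⁻¹ * Real.exp (-(1 / (4 * t)) * ‖x‖ ^ 2) := by
  unfold heatK
  rw [div_eq_mul_inv, mul_comm]
  congr 2
  ring

lemma heatK_mass {t : ℝ} (ht : 0 < t) : ∫ x : E, heatK t x = 1 := by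
  have hb : 0 < 1 / (4 * t) := by positivity
  have hpi := Real.pi_pos
  simp_rw [heatK_eq]
  rw [integral_const_mul, GaussianFourier.integral_rexp_neg_mul_sq_norm hb]
  have h1 : Real.pi / (1 / (4 * t)) = 4 * Real.pi * t := by field_simp
  have h2 : (Module.finrank ℝ E / 2 : ℝ) = 3 / 2 := by
    simp [E]
  rw [h1, h2]
  exact inv_mul_cancel₀ (by positivity)

lemma heatK_integrable {t : ℝ} (ht : 0 < t) : Integrable (fun x : E => heatK t x) := by
  by_contra h
  have := heatK_mass ht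
  rw [integral_undef h] at this
  exact zero_ne_one this

lemma heatK_contDiff {t : ℝ} : ContDiff ℝ ∞ (fun x : E => heatK t x) := by
  unfold heatK
  exact ((((contDiff_norm_sq ℝ).neg).div_const _).exp).div_const _

lemma heatK_symm (t : ℝ) (x y : E) : heatK t (x - y) = heatK t (y - x) := by
  unfold heatK
  rw [norm_sub_rev]

lemma heatK_le_two {t : ℝ} (ht : 0 < t) (x : E) :
    heatK t x ≤ 3 * (Real.exp (-(‖x‖ ^ 2 / (8 * t))) * heatK (2 * t) x) := by
  have hpi := Real.pi_pos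
  unfold heatK
  have h0 : (4 * Real.pi * (2 * t)) ^ (3 / 2 : ℝ) = 2 ^ (3 / 2 : ℝ) * (4 * Real.pi * t) ^ (3 / 2 : ℝ) := by
    rw [← Real.mul_rpow (by norm_num) (by positivity)]
    congr 1; ring
  have h1 : Real.exp (-‖x‖ ^ 2 / (4 * t))
      = Real.exp (-(‖x‖ ^ 2 / (8 * t))) * Real.exp (-‖x‖ ^ 2 / (4 * (2 * t))) := by
    rw [← Real.exp_add]
    congr 1
    field_simp
    ring
  have h2 : (2 : ℝ) ^ (3 / 2 : ℝ) ≤ 3 := by
    have h3 : ((2 : ℝ) ^ (3 / 2 : ℝ)) ^ 2 ≤ 3 ^ 2 := by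
      rw [← Real.rpow_natCast, ← Real.rpow_mul (by norm_num)]
      norm_num
    exact (pow_le_pow_iff_left₀ (by positivity) (by norm_num) (by norm_num)).1 h3
  have hA : 0 < (4 * Real.pi * t) ^ (3 / 2 : ℝ) := by positivity
  have hB : (0 : ℝ) < 2 ^ (3 / 2 : ℝ) := by positivity
  rw [h0, h1]
  set X := Real.exp (-(‖x‖ ^ 2 / (8 * t)))
  set Y := Real.exp (-‖x‖ ^ 2 / (4 * (2 * t)))
  have hX : 0 < X := Real.exp_pos _
  have hY : 0 < Y := Real.exp_pos _
  rw [div_le_iff₀ hA]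
  have e1 : 3 * (X * (Y / (2 ^ (3 / 2 : ℝ) * (4 * Real.pi * t) ^ (3 / 2 : ℝ)))) *
      (4 * Real.pi * t) ^ (3 / 2 : ℝ) = 3 / 2 ^ (3 / 2 : ℝ) * (X * Y) := by
    field_simp
  rw [e1]
  have e2 : 1 ≤ 3 / (2 : ℝ) ^ (3 / 2 : ℝ) := by
    rw [le_div_iff₀ hB]; linarith
  nlinarith [mul_pos hX hY]

lemma heatK_le (t : ℝ) (ht : 0 < t) (x : E) : heatK t x ≤ 3 * heatK (2 * t) x := by
  refine (heatK_le_two ht x).trans ?_
  have h1 : Real.exp (-(‖x‖ ^ 2 / (8 * t))) ≤ 1 := Real.exp_le_one_iff.2 (by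
    have : 0 ≤ ‖x‖ ^ 2 / (8 * t) := by positivity
    linarith)
  have h2 := heatK_nonneg (by positivity : 0 < 2 * t) x
  nlinarith

lemma sq_heatK_le (t : ℝ) (ht : 0 < t) (x : E) : ‖x‖ ^ 2 * heatK t x ≤ 24 * t * heatK (2 * t) x := by
  have h0 := heatK_le_two ht x
  have h2 := heatK_nonneg (by positivity : 0 < 2 * t) x
  set y := ‖x‖ ^ 2 / (8 * t) with hy
  have hy0 : 0 ≤ y := by positivity
  have h3 : y * Real.exp (-y) ≤ 1 := by
    rw [Real.exp_neg, ← div_eq_mul_inv, div_le_one (Real.exp_pos _)]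
    linarith [Real.add_one_le_exp y]
  have h4 : ‖x‖ ^ 2 = 8 * t * y := by rw [hy]; field_simp
  calc ‖x‖ ^ 2 * heatK t x ≤ ‖x‖ ^ 2 * (3 * (Real.exp (-y) * heatK (2 * t) x)) :=
        mul_le_mul_of_nonneg_left h0 (by positivity)
    _ = 24 * t * (y * Real.exp (-y)) * heatK (2 * t) x := by rw [h4]; ring
    _ ≤ 24 * t * 1 * heatK (2 * t) x := by gcongr
    _ = _ := by ring

lemma norm_heatK_le (t : ℝ) (ht : 0 < t) (x : E) : ‖x‖ * heatK t x ≤ 12 * √t * heatK (2 * t) x := by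
  have h0 := heatK_le_two ht x
  have h2 := heatK_nonneg (by positivity : 0 < 2 * t) x
  set y := ‖x‖ ^ 2 / (8 * t) with hy
  have hy0 : 0 ≤ y := by positivity
  have hs : 0 < √t := Real.sqrt_pos.2 ht
  have hss : √t ^ 2 = t := Real.sq_sqrt ht.le
  have h4 : ‖x‖ ^ 2 = 8 * t * y := by rw [hy]; field_simp
  have h5 : ‖x‖ ≤ 4 * √t * (1 + y) := by
    have : 0 ≤ (‖x‖ - √t) ^ 2 := sq_nonneg _
    have h6 : 2 * ‖x‖ * √t ≤ 8 * t * y + t := by nlinarith
    have h7 : 2 * ‖x‖ * √t ≤ √t * (√t * (8 * y + 1)) := by nlinarith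
    have h8 : 2 * ‖x‖ ≤ √t * (8 * y + 1) := by nlinarith
    nlinarith
  have h3 : (1 + y) * Real.exp (-y) ≤ 1 := by
    rw [Real.exp_neg, ← div_eq_mul_inv, div_le_one (Real.exp_pos _)]
    linarith [Real.add_one_le_exp y]
  calc ‖x‖ * heatK t x ≤ (4 * √t * (1 + y)) * (3 * (Real.exp (-y) * heatK (2 * t) x)) :=
        mul_le_mul h5 h0 (heatK_nonneg ht x) (by positivity)
    _ = 12 * √t * ((1 + y) * Real.exp (-y)) * heatK (2 * t) x := by ring
    _ ≤ 12 * √t * 1 * heatK (2 * t) x := by gcongr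
    _ = _ := by ring

lemma heatK_sup (t : ℝ) (ht : 0 < t) (x : E) : heatK t x ≤ (t ^ (3 / 2 : ℝ))⁻¹ := by
  have hpi := Real.pi_gt_three
  unfold heatK
  have h1 : Real.exp (-‖x‖ ^ 2 / (4 * t)) ≤ 1 := Real.exp_le_one_iff.2 (by
    have : 0 ≤ ‖x‖ ^ 2 / (4 * t) := by positivity
    rw [neg_div]; linarith)
  have h2 : t ^ (3 / 2 : ℝ) ≤ (4 * Real.pi * t) ^ (3 / 2 : ℝ) :=
    Real.rpow_le_rpow ht.le (by nlinarith) (by norm_num)
  have h3 : 0 < t ^ (3 / 2 : ℝ) := by positivity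
  rw [div_eq_mul_inv]
  calc Real.exp (-‖x‖ ^ 2 / (4 * t)) * ((4 * Real.pi * t) ^ (3 / 2 : ℝ))⁻¹
      ≤ 1 * (t ^ (3 / 2 : ℝ))⁻¹ := by gcongr
    _ = _ := one_mul _

/-! ### Derivatives -/

lemma hasFDerivAt_heatK (t : ℝ) (x : E) :
    HasFDerivAt (fun x : E => heatK t x) ((-(heatK t x / (2 * t))) • innerSL ℝ x) x := by
  have h1 : HasFDerivAt (fun y : E => ‖y‖ ^ 2) (2 • innerSL ℝ x) x :=
    (hasStrictFDerivAt_norm_sq x).hasFDerivAt
  have h2 := ((h1.neg.const_mul ((4 * t)⁻¹)).exp).const_mul (((4 * Real.pi * t) ^ (3 / 2 : ℝ))⁻¹)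
  have e1 : (fun x : E => heatK t x) = fun y => ((4 * Real.pi * t) ^ (3 / 2 : ℝ))⁻¹ *
      Real.exp ((4 * t)⁻¹ * (- ‖y‖ ^ 2)) := by
    funext y
    unfold heatK
    rw [div_eq_mul_inv, mul_comm]
    congr 2
    rw [div_eq_mul_inv, mul_comm]
  rw [e1]
  refine h2.congr_fderiv ?_
  ext v
  unfold heatK
  simp only [ContinuousLinearMap.smul_apply, ContinuousLinearMap.neg_apply, innerSL_apply_apply, smul_eq_mul,
    nsmul_eq_mul, Nat.cast_ofNat]
  have e2 : (4 * t)⁻¹ * (-fun y : E => ‖y‖ ^ 2) x = -‖x‖ ^ 2 / (4 * t) := by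
    rw [div_eq_mul_inv, mul_comm]; rfl
  rw [e2]
  by_cases ht : t = 0
  · subst ht; simp
  · field_simp
    ring

lemma dd_heatK (t : ℝ) (x v : E) : dd v (fun y => heatK t (x - y)) =
    fun y => ⟪x - y, v⟫ / (2 * t) * heatK t (x - y) := by
  funext y
  have h1 : HasFDerivAt (fun y : E => x - y) (-(ContinuousLinearMap.id ℝ E)) y := by
    simpa using (hasFDerivAt_id y).const_sub x
  have h2 := (hasFDerivAt_heatK t (x - y)).comp y h1
  unfold dd
  have e : (fun y => heatK t (x - y)) = (fun x : E => heatK t x) ∘ fun y => x - y := rfl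
  rw [e, h2.fderiv]
  simp only [ContinuousLinearMap.comp_apply, ContinuousLinearMap.smul_apply, ContinuousLinearMap.neg_apply,
    ContinuousLinearMap.id_apply, innerSL_apply_apply, smul_eq_mul, inner_neg_right]
  ring

lemma contDiff_u (t : ℝ) (x : E) : ContDiff ℝ ∞ (fun y => heatK t (x - y)) :=
  heatK_contDiff.comp (contDiff_const.sub contDiff_id)

lemma dd_dd_heatK (t : ℝ) (x v k : E) : dd k (dd v (fun y => heatK t (x - y))) =
    fun y => (⟪x - y, v⟫ * ⟪x - y, k⟫ / (4 * t ^ 2) - ⟪v, k⟫ / (2 * t)) * heatK t (x - y) := by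
  rw [dd_heatK]
  funext y
  have h1 : HasFDerivAt (fun y : E => x - y) (-(ContinuousLinearMap.id ℝ E)) y := by
    simpa using (hasFDerivAt_id y).const_sub x
  have h2 := (hasFDerivAt_heatK t (x - y)).comp y h1
  have h3 : HasFDerivAt (fun y => ⟪x - y, v⟫ / (2 * t)) ((2 * t)⁻¹ • -(innerSL ℝ v)) y := by
    have h4 : HasFDerivAt (fun y => ⟪v, x - y⟫) ((innerSL ℝ v).comp (-(ContinuousLinearMap.id ℝ E))) y :=
      (innerSL ℝ v).hasFDerivAt.comp y h1
    have h5 := h4.const_mul ((2 * t)⁻¹)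
    have e : (fun y => ⟪x - y, v⟫ / (2 * t)) = fun y => (2 * t)⁻¹ * ⟪v, x - y⟫ := by
      funext y
      rw [div_eq_mul_inv, mul_comm, real_inner_comm]
    rw [e]
    refine h5.congr_fderiv ?_
    ext w
    simp
  have h4 := h3.mul h2
  unfold dd
  have e : (fun y => ⟪x - y, v⟫ / (2 * t) * heatK t (x - y)) = (fun y => ⟪x - y, v⟫ / (2 * t)) *
    (fun x : E => heatK t x) ∘ HSub.hSub x := rfl
  rw [e, h4.fderiv]
  simp only [ContinuousLinearMap.add_apply, ContinuousLinearMap.comp_apply, ContinuousLinearMap.smul_apply,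
    ContinuousLinearMap.neg_apply, ContinuousLinearMap.id_apply, innerSL_apply_apply, smul_eq_mul, inner_neg_right,
    Function.comp_apply]
  by_cases ht : t = 0
  · subst ht; simp
  · field_simp
    ring

lemma dd_bound {t : ℝ} (ht : 0 < t) (x v y : E) (hv : ‖v‖ = 1) :
    |dd v (fun y => heatK t (x - y)) y| ≤ 6 / √t * heatK (2 * t) (x - y) := by
  rw [dd_heatK]
  simp only
  have hs : 0 < √t := Real.sqrt_pos.2 ht
  have hss : √t * √t = t := Real.mul_self_sqrt ht.le
  have h1 : |⟪x - y, v⟫| ≤ ‖x - y‖ := by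
    refine (abs_real_inner_le_norm _ _).trans ?_
    rw [hv, mul_one]
  have h2 := norm_heatK_le t ht (x - y)
  have h3 := heatK_nonneg ht (x - y)
  rw [abs_mul, abs_div, abs_of_nonneg h3, abs_of_pos (by positivity : 0 < 2 * t)]
  calc |⟪x - y, v⟫| / (2 * t) * heatK t (x - y) ≤ ‖x - y‖ / (2 * t) * heatK t (x - y) := by gcongr
    _ = (‖x - y‖ * heatK t (x - y)) / (2 * t) := by ring
    _ ≤ (12 * √t * heatK (2 * t) (x - y)) / (2 * t) := by gcongr
    _ = 6 * √t / t * heatK (2 * t) (x - y) := by field_simp; ring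
    _ = 6 * √t / (√t * √t) * heatK (2 * t) (x - y) := by rw [hss]
    _ = 6 / √t * heatK (2 * t) (x - y) := by congr 1; field_simp

lemma dd_dd_bound {t : ℝ} (ht : 0 < t) (x v k y : E) (hv : ‖v‖ = 1) (hk : ‖k‖ = 1) :
    |dd k (dd v (fun y => heatK t (x - y))) y| ≤ 8 / t * heatK (2 * t) (x - y) := by
  rw [dd_dd_heatK]
  simp only
  have h1 : |⟪x - y, v⟫| ≤ ‖x - y‖ := by
    refine (abs_real_inner_le_norm _ _).trans ?_
    rw [hv, mul_one]
  have h1' : |⟪x - y, k⟫| ≤ ‖x - y‖ := by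
    refine (abs_real_inner_le_norm _ _).trans ?_
    rw [hk, mul_one]
  have h1'' : |⟪v, k⟫| ≤ 1 := by
    refine (abs_real_inner_le_norm _ _).trans ?_
    rw [hv, hk, mul_one]
  have h2 := sq_heatK_le t ht (x - y)
  have h2' := heatK_le t ht (x - y)
  have h3 := heatK_nonneg ht (x - y)
  have h3' := heatK_nonneg (by positivity : 0 < 2 * t) (x - y)
  rw [abs_mul, abs_of_nonneg h3]
  have h4 : |⟪x - y, v⟫ * ⟪x - y, k⟫ / (4 * t ^ 2) - ⟪v, k⟫ / (2 * t)| ≤
      ‖x - y‖ ^ 2 / (4 * t ^ 2) + 1 / (2 * t) := by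
    refine (abs_sub _ _).trans (add_le_add ?_ ?_)
    · rw [abs_div, abs_mul, abs_of_pos (by positivity : 0 < 4 * t ^ 2), pow_two (‖x - y‖)]
      gcongr
    · rw [abs_div, abs_of_pos (by positivity : 0 < 2 * t)]
      gcongr
  calc |⟪x - y, v⟫ * ⟪x - y, k⟫ / (4 * t ^ 2) - ⟪v, k⟫ / (2 * t)| * heatK t (x - y)
      ≤ (‖x - y‖ ^ 2 / (4 * t ^ 2) + 1 / (2 * t)) * heatK t (x - y) := by gcongr
    _ = (‖x - y‖ ^ 2 * heatK t (x - y)) / (4 * t ^ 2) + heatK t (x - y) / (2 * t) := by ring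
    _ ≤ (24 * t * heatK (2 * t) (x - y)) / (4 * t ^ 2) + 3 * heatK (2 * t) (x - y) / (2 * t) := by gcongr
    _ = (15 / 2) / t * heatK (2 * t) (x - y) := by
      field_simp
      ring
    _ ≤ 8 / t * heatK (2 * t) (x - y) := by
      gcongr
      norm_num

/-! ### Integration by parts -/

lemma ibp {u g : E → ℝ} (v : E) (hu : ContDiff ℝ ∞ u) (hg : ContDiff ℝ ∞ g) (hc : HasCompactSupport g) :
    ∫ y, u y * dd v g y = - ∫ y, dd v u y * g y := by
  have hdg : HasCompactSupport (dd v g) := hc.mono' ((subset_tsupport _).trans (tsupport_dd_subset v))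
  refine integral_mul_fderiv_eq_neg_fderiv_mul_of_integrable (v := v) ?_ ?_ ?_
    (fun x _ => hu.differentiable (by simp) x) (fun x _ => hg.differentiable (by simp) x)
  · exact ((contDiff_dd v hu).continuous.mul hg.continuous).integrable_of_hasCompactSupport hc.mul_left
  · exact (hu.continuous.mul (contDiff_dd v hg).continuous).integrable_of_hasCompactSupport hdg.mul_left
  · exact (hu.continuous.mul hg.continuous).integrable_of_hasCompactSupport hc.mul_left

lemma ibp' {u g : E → ℝ} (v : E) (hu : ContDiff ℝ ∞ u) (hg : ContDiff ℝ ∞ g) (hc : HasCompactSupport u) :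
    ∫ y, u y * dd v g y = - ∫ y, dd v u y * g y := by
  have h := ibp v hg hu hc
  simp_rw [mul_comm (u _), mul_comm (dd v u _)]
  rw [h, neg_neg]

lemma dd_cos (N : ℝ) {k : E} (hk : ‖k‖ = 1) : dd k (fun y => Real.cos (N * ⟪k, y⟫)) =
    fun y => - (N * Real.sin (N * ⟪k, y⟫)) := by
  funext y
  unfold dd
  rw [(hasFDerivAt_cos N k y).fderiv]
  simp [hk]
  ring

lemma contDiff_cos (N : ℝ) (k : E) : ContDiff ℝ ∞ (fun y : E => Real.cos (N * ⟪k, y⟫)) :=
  Real.contDiff_cos.comp (contDiff_const.mul (contDiff_const.inner ℝ contDiff_id))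

/-- The main estimate for one derivative of a wave. -/
lemma wave_est (k v : E) (a : E → ℝ) (hk : ‖k‖ = 1) (hv : ‖v‖ = 1) (ha : ContDiff ℝ ∞ a)
    (hc : HasCompactSupport a) : ∃ C : ℝ, 0 ≤ C ∧ ∀ (N t : ℝ) (x : E), 1 ≤ N → 0 < t →
      |∫ y, heatK t (x - y) * dd v (gS N k a) y| ≤ C / (N * t) := by
  obtain ⟨A₀, hA₀⟩ := ha.continuous.bounded_above_of_compact_support hc
  have hdc : HasCompactSupport (dd k a) := hc.mono' ((subset_tsupport _).trans (tsupport_dd_subset k))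
  obtain ⟨A₁, hA₁⟩ := (contDiff_dd k ha).continuous.bounded_above_of_compact_support hdc
  have hA₀' : 0 ≤ A₀ := (norm_nonneg _).trans (hA₀ 0)
  have hA₁' : 0 ≤ A₁ := (norm_nonneg _).trans (hA₁ 0)
  set B₁ := ∫ y, ‖dd k a y‖ with hB₁
  have hB₁' : 0 ≤ B₁ := integral_nonneg fun y => norm_nonneg _
  have hint1 : Integrable (dd k a) := (contDiff_dd k ha).continuous.integrable_of_hasCompactSupport hdc
  refine ⟨8 * A₀ + 6 * A₁ + 6 * B₁, by positivity, fun N t x hN ht => ?_⟩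
  have hN0 : 0 < N := by linarith
  have ht2 : 0 < 2 * t := by positivity
  set u : E → ℝ := fun y => heatK t (x - y) with hu
  have hus : ContDiff ℝ ∞ u := contDiff_u t x
  have hdu : ContDiff ℝ ∞ (dd v u) := contDiff_dd v hus
  have hgc : HasCompactSupport (gS N k a) := hc.mono' ((subset_tsupport _).trans tsupport_gS)
  have h1 : ∫ y, u y * dd v (gS N k a) y = - ∫ y, dd v u y * gS N k a y := ibp v hus (contDiff_gS ha) hgc
  set h : E → ℝ := fun y => dd v u y * a y with hh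
  have hhs : ContDiff ℝ ∞ h := hdu.mul ha
  have hhc : HasCompactSupport h := hc.mul_left
  have h2 := ibp' k hhs (contDiff_cos N k) hhc
  rw [dd_cos N hk] at h2
  have h3 : ∫ y, dd v u y * gS N k a y = (1 / N) * ∫ y, dd k h y * Real.cos (N * ⟪k, y⟫) := by
    have e1 : ∀ y, h y * (-(N * Real.sin (N * ⟪k, y⟫))) = (-N) * (dd v u y * gS N k a y) := by
      intro y
      simp only [hh, gS]
      ring
    simp_rw [e1] at h2
    rw [integral_const_mul] at h2
    have h4 : N * ∫ y, dd v u y * gS N k a y = ∫ y, dd k h y * Real.cos (N * ⟪k, y⟫) := by linarith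
    rw [← h4]
    field_simp
  have h5 : dd k h = fun y => dd k (dd v u) y * a y + dd v u y * dd k a y := by
    funext y
    have d1 := (hdu.differentiable (by simp) y).hasFDerivAt
    have d2 := (ha.differentiable (by simp) y).hasFDerivAt
    have d3 : HasFDerivAt h _ y := d1.mul d2
    unfold dd at d3 ⊢
    rw [d3.fderiv]
    simp only [ContinuousLinearMap.add_apply, ContinuousLinearMap.smul_apply, smul_eq_mul]
    ring
  have hK : Integrable (fun y => heatK (2 * t) (x - y)) := by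
    have := (heatK_integrable ht2).comp_sub_left x
    exact this
  have hK1 : ∫ y, heatK (2 * t) (x - y) = 1 := by
    rw [integral_sub_left_eq_self (fun y => heatK (2 * t) y) volume x]
    exact heatK_mass ht2
  have i1 : Integrable (fun y => dd k (dd v u) y * a y) :=
    ((contDiff_dd k hdu).continuous.mul ha.continuous).integrable_of_hasCompactSupport hc.mul_left
  have i2 : Integrable (fun y => dd v u y * dd k a y) :=
    (hdu.continuous.mul (contDiff_dd k ha).continuous).integrable_of_hasCompactSupport hdc.mul_left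
  have b1 : ∫ y, ‖dd k (dd v u) y * a y‖ ≤ 8 * A₀ / t := by
    calc ∫ y, ‖dd k (dd v u) y * a y‖ ≤ ∫ y, (8 / t * A₀) * heatK (2 * t) (x - y) := by
          refine integral_mono i1.norm (hK.const_mul _) fun y => ?_
          simp only
          rw [norm_mul, Real.norm_eq_abs]
          have := dd_dd_bound ht x v k y hv hk
          calc |dd k (dd v u) y| * ‖a y‖ ≤ (8 / t * heatK (2 * t) (x - y)) * A₀ :=
                mul_le_mul this (hA₀ y) (norm_nonneg _)
                  (mul_nonneg (by positivity) (heatK_nonneg ht2 _))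
            _ = _ := by ring
      _ = 8 * A₀ / t := by rw [integral_const_mul, hK1]; ring
  have b2 : ∫ y, ‖dd v u y * dd k a y‖ ≤ (6 * A₁ + 6 * B₁) / t := by
    rcases le_total t 1 with h1t | h1t
    · have hst : t ≤ √t := Real.le_sqrt_of_sq_le (by nlinarith)
      have hs : 0 < √t := Real.sqrt_pos.2 ht
      calc ∫ y, ‖dd v u y * dd k a y‖ ≤ ∫ y, (6 / √t * A₁) * heatK (2 * t) (x - y) := by
            refine integral_mono i2.norm (hK.const_mul _) fun y => ?_
            simp only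
            rw [norm_mul, Real.norm_eq_abs]
            have := dd_bound ht x v y hv
            calc |dd v u y| * ‖dd k a y‖ ≤ (6 / √t * heatK (2 * t) (x - y)) * A₁ :=
                  mul_le_mul this (hA₁ y) (norm_nonneg _)
                    (mul_nonneg (by positivity) (heatK_nonneg ht2 _))
              _ = _ := by ring
        _ = 6 * A₁ / √t := by rw [integral_const_mul, hK1]; ring
        _ ≤ 6 * A₁ / t := by gcongr
        _ ≤ (6 * A₁ + 6 * B₁) / t := by gcongr; linarith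
    · have hs : 0 < √t := Real.sqrt_pos.2 ht
      have hbd : ∀ y, |dd v u y| ≤ 6 / t := by
        intro y
        refine (dd_bound ht x v y hv).trans ?_
        have h6 := heatK_sup (2 * t) ht2 (x - y)
        have h7 : √t ≤ (2 * t) ^ (3 / 2 : ℝ) := by
          calc √t = t ^ (1 / 2 : ℝ) := Real.sqrt_eq_rpow t
            _ ≤ t ^ (3 / 2 : ℝ) := Real.rpow_le_rpow_of_exponent_le h1t (by norm_num)
            _ ≤ (2 * t) ^ (3 / 2 : ℝ) := Real.rpow_le_rpow ht.le (by linarith) (by norm_num)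
        have h8 : 0 < (2 * t) ^ (3 / 2 : ℝ) := by positivity
        have hss : √t * √t = t := Real.mul_self_sqrt ht.le
        calc 6 / √t * heatK (2 * t) (x - y) ≤ 6 / √t * ((2 * t) ^ (3 / 2 : ℝ))⁻¹ := by gcongr
          _ ≤ 6 / √t * (√t)⁻¹ := by gcongr
          _ = 6 / (√t * √t) := by field_simp
          _ = 6 / t := by rw [hss]
      calc ∫ y, ‖dd v u y * dd k a y‖ ≤ ∫ y, (6 / t) * ‖dd k a y‖ := by
            refine integral_mono i2.norm (hint1.norm.const_mul _) fun y => ?_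
            simp only
            rw [norm_mul, Real.norm_eq_abs]
            exact mul_le_mul_of_nonneg_right (hbd y) (norm_nonneg _)
        _ = 6 * B₁ / t := by rw [integral_const_mul]; ring
        _ ≤ (6 * A₁ + 6 * B₁) / t := by gcongr; linarith
  rw [h1, h3, abs_neg, abs_mul, abs_of_pos (by positivity : 0 < 1 / N)]
  have h9 : |∫ y, dd k h y * Real.cos (N * ⟪k, y⟫)| ≤ (8 * A₀ + 6 * A₁ + 6 * B₁) / t := by
    rw [← Real.norm_eq_abs]
    calc ‖∫ y, dd k h y * Real.cos (N * ⟪k, y⟫)‖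
        ≤ ∫ y, (‖dd k (dd v u) y * a y‖ + ‖dd v u y * dd k a y‖) := by
          refine norm_integral_le_of_norm_le (i1.norm.add i2.norm) (Filter.Eventually.of_forall fun y => ?_)
          rw [norm_mul, h5]
          have hcos : ‖Real.cos (N * ⟪k, y⟫)‖ ≤ 1 := by
            rw [Real.norm_eq_abs]; exact Real.abs_cos_le_one _
          calc ‖dd k (dd v u) y * a y + dd v u y * dd k a y‖ * ‖Real.cos (N * ⟪k, y⟫)‖
              ≤ ‖dd k (dd v u) y * a y + dd v u y * dd k a y‖ * 1 := by gcongr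
            _ ≤ _ := by rw [mul_one]; exact norm_add_le _ _
      _ = (∫ y, ‖dd k (dd v u) y * a y‖) + ∫ y, ‖dd v u y * dd k a y‖ := integral_add i1.norm i2.norm
      _ ≤ 8 * A₀ / t + (6 * A₁ + 6 * B₁) / t := add_le_add b1 b2
      _ = _ := by ring
  calc 1 / N * |∫ y, dd k h y * Real.cos (N * ⟪k, y⟫)| ≤ 1 / N * ((8 * A₀ + 6 * A₁ + 6 * B₁) / t) := by
        gcongr
    _ = _ := by field_simp

end Heat

end Pool.Agent.NSN
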