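import Pool.Agent.NSN.Net
import Pool.Agent.NSN.Heat
import Pool.Agent.NSK.Cone

/-!
# MP_fd8964_an: lacunary copies of kicks, smallness in `B^{-1}_{∞,q}` for `q > 2`

Every kick is divided into `M` kicks of amplitude `1/sqrt M` with lacunary frequencies.
-/

open MeasureTheory Set Filter Topology
open scoped RealInnerProductSpace ContDiff

noncomputable section

namespace Pool.Agent.NSN

open Pool.Agent.NSD Pool.Agent.NSK
open Pool.Agent.NSK.Weak (contDiff_dd tsupport_dd_subset contDiff_gS tsupport_gS)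

/-- The heat extension of (the extension by zero of) `w ∈ V`. -/
def heatExt {Ω : Set E} (w : V Ω) (t : ℝ) (x : E) : E := ∫ y in Ω, heatK t (x - y) • (fld w : E → E) y

/-- The `q`-th power of the norm of `w` in the homogeneous Besov space `B^{-1}_{∞,q}`. -/
def besov {Ω : Set E} (w : V Ω) (q : ℝ) : ENNReal :=
  ∫⁻ t in Ioi (0 : ℝ), (⨆ x : E, ENNReal.ofReal (√t * ‖heatExt w t x‖)) ^ q * ENNReal.ofReal (1 / t)

namespace Lacun

/-- The profile function. -/
def kap (b : ℝ) : ℝ := b / (1 + b) ^ 2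

lemma kap_nonneg {b : ℝ} (hb : 0 ≤ b) : 0 ≤ kap b := by unfold kap; positivity

lemma le_kap {b y C : ℝ} (hb : 0 < b) (hC : 0 ≤ C) (h1 : y ≤ C * b) (h2 : y ≤ C / b) :
    y ≤ 4 * C * kap b := by
  unfold kap
  rcases le_total b 1 with h | h
  · refine h1.trans ?_
    rw [mul_div_assoc', le_div_iff₀ (by positivity)]
    have : (1 + b) ^ 2 ≤ 4 := by nlinarith
    calc C * b * (1 + b) ^ 2 ≤ C * b * 4 := by gcongr
      _ = _ := by ring
  · refine h2.trans ?_
    rw [mul_div_assoc', div_le_div_iff₀ hb (by positivity)]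
    have : (1 + b) ^ 2 ≤ 4 * b ^ 2 := by nlinarith
    calc C * (1 + b) ^ 2 ≤ C * (4 * b ^ 2) := by gcongr
      _ = _ := by ring

/-- The wave field of one direction. -/
lemma stream_heat (k ξ : E) (a : E → ℝ) (hk : ‖k‖ = 1) (hξ : ‖ξ‖ = 1) (hkξ : ⟪k, ξ⟫ = 0)
    (ha : IsBump univ a) : ∃ C : ℝ, 0 ≤ C ∧ ∀ (N t : ℝ) (x : E), 1 ≤ N → 0 < t →
      √t * ‖∫ y, heatK t (x - y) • stream k ξ (gS N k a) y‖ ≤ C * kap (N * √t) := by
  obtain ⟨C₀, hC₀, hb₀⟩ := wBd_proof k ξ a a hk hξ hkξ ha ha
  obtain ⟨C₁, hC₁, hb₁⟩ := Heat.wave_est k k a hk hk ha.1 ha.2.1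
  obtain ⟨C₂, hC₂, hb₂⟩ := Heat.wave_est k ξ a hk hξ ha.1 ha.2.1
  refine ⟨4 * (C₀ + C₁ + C₂), by positivity, fun N t x hN ht => ?_⟩
  have hN0 : 0 < N := by linarith
  have hs : 0 < √t := Real.sqrt_pos.2 ht
  have hss : √t * √t = t := Real.mul_self_sqrt ht.le
  have hgc : HasCompactSupport (gS N k a) := ha.2.1.mono' ((subset_tsupport _).trans tsupport_gS)
  have hu : Continuous fun y => heatK t (x - y) := (Heat.contDiff_u t x).continuous
  have hid : ∀ v : E, Integrable fun y => heatK t (x - y) * dd v (gS N k a) y := fun v =>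
    (hu.mul (contDiff_dd v (contDiff_gS ha.1)).continuous).integrable_of_hasCompactSupport
      (hgc.mono' ((subset_tsupport _).trans (tsupport_dd_subset v))).mul_left
  have hK : Integrable (fun y => heatK t (x - y)) := (Heat.heatK_integrable ht).comp_sub_left x
  have hK1 : ∫ y, heatK t (x - y) = 1 := by
    rw [integral_sub_left_eq_self (fun y => heatK t y) volume x]
    exact Heat.heatK_mass ht
  have h1 : ‖∫ y, heatK t (x - y) • stream k ξ (gS N k a) y‖ ≤ C₀ * N := by
    calc ‖∫ y, heatK t (x - y) • stream k ξ (gS N k a) y‖ ≤ ∫ y, heatK t (x - y) * (C₀ * N) := by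
          refine norm_integral_le_of_norm_le (hK.mul_const _) (Filter.Eventually.of_forall fun y => ?_)
          rw [norm_smul, Real.norm_of_nonneg (Heat.heatK_nonneg ht _)]
          exact mul_le_mul_of_nonneg_left (hb₀ N hN y).1 (Heat.heatK_nonneg ht _)
      _ = C₀ * N := by rw [integral_mul_const, hK1, one_mul]
  have h2 : ‖∫ y, heatK t (x - y) • stream k ξ (gS N k a) y‖ ≤ (C₁ + C₂) / (N * t) := by
    have e1 : ∫ y, heatK t (x - y) • stream k ξ (gS N k a) y
        = (∫ y, heatK t (x - y) * dd k (gS N k a) y) • ξ - (∫ y, heatK t (x - y) * dd ξ (gS N k a) y) • k := by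
      rw [← integral_smul_const, ← integral_smul_const, ← integral_sub ((hid k).smul_const _) ((hid ξ).smul_const _)]
      refine integral_congr_ae (Filter.Eventually.of_forall fun y => ?_)
      simp only [stream, smul_sub, smul_smul]
    rw [e1]
    calc _ ≤ ‖(∫ y, heatK t (x - y) * dd k (gS N k a) y) • ξ‖ + ‖(∫ y, heatK t (x - y) * dd ξ (gS N k a) y) • k‖ :=
          norm_sub_le _ _
      _ ≤ C₁ / (N * t) + C₂ / (N * t) := by
          rw [norm_smul, norm_smul, hk, hξ, mul_one, mul_one]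
          exact add_le_add (hb₁ N t x hN ht) (hb₂ N t x hN ht)
      _ = _ := by ring
  refine le_kap (mul_pos hN0 hs) (by positivity) ?_ ?_
  · calc √t * ‖∫ y, heatK t (x - y) • stream k ξ (gS N k a) y‖ ≤ √t * (C₀ * N) := by gcongr
      _ ≤ (C₀ + C₁ + C₂) * (N * √t) := by
        have p1 := mul_nonneg hC₁ (mul_pos hN0 hs).le
        have p2 := mul_nonneg hC₂ (mul_pos hN0 hs).le
        nlinarith
  · calc √t * ‖∫ y, heatK t (x - y) • stream k ξ (gS N k a) y‖ ≤ √t * ((C₁ + C₂) / (N * t)) := by gcongr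
      _ = (C₁ + C₂) / (N * √t) := by
        rw [← hss]
        have : √(√t * √t) = √t := by rw [hss]
        rw [this]
        field_simp
      _ ≤ (C₀ + C₁ + C₂) / (N * √t) := by gcongr; linarith

lemma waveA_heat {n : ℕ} (a : Fin n → E → ℝ) (k ξ : Fin n → E) (ha : ∀ m, IsBump univ (a m))
    (hk : ∀ m, ‖k m‖ = 1) (hξ : ∀ m, ‖ξ m‖ = 1) (hkξ : ∀ m, ⟪k m, ξ m⟫ = 0) :
    ∃ C : ℝ, 0 ≤ C ∧ ∀ (N t : ℝ) (x : E), 1 ≤ N → 0 < t →
      √t * ‖∫ y, heatK t (x - y) • waveA N a k ξ y‖ ≤ C * kap (N * √t) := by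
  choose C hC hb using fun m => stream_heat (k m) (ξ m) (a m) (hk m) (hξ m) (hkξ m) (ha m)
  refine ⟨∑ m, C m, Finset.sum_nonneg fun m _ => hC m, fun N t x hN ht => ?_⟩
  have hu : Continuous fun y => heatK t (x - y) := (Heat.contDiff_u t x).continuous
  have hi : ∀ m, Integrable fun y => heatK t (x - y) • stream (k m) (ξ m) (gS N (k m) (a m)) y := by
    intro m
    have ht' := Weak.isTest_stream (k := k m) (ξ := ξ m) (Weak.isBump_gS (N := N) (k := k m) (ha m))
    exact (hu.smul ht'.continuous).integrable_of_hasCompactSupport ht'.compact.smul_left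
  have e1 : ∫ y, heatK t (x - y) • waveA N a k ξ y
      = ∑ m, ∫ y, heatK t (x - y) • stream (k m) (ξ m) (gS N (k m) (a m)) y := by
    rw [← integral_finsetSum _ fun m _ => hi m]
    refine integral_congr_ae (Filter.Eventually.of_forall fun y => ?_)
    simp only [waveA, Finset.smul_sum]
  rw [e1, Finset.sum_mul]
  calc √t * ‖∑ m, ∫ y, heatK t (x - y) • stream (k m) (ξ m) (gS N (k m) (a m)) y‖
      ≤ √t * ∑ m, ‖∫ y, heatK t (x - y) • stream (k m) (ξ m) (gS N (k m) (a m)) y‖ := by
        gcongr; exact norm_sum_le _ _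
    _ = ∑ m, √t * ‖∫ y, heatK t (x - y) • stream (k m) (ξ m) (gS N (k m) (a m)) y‖ := Finset.mul_sum _ _ _
    _ ≤ _ := Finset.sum_le_sum fun m _ => hb m N t x hN ht

/-! ### Heat extensions of elements of `V` -/

lemma heatExt_rep {Ω : Set E} (hΩ : IsOpen Ω) {A : E → E} (hA : IsTest Ω A) {w : V Ω} (hw : Represents Ω A w)
    (t : ℝ) (x : E) : heatExt w t x = ∫ y, heatK t (x - y) • A y := by
  unfold heatExt
  have h1 : ∫ y in Ω, heatK t (x - y) • (fld w : E → E) y = ∫ y in Ω, heatK t (x - y) • A y := by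
    refine integral_congr_ae ?_
    filter_upwards [hw.1] with y hy
    have : (fld w : E → E) y = A y := hy
    rw [this]
  rw [h1]
  refine setIntegral_eq_integral_of_forall_compl_eq_zero fun y hy => ?_
  have : A y = 0 := image_eq_zero_of_notMem_tsupport fun h => hy (hA.supp h)
  rw [this, smul_zero]

lemma heatExt_int {Ω : Set E} (hb : Bornology.IsBounded Ω) (w : V Ω) {t : ℝ} (x : E) :
    Integrable (fun y => heatK t (x - y) • (fld w : E → E) y) (volume.restrict Ω) := by
  have := Weak.finiteMeasure hb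
  have hc : Continuous fun y => heatK t (x - y) := (Heat.contDiff_u t x).continuous
  obtain ⟨R, hR⟩ := hb.subset_closedBall (0 : E)
  have hK : IsCompact (Metric.closedBall (0 : E) R) := isCompact_closedBall _ _
  obtain ⟨C, hC⟩ := hK.exists_bound_of_continuousOn hc.continuousOn
  refine Integrable.bdd_smul (C := C) (Weak.fld_integrable w) hc.aestronglyMeasurable ?_
  have h1 : ∀ᵐ y ∂(volume.restrict Ω), y ∈ Metric.closedBall (0 : E) R := by
    have h2 : volume.restrict Ω ≤ volume.restrict (Metric.closedBall (0 : E) R) :=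
      Measure.restrict_mono hR le_rfl
    exact ae_mono h2 (ae_restrict_mem Metric.isClosed_closedBall.measurableSet)
  filter_upwards [h1] with y hy
  exact hC y hy

lemma heatExt_add {Ω : Set E} (hb : Bornology.IsBounded Ω) (w w' : V Ω) (t : ℝ) (x : E) :
    heatExt (w + w') t x = heatExt w t x + heatExt w' t x := by
  unfold heatExt
  rw [← integral_add (heatExt_int hb w x) (heatExt_int hb w' x)]
  refine integral_congr_ae ?_
  have h1 : (fld (w + w') : E → E) =ᵐ[volume.restrict Ω] (fld w : E → E) + (fld w' : E → E) :=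
    Lp.coeFn_add (fld w) (fld w')
  filter_upwards [h1] with y hy
  rw [hy, Pi.add_apply, smul_add]

lemma heatExt_zero {Ω : Set E} (t : ℝ) (x : E) : heatExt (0 : V Ω) t x = 0 := by
  unfold heatExt
  have h1 : (fld (0 : V Ω) : E → E) =ᵐ[volume.restrict Ω] 0 := Lp.coeFn_zero E 2 _
  rw [integral_congr_ae (g := fun _ => (0 : E))]
  · simp
  · filter_upwards [h1] with y hy
    rw [hy, Pi.zero_apply, smul_zero]

/-! ### Lacunary lists -/

/-- Lacunary lists of frequencies (largest first). -/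
def Lac (l : List ℝ) : Prop := (∀ N ∈ l, 1 ≤ N) ∧ l.IsChain fun a b => 2 * b ≤ a

/-- The sum of the profiles. -/
def lacF (l : List ℝ) (s : ℝ) : ℝ := (l.map fun N => kap (N * s)).sum

lemma kap_le_psi {b : ℝ} (hb : 0 < b) : kap b ≤ 2 * (2 * b / (1 + 2 * b) - b / (1 + b)) := by
  unfold kap
  have e : 2 * b / (1 + 2 * b) - b / (1 + b) = b / ((1 + b) * (1 + 2 * b)) := by
    field_simp; ring
  rw [e, mul_div_assoc', div_le_div_iff₀ (by positivity) (by positivity)]
  nlinarith [mul_pos hb hb, mul_pos (mul_pos hb hb) hb]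

lemma psi_mono {a b : ℝ} (ha : 0 < a) (hab : a ≤ b) : a / (1 + a) ≤ b / (1 + b) := by
  rw [div_le_div_iff₀ (by positivity) (by linarith)]
  nlinarith

lemma lacF_nonneg {l : List ℝ} (hl : Lac l) {s : ℝ} (hs : 0 ≤ s) : 0 ≤ lacF l s := by
  refine List.sum_nonneg fun y hy => ?_
  obtain ⟨N, hN, rfl⟩ := List.mem_map.1 hy
  exact kap_nonneg (mul_nonneg (by linarith [hl.1 N hN]) hs)

lemma lacF_le_head (l : List ℝ) : ∀ (N : ℝ), Lac (N :: l) → ∀ s : ℝ, 0 < s →
    lacF (N :: l) s ≤ 2 * (2 * (N * s) / (1 + 2 * (N * s))) := by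
  induction l with
  | nil =>
    intro N hN s hs
    have h1 : 0 < N * s := mul_pos (by linarith [hN.1 N (by simp)]) hs
    have h2 := kap_le_psi h1
    have h3 : 0 ≤ N * s / (1 + N * s) := by positivity
    simp only [lacF, List.map_cons, List.map_nil, List.sum_cons, List.sum_nil, add_zero]
    linarith
  | cons N' l ih =>
    intro N hN s hs
    have h1 : 0 < N * s := mul_pos (by linarith [hN.1 N (by simp)]) hs
    have h1' : 0 < N' * s := mul_pos (by linarith [hN.1 N' (by simp)]) hs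
    have hl : Lac (N' :: l) := ⟨fun M hM => hN.1 M (by simp [List.mem_cons.1 hM]), hN.2.tail⟩
    have hc : 2 * N' ≤ N := (List.isChain_cons_cons.1 hN.2).1
    have h2 := ih N' hl s hs
    have h3 := kap_le_psi h1
    have h4 : 2 * (N' * s) / (1 + 2 * (N' * s)) ≤ N * s / (1 + N * s) :=
      psi_mono (by positivity) (by nlinarith)
    have e : lacF (N :: N' :: l) s = kap (N * s) + lacF (N' :: l) s := by simp [lacF]
    rw [e]
    linarith

lemma lacF_le {l : List ℝ} (hl : Lac l) {s : ℝ} (hs : 0 < s) : lacF l s ≤ 2 := by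
  cases l with
  | nil => simp [lacF]
  | cons N l =>
    refine (lacF_le_head l N hl s hs).trans ?_
    have h1 : 0 < N * s := mul_pos (by linarith [hl.1 N (by simp)]) hs
    have : 2 * (N * s) / (1 + 2 * (N * s)) ≤ 1 := by
      rw [div_le_one (by positivity)]; linarith
    linarith

/-! ### The integral in time -/

lemma hasDerivAt_psi {N t : ℝ} (hN : 0 < N) (ht : 0 < t) :
    HasDerivAt (fun t => 2 * (N * √t / (1 + N * √t))) (kap (N * √t) / t) t := by
  have hs : 0 < √t := Real.sqrt_pos.2 ht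
  have hss : √t * √t = t := Real.mul_self_sqrt ht.le
  have h1 : HasDerivAt (fun t => N * √t) (N * (1 / (2 * √t))) t :=
    ((Real.hasDerivAt_sqrt ht.ne').const_mul N)
  have h2 := (h1.div (h1.const_add 1) (by positivity)).const_mul 2
  refine h2.congr_deriv ?_
  unfold kap
  rw [← hss]
  have : √(√t * √t) = √t := by rw [hss]
  rw [this]
  field_simp
  ring

lemma int_kap {N : ℝ} (hN : 0 < N) : ∫⁻ t in Ioi (0 : ℝ), ENNReal.ofReal (kap (N * √t) / t) ≤ ENNReal.ofReal 2 := by
  have hcont : ContinuousWithinAt (fun t => 2 * (N * √t / (1 + N * √t))) (Ici 0) 0 := by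
    have h1 : ContinuousAt (fun t : ℝ => 2 * (N * √t / (1 + N * √t))) 0 := by
      have hs : ContinuousAt (fun t : ℝ => N * √t) 0 := (continuous_const.mul Real.continuous_sqrt).continuousAt
      refine continuousAt_const.mul (hs.div (continuousAt_const.add hs) ?_)
      simp
    exact h1.continuousWithinAt
  have hlim : Tendsto (fun t => 2 * (N * √t / (1 + N * √t))) atTop (𝓝 (2 * 1)) := by
    have h1 : Tendsto (fun t : ℝ => N * √t) atTop atTop :=
      (Real.tendsto_sqrt_atTop).const_mul_atTop hN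
    have h2 : Tendsto (fun y : ℝ => y / (1 + y)) atTop (𝓝 1) := by
      have h3 : Tendsto (fun y : ℝ => 1 - (1 + y)⁻¹) atTop (𝓝 (1 - 0)) :=
        tendsto_const_nhds.sub (tendsto_inv_atTop_zero.comp (tendsto_atTop_add_const_left _ 1 tendsto_id))
      rw [sub_zero] at h3
      refine h3.congr' ?_
      filter_upwards [eventually_gt_atTop (0 : ℝ)] with y hy
      have : (1 + y) ≠ 0 := by positivity
      field_simp
      ring
    exact (h2.comp h1).const_mul 2
  have hd : ∀ t ∈ Ioi (0 : ℝ), HasDerivAt (fun t => 2 * (N * √t / (1 + N * √t))) (kap (N * √t) / t) t :=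
    fun t ht => hasDerivAt_psi hN ht
  have hpos : ∀ t ∈ Ioi (0 : ℝ), 0 ≤ kap (N * √t) / t := fun t ht =>
    div_nonneg (kap_nonneg (mul_nonneg hN.le (Real.sqrt_nonneg _))) (le_of_lt ht)
  have hint := integrableOn_Ioi_deriv_of_nonneg hcont hd hpos hlim
  have hval := integral_Ioi_of_hasDerivAt_of_nonneg hcont hd hpos hlim
  rw [← ofReal_integral_eq_lintegral_ofReal hint]
  · rw [hval]
    simp
  · filter_upwards [ae_restrict_mem measurableSet_Ioi] with t ht
    exact hpos t ht

lemma int_lacF {l : List ℝ} (hl : Lac l) :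
    ∫⁻ t in Ioi (0 : ℝ), ENNReal.ofReal (lacF l √t / t) ≤ ENNReal.ofReal (2 * l.length) := by
  induction l with
  | nil => simp [lacF]
  | cons N l ih =>
    have hN : 0 < N := by linarith [hl.1 N (by simp)]
    have hl' : Lac l := ⟨fun M hM => hl.1 M (by simp [hM]), hl.2.tail⟩
    have e : ∀ t : ℝ, t ∈ Ioi (0 : ℝ) → ENNReal.ofReal (lacF (N :: l) √t / t)
        = ENNReal.ofReal (kap (N * √t) / t) + ENNReal.ofReal (lacF l √t / t) := by
      intro t ht
      have ht' : 0 < t := ht
      rw [← ENNReal.ofReal_add]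
      · congr 1
        have : lacF (N :: l) √t = kap (N * √t) + lacF l √t := by simp [lacF]
        rw [this]; ring
      · exact div_nonneg (kap_nonneg (mul_nonneg hN.le (Real.sqrt_nonneg _))) ht'.le
      · exact div_nonneg (lacF_nonneg hl' (Real.sqrt_nonneg _)) ht'.le
    rw [setLIntegral_congr_fun measurableSet_Ioi e]
    have hm : Measurable fun t : ℝ => ENNReal.ofReal (kap (N * √t) / t) := by
      unfold kap
      fun_prop
    rw [lintegral_add_left hm]
    refine (add_le_add (int_kap hN) (ih hl')).trans (le_of_eq ?_)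
    rw [← ENNReal.ofReal_add (by norm_num) (by positivity)]
    congr 1
    push_cast [List.length_cons]
    ring

lemma besov_le {Ω : Set E} {w : V Ω} {D q : ℝ} (hD : 0 ≤ D) (hq : 1 ≤ q) {l : List ℝ} (hl : Lac l)
    (h : ∀ t x, 0 < t → √t * ‖heatExt w t x‖ ≤ D * lacF l √t) :
    besov w q ≤ ENNReal.ofReal ((2 * D) ^ (q - 1) * (D * (2 * l.length))) := by
  unfold besov
  have h1 : ∀ t ∈ Ioi (0 : ℝ), (⨆ x : E, ENNReal.ofReal (√t * ‖heatExt w t x‖)) ^ q * ENNReal.ofReal (1 / t)
      ≤ ENNReal.ofReal ((2 * D) ^ (q - 1) * D) * ENNReal.ofReal (lacF l √t / t) := by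
    intro t ht
    have ht' : 0 < t := ht
    have hs : 0 < √t := Real.sqrt_pos.2 ht'
    have hF := lacF_le hl hs
    have hF0 := lacF_nonneg hl hs.le
    have h2 : (⨆ x : E, ENNReal.ofReal (√t * ‖heatExt w t x‖)) ≤ ENNReal.ofReal (D * lacF l √t) :=
      iSup_le fun x => ENNReal.ofReal_le_ofReal (h t x ht')
    calc (⨆ x : E, ENNReal.ofReal (√t * ‖heatExt w t x‖)) ^ q * ENNReal.ofReal (1 / t)
        ≤ (ENNReal.ofReal (D * lacF l √t)) ^ q * ENNReal.ofReal (1 / t) := by gcongr
      _ = ENNReal.ofReal ((D * lacF l √t) ^ q * (1 / t)) := by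
          rw [ENNReal.ofReal_rpow_of_nonneg (by positivity) (by linarith), ← ENNReal.ofReal_mul (by positivity)]
      _ ≤ ENNReal.ofReal ((2 * D) ^ (q - 1) * D * (lacF l √t / t)) := by
          refine ENNReal.ofReal_le_ofReal ?_
          have e1 : (D * lacF l √t) ^ q ≤ (2 * D) ^ (q - 1) * (D * lacF l √t) := by
            by_cases h0 : D * lacF l √t = 0
            · rw [h0, Real.zero_rpow (by linarith), mul_zero]
            · have hpos : 0 < D * lacF l √t := lt_of_le_of_ne (by positivity) (Ne.symm h0)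
              have e2 : (D * lacF l √t) ^ q = (D * lacF l √t) ^ (q - 1) * (D * lacF l √t) := by
                rw [← Real.rpow_add_one h0]
                congr 1; ring
              rw [e2]
              have e3 : (D * lacF l √t) ^ (q - 1) ≤ (2 * D) ^ (q - 1) :=
                Real.rpow_le_rpow hpos.le (by nlinarith) (by linarith)
              gcongr
          calc (D * lacF l √t) ^ q * (1 / t) ≤ ((2 * D) ^ (q - 1) * (D * lacF l √t)) * (1 / t) := by gcongr
            _ = _ := by ring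
      _ = _ := ENNReal.ofReal_mul (by positivity)
  calc ∫⁻ t in Ioi (0 : ℝ), (⨆ x : E, ENNReal.ofReal (√t * ‖heatExt w t x‖)) ^ q * ENNReal.ofReal (1 / t)
      ≤ ∫⁻ t in Ioi (0 : ℝ), ENNReal.ofReal ((2 * D) ^ (q - 1) * D) * ENNReal.ofReal (lacF l √t / t) :=
        setLIntegral_mono' measurableSet_Ioi h1
    _ = ENNReal.ofReal ((2 * D) ^ (q - 1) * D) * ∫⁻ t in Ioi (0 : ℝ), ENNReal.ofReal (lacF l √t / t) :=
        lintegral_const_mul' _ _ ENNReal.ofReal_ne_top
    _ ≤ ENNReal.ofReal ((2 * D) ^ (q - 1) * D) * ENNReal.ofReal (2 * l.length) := by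
        gcongr; exact int_lacF hl
    _ = _ := by
        rw [← ENNReal.ofReal_mul (by positivity)]
        congr 1; ring

end Lacun

end Pool.Agent.NSN
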