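import Pool.Agent.NSN.VDense
import Pool.Agent.NSD.Trilin
import Pool.Agent.NSD.Sobolev

/-!
# MP_fd8964_an: `V` embeds into `B^{-1}_{∞,q}`, `q ≥ 2`
-/

open MeasureTheory Set Filter Topology
open scoped RealInnerProductSpace ContDiff

noncomputable section

namespace Pool.Agent.NSN

open Pool.Agent.NSD Pool.Agent.NSK

namespace Embed

open Lacun Heat

lemma holder_bound {Ω : Set E} (hb : Bornology.IsBounded Ω) {C : ℝ} (hC : 0 ≤ C)
    (h6 : ∀ v : V Ω, eLpNorm (fld v : E → E) 6 (volume.restrict Ω) ≤ ENNReal.ofReal (C * ‖grd v‖))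
    (w : V Ω) {t : ℝ} (ht : 0 < t) (x : E) :
    ∫ y in Ω, heatK t (x - y) * ‖(fld w : E → E) y‖ ≤ ((t ^ (3 / 2 : ℝ))⁻¹) ^ (1 / 6 : ℝ) * (C * ‖grd w‖) := by
  have hfm := Weak.finiteMeasure hb
  have hcj : (6 / 5 : ℝ).HolderConjugate 6 := by
    rw [Real.holderConjugate_iff]; norm_num
  set μ := (volume : Measure E).restrict Ω with hμ
  have hsup : ∀ y, ‖heatK t (x - y)‖ ≤ (t ^ (3 / 2 : ℝ))⁻¹ := fun y => by
    rw [Real.norm_of_nonneg (heatK_nonneg ht _)]
    exact heatK_sup t ht _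
  have hcont : Continuous fun y => heatK t (x - y) := (contDiff_u t x).continuous
  have hf : MemLp (fun y => heatK t (x - y)) (ENNReal.ofReal (6 / 5)) μ :=
    MemLp.of_bound hcont.aestronglyMeasurable _ (Eventually.of_forall hsup)
  have e6 : ENNReal.ofReal 6 = 6 := by norm_num
  have hg : MemLp (fld w : E → E) (ENNReal.ofReal 6) μ := by
    rw [e6]
    exact ⟨Lp.aestronglyMeasurable (fld w), (h6 w).trans_lt ENNReal.ofReal_lt_top⟩
  have h1 := integral_mul_norm_le_Lp_mul_Lq hcj hf hg.norm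
  simp only [norm_norm] at h1
  have e1 : ∫ y, heatK t (x - y) * ‖(fld w : E → E) y‖ ∂μ = ∫ y, ‖heatK t (x - y)‖ * ‖(fld w : E → E) y‖ ∂μ := by
    refine integral_congr_ae (Eventually.of_forall fun y => ?_)
    simp only
    rw [Real.norm_of_nonneg (heatK_nonneg ht _)]
  rw [e1]
  refine h1.trans (mul_le_mul ?_ ?_ (by positivity) (by positivity))
  · -- the kernel
    have h2 : ∫ y, ‖heatK t (x - y)‖ ^ (6 / 5 : ℝ) ∂μ ≤ ((t ^ (3 / 2 : ℝ))⁻¹) ^ (1 / 5 : ℝ) := by
      have i1 : Integrable (fun y => heatK t (x - y)) := (heatK_integrable ht).comp_sub_left x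
      have i1' : Integrable (fun y => heatK t (x - y)) μ := i1.integrableOn
      have h3 : ∀ y, ‖heatK t (x - y)‖ ^ (6 / 5 : ℝ) ≤ ((t ^ (3 / 2 : ℝ))⁻¹) ^ (1 / 5 : ℝ) * heatK t (x - y) := by
        intro y
        have hpos : 0 < heatK t (x - y) := by
          unfold heatK
          have := Real.pi_pos
          positivity
        rw [Real.norm_of_nonneg hpos.le]
        have e2 : heatK t (x - y) ^ (6 / 5 : ℝ) = heatK t (x - y) ^ (1 / 5 : ℝ) * heatK t (x - y) := by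
          rw [← Real.rpow_add_one hpos.ne']
          norm_num
        rw [e2]
        refine mul_le_mul_of_nonneg_right ?_ hpos.le
        exact Real.rpow_le_rpow hpos.le (heatK_sup t ht _) (by norm_num)
      calc ∫ y, ‖heatK t (x - y)‖ ^ (6 / 5 : ℝ) ∂μ ≤ ∫ y, ((t ^ (3 / 2 : ℝ))⁻¹) ^ (1 / 5 : ℝ) * heatK t (x - y) ∂μ :=
            integral_mono_of_nonneg (Eventually.of_forall fun y => by positivity) (i1'.const_mul _)
              (Eventually.of_forall h3)
        _ = ((t ^ (3 / 2 : ℝ))⁻¹) ^ (1 / 5 : ℝ) * ∫ y, heatK t (x - y) ∂μ := integral_const_mul _ _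
        _ ≤ ((t ^ (3 / 2 : ℝ))⁻¹) ^ (1 / 5 : ℝ) * 1 := by
            refine mul_le_mul_of_nonneg_left ?_ (by positivity)
            calc ∫ y, heatK t (x - y) ∂μ ≤ ∫ y, heatK t (x - y) :=
                  setIntegral_le_integral i1 (Eventually.of_forall fun y => heatK_nonneg ht _)
              _ = ∫ y, heatK t y := integral_sub_left_eq_self (fun y => heatK t y) volume x
              _ = 1 := heatK_mass ht
        _ = _ := mul_one _
    calc (∫ y, ‖heatK t (x - y)‖ ^ (6 / 5 : ℝ) ∂μ) ^ (1 / (6 / 5) : ℝ)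
        ≤ (((t ^ (3 / 2 : ℝ))⁻¹) ^ (1 / 5 : ℝ)) ^ (1 / (6 / 5) : ℝ) :=
          Real.rpow_le_rpow (integral_nonneg fun y => by positivity) h2 (by norm_num)
      _ = ((t ^ (3 / 2 : ℝ))⁻¹) ^ (1 / 6 : ℝ) := by
          rw [← Real.rpow_mul (by positivity)]
          norm_num
  · have h2 := h6 w
    rw [← e6, hg.eLpNorm_eq_integral_rpow_norm (by norm_num) (by norm_num)] at h2
    have h3 := (ENNReal.ofReal_le_ofReal_iff (by positivity)).1 h2
    have e3 : (ENNReal.ofReal 6).toReal = (6 : ℝ) := by norm_num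
    rw [e3] at h3
    rw [one_div]
    exact h3

lemma sup_bound {Ω : Set E} (hb : Bornology.IsBounded Ω) : ∃ C : ℝ, 0 ≤ C ∧ ∀ (w : V Ω) (t : ℝ) (x : E), 0 < t →
    ∫ y in Ω, heatK t (x - y) * ‖(fld w : E → E) y‖ ≤ (t ^ (3 / 2 : ℝ))⁻¹ * (C * ‖w‖) := by
  have hfm := Weak.finiteMeasure hb
  refine ⟨√(volume.real Ω), Real.sqrt_nonneg _, fun w t x ht => ?_⟩
  set μ := (volume : Measure E).restrict Ω with hμ
  have hi : Integrable (fun y => ‖(fld w : E → E) y‖) μ := (Weak.fld_integrable w).norm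
  have h1 : ∫ y, heatK t (x - y) * ‖(fld w : E → E) y‖ ∂μ ≤ ∫ y, (t ^ (3 / 2 : ℝ))⁻¹ * ‖(fld w : E → E) y‖ ∂μ := by
    refine integral_mono_of_nonneg (Eventually.of_forall fun y => ?_) (hi.const_mul _) (Eventually.of_forall fun y => ?_)
    · exact mul_nonneg (heatK_nonneg ht _) (norm_nonneg _)
    · exact mul_le_mul_of_nonneg_right (heatK_sup t ht _) (norm_nonneg _)
  refine h1.trans ?_
  rw [integral_const_mul]
  refine mul_le_mul_of_nonneg_left ?_ (by positivity)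
  have h2 : ∫ y, ‖(fld w : E → E) y‖ ∂μ ≤ √(volume.real Ω) * ‖fld w‖ := by
    have hcj : (2 : ℝ).HolderConjugate 2 := by
      rw [Real.holderConjugate_iff]; norm_num
    have e2 : ENNReal.ofReal 2 = 2 := by norm_num
    have hf : MemLp (fun _ : E => (1 : ℝ)) (ENNReal.ofReal 2) μ := memLp_const _
    have hg : MemLp (fld w : E → E) (ENNReal.ofReal 2) μ := by rw [e2]; exact Lp.memLp (fld w)
    have h3 := integral_mul_norm_le_Lp_mul_Lq hcj hf hg.norm
    simp only [norm_norm, norm_one, one_mul, Real.one_rpow, integral_const, smul_eq_mul, mul_one] at h3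
    refine h3.trans (le_of_eq ?_)
    congr 1
    · rw [Real.sqrt_eq_rpow, hμ]
      simp [Measure.real]
    · have h4 : ‖fld w‖ = (eLpNorm (fld w : E → E) 2 μ).toReal := rfl
      rw [h4]
      have h5 := hg.eLpNorm_eq_integral_rpow_norm (by norm_num) (by norm_num)
      rw [e2] at h5
      rw [h5, ENNReal.toReal_ofReal (by positivity)]
      norm_num
  exact h2.trans (mul_le_mul_of_nonneg_left (norm_fld_le w) (Real.sqrt_nonneg _))

end Embed

open Embed Lacun in
/-- The heat extension of an element of `V`. -/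
theorem emb_proof {Ω : Set E} (hb : Bornology.IsBounded Ω) : ∃ C : ℝ, 0 ≤ C ∧ ∀ (w : V Ω) (t : ℝ) (x : E), 0 < t →
    √t * ‖heatExt w t x‖ ≤ C * ‖w‖ * √(kap √t) := by
  obtain ⟨C₁, hC₁, h6⟩ := L6_proof Ω hb
  obtain ⟨C₂, hC₂, hs⟩ := sup_bound hb
  refine ⟨2 * (C₁ + C₂), by positivity, fun w t x ht => ?_⟩
  have h0 : ‖heatExt w t x‖ ≤ ∫ y in Ω, heatK t (x - y) * ‖(fld w : E → E) y‖ := by
    unfold heatExt
    refine (norm_integral_le_integral_norm _).trans (le_of_eq ?_)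
    refine integral_congr_ae (Eventually.of_forall fun y => ?_)
    simp only
    rw [norm_smul, Real.norm_of_nonneg (Heat.heatK_nonneg ht _)]
  have h1 := h0.trans (holder_bound hb hC₁ h6 w ht x)
  have h2 := h0.trans (hs w t x ht)
  have hst : 0 < √t := Real.sqrt_pos.2 ht
  have hg := norm_grd_le w
  have hw := norm_nonneg w
  set s := √t with hsd
  have hts : t = s ^ 2 := (Real.sq_sqrt ht.le).symm
  have e1 : ((t ^ (3 / 2 : ℝ))⁻¹) ^ (1 / 6 : ℝ) = (√s)⁻¹ := by
    rw [Real.inv_rpow (by positivity), ← Real.rpow_mul ht.le, hts, ← Real.rpow_natCast, ← Real.rpow_mul hst.le,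
      Real.sqrt_eq_rpow]
    norm_num
  have e2 : (t ^ (3 / 2 : ℝ))⁻¹ = (s ^ 3)⁻¹ := by
    rw [hts, ← Real.rpow_natCast, ← Real.rpow_mul hst.le, ← Real.rpow_natCast]
    norm_num
  rw [e1] at h1
  rw [e2] at h2
  have hss : 0 < √s := Real.sqrt_pos.2 hst
  have hsss : √s * √s = s := Real.mul_self_sqrt hst.le
  rcases le_total s 1 with h | h
  · have hk : √s / 2 ≤ √(kap s) := by
      refine Real.le_sqrt_of_sq_le ?_
      unfold kap
      rw [div_pow, Real.sq_sqrt hst.le]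
      have : (1 + s) ^ 2 ≤ 4 := by nlinarith
      have h3 : 0 < (1 + s) ^ 2 := by positivity
      rw [div_le_div_iff₀ (by norm_num) h3]
      nlinarith
    calc s * ‖heatExt w t x‖ ≤ s * ((√s)⁻¹ * (C₁ * ‖grd w‖)) := by gcongr
      _ = √s * (C₁ * ‖grd w‖) := by
          have : s * (√s)⁻¹ = √s := by
            rw [← div_eq_mul_inv, div_eq_iff hss.ne', hsss]
          rw [← mul_assoc, this]
      _ ≤ √s * ((C₁ + C₂) * ‖w‖) := by
          gcongr
          linarith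
      _ = 2 * (C₁ + C₂) * ‖w‖ * (√s / 2) := by ring
      _ ≤ 2 * (C₁ + C₂) * ‖w‖ * √(kap s) := by gcongr
  · have hk : (s ^ 2)⁻¹ / 2 ≤ √(kap s) := by
      refine Real.le_sqrt_of_sq_le ?_
      unfold kap
      have h3 : (1 + s) ^ 2 ≤ (2 * s) ^ 2 := by nlinarith
      have h4 : s / (2 * s) ^ 2 ≤ s / (1 + s) ^ 2 := by gcongr
      refine le_trans ?_ h4
      have e3 : ((s ^ 2)⁻¹ / 2) ^ 2 = 1 / (4 * s ^ 4) := by field_simp; norm_num
      have e4 : s / (2 * s) ^ 2 = 1 / (4 * s) := by field_simp; norm_num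
      rw [e3, e4]
      gcongr
      exact le_self_pow₀ h (by norm_num)
    calc s * ‖heatExt w t x‖ ≤ s * ((s ^ 3)⁻¹ * (C₂ * ‖w‖)) := by gcongr
      _ = (s ^ 2)⁻¹ * (C₂ * ‖w‖) := by field_simp
      _ ≤ (s ^ 2)⁻¹ * ((C₁ + C₂) * ‖w‖) := by
          gcongr
          linarith
      _ = 2 * (C₁ + C₂) * ‖w‖ * ((s ^ 2)⁻¹ / 2) := by ring
      _ ≤ 2 * (C₁ + C₂) * ‖w‖ * √(kap s) := by gcongr

open Lacun in
/-- Small elements of `V` have small Besov norms. -/
theorem besov_add_proof {Ω : Set E} (hb : Bornology.IsBounded Ω) : ∃ C : ℝ, 0 ≤ C ∧ ∀ (a b : V Ω) (q : ℝ), 2 ≤ q →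
    besov (a + b) q ≤ 2 ^ (q - 1) * (besov a q + ENNReal.ofReal ((C * ‖b‖) ^ q * 2)) := by
  obtain ⟨C, hC, hemb⟩ := emb_proof hb
  refine ⟨C, hC, fun a b q hq => ?_⟩
  have hq0 : 0 ≤ q := by linarith
  set g : ℝ → ENNReal := fun t => ENNReal.ofReal ((C * ‖b‖) ^ q) * ENNReal.ofReal (kap (1 * √t) / t) with hg
  have hgm : Measurable g := by
    rw [hg]
    unfold kap
    fun_prop
  have h1 : ∀ t ∈ Ioi (0 : ℝ),
      (⨆ x : E, ENNReal.ofReal (√t * ‖heatExt (a + b) t x‖)) ^ q * ENNReal.ofReal (1 / t)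
      ≤ 2 ^ (q - 1) * ((⨆ x : E, ENNReal.ofReal (√t * ‖heatExt a t x‖)) ^ q * ENNReal.ofReal (1 / t) + g t) := by
    intro t ht
    have ht' : 0 < t := ht
    have hs : 0 < √t := Real.sqrt_pos.2 ht'
    have hk0 : 0 ≤ kap √t := Lacun.kap_nonneg hs.le
    have hk1 : kap √t ≤ 1 := by
      unfold kap
      rw [div_le_one (by positivity)]
      nlinarith
    set A := ⨆ x : E, ENNReal.ofReal (√t * ‖heatExt a t x‖) with hA
    set B := ENNReal.ofReal (C * ‖b‖ * √(kap √t)) with hB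
    have h2 : (⨆ x : E, ENNReal.ofReal (√t * ‖heatExt (a + b) t x‖)) ≤ A + B := by
      refine iSup_le fun x => ?_
      rw [Lacun.heatExt_add hb]
      calc ENNReal.ofReal (√t * ‖heatExt a t x + heatExt b t x‖)
          ≤ ENNReal.ofReal (√t * ‖heatExt a t x‖ + √t * ‖heatExt b t x‖) := by
            refine ENNReal.ofReal_le_ofReal ?_
            rw [← mul_add]
            gcongr
            exact norm_add_le _ _
        _ = ENNReal.ofReal (√t * ‖heatExt a t x‖) + ENNReal.ofReal (√t * ‖heatExt b t x‖) :=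
            ENNReal.ofReal_add (by positivity) (by positivity)
        _ ≤ A + B := by
            refine add_le_add (le_iSup (fun x => ENNReal.ofReal (√t * ‖heatExt a t x‖)) x) ?_
            exact ENNReal.ofReal_le_ofReal (hemb b t x ht')
    have h3 : B ^ q * ENNReal.ofReal (1 / t) ≤ g t := by
      rw [hB, ENNReal.ofReal_rpow_of_nonneg (by positivity) hq0, hg]
      simp only
      rw [← ENNReal.ofReal_mul (by positivity), ← ENNReal.ofReal_mul (by positivity)]
      refine ENNReal.ofReal_le_ofReal ?_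
      rw [Real.mul_rpow (by positivity) (by positivity), one_mul]
      have h4 : √(kap √t) ^ q ≤ kap √t := by
        rw [Real.sqrt_eq_rpow, ← Real.rpow_mul hk0]
        calc kap √t ^ (1 / 2 * q) ≤ kap √t ^ (1 : ℝ) :=
              Real.rpow_le_rpow_of_exponent_ge' hk0 hk1 (by norm_num) (by linarith)
          _ = _ := Real.rpow_one _
      have h5 : 0 ≤ 1 / t := by positivity
      calc (C * ‖b‖) ^ q * √(kap √t) ^ q * (1 / t) ≤ (C * ‖b‖) ^ q * kap √t * (1 / t) := by gcongr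
        _ = (C * ‖b‖) ^ q * (kap √t / t) := by ring
    calc (⨆ x : E, ENNReal.ofReal (√t * ‖heatExt (a + b) t x‖)) ^ q * ENNReal.ofReal (1 / t)
        ≤ (A + B) ^ q * ENNReal.ofReal (1 / t) := by gcongr
      _ ≤ (2 ^ (q - 1) * (A ^ q + B ^ q)) * ENNReal.ofReal (1 / t) := by
          gcongr
          exact ENNReal.rpow_add_le_mul_rpow_add_rpow _ _ (by linarith)
      _ = 2 ^ (q - 1) * (A ^ q * ENNReal.ofReal (1 / t) + B ^ q * ENNReal.ofReal (1 / t)) := by ring
      _ ≤ _ := by gcongr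
  unfold besov
  calc ∫⁻ t in Ioi (0 : ℝ), (⨆ x : E, ENNReal.ofReal (√t * ‖heatExt (a + b) t x‖)) ^ q * ENNReal.ofReal (1 / t)
      ≤ ∫⁻ t in Ioi (0 : ℝ),
        2 ^ (q - 1) * ((⨆ x : E, ENNReal.ofReal (√t * ‖heatExt a t x‖)) ^ q * ENNReal.ofReal (1 / t) + g t) :=
        setLIntegral_mono' measurableSet_Ioi h1
    _ = 2 ^ (q - 1) * ∫⁻ t in Ioi (0 : ℝ),
        ((⨆ x : E, ENNReal.ofReal (√t * ‖heatExt a t x‖)) ^ q * ENNReal.ofReal (1 / t) + g t) :=
        lintegral_const_mul' _ _ (ENNReal.rpow_ne_top_of_nonneg (by linarith) (by norm_num))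
    _ = 2 ^ (q - 1) * ((∫⁻ t in Ioi (0 : ℝ),
        (⨆ x : E, ENNReal.ofReal (√t * ‖heatExt a t x‖)) ^ q * ENNReal.ofReal (1 / t)) + ∫⁻ t in Ioi (0 : ℝ), g t) := by
        rw [lintegral_add_right _ hgm]
    _ ≤ _ := by
        gcongr
        calc ∫⁻ t in Ioi (0 : ℝ), g t
            = ENNReal.ofReal ((C * ‖b‖) ^ q) * ∫⁻ t in Ioi (0 : ℝ), ENNReal.ofReal (kap (1 * √t) / t) :=
              lintegral_const_mul' _ _ ENNReal.ofReal_ne_top
          _ ≤ ENNReal.ofReal ((C * ‖b‖) ^ q) * ENNReal.ofReal 2 := by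
              gcongr
              exact Lacun.int_kap one_pos
          _ = _ := by rw [← ENNReal.ofReal_mul (by positivity)]

end Pool.Agent.NSN
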