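import Pool.Agent.NSN.Pure

/-!
# MP_fd8964_an: the fields `curl (div M)` and the angular momentum
-/

open MeasureTheory Set Filter Topology
open scoped RealInnerProductSpace ContDiff

noncomputable section

namespace Pool.Agent.NSN

open Pool.Agent.NSD Pool.Agent.NSK

/-- The curl. -/
def curl (F : E → E) (x : E) : E :=
  ((fderiv ℝ F x (e 1)) 2 - (fderiv ℝ F x (e 2)) 1) • e 0 +
  ((fderiv ℝ F x (e 2)) 0 - (fderiv ℝ F x (e 0)) 2) • e 1 +
  ((fderiv ℝ F x (e 0)) 1 - (fderiv ℝ F x (e 1)) 0) • e 2

/-- The divergence of the matrix field with the columns `M 0`, `M 1`, `M 2`. -/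
def divMat (M : Fin 3 → E → E) (x : E) : E := ∑ i : Fin 3, fderiv ℝ (M i) x (e i)

/-- The closure in `V` of the fields `curl (div M)`. -/
def curlDiv (Ω : Set E) : Submodule ℝ (V Ω) :=
  (Submodule.span ℝ {p : V Ω | ∃ M : Fin 3 → E → E,
    (∀ i, ContDiff ℝ ∞ (M i) ∧ HasCompactSupport (M i) ∧ tsupport (M i) ⊆ Ω) ∧
    Represents Ω (curl (divMat M)) p}).topologicalClosure

/-- The cross product. -/
def cross (x y : E) : E :=
  (x 1 * y 2 - x 2 * y 1) • e 0 + (x 2 * y 0 - x 0 * y 2) • e 1 + (x 0 * y 1 - x 1 * y 0) • e 2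

/-- The angular momentum `∫ x × w`. -/
def angMom {Ω : Set E} (w : V Ω) : E := ∫ x in Ω, cross x ((fld w : E → E) x)

namespace CurlDiv

open VDense KLimit Ang

/-! ### The angular momentum -/

lemma sum3 (a b c : ℝ) (l : Fin 3) : (a • e 0 + b • e 1 + c • e 2) l = ![a, b, c] l := by
  simp only [PiLp.add_apply, PiLp.smul_apply, smul_eq_mul, e_apply]
  fin_cases l <;> simp

lemma cross_apply (x y : E) (m : Fin 3) : cross x y m = ∑ j : Fin 3, ∑ k : Fin 3, lc m j k * (x j * y k) := by
  rw [cross, sum3]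
  simp only [Fin.sum_univ_three, lc]
  fin_cases m <;> simp <;> norm_num <;> ring

lemma mom_int {Ω : Set E} (hb : Bornology.IsBounded Ω) (w : V Ω) (j k : Fin 3) :
    Integrable (fun x => x j * (fld w : E → E) x k) (volume.restrict Ω) := by
  have h1 := MemLp.integrable_mul (p := 2) (q := 2) (μ := volume.restrict Ω) (f := fun x : E => x j)
    (g := fun x => (fld w : E → E) x k) ?_ ?_
  · exact h1
  · have := Weak.finiteMeasure hb
    obtain ⟨R, hR⟩ := hb.subset_closedBall (0 : E)
    refine MemLp.of_bound (pr j).continuous.aestronglyMeasurable R ?_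
    have h1 : ∀ᵐ y ∂(volume.restrict Ω), y ∈ Metric.closedBall (0 : E) R := by
      have h2 : volume.restrict Ω ≤ volume.restrict (Metric.closedBall (0 : E) R) :=
        Measure.restrict_mono hR le_rfl
      exact ae_mono h2 (ae_restrict_mem Metric.isClosed_closedBall.measurableSet)
    filter_upwards [h1] with y hy
    rw [mem_closedBall_zero_iff] at hy
    exact (PiLp.norm_apply_le y j).trans hy
  · exact (pr k).comp_memLp' (Lp.memLp (fld w))

lemma angMom_apply {Ω : Set E} (hb : Bornology.IsBounded Ω) (w : V Ω) (m : Fin 3) : angMom w m = ang w m := by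
  have hi : ∀ m j k, Integrable (fun x => lc m j k * (x j * (fld w : E → E) x k)) (volume.restrict Ω) :=
    fun m j k => (mom_int hb w j k).const_mul _
  have hc : ∀ m : Fin 3, Integrable (fun x => cross x ((fld w : E → E) x) m) (volume.restrict Ω) := by
    intro m
    simp only [cross_apply]
    exact integrable_finsetSum _ fun j _ => integrable_finsetSum _ fun k _ => hi m j k
  have hI : Integrable (fun x => cross x ((fld w : E → E) x)) (volume.restrict Ω) := by
    have h1 : (fun x => cross x ((fld w : E → E) x)) = fun x => ∑ m : Fin 3, (cross x ((fld w : E → E) x) m) • e m := by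
      funext x
      exact (Base.sum_coord _).symm
    rw [h1]
    exact integrable_finsetSum _ fun m _ => (hc m).smul_const _
  unfold angMom ang
  rw [cpt_int_comp hI]
  simp only [cross_apply]
  rw [integral_finsetSum _ fun j _ => integrable_finsetSum _ fun k _ => hi m j k]
  refine Finset.sum_congr rfl fun j _ => ?_
  rw [integral_finsetSum _ fun k _ => hi m j k]
  exact Finset.sum_congr rfl fun k _ => integral_const_mul _ _

/-! ### The fields `curl (div M)` -/

lemma rep_sum {Ω : Set E} {n : ℕ} (F : Fin n → E → E) (p : Fin n → V Ω) (hF : ∀ i, IsTest Ω (F i))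
    (hp : ∀ i, Represents Ω (F i) (p i)) (s : Finset (Fin n)) :
    IsTest Ω (∑ i ∈ s, F i) ∧ Represents Ω (∑ i ∈ s, F i) ((∑ i ∈ s, p i : V Ω) : H1 Ω) := by
  classical
  induction s using Finset.induction_on with
  | empty =>
    simp only [Finset.sum_empty]
    exact ⟨isTest_zero Ω, Lp.coeFn_zero E 2 _, by rw [gradField_zero]; exact Lp.coeFn_zero G 2 _⟩
  | insert i s hi ih =>
    rw [Finset.sum_insert hi, Finset.sum_insert hi]
    exact ⟨(hF i).add ih.1, rep_add (hF i).differentiable ih.1.differentiable (hp i) ih.2⟩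

lemma rep_unique {Ω : Set E} {F : E → E} {p r : V Ω} (hp : Represents Ω F p) (hr : Represents Ω F r) : p = r := by
  refine Subtype.ext ?_
  refine (WithLp.ofLp_injective 2) (Prod.ext ?_ ?_)
  · exact Lp.ext (hp.1.trans hr.1.symm)
  · exact Lp.ext (hp.2.trans hr.2.symm)

lemma curl_apply (F : E → E) (x : E) (l : Fin 3) :
    curl F x l = ∑ k : Fin 3, ∑ m : Fin 3, lc l k m * (fderiv ℝ F x (e k)) m := by
  rw [curl, sum3]
  simp only [Fin.sum_univ_three, lc]
  fin_cases l <;> simp <;> norm_num <;> ring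

/-- `curl (div M)` is a sum of fields `curl (A ∇χ)`. -/
lemma curl_divMat {M : Fin 3 → E → E} (hM : ∀ i, ContDiff ℝ ∞ (M i)) :
    curl (divMat M) = ∑ m : Fin 3, ∑ i : Fin 3, curlA (fun m' i' => if m' = m ∧ i' = i then 1 else 0) (fun x => M i x m) := by
  have hMm : ∀ i m, ContDiff ℝ ∞ (fun x => M i x m) := fun i m => (pr m).contDiff.comp (hM i)
  have hds : ∀ i, ContDiff ℝ ∞ (dd (e i) (M i)) := fun i => Base.dd_contDiff (hM i) (e i)
  have hdM : ContDiff ℝ ∞ (divMat M) := by
    have : divMat M = fun x => ∑ i : Fin 3, dd (e i) (M i) x := rfl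
    rw [this]
    exact ContDiff.sum fun i _ => hds i
  have h1 : ∀ (k m : Fin 3) x, (fderiv ℝ (divMat M) x (e k)) m
      = ∑ i : Fin 3, dd (e k) (dd (e i) (fun x => M i x m)) x := by
    intro k m x
    have h2 : (fderiv ℝ (divMat M) x (e k)) m = dd (e k) (fun x => divMat M x m) x :=
      congrFun (dd_comp hdM (e k) m) x
    rw [h2]
    have h3 : (fun x => divMat M x m) = fun x => ∑ i : Fin 3, dd (e i) (fun x => M i x m) x := by
      funext x
      have e1 : divMat M x m = ∑ i : Fin 3, (dd (e i) (M i) x) m := by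
        unfold divMat
        simp only [Fin.sum_univ_three, PiLp.add_apply]
        rfl
      rw [e1]
      exact Finset.sum_congr rfl fun i _ => congrFun (dd_comp (hM i) (e i) m) x
    rw [h3, Base.dd_sum Finset.univ (f := fun i x => dd (e i) (fun x => M i x m) x)
      (fun i => Base.dd_contDiff (hMm i m) (e i))]
  funext x
  ext l
  rw [curl_apply]
  have h4 : (∑ m : Fin 3, ∑ i : Fin 3, curlA (fun m' i' => if m' = m ∧ i' = i then 1 else 0) (fun x => M i x m)) x l
      = ∑ m : Fin 3, ∑ i : Fin 3, curlA (fun m' i' => if m' = m ∧ i' = i then 1 else 0) (fun x => M i x m) x l := by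
    simp only [Fin.sum_univ_three, Pi.add_apply, PiLp.add_apply]
  rw [h4]
  have h5 : ∀ m i : Fin 3, curlA (fun m' i' => if m' = m ∧ i' = i then 1 else 0) (fun x => M i x m) x l
      = ∑ k : Fin 3, lc l k m * dd (e k) (dd (e i) (fun x => M i x m)) x := by
    intro m i
    rw [curlA, Base.vec_apply]
    refine Finset.sum_congr rfl fun k _ => ?_
    have h6 : ∀ i' : Fin 3, (∑ m' : Fin 3, lc l k m' * (if m' = m ∧ i' = i then (1 : ℝ) else 0))
        = if i' = i then lc l k m else 0 := by
      intro i'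
      by_cases hi : i' = i
      · simp [hi]
      · simp [hi]
    simp only [h6, ite_mul, zero_mul, Finset.sum_ite_eq', Finset.mem_univ, if_true]
  simp only [h1, h5, Finset.mul_sum]
  rw [Finset.sum_comm]
  refine Finset.sum_congr rfl fun m _ => ?_
  rw [Finset.sum_comm]

lemma mem_curlW {Ω : Set E} {M : Fin 3 → E → E}
    (hM : ∀ i, ContDiff ℝ ∞ (M i) ∧ HasCompactSupport (M i) ∧ tsupport (M i) ⊆ Ω) {p : V Ω}
    (hp : Represents Ω (curl (divMat M)) p) : p ∈ curlW Ω := by
  have hbm : ∀ m i, IsBump Ω (fun x => M i x m) := by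
    intro m i
    have hsub : tsupport (fun x => M i x m) ⊆ tsupport (M i) := by
      refine closure_mono (fun x hx => ?_)
      rw [Function.mem_support] at hx ⊢
      intro h0
      exact hx (by simp [h0])
    exact ⟨(pr m).contDiff.comp (hM i).1, (hM i).2.1.of_isClosed_subset (isClosed_tsupport _) hsub,
      hsub.trans (hM i).2.2⟩
  have hT : ∀ m i, IsTest Ω (curlA (fun m' i' => if m' = m ∧ i' = i then 1 else 0) (fun x => M i x m)) :=
    fun m i => curlA_test (hbm m i)
  choose r hr using fun m i => Rep_proof Ω _ (hT m i)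
  have h1 := fun m => rep_sum (n := 3) _ (r m) (hT m) (hr m) Finset.univ
  have h2 := rep_sum (n := 3) _ _ (fun m => (h1 m).1) (fun m => (h1 m).2) Finset.univ
  rw [curl_divMat fun i => (hM i).1] at hp
  rw [rep_unique hp h2.2]
  refine Submodule.sum_mem _ fun m _ => Submodule.sum_mem _ fun i _ => ?_
  exact Submodule.le_topologicalClosure _ (Submodule.subset_span ⟨_, _, hbm m i, hr m i⟩)

end CurlDiv

open CurlDiv Ang in
/-- The fields `curl (div M)`. -/
theorem curlDiv_le (Ω : Set E) : curlDiv Ω ≤ curlW Ω := by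
  refine Submodule.topologicalClosure_minimal _ ?_ (Submodule.isClosed_topologicalClosure _)
  rw [Submodule.span_le]
  rintro p ⟨M, hM, hp⟩
  exact mem_curlW hM hp

open CurlDiv Ang in
theorem mem_of_angMom {Ω : Set E} (hΩ : IsOpen Ω) {c : E} (hcv : StarConvex ℝ c Ω) (hb : Bornology.IsBounded Ω)
    {w : V Ω} (hw : angMom w = 0) : w ∈ curlW Ω := by
  refine ang_proof hΩ hcv hb fun m => ?_
  rw [← angMom_apply hb, hw]
  rfl

end Pool.Agent.NSN
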