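import Pool.Agent.NSN.Embed

/-!
# MP_fd8964_an: in a star-shaped domain, `curlW Ω` contains all elements of `V` with angular momentum `0`
-/

open MeasureTheory Set Filter Topology
open scoped RealInnerProductSpace ContDiff

noncomputable section

namespace Pool.Agent.NSN

open Pool.Agent.NSD Pool.Agent.NSK

/-- The angular momentum `∫ x × w`. -/
def ang {Ω : Set E} (w : V Ω) (m : Fin 3) : ℝ :=
  ∑ j : Fin 3, ∑ k : Fin 3, lc m j k * ∫ x in Ω, x j * (fld w : E → E) x k

namespace Ang

open VDense KLimit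

/-! ### Smooth fields in star-shaped sets -/

lemma fderiv_apply_eq {f : E → ℝ} (a x : E) : fderiv ℝ f a x = ∑ k : Fin 3, x k * dd (e k) f a := by
  have := Base.dd_coord f x a
  simpa only [smul_eq_mul, dd] using this

/-- Coordinates. -/
def pr (l : Fin 3) : E →L[ℝ] ℝ := EuclideanSpace.proj l

lemma pr_apply (l : Fin 3) (x : E) : pr l x = x l := rfl

lemma const_of_deriv {f f' : ℝ → ℝ} (h : ∀ s, HasDerivAt f (f' s) s) (h0 : ∀ s ∈ Icc (0 : ℝ) 1, f' s = 0) :
    f 1 = f 0 := by
  have := constant_of_derivWithin_zero (f := f) (a := 0) (b := 1)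
    (fun x _ => (h x).differentiableAt.differentiableWithinAt) (fun x hx => by
      have hu : UniqueDiffWithinAt ℝ (Icc (0 : ℝ) 1) x := uniqueDiffOn_Icc one_pos x ⟨hx.1, hx.2.le⟩
      rw [(h x).hasDerivWithinAt.derivWithin hu]
      exact h0 x ⟨hx.1, hx.2.le⟩) 1 (right_mem_Icc.2 zero_le_one)
  exact this

/-- The integral of a curl free field against a test field is `0`. -/
lemma grad_orth {U : Set E} {c : E} (hU : ∀ x ∈ U, ∀ s ∈ Icc (0 : ℝ) 1, c + s • (x - c) ∈ U) {F : Fin 3 → E → ℝ}
    (hF : ∀ l, ContDiff ℝ ∞ (F l)) (hc : ∀ a ∈ U, ∀ k l, dd (e k) (F l) a = dd (e l) (F k) a)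
    {w : E → E} (hw : IsTest U w) : ∫ x, ∑ l, F l x * w x l = 0 := by
  have hcomp := fun l => cpt_comp hw l
  have hdiv : ∀ x, ∑ l : Fin 3, dd (e l) (fun x => w x l) x = 0 := by
    intro x
    have h1 := hw.2.2.2 x
    unfold divField at h1
    rw [← h1]
    exact Finset.sum_congr rfl fun l _ => (cpt_comp hw l).2.2.2 x (e l)
  set y : ℝ → E → E := fun s x => c + s • (x - c) with hy
  have hyc : Continuous fun p : ℝ × E => y p.1 p.2 := by fun_prop
  have hys : ∀ s, ContDiff ℝ ∞ (y s) := fun s => contDiff_const.add ((contDiff_id.sub contDiff_const).const_smul s)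
  set Φ : ℝ → E → ℝ := fun s x => ∑ l, (s * F l (y s x)) * w x l with hΦ
  set Φ' : ℝ → E → ℝ := fun s x => ∑ l, (F l (y s x) + s * fderiv ℝ (F l) (y s x) (x - c)) * w x l with hΦ'
  have hFc : ∀ l, Continuous fun p : ℝ × E => F l (y p.1 p.2) := fun l => (hF l).continuous.comp hyc
  have hFc' : ∀ l, Continuous fun p : ℝ × E => fderiv ℝ (F l) (y p.1 p.2) (p.2 - c) := fun l =>
    (((hF l).continuous_fderiv (by simp)).comp hyc).clm_apply (by fun_prop)
  have hwc : ∀ l, Continuous fun p : ℝ × E => w p.2 l := fun l => (hcomp l).1.continuous.comp continuous_snd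
  have hΦc : Continuous fun p : ℝ × E => Φ p.1 p.2 :=
    continuous_finsetSum _ fun l _ => (continuous_fst.mul (hFc l)).mul (hwc l)
  have hΦ'c : Continuous fun p : ℝ × E => Φ' p.1 p.2 :=
    continuous_finsetSum _ fun l _ => ((hFc l).add (continuous_fst.mul (hFc' l))).mul (hwc l)
  have hw0 : ∀ x, x ∉ tsupport w → w x = 0 := fun x hx => image_eq_zero_of_notMem_tsupport hx
  have hint : ∀ (Ψ : ℝ → E → ℝ), (Continuous fun p : ℝ × E => Ψ p.1 p.2) → (∀ s x, x ∉ tsupport w → Ψ s x = 0) →
      ∀ s, Integrable (Ψ s) := fun Ψ h1 h2 s =>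
    Continuous.integrable_of_hasCompactSupport (h1.comp (continuous_const.prodMk continuous_id))
      (HasCompactSupport.intro hw.2.1.isCompact fun x hx => h2 s x hx)
  have hΦ0 : ∀ s x, x ∉ tsupport w → Φ s x = 0 := fun s x hx => by
    simp only [hΦ, hw0 x hx]
    simp
  have hΦ'0 : ∀ s x, x ∉ tsupport w → Φ' s x = 0 := fun s x hx => by
    simp only [hΦ', hw0 x hx]
    simp
  have hder : ∀ s x, HasDerivAt (fun s => Φ s x) (Φ' s x) s := by
    intro s x
    refine HasDerivAt.fun_sum fun l _ => ?_
    have h1 : HasDerivAt (fun s => y s x) (x - c) s := by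
      have := ((hasDerivAt_id s).smul_const (x - c)).const_add c
      rw [one_smul] at this
      exact this
    have h2 := ((hF l).differentiable (by simp) (y s x)).hasFDerivAt.comp_hasDerivAt s h1
    have h3 := ((hasDerivAt_id s).mul h2).mul_const (w x l)
    refine h3.congr_deriv ?_
    simp only [id, one_mul, Function.comp]
  have hφ : ∀ s, HasDerivAt (fun s => ∫ x, Φ s x) (∫ x, Φ' s x) s := by
    intro s
    have hK : IsCompact (Icc (s - 1) (s + 1) ×ˢ tsupport w) := isCompact_Icc.prod hw.2.1.isCompact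
    obtain ⟨C, hC⟩ := hK.exists_bound_of_continuousOn hΦ'c.continuousOn
    refine (hasDerivAt_integral_of_dominated_loc_of_deriv_le (s := Ioo (s - 1) (s + 1))
      (bound := (tsupport w).indicator fun _ => C) (Ioo_mem_nhds (by linarith) (by linarith)) ?_ (hint Φ hΦc hΦ0 s)
      (hint Φ' hΦ'c hΦ'0 s).aestronglyMeasurable ?_ ?_ ?_).2
    · exact Eventually.of_forall fun s => (hint Φ hΦc hΦ0 s).aestronglyMeasurable
    · refine Eventually.of_forall fun x s' hs' => ?_
      by_cases hx : x ∈ tsupport w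
      · rw [indicator_of_mem hx]
        exact hC (s', x) ⟨⟨hs'.1.le, hs'.2.le⟩, hx⟩
      · rw [indicator_of_notMem hx, hΦ'0 s' x hx, norm_zero]
    · exact (integrableOn_const (hw.2.1.isCompact.measure_lt_top.ne) (by simp)).integrable_indicator
        (isClosed_tsupport _).measurableSet
    · exact Eventually.of_forall fun x s' _ => hder s' x
  have hzero : ∀ s ∈ Icc (0 : ℝ) 1, ∫ x, Φ' s x = 0 := by
    intro s hs
    set q : E → ℝ := fun x => ∑ k : Fin 3, F k (y s x) * (x - c) k with hq
    have hFs : ∀ k, ContDiff ℝ ∞ fun x => F k (y s x) := fun k => (hF k).comp (hys s)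
    have hps : ∀ k, ContDiff ℝ ∞ fun x : E => (x - c) k := fun k =>
      (pr k).contDiff.comp (contDiff_id.sub contDiff_const)
    have hqs : ContDiff ℝ ∞ q := ContDiff.sum fun k _ => (hFs k).mul (hps k)
    have hdq : ∀ (l : Fin 3) x, dd (e l) q x = F l (y s x) + s * ∑ k : Fin 3, (x - c) k * dd (e l) (F k) (y s x) := by
      intro l x
      have h1 : ∀ k : Fin 3, HasFDerivAt (fun x => F k (y s x) * (x - c) k)
          (F k (y s x) • pr k + ((x - c) k) • ((fderiv ℝ (F k) (y s x)).comp (s • ContinuousLinearMap.id ℝ E))) x := by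
        intro k
        have h2 : HasFDerivAt (y s) (s • ContinuousLinearMap.id ℝ E) x :=
          (((hasFDerivAt_id x).sub_const c).const_smul s).const_add c
        have h3 := ((hF k).differentiable (by simp) (y s x)).hasFDerivAt.comp x h2
        have h4 : HasFDerivAt (fun x : E => (x - c) k) (pr k) x := by
          have := (pr k).hasFDerivAt.comp x ((hasFDerivAt_id x).sub_const c)
          rw [ContinuousLinearMap.comp_id] at this
          exact this
        exact h3.mul h4
      have h5 : HasFDerivAt q _ x := HasFDerivAt.fun_sum fun k _ => h1 k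
      unfold dd
      rw [h5.fderiv, ContinuousLinearMap.sum_apply]
      have h6 : ∀ k : Fin 3, (F k (y s x) • pr k + ((x - c) k) •
          ((fderiv ℝ (F k) (y s x)).comp (s • ContinuousLinearMap.id ℝ E))) (e l)
          = (if k = l then F k (y s x) else 0) + s * ((x - c) k * fderiv ℝ (F k) (y s x) (e l)) := by
        intro k
        have e1 : (F k (y s x) • pr k + ((x - c) k) •
          ((fderiv ℝ (F k) (y s x)).comp (s • ContinuousLinearMap.id ℝ E))) (e l)
          = F k (y s x) * (e l) k + (x - c) k * fderiv ℝ (F k) (y s x) (s • e l) := rfl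
        rw [e1, map_smul, e_apply, smul_eq_mul]
        split_ifs <;> ring
      rw [Finset.sum_congr rfl fun k _ => h6 k, Finset.sum_add_distrib, Finset.sum_ite_eq', if_pos (Finset.mem_univ _),
        Finset.mul_sum]
    have h1 : ∀ x, Φ' s x = ∑ l, dd (e l) q x * w x l := by
      intro x
      by_cases hx : x ∈ tsupport w
      · refine Finset.sum_congr rfl fun l _ => ?_
        rw [hdq l x, fderiv_apply_eq]
        congr 3
        refine Finset.sum_congr rfl fun k _ => ?_
        rw [hc (y s x) (hU x (hw.2.2.1 hx) s hs) k l]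
      · rw [hΦ'0 s x hx, hw0 x hx]
        simp
    simp_rw [h1]
    have hI : ∀ l, Integrable fun x => dd (e l) q x * w x l := fun l =>
      ((Base.dd_contDiff hqs (e l)).continuous.mul (hcomp l).1.continuous).integrable_of_hasCompactSupport
        (hcomp l).2.1.mul_left
    have hI' : ∀ l : Fin 3, Integrable fun x => q x * dd (e l) (fun x => w x l) x := fun l =>
      (hqs.continuous.mul (Base.dd_contDiff (hcomp l).1 (e l)).continuous).integrable_of_hasCompactSupport
        (bump_dd (Ω := U) ⟨(hcomp l).1, (hcomp l).2.1, (hcomp l).2.2.1⟩ (e l)).2.1.mul_left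
    rw [integral_finsetSum _ fun l _ => hI l]
    have h2 : ∀ l : Fin 3, ∫ x, dd (e l) q x * w x l = - ∫ x, q x * dd (e l) (fun x => w x l) x := by
      intro l
      rw [Heat.ibp (e l) hqs (hcomp l).1 (hcomp l).2.1, neg_neg]
    rw [Finset.sum_congr rfl fun l _ => h2 l, Finset.sum_neg_distrib, ← integral_finsetSum _ fun l _ => hI' l]
    simp only [← Finset.mul_sum, hdiv, mul_zero, integral_zero, neg_zero]
  have h1 := const_of_deriv hφ hzero
  simp only [hΦ, hy, one_mul, one_smul, add_sub_cancel, zero_mul, Finset.sum_const_zero, integral_zero] at h1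
  exact h1

/-- A linear function. -/
def lin (s : Fin 3 → ℝ) : E →L[ℝ] ℝ := ∑ k : Fin 3, s k • pr k

lemma lin_apply (s : Fin 3 → ℝ) (x : E) : lin s x = ∑ k : Fin 3, s k * x k := by
  unfold lin
  rw [ContinuousLinearMap.sum_apply]
  rfl

lemma dd_lin (s : Fin 3 → ℝ) (k : Fin 3) (x : E) : dd (e k) (fun x => lin s x) x = s k := by
  unfold dd
  rw [(lin s).hasFDerivAt.fderiv, lin_apply]
  simp [e_apply]

/-- The integral of a field, whose curl is constant, against a test field with angular momentum `0` is `0`. -/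
lemma smooth_part {U : Set E} {c : E} (hU : ∀ x ∈ U, ∀ s ∈ Icc (0 : ℝ) 1, c + s • (x - c) ∈ U) {T : Fin 3 → E → ℝ}
    (hT : ∀ l, ContDiff ℝ ∞ (T l))
    (hc : ∀ a ∈ U, ∀ i m, ∑ l : Fin 3, ∑ k : Fin 3, lc l k m * dd (e i) (dd (e k) (T l)) a = 0)
    {w : E → E} (hw : IsTest U w) (hJ : ∀ m, ∑ j : Fin 3, ∑ k : Fin 3, lc m j k * ∫ x, x j * w x k = 0) :
    ∫ x, ∑ l, T l x * w x l = 0 := by
  rcases U.eq_empty_or_nonempty with hem | ⟨a₀, ha₀⟩
  · have h0 : ∀ x, w x = 0 := fun x => image_eq_zero_of_notMem_tsupport fun hx => by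
      have := hw.supp hx
      rw [hem] at this
      exact this
    simp [h0]
  -- the curl is constant
  set om : Fin 3 → E → ℝ := fun m x => ∑ l : Fin 3, ∑ k : Fin 3, lc l k m • dd (e k) (T l) x with hom
  have hdT : ∀ l k, ContDiff ℝ ∞ (dd (e k) (T l)) := fun l k => Base.dd_contDiff (hT l) (e k)
  have homs : ∀ m, ContDiff ℝ ∞ (om m) := fun m =>
    ContDiff.sum fun l _ => ContDiff.sum fun k _ => (hdT l k).const_smul _
  have hom0 : ∀ m, ∀ a ∈ U, fderiv ℝ (om m) a = 0 := by
    intro m a ha
    have h1 : ∀ i, dd (e i) (om m) a = 0 := by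
      intro i
      have h2 := congrFun (Base.dd_sum Finset.univ (fun l : Fin 3 =>
        (ContDiff.sum fun k _ => (hdT l k).const_smul _ :
          ContDiff ℝ ∞ (fun x => ∑ k : Fin 3, lc l k m • dd (e k) (T l) x))) (e i)) a
      rw [h2]
      have h3 : ∀ l : Fin 3, dd (e i) (fun x => ∑ k : Fin 3, lc l k m • dd (e k) (T l) x) a
          = ∑ k : Fin 3, lc l k m * dd (e i) (dd (e k) (T l)) a := by
        intro l
        have h4 := congrFun (Base.dd_sum Finset.univ (fun k : Fin 3 =>
          ((hdT l k).const_smul (lc l k m) : ContDiff ℝ ∞ (fun x => lc l k m • dd (e k) (T l) x))) (e i)) a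
        rw [h4]
        refine Finset.sum_congr rfl fun k _ => ?_
        have h5 := congrFun (Base.dd_smul (hdT l k) (lc l k m) (e i)) a
        simpa only [smul_eq_mul] using h5
      rw [Finset.sum_congr rfl fun l _ => h3 l]
      exact hc a ha i m
    ext x
    rw [fderiv_apply_eq]
    simp [h1]
  have homc' : ∀ m, ∀ a ∈ U, om m a = om m c := by
    intro m a ha
    have h1 : ∀ s, HasDerivAt (fun s : ℝ => om m (c + s • (a - c))) (fderiv ℝ (om m) (c + s • (a - c)) (a - c)) s := by
      intro s
      have h1 : HasDerivAt (fun s : ℝ => c + s • (a - c)) (a - c) s := by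
        have := ((hasDerivAt_id s).smul_const (a - c)).const_add c
        simpa using this
      exact ((homs m).differentiable (by simp) _).hasFDerivAt.comp_hasDerivAt s h1
    have h2 := const_of_deriv h1 fun s hs => by
      rw [hom0 m _ (hU a ha s hs)]
      rfl
    simpa using h2
  have homc : ∀ m, ∀ a ∈ U, om m a = om m a₀ := fun m a ha => (homc' m a ha).trans (homc' m a₀ ha₀).symm
  set d : Fin 3 → ℝ := fun m => - (om m a₀) / 2 with hd
  set s : Fin 3 → Fin 3 → ℝ := fun l k => ∑ j : Fin 3, lc l j k * d j with hs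
  set F : Fin 3 → E → ℝ := fun l x => T l x - lin (s l) x with hF
  have hFs : ∀ l, ContDiff ℝ ∞ (F l) := fun l => (hT l).sub (lin (s l)).contDiff
  have hdF : ∀ k l a, dd (e k) (F l) a = dd (e k) (T l) a - s l k := by
    intro k l a
    have h1 := congrFun (Base.dd_sub (hT l) (lin (s l)).contDiff (e k)) a
    rw [← dd_lin (s l) k a]
    exact h1
  have hcF : ∀ a ∈ U, ∀ k l, dd (e k) (F l) a = dd (e l) (F k) a := by
    intro a ha k l
    rw [hdF, hdF]
    have h0 : ∀ m, om m a₀ = om m a := fun m => (homc m a ha).symm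
    simp only [hs, hd, h0]
    simp only [hom, Fin.sum_univ_three, smul_eq_mul]
    simp only [lc]
    fin_cases k <;> fin_cases l <;> simp only [Fin.zero_eta, Fin.mk_one, Fin.reduceFinMk] <;> norm_num <;> ring
  have h1 := grad_orth hU hFs hcF hw
  have hcomp := fun l => cpt_comp hw l
  have hIT : ∀ (f : E → ℝ) (l : Fin 3), Continuous f → Integrable (fun x => f x * w x l) := fun f l hf =>
    (hf.mul (hcomp l).1.continuous).integrable_of_hasCompactSupport (hcomp l).2.1.mul_left
  have hIp : ∀ k l : Fin 3, Integrable (fun x : E => x k * w x l) := fun k l => hIT _ l (pr k).continuous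
  have h2 : ∀ l, ∫ x, lin (s l) x * w x l = ∑ k : Fin 3, s l k * ∫ x : E, x k * w x l := by
    intro l
    have e1 : ∀ x : E, lin (s l) x * w x l = ∑ k : Fin 3, s l k * (x k * w x l) := by
      intro x
      rw [lin_apply, Finset.sum_mul]
      exact Finset.sum_congr rfl fun k _ => by ring
    simp_rw [e1]
    rw [integral_finsetSum _ fun k _ => (hIp k l).const_mul _]
    exact Finset.sum_congr rfl fun k _ => integral_const_mul _ _
  have h3 : ∫ x, ∑ l, T l x * w x l = (∫ x, ∑ l, F l x * w x l) + ∑ l, ∫ x, lin (s l) x * w x l := by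
    rw [← integral_finsetSum _ fun l _ => hIT _ l (lin (s l)).continuous,
      ← integral_add (integrable_finsetSum _ fun l _ => hIT _ l (hFs l).continuous)
        (integrable_finsetSum _ fun l _ => hIT _ l (lin (s l)).continuous)]
    refine integral_congr_ae (Eventually.of_forall fun x => ?_)
    simp only
    rw [← Finset.sum_add_distrib]
    refine Finset.sum_congr rfl fun l _ => ?_
    simp only [hF]
    ring
  rw [h3, h1, zero_add, Finset.sum_congr rfl fun l _ => h2 l]
  simp only [hs]
  have j0 := hJ 0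
  have j1 := hJ 1
  have j2 := hJ 2
  simp only [Fin.sum_univ_three, lc] at j0 j1 j2 ⊢
  norm_num at j0 j1 j2 ⊢
  linear_combination d 0 * j0 + d 1 * j1 + d 2 * j2

end Ang

end Pool.Agent.NSN
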