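import Pool.Agent.NSN.Ang
import Pool.Agent.NSK.Lap

/-!
# MP_fd8964_an: star-shaped domains, part 2 (mollification)
-/

open MeasureTheory Set Filter Topology
open scoped RealInnerProductSpace ContDiff Convolution

noncomputable section

namespace Pool.Agent.NSN

open Pool.Agent.NSD Pool.Agent.NSK

namespace Ang

open VDense KLimit

/-! ### Convolutions -/

/-- `z ↦ ∫ K(x - z) g(x) dx`. -/
def S (g K : E → ℝ) (z : E) : ℝ := ∫ x, K (x - z) * g x

lemma S_eq (g K : E → ℝ) :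
    S g K = (g ⋆[ContinuousLinearMap.mul ℝ ℝ, volume] fun y => K (-y)) := by
  funext z
  unfold S convolution
  refine integral_congr_ae (Eventually.of_forall fun x => ?_)
  simp only [ContinuousLinearMap.mul_apply', neg_sub]
  ring

lemma neg_compact {K : E → ℝ} (hc : HasCompactSupport K) : HasCompactSupport fun y : E => K (-y) :=
  hc.comp_homeomorph (Homeomorph.neg E)

lemma S_smooth {g K : E → ℝ} (hg : Integrable g) (hK : ContDiff ℝ ∞ K)
    (hc : HasCompactSupport K) : ContDiff ℝ ∞ (S g K) := by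
  rw [S_eq]
  exact (neg_compact hc).contDiff_convolution_right (n := (⊤ : ℕ∞)) _ hg.locallyIntegrable (hK.comp contDiff_neg)

lemma dd_neg_arg {K : E → ℝ} (hK : ContDiff ℝ ∞ K) (v y : E) : fderiv ℝ (fun y => K (-y)) y v = - dd v K (-y) := by
  have h1 : HasFDerivAt (fun y : E => -y) (-(ContinuousLinearMap.id ℝ E)) y := (hasFDerivAt_id y).neg
  have h2 := (hK.differentiable (by simp) (-y)).hasFDerivAt.comp y h1
  have e1 : (fun y => K (-y)) = K ∘ fun y => -y := rfl
  rw [e1, h2.fderiv]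
  simp [dd]

lemma dd_S {g K : E → ℝ} (hg : Integrable g) (hK : ContDiff ℝ ∞ K)
    (hc : HasCompactSupport K) (v z : E) : dd v (S g K) z = - S g (dd v K) z := by
  have hs : ContDiff ℝ ∞ fun y : E => K (-y) := hK.comp contDiff_neg
  have h1 := (neg_compact hc).hasFDerivAt_convolution_right (ContinuousLinearMap.mul ℝ ℝ) hg.locallyIntegrable
    (hs.of_le (by simp)) z
  have h2 := ((neg_compact hc).fderiv ℝ).convolutionExists_right
    ((ContinuousLinearMap.mul ℝ ℝ).precompR E) hg.locallyIntegrable (hs.continuous_fderiv (by simp)) z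
  unfold dd
  rw [S_eq, h1.fderiv]
  unfold convolution
  rw [ContinuousLinearMap.integral_apply h2, S, ← integral_neg]
  refine integral_congr_ae (Eventually.of_forall fun x => ?_)
  have e1 : (((ContinuousLinearMap.mul ℝ ℝ).precompR E) (g x) (fderiv ℝ (fun y => K (-y)) (z - x))) v
      = g x * fderiv ℝ (fun y => K (-y)) (z - x) v := rfl
  simp only
  rw [e1, dd_neg_arg hK, neg_sub]
  simp only [dd]
  ring

lemma dd_compact {K : E → ℝ} (hc : HasCompactSupport K) (v : E) : HasCompactSupport (dd v K) :=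
  hc.of_isClosed_subset (isClosed_tsupport _) (dd_support v K)

lemma dd_dd_S {g K : E → ℝ} (hg : Integrable g) (hK : ContDiff ℝ ∞ K)
    (hc : HasCompactSupport K) (v u z : E) : dd u (dd v (S g K)) z = S g (dd u (dd v K)) z := by
  have h1 : dd v (S g K) = fun z => (-1 : ℝ) • S g (dd v K) z := by
    funext z
    rw [dd_S hg hK hc, neg_one_smul]
  have h2 := Base.dd_contDiff hK v
  rw [h1, Base.dd_smul (S_smooth hg h2 (dd_compact hc v)) (-1 : ℝ) u]
  simp only
  rw [dd_S hg h2 (dd_compact hc v)]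
  simp

/-! ### Orthogonality to `curlW` -/

/-- The test fields `curl (A ∇χ)` are orthogonal to `Λ`. -/
def Orth {Ω : Set E} (Λ : V Ω) : Prop :=
  ∀ (A : Fin 3 → Fin 3 → ℝ) (χ : E → ℝ) (p : V Ω), IsBump Ω χ → Represents Ω (curlA A χ) p → ⟪p, Λ⟫ = 0

lemma orth_point {Ω : Set E} (hΩ : IsOpen Ω) (hb : Bornology.IsBounded Ω) {Λ : V Ω} (hΛ : Orth Λ) {χ : E → ℝ}
    (hχ : IsBump Ω χ) (i m : Fin 3) :
    ∑ l : Fin 3, ∑ k : Fin 3, lc l k m * JF Λ l (dd (e i) (dd (e k) (DD χ))) = 0 := by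
  have hD := DD_bump hχ
  set P : Fin 3 → Fin 3 → Fin 3 → ℝ := fun i k l => JF Λ l (dd (e i) (dd (e k) (DD χ))) with hP
  set Q : Fin 3 → Fin 3 → ℝ := fun i m => ∑ l : Fin 3, ∑ k : Fin 3, lc l k m * P i k l with hQ
  obtain ⟨p, hp⟩ := Rep_proof Ω _ (curlA_test (A := fun m i => Q i m) hχ)
  have h1 := pair_curlA lap_proof hΩ hb Λ _ hχ hp
  rw [hΛ _ _ p hχ hp] at h1
  have hs : ∀ i k l, P i k l = P k i l := by
    intro i k l
    simp only [hP]
    rw [Base.dd_comm hD.1 (e i) (e k)]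
  have e1 : ∀ l, P 1 0 l = P 0 1 l := fun l => hs _ _ _
  have e2 : ∀ l, P 2 0 l = P 0 2 l := fun l => hs _ _ _
  have e3 : ∀ l, P 2 1 l = P 1 2 l := fun l => hs _ _ _
  change 0 = ∑ k, ∑ i, ∑ l, TA _ k i l * P i k l at h1
  have h2 : ∀ A : Fin 3 → Fin 3 → ℝ, ∑ k, ∑ i, ∑ l, TA A k i l * P i k l = ∑ m, ∑ i, A m i * Q i m := by
    intro A
    simp only [hQ, Fin.sum_univ_three, TA, e1, e2, e3]
    simp only [lc]
    norm_num
    ring
  rw [h2] at h1
  have h3 : ∑ m, ∑ i, Q i m * Q i m = 0 := h1.symm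
  have h4 := (Finset.sum_eq_zero_iff_of_nonneg fun m _ => Finset.sum_nonneg fun i _ => mul_self_nonneg _).1 h3 m
    (Finset.mem_univ _)
  have h5 := (Finset.sum_eq_zero_iff_of_nonneg fun i _ => mul_self_nonneg _).1 h4 i (Finset.mem_univ _)
  exact mul_self_eq_zero.1 h5

/-! ### Translations and scalings -/

lemma dd_shift {h : E → ℝ} (hh : ContDiff ℝ ∞ h) (v z : E) :
    dd v (fun x => h (x - z)) = fun x => dd v h (x - z) := by
  funext x
  have h1 : HasFDerivAt (fun x : E => x - z) (ContinuousLinearMap.id ℝ E) x := (hasFDerivAt_id x).sub_const z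
  have h2 := (hh.differentiable (by simp) (x - z)).hasFDerivAt.comp x h1
  have e1 : (fun x => h (x - z)) = h ∘ fun x => x - z := rfl
  unfold dd
  rw [e1, h2.fderiv]
  simp

lemma lap_shift {h : E → ℝ} (hh : ContDiff ℝ ∞ h) (z x : E) :
    lap (fun x => h (x - z)) x = lap h (x - z) := by
  unfold lap
  refine Finset.sum_congr rfl fun i _ => ?_
  rw [dd_shift hh, dd_shift (Base.dd_contDiff hh (e i))]

lemma DD_shift {h : E → ℝ} (hh : ContDiff ℝ ∞ h) (z : E) :
    DD (fun x => h (x - z)) = fun x => DD h (x - z) := by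
  funext x
  simp only [DD]
  rw [lap_shift hh]

lemma bump_scaled {Ω : Set E} {b : E → ℝ} (hbb : IsBump (Metric.ball 0 1) b) {ε : ℝ} (hε : 0 < ε) {z : E}
    (hz : Metric.ball z ε ⊆ Ω) : IsBump Ω (fun x => b (ε⁻¹ • (x - z))) := by
  have hs : ContDiff ℝ ∞ fun x : E => ε⁻¹ • (x - z) := (contDiff_id.sub contDiff_const).const_smul _
  set K : Set E := (fun y => z + ε • y) '' tsupport b with hK
  have hKc : IsCompact K := hbb.2.1.isCompact.image (by fun_prop)
  have hsub : tsupport (fun x => b (ε⁻¹ • (x - z))) ⊆ K := by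
    refine closure_minimal (fun x hx => ?_) hKc.isClosed
    refine ⟨ε⁻¹ • (x - z), subset_tsupport b hx, ?_⟩
    simp only [smul_smul, mul_inv_cancel₀ hε.ne', one_smul]
    abel
  refine ⟨hbb.1.comp hs, hKc.of_isClosed_subset (isClosed_tsupport _) hsub, hsub.trans ?_⟩
  rintro _ ⟨y, hy, rfl⟩
  refine hz ?_
  have h1 := hbb.2.2 hy
  rw [mem_ball_zero_iff] at h1
  rw [Metric.mem_ball, dist_eq_norm, add_sub_cancel_left, norm_smul, Real.norm_of_nonneg hε.le]
  nlinarith

lemma exists_bump : ∃ b : E → ℝ, IsBump (Metric.ball 0 1) b ∧ 0 < ∫ y, b y := by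
  let f : ContDiffBump (0 : E) := ⟨1 / 4, 1 / 2, by norm_num, by norm_num⟩
  refine ⟨f, ⟨f.contDiff, f.hasCompactSupport, ?_⟩, f.integral_pos⟩
  rw [f.tsupport_eq]
  exact Metric.closedBall_subset_ball (by norm_num)

/-! ### Mollified functionals -/

/-- Test fields with angular momentum `0` are orthogonal to the mollified functional. -/
lemma moll {Ω : Set E} (hΩ : IsOpen Ω) (hb : Bornology.IsBounded Ω) {Λ : V Ω} (hΛ : Orth Λ)
    {b : E → ℝ} (hbb : IsBump (Metric.ball 0 1) b) {w : E → E} (hw : IsTest Ω w)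
    (hJ : ∀ m, ∑ j : Fin 3, ∑ k : Fin 3, lc m j k * ∫ x, x j * w x k = 0) {c : E} {ρ ε : ℝ} (hε : 0 < ε)
    (hερ : ε < ρ) (hρ : ∀ z ∈ tsupport w, ∀ s ∈ Icc (0 : ℝ) 1, Metric.ball (c + s • (z - c)) ρ ⊆ Ω) :
    ∑ l, ∫ x in Ω, (∫ y, DD (fun x => w x l) (x - ε • y) * b y) * fc Λ l x = 0 := by
  set D : Set E := {z | ∀ s ∈ Icc (0 : ℝ) 1, Metric.ball (c + s • (z - c)) ε ⊆ Ω} with hD
  have hDs : ∀ x ∈ D, ∀ s ∈ Icc (0 : ℝ) 1, c + s • (x - c) ∈ D := by
    intro x hx s hs s' hs'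
    have e1 : c + s' • (c + s • (x - c) - c) = c + (s' * s) • (x - c) := by
      rw [add_sub_cancel_left, smul_smul]
    rw [e1]
    exact hx (s' * s) ⟨mul_nonneg hs'.1 hs.1, mul_le_one₀ hs'.2 hs.1 hs.2⟩
  have hD1 : ∀ z ∈ D, Metric.ball z ε ⊆ Ω := by
    intro z hz
    have := hz 1 (right_mem_Icc.2 zero_le_one)
    rwa [one_smul, add_sub_cancel] at this
  have hwU : tsupport w ⊆ D := fun z hz s hs => (Metric.ball_subset_ball hερ.le).trans (hρ z hz s hs)
  have hwt : IsTest D w := ⟨hw.1, hw.2.1, hwU, hw.2.2.2⟩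
  -- the kernel
  set h : E → ℝ := fun y => b (ε⁻¹ • y) with hh
  have hhs : ContDiff ℝ ∞ h := hbb.1.comp (contDiff_id.const_smul _)
  have hhc : HasCompactSupport h := by
    have := (bump_scaled hbb hε (z := 0) (Ω := univ) (subset_univ _)).2.1
    simpa [hh] using this
  have hhb : IsBump univ h := ⟨hhs, hhc, subset_univ _⟩
  have hKb : IsBump univ (DD h) := DD_bump hhb
  set g : Fin 3 → E → ℝ := fun l => Ω.indicator (fc Λ l) with hg
  have hgi : ∀ l, Integrable (g l) := fun l => by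
    rw [integrable_indicator_iff hΩ.measurableSet]
    exact intg_fc hb Λ l
  have hS : ∀ (K : E → ℝ) (l : Fin 3) (z : E), S (g l) K z = ∫ x in Ω, K (x - z) * fc Λ l x := by
    intro K l z
    unfold S
    rw [← integral_indicator hΩ.measurableSet]
    refine integral_congr_ae (Eventually.of_forall fun x => ?_)
    simp only [hg, indicator]
    split_ifs <;> simp
  set T : Fin 3 → E → ℝ := fun l => S (g l) (DD h) with hT
  have hTs : ∀ l, ContDiff ℝ ∞ (T l) := fun l => S_smooth (hgi l) hKb.1 hKb.2.1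
  have hc : ∀ a ∈ D, ∀ i m, ∑ l : Fin 3, ∑ k : Fin 3, lc l k m * dd (e i) (dd (e k) (T l)) a = 0 := by
    intro a ha i m
    have hχ : IsBump Ω (fun x => b (ε⁻¹ • (x - a))) := bump_scaled hbb hε (hD1 a ha)
    rw [← orth_point hΩ hb hΛ hχ i m]
    refine Finset.sum_congr rfl fun l _ => Finset.sum_congr rfl fun k _ => ?_
    congr 1
    rw [hT]
    simp only
    rw [dd_dd_S (hgi l) hKb.1 hKb.2.1, hS]
    unfold JF
    have e1 : (fun x => b (ε⁻¹ • (x - a))) = fun x => h (x - a) := rfl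
    rw [e1, DD_shift hhs, dd_shift hKb.1, dd_shift (Base.dd_contDiff hKb.1 (e k))]
  have h1 := smooth_part hDs hTs hc hwt hJ
  have hcw : ∀ l, IsBump Ω (fun x => w x l) := fun l =>
    ⟨(cpt_comp hw l).1, (cpt_comp hw l).2.1, (cpt_comp hw l).2.2.1⟩
  obtain ⟨Cb, -, hCb⟩ := bump_bdd hbb
  have h2 : ∀ l, Integrable (fun z => T l z * w z l) ∧ ∫ z, T l z * w z l
      = ε ^ 3 * ∫ x in Ω, (∫ y, DD (fun x => w x l) (x - ε • y) * b y) * fc Λ l x := by
    intro l
    have hav := avg (hcw l) hbb (intg_fc hb Λ l) hε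
    have e1 : ∀ z, T l z * w z l = w z l * ∫ x in Ω, DD (fun x => b (ε⁻¹ • (x - z))) x * fc Λ l x := by
      intro z
      rw [hT]
      simp only
      rw [hS, mul_comm]
      have e1 : (fun x => b (ε⁻¹ • (x - z))) = fun x => h (x - z) := rfl
      rw [e1, DD_shift hhs]
    simp_rw [e1]
    refine ⟨hav.1, hav.2.trans ?_⟩
    exact fubini (DD_bump (hcw l)).1.continuous (DD_bump (hcw l)).2.1 hbb.1.continuous hCb (intg_fc hb Λ l) hε
  rw [integral_finsetSum _ fun l _ => (h2 l).1, Finset.sum_congr rfl fun l _ => (h2 l).2, ← Finset.mul_sum] at h1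
  exact (mul_eq_zero.1 h1).resolve_left (by positivity)

/-- Test fields with angular momentum `0` are orthogonal to `Λ`. -/
lemma test_orth {Ω : Set E} (hΩ : IsOpen Ω) {c : E} (hcv : StarConvex ℝ c Ω) (hb : Bornology.IsBounded Ω) {Λ : V Ω}
    (hΛ : Orth Λ)
    {w : E → E} (hw : IsTest Ω w) {p : V Ω} (hp : Represents Ω w p)
    (hJ : ∀ m, ∑ j : Fin 3, ∑ k : Fin 3, lc m j k * ∫ x, x j * w x k = 0) : ⟪p, Λ⟫ = 0 := by
  obtain ⟨b, hbb, hbpos⟩ := exists_bump
  have hK : IsCompact ((fun p : ℝ × E => c + p.1 • (p.2 - c)) '' (Icc (0 : ℝ) 1 ×ˢ tsupport w)) :=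
    (isCompact_Icc.prod hw.2.1.isCompact).image (by fun_prop)
  have hKΩ : (fun p : ℝ × E => c + p.1 • (p.2 - c)) '' (Icc (0 : ℝ) 1 ×ˢ tsupport w) ⊆ Ω := by
    rintro _ ⟨⟨s, z⟩, ⟨hs, hz⟩, rfl⟩
    exact hcv.add_smul_sub_mem (hw.2.2.1 hz) hs.1 hs.2
  obtain ⟨ρ, hρ, hthick⟩ := hK.exists_thickening_subset_open hΩ hKΩ
  have hball : ∀ z ∈ tsupport w, ∀ s ∈ Icc (0 : ℝ) 1, Metric.ball (c + s • (z - c)) ρ ⊆ Ω := by
    intro z hz s hs
    have hmem : c + s • (z - c) ∈ (fun p : ℝ × E => c + p.1 • (p.2 - c)) '' (Icc (0 : ℝ) 1 ×ˢ tsupport w) :=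
      ⟨(s, z), ⟨hs, hz⟩, rfl⟩
    exact (Metric.ball_subset_thickening hmem ρ).trans hthick
  have hcw : ∀ l, IsBump Ω (fun x => w x l) := fun l =>
    ⟨(cpt_comp hw l).1, (cpt_comp hw l).2.1, (cpt_comp hw l).2.2.1⟩
  have hDw := fun l => DD_bump (hcw l)
  set Γ := ∫ y, b y with hΓ
  set w₁ : E := ∫ y : E, b y • y with hw₁
  have hex := fun l => expand (hDw l) hbb (Γ₁ := 1) hΓ.symm (by rw [one_smul] : ∫ y : E, b y • y = (1 : ℝ) • w₁)
  choose C hC0 hC using hex
  have hbd := fun l => bump_bdd (bump_dd (hDw l) w₁)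
  choose C' hC'0 hC' using hbd
  obtain ⟨Cb, -, hCb⟩ := bump_bdd hbb
  rw [(pairV lap_proof hΩ hb hw hp Λ).1]
  set X := ∑ l, ∫ x in Ω, DD (fun x => w x l) x * fc Λ l x with hX
  set I := ∑ l, (C l + C' l) * ∫ x in Ω, |fc Λ l x| with hI
  have hI0 : 0 ≤ I := Finset.sum_nonneg fun l _ =>
    mul_nonneg (add_nonneg (hC0 l) (hC'0 l)) (integral_nonneg fun x => abs_nonneg _)
  have key : ∀ ε : ℝ, 0 < ε → ε < ρ → ε ≤ 1 → |Γ * X| ≤ ε * I := by
    intro ε hε hερ hε1
    have h0 := moll hΩ hb hΛ hbb hw hJ hε hερ hball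
    have hi : ∀ l, Integrable (fun x => (∫ y, DD (fun x => w x l) (x - ε • y) * b y) * fc Λ l x)
        (volume.restrict Ω) := fun l =>
      fubini_x (hDw l).1.continuous (hDw l).2.1 hbb.1.continuous hCb (intg_fc hb Λ l) hε
    have hi' : ∀ l, Integrable (fun x => Γ * (DD (fun x => w x l) x * fc Λ l x)) (volume.restrict Ω) := fun l =>
      (bump_mul_int (hDw l) (intg_fc hb Λ l)).const_mul _
    have e1 : Γ * X = ∑ l, ∫ x in Ω, (Γ * (DD (fun x => w x l) x * fc Λ l x)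
        - (∫ y, DD (fun x => w x l) (x - ε • y) * b y) * fc Λ l x) := by
      rw [Finset.sum_congr rfl fun l _ => integral_sub (hi' l) (hi l), Finset.sum_sub_distrib, h0, sub_zero, hX,
        Finset.mul_sum]
      exact Finset.sum_congr rfl fun l _ => (integral_const_mul _ _).symm
    rw [e1, hI, Finset.mul_sum]
    refine (Finset.abs_sum_le_sum_abs _ _).trans (Finset.sum_le_sum fun l _ => ?_)
    rw [← mul_assoc, ← integral_const_mul]
    refine (abs_integral_le_integral_abs).trans (integral_mono_of_nonneg (Eventually.of_forall fun x => abs_nonneg _)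
      ((intg_fc hb Λ l).abs.const_mul _) (Eventually.of_forall fun x => ?_))
    simp only
    rw [← mul_assoc, ← sub_mul, abs_mul]
    refine mul_le_mul_of_nonneg_right ?_ (abs_nonneg _)
    have h3 := hC l ε x
    have h4 := hC' l x
    rw [mul_one] at h3
    have e2 : Γ * DD (fun x => w x l) x - ∫ y, DD (fun x => w x l) (x - ε • y) * b y
        = -((∫ y, DD (fun x => w x l) (x - ε • y) * b y)
          - (Γ * DD (fun x => w x l) x - ε * dd w₁ (DD fun x => w x l) x)) + ε * dd w₁ (DD fun x => w x l) x := by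
      ring
    rw [e2]
    refine (abs_add_le _ _).trans ?_
    rw [abs_neg, abs_mul, abs_of_pos hε]
    have h5 : C l * ε ^ 2 ≤ C l * ε := by
      refine mul_le_mul_of_nonneg_left ?_ (hC0 l)
      nlinarith
    have h6 : ε * |dd w₁ (DD fun x => w x l) x| ≤ ε * C' l := mul_le_mul_of_nonneg_left h4 hε.le
    linarith
  have hΓX : Γ * X = 0 := by
    by_contra hne
    have hpos : 0 < |Γ * X| := abs_pos.2 hne
    set ε := min (min (ρ / 2) 1) (|Γ * X| / (2 * (I + 1))) with hεd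
    have hε : 0 < ε := lt_min (lt_min (by linarith) one_pos) (by positivity)
    have h1 : ε < ρ := lt_of_le_of_lt ((min_le_left _ _).trans (min_le_left _ _)) (by linarith)
    have h2 : ε ≤ 1 := (min_le_left _ _).trans (min_le_right _ _)
    have h3 : ε * (2 * (I + 1)) ≤ |Γ * X| := by
      have := min_le_right (min (ρ / 2) 1) (|Γ * X| / (2 * (I + 1)))
      rw [← hεd, le_div_iff₀ (by positivity)] at this
      exact this
    have h4 := key ε hε h1 h2
    nlinarith
  exact (mul_eq_zero.1 hΓX).resolve_left hbpos.ne'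

end Ang

end Pool.Agent.NSN
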