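import Pool.Agent.NSN.Ang2

/-!
# MP_fd8964_an: star-shaped domains, part 3
-/

open MeasureTheory Set Filter Topology
open scoped RealInnerProductSpace ContDiff

noncomputable section

namespace Pool.Agent.NSN

open Pool.Agent.NSD Pool.Agent.NSK

namespace Ang

open VDense KLimit

/-! ### The angular momentum is a continuous linear map -/

lemma mom_memLp {Ω : Set E} (hb : Bornology.IsBounded Ω) (j k : Fin 3) :
    MemLp (fun x : E => x j • e k) 2 (volume.restrict Ω) := by
  have := Weak.finiteMeasure hb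
  obtain ⟨R, hR⟩ := hb.subset_closedBall (0 : E)
  have hc : Continuous fun x : E => x j • e k := (pr j).continuous.smul continuous_const
  refine MemLp.of_bound hc.aestronglyMeasurable R ?_
  have h1 : ∀ᵐ y ∂(volume.restrict Ω), y ∈ Metric.closedBall (0 : E) R := by
    have h2 : volume.restrict Ω ≤ volume.restrict (Metric.closedBall (0 : E) R) :=
      Measure.restrict_mono hR le_rfl
    exact ae_mono h2 (ae_restrict_mem Metric.isClosed_closedBall.measurableSet)
  filter_upwards [h1] with y hy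
  rw [mem_closedBall_zero_iff] at hy
  have h3 : ‖e k‖ = 1 := by simp [e]
  rw [norm_smul, h3, mul_one]
  exact (PiLp.norm_apply_le y j).trans hy

/-- The moments `∫ x_j w_k`. -/
def momL {Ω : Set E} (hb : Bornology.IsBounded Ω) (j k : Fin 3) : V Ω →L[ℝ] ℝ :=
  (innerSL ℝ (mom_memLp hb j k).toLp).comp (fldLM Ω)

lemma momL_apply {Ω : Set E} (hb : Bornology.IsBounded Ω) (j k : Fin 3) (w : V Ω) :
    momL hb j k w = ∫ x in Ω, x j * (fld w : E → E) x k := by
  show ⟪(mom_memLp hb j k).toLp, fld w⟫ = _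
  rw [L2.inner_def]
  refine integral_congr_ae ?_
  filter_upwards [(mom_memLp hb j k).coeFn_toLp] with x hx
  rw [hx, real_inner_smul_left, inner_e]

/-- The angular momentum as a continuous linear map. -/
def angL {Ω : Set E} (hb : Bornology.IsBounded Ω) (m : Fin 3) : V Ω →L[ℝ] ℝ :=
  ∑ j : Fin 3, ∑ k : Fin 3, lc m j k • momL hb j k

lemma angL_apply {Ω : Set E} (hb : Bornology.IsBounded Ω) (m : Fin 3) (w : V Ω) : angL hb m w = ang w m := by
  unfold angL ang
  simp only [ContinuousLinearMap.sum_apply, ContinuousLinearMap.smul_apply, momL_apply, smul_eq_mul]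

lemma ang_rep {Ω : Set E} {w : E → E} (hw : IsTest Ω w) {p : V Ω} (hp : Represents Ω w p) (m : Fin 3) :
    ang p m = ∑ j : Fin 3, ∑ k : Fin 3, lc m j k * ∫ x, x j * w x k := by
  unfold ang
  refine Finset.sum_congr rfl fun j _ => Finset.sum_congr rfl fun k _ => ?_
  congr 1
  have h1 : ∫ x in Ω, x j * (fld p : E → E) x k = ∫ x in Ω, x j * w x k := by
    refine integral_congr_ae ?_
    filter_upwards [hp.1] with x hx
    have : (fld p : E → E) x = w x := hx
    rw [this]
  rw [h1]
  refine setIntegral_eq_integral_of_forall_compl_eq_zero fun x hx => ?_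
  have : w x = 0 := image_eq_zero_of_notMem_tsupport fun h => hx (hw.supp h)
  rw [this]
  simp

/-- The test fields. -/
def testM (Ω : Set E) : Submodule ℝ (V Ω) where
  carrier := {p | ∃ w : E → E, IsTest Ω w ∧ Represents Ω w p}
  zero_mem' := ⟨0, isTest_zero Ω, Lp.coeFn_zero E 2 _, by rw [gradField_zero]; exact Lp.coeFn_zero G 2 _⟩
  add_mem' := by
    rintro p r ⟨v, hv, hp⟩ ⟨w, hw, hr⟩
    exact ⟨v + w, hv.add hw, rep_add hv.differentiable hw.differentiable hp hr⟩
  smul_mem' := by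
    rintro c p ⟨v, hv, hp⟩
    exact ⟨c • v, hv.smul c, rep_smul c hv.differentiable hp⟩

lemma orth_of_mem {Ω : Set E} {Λ : V Ω} (hΛ : Λ ∈ (curlW Ω)ᗮ) : Orth Λ := by
  intro A χ p hχ hp
  refine (Submodule.mem_orthogonal _ _).1 hΛ p ?_
  exact Submodule.le_topologicalClosure _ (Submodule.subset_span ⟨A, χ, hχ, hp⟩)

end Ang

open Ang in
/-- In a star-shaped domain the elements of `V` with angular momentum `0` are in `curlW Ω`. -/
theorem ang_proof {Ω : Set E} (hΩ : IsOpen Ω) {c : E} (hcv : StarConvex ℝ c Ω) (hb : Bornology.IsBounded Ω)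
    {w : V Ω} (hw : ∀ m, ang w m = 0) : w ∈ curlW Ω := by
  have hcl : IsClosed (curlW Ω : Set (V Ω)) := Submodule.isClosed_topologicalClosure _
  have hcomp : CompleteSpace (curlW Ω) := hcl.completeSpace_coe
  rw [← Submodule.orthogonal_orthogonal (curlW Ω), Submodule.mem_orthogonal]
  intro Λ hΛ
  have hO := orth_of_mem hΛ
  set L : Fin 3 → testM Ω →ₗ[ℝ] ℝ := fun m => (angL hb m : V Ω →ₗ[ℝ] ℝ).comp (testM Ω).subtype with hL
  set K : testM Ω →ₗ[ℝ] ℝ := (innerSL ℝ Λ : V Ω →ₗ[ℝ] ℝ).comp (testM Ω).subtype with hK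
  have hker : ⨅ m, LinearMap.ker (L m) ≤ LinearMap.ker K := by
    rintro ⟨p, v, hv, hp⟩ hx
    rw [Submodule.mem_iInf] at hx
    rw [LinearMap.mem_ker]
    have hJ : ∀ m, ang p m = 0 := by
      intro m
      have := LinearMap.mem_ker.1 (hx m)
      rw [← angL_apply hb m p]
      exact this
    have h1 := test_orth hΩ hcv hb hO hv hp fun m => by rw [← ang_rep hv hp m]; exact hJ m
    show ⟪Λ, p⟫ = 0
    rw [real_inner_comm]
    exact h1
  obtain ⟨a, hc⟩ := (Submodule.mem_span_range_iff_exists_fun ℝ).1 (mem_span_of_iInf_ker_le_ker hker)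
  have hall : ∀ p ∈ testM Ω, ⟪Λ, p⟫ = ∑ m, a m * angL hb m p := by
    intro p hp
    have h1 := LinearMap.congr_fun hc ⟨p, hp⟩
    simp only [LinearMap.coe_sum, Finset.sum_apply, LinearMap.smul_apply, smul_eq_mul] at h1
    exact h1.symm
  obtain ⟨φ, p, hp, hlim⟩ := Approx_proof Ω w
  have h1 : Tendsto (fun n => ⟪Λ, p n⟫) atTop (𝓝 ⟪Λ, w⟫) := (continuous_const.inner continuous_id).continuousAt.tendsto.comp hlim
  have h2 : Tendsto (fun n => ∑ m, a m * angL hb m (p n)) atTop (𝓝 (∑ m, a m * angL hb m w)) := by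
    refine tendsto_finsetSum _ fun m _ => ?_
    exact (((angL hb m).continuous.tendsto w).comp hlim).const_mul (a m)
  have h3 : (fun n => ⟪Λ, p n⟫) = fun n => ∑ m, a m * angL hb m (p n) := by
    funext n
    exact hall (p n) ⟨φ n, (hp n).1, (hp n).2⟩
  rw [h3] at h1
  rw [tendsto_nhds_unique h1 h2]
  refine Finset.sum_eq_zero fun m _ => ?_
  rw [angL_apply, hw m, mul_zero]

end Pool.Agent.NSN
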