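import Pool.Agent.NSK.Base

/-!
# MP_fd8964_an: base kicks with general first moments

The six directions `(e a ± e b)/√2`; any tensor `T k i l` symmetric in `i, l` is `∑ w_m(k) ξ_m(i) ξ_m(l)`.
-/

open MeasureTheory Set Filter Topology
open scoped RealInnerProductSpace ContDiff

noncomputable section

namespace Pool.Agent.NSN.Base2

open Pool.Agent.NSD Pool.Agent.NSK
open Pool.Agent.NSK.Base (rt rt_mul amp amp_sq amp_tsupport amp_bump vec vec_apply vec_test Prof exists_prof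
  gam_bump p_bump dd_p gam1_pos rad rad_contDiff rad_bump dd_contDiff dd_add dd_smul dd_sum dd_comm dd_coord
  dd_dd_coord lap_contDiff lap_add lap_smul lap_sum lap_dd lap_rad lap_inner_rad inner_contDiff inner_gradS
  gradS_coord bump_mul_left bump_integrable mom0 mom1 mom2 mom3 sq_bump inner_e inner_e' norm_sq_coord e_apply e_norm
  inner_e_e diff_of)

theorem bump_dd {Ω : Set E} {a : E → ℝ} (h : IsBump Ω a) (v : E) : IsBump Ω (dd v a) :=
  Pool.Agent.NSK.Base.IsBump.dd h v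

theorem bump_smul {Ω : Set E} {a : E → ℝ} (h : IsBump Ω a) (c : ℝ) : IsBump Ω (fun x => c * a x) :=
  Pool.Agent.NSK.Base.IsBump.smul h c

theorem bump_add {Ω : Set E} {a b : E → ℝ} (ha : IsBump Ω a) (hb : IsBump Ω b) : IsBump Ω (fun x => a x + b x) :=
  Pool.Agent.NSK.Base.IsBump.add ha hb

theorem bump_sum {Ω : Set E} {n : ℕ} {a : Fin n → E → ℝ} (ha : ∀ m, IsBump Ω (a m)) :
    IsBump Ω (fun x => ∑ m, a m x) := Pool.Agent.NSK.Base.IsBump.sum ha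

/-- Six directions with weights `w`. -/
structure Vecs (ξ k w : Fin 6 → E) : Prop where
  ξ_unit : ∀ m, ‖ξ m‖ = 1
  k_unit : ∀ m, ‖k m‖ = 1
  orth : ∀ m, ⟪k m, ξ m⟫ = 0
  w_norm : ∀ m, ‖w m‖ ≤ 2
  id1 : ∀ {f : E → ℝ}, ContDiff ℝ ∞ f → ∀ x, ∑ m, dd (ξ m) (dd (ξ m) f) x = 2 * lap f x
  id2 : ∀ {p : E → ℝ}, ContDiff ℝ ∞ p → ∀ x, ∑ m, dd (ξ m) (dd (ξ m) (dd (w m) p)) x = 0

section Main

variable {g Ψ Θ : Fin 6 → ℝ → ℝ} {P : ℝ → ℝ} {s₁ : ℝ} (hp : Prof g Ψ Θ P s₁) {ξ k w : Fin 6 → E}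
  (hv : Vecs ξ k w)

/-- The potentials `φ_m`. -/
def phi (Ψ Θ : Fin 6 → ℝ → ℝ) (w : Fin 6 → E) (m : Fin 6) (y : E) : ℝ :=
  rad (Ψ m) y + (1 / 4) * (⟪y, w m⟫ * rad (Θ m) y)

include hp in
theorem phi_bump (m : Fin 6) : IsBump (Metric.ball 0 1) (phi Ψ Θ w m) :=
  bump_add (rad_bump (hp.Ψs m) hp.s1 (hp.Ψz m))
    (bump_smul (bump_mul_left (inner_contDiff _) (rad_bump (hp.Θs m) hp.s1 (hp.Θz m))) _)

include hp in
theorem lap_phi (m : Fin 6) (y : E) : lap (phi Ψ Θ w m) y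
    = (g m (‖y‖ ^ 2) ^ 2 - g 0 (‖y‖ ^ 2) ^ 2) * (1 + (1 / 4) * ⟪y, w m⟫) := by
  have h1 := rad_contDiff (hp.Ψs m)
  have h2 : ContDiff ℝ ∞ (fun y : E => ⟪y, w m⟫ * rad (Θ m) y) :=
    (inner_contDiff _).mul (rad_contDiff (hp.Θs m))
  have h3 := lap_smul h2 (1 / 4)
  simp only [smul_eq_mul] at h3
  have h4 : phi Ψ Θ w m = fun y => rad (Ψ m) y + (1 / 4) * (⟪y, w m⟫ * rad (Θ m) y) := rfl
  rw [h4, lap_add h1 (contDiff_const.mul h2), h3]
  simp only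
  rw [lap_rad (hp.Ψs m), lap_inner_rad (hp.Θs m), hp.Ψe, hp.Θe]
  ring

include hp hv in
/-- The decomposition of `a_m²`. -/
theorem amp_decomp (m : Fin 6) (y : E) : amp (g m) (w m) y ^ 2
    = rad (fun s => g 0 s ^ 2) y + (1 / 4) * dd (w m) (rad P) y + lap (phi Ψ Θ w m) y := by
  rw [amp_sq (hp.gt m) (hv.w_norm m), dd_p hp, lap_phi hp]
  simp only [rad]
  ring

/-- The pressure. -/
def pr (g Ψ Θ : Fin 6 → ℝ → ℝ) (ξ w : Fin 6 → E) (y : E) : ℝ :=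
  2 * rad (fun s => g 0 s ^ 2) y
    + ∑ m, dd (ξ m) (dd (ξ m) (phi Ψ Θ w m)) y

include hp in
theorem pr_bump : IsBump (Metric.ball 0 1) (pr g Ψ Θ ξ w) :=
  bump_add (bump_smul (gam_bump hp) _)
    (bump_sum fun m => bump_dd (bump_dd (phi_bump hp m) _) _)

include hp hv in
theorem main_id (x : E) :
    ∑ m, dd (ξ m) (dd (ξ m) (fun y => amp (g m) (w m) y ^ 2)) x = lap (pr g Ψ Θ ξ w) x := by
  have hG := (gam_bump hp).1
  have hP := (p_bump hp).1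
  have hφ : ∀ m, ContDiff ℝ ∞ (phi Ψ Θ w m) := fun m => (phi_bump hp m).1
  -- left side
  have hL : ∀ m, dd (ξ m) (dd (ξ m) (fun y => amp (g m) (w m) y ^ 2)) x
      = dd (ξ m) (dd (ξ m) (rad fun s => g 0 s ^ 2)) x
        + (1 / 4) * dd (ξ m) (dd (ξ m) (dd (w m) (rad P))) x
        + lap (dd (ξ m) (dd (ξ m) (phi Ψ Θ w m))) x := by
    intro m
    have h0 : (fun y => amp (g m) (w m) y ^ 2) = fun y => (rad (fun s => g 0 s ^ 2) y
        + (1 / 4 : ℝ) • dd (w m) (rad P) y) + lap (phi Ψ Θ w m) y := by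
      funext y
      rw [amp_decomp hp hv m y]
      rfl
    have c1 := dd_contDiff hP (w m)
    have c2 : ContDiff ℝ ∞ (fun y => (1 / 4 : ℝ) • dd (w m) (rad P) y) := c1.const_smul _
    have c3 := lap_contDiff (hφ m)
    rw [h0, dd_add (hG.add c2) c3, dd_add hG c2, dd_smul c1]
    have d1 := dd_contDiff c1 (ξ m)
    have d2 : ContDiff ℝ ∞ (fun y => (1 / 4 : ℝ) • dd (ξ m) (dd (w m) (rad P)) y) := d1.const_smul _
    rw [dd_add ((dd_contDiff hG _).add d2) (dd_contDiff c3 _), dd_add (dd_contDiff hG _) d2, dd_smul d1,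
      lap_dd (dd_contDiff (hφ m) _), lap_dd (hφ m)]
    rfl
  simp only [hL, Finset.sum_add_distrib]
  rw [← Finset.mul_sum, hv.id1 hG, hv.id2 hP]
  -- right side
  have hR : pr g Ψ Θ ξ w = fun y => ((2 : ℝ) • rad (fun s => g 0 s ^ 2) y) + ∑ m, dd (ξ m) (dd (ξ m) (phi Ψ Θ w m)) y := rfl
  have c1 : ContDiff ℝ ∞ (fun y => (2 : ℝ) • rad (fun s => g 0 s ^ 2) y) := hG.const_smul _
  have c3 : ∀ m, ContDiff ℝ ∞ (dd (ξ m) (dd (ξ m) (phi Ψ Θ w m))) := fun m =>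
    dd_contDiff (dd_contDiff (hφ m) _) _
  rw [hR, lap_add c1 (ContDiff.sum fun m _ => c3 m), lap_smul hG, lap_sum Finset.univ c3]
  simp only [smul_eq_mul]
  ring

/-- The components of the kick. -/
def gcomp (g Ψ Θ : Fin 6 → ℝ → ℝ) (η : ℝ) (ξ w : Fin 6 → E) (i : Fin 3) (x : E) : ℝ :=
  (4 * η)⁻¹ * ((∑ m, ξ m i * dd (ξ m) (fun y => amp (g m) (w m) y ^ 2) x)
    + (-1) * dd (e i) (pr g Ψ Θ ξ w) x)

include hp hv in
theorem asq_bump (m : Fin 6) : IsBump (Metric.ball 0 1) (fun y => amp (g m) (w m) y ^ 2) :=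
  sq_bump (amp_bump (hp.gs m) (hp.gt m) (hv.w_norm m))

include hp hv in
theorem gcomp_bump (η : ℝ) (i : Fin 3) : IsBump (Metric.ball 0 1) (gcomp g Ψ Θ η ξ w i) :=
  bump_smul (bump_add (bump_sum fun m => bump_smul (bump_dd (asq_bump hp hv m) _) _)
    (bump_smul (bump_dd (pr_bump hp) _) _)) _

include hp hv in
theorem gcomp_div (η : ℝ) (x : E) : ∑ i : Fin 3, dd (e i) (gcomp g Ψ Θ η ξ w i) x = 0 := by
  have hA : ∀ m, ContDiff ℝ ∞ (fun y => amp (g m) (w m) y ^ 2) := fun m => (asq_bump hp hv m).1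
  have hpr := (pr_bump hp (ξ := ξ) (w := w)).1
  have h1 : ∀ i : Fin 3, dd (e i) (gcomp g Ψ Θ η ξ w i) x = (4 * η)⁻¹ *
      ((∑ m, ξ m i * dd (e i) (dd (ξ m) (fun y => amp (g m) (w m) y ^ 2)) x)
        - dd (e i) (dd (e i) (pr g Ψ Θ ξ w)) x) := by
    intro i
    have h2 : gcomp g Ψ Θ η ξ w i = fun x => (4 * η)⁻¹ • ((∑ m, ξ m i •
        dd (ξ m) (fun y => amp (g m) (w m) y ^ 2) x) + (-1 : ℝ) • dd (e i) (pr g Ψ Θ ξ w) x) := rfl
    have c1 : ∀ m, ContDiff ℝ ∞ (fun x => ξ m i • dd (ξ m) (fun y => amp (g m) (w m) y ^ 2) x) :=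
      fun m => (dd_contDiff (hA m) _).const_smul _
    have c2 : ContDiff ℝ ∞ (fun x => (-1 : ℝ) • dd (e i) (pr g Ψ Θ ξ w) x) :=
      (dd_contDiff hpr _).const_smul _
    rw [h2, dd_smul ((ContDiff.sum fun m _ => c1 m).add c2), dd_add (ContDiff.sum fun m _ => c1 m) c2,
      dd_sum Finset.univ c1, dd_smul (dd_contDiff hpr _)]
    simp only [smul_eq_mul]
    have h3 : ∀ m, dd (e i) (fun x => ξ m i * dd (ξ m) (fun y => amp (g m) (w m) y ^ 2) x) x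
        = ξ m i * dd (e i) (dd (ξ m) (fun y => amp (g m) (w m) y ^ 2)) x := by
      intro m
      have := congrFun (dd_smul (dd_contDiff (hA m) (ξ m)) (ξ m i) (e i)) x
      simpa only [smul_eq_mul] using this
    simp only [h3]
    ring
  simp only [h1]
  rw [← Finset.mul_sum, Finset.sum_sub_distrib, Finset.sum_comm]
  have h4 : ∀ m, ∑ i : Fin 3, ξ m i * dd (e i) (dd (ξ m) (fun y => amp (g m) (w m) y ^ 2)) x
      = dd (ξ m) (dd (ξ m) (fun y => amp (g m) (w m) y ^ 2)) x := by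
    intro m
    rw [dd_coord (dd (ξ m) (fun y => amp (g m) (w m) y ^ 2)) (ξ m) x]
    rfl
  rw [Finset.sum_congr rfl fun m _ => h4 m, main_id hp hv x]
  unfold lap
  rw [sub_self, mul_zero]

include hp hv in
theorem kick (η : ℝ) (hη : 0 < η) : Kick (Metric.ball 0 1) η 6 (fun m => amp (g m) (w m)) k ξ
    (pr g Ψ Θ ξ w) (vec (gcomp g Ψ Θ η ξ w)) := by
  refine
    { bump := fun m => amp_bump (hp.gs m) (hp.gt m) (hv.w_norm m)
      disj := fun m m' hmm => ?_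
      k_unit := hv.k_unit
      ξ_unit := hv.ξ_unit
      orth := hv.orth
      pres := pr_bump hp
      test := vec_test (gcomp_bump hp hv η) (gcomp_div hp hv η)
      eq := fun x => ?_ }
  · exact ((hp.gd m m' hmm).preimage _).mono (amp_tsupport _ _) (amp_tsupport _ _)
  · ext l
    have h1 : (∑ m, dd (ξ m) (fun y => amp (g m) (w m) y ^ 2) x • ξ m) l
        = ∑ m, ξ m l * dd (ξ m) (fun y => amp (g m) (w m) y ^ 2) x := by
      rw [WithLp.ofLp_sum, Finset.sum_apply]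
      refine Finset.sum_congr rfl fun m _ => ?_
      rw [PiLp.smul_apply, smul_eq_mul, mul_comm]
    rw [h1, PiLp.add_apply, PiLp.smul_apply, vec_apply, gradS_coord]
    unfold gcomp
    have h4 : (4 * η) ≠ 0 := by positivity
    rw [smul_eq_mul, ← mul_assoc, mul_inv_cancel₀ h4]
    ring

include hp hv in
theorem m0 (m : Fin 6) : ∫ y : E, amp (g m) (w m) y ^ 2 = ∫ y : E, rad (fun s => g 0 s ^ 2) y := by
  have hφ := phi_bump hp (w := w) m
  have hl : Integrable (lap (phi Ψ Θ w m)) := by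
    unfold lap
    exact integrable_finsetSum _ fun i _ => bump_integrable (bump_dd (bump_dd hφ _) _)
  have h1 := bump_integrable (gam_bump hp)
  have h2 : Integrable (fun y => (1 / 4) * dd (w m) (rad P) y) :=
    bump_integrable (bump_smul (bump_dd (p_bump hp) _) _)
  simp only [amp_decomp hp hv m]
  have e1 : ∫ y : E, (rad (fun s => g 0 s ^ 2) y + (1 / 4) * dd (w m) (rad P) y)
      + lap (phi Ψ Θ w m) y = (∫ y : E, (rad (fun s => g 0 s ^ 2) y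
        + (1 / 4) * dd (w m) (rad P) y)) + ∫ y : E, lap (phi Ψ Θ w m) y := integral_add (h1.add h2) hl
  have e2 : ∫ y : E, (rad (fun s => g 0 s ^ 2) y + (1 / 4) * dd (w m) (rad P) y)
      = (∫ y : E, rad (fun s => g 0 s ^ 2) y) + ∫ y : E, (1 / 4) * dd (w m) (rad P) y :=
    integral_add h1 h2
  rw [e1, e2, integral_const_mul, mom0 (p_bump hp), mom2 hφ]
  ring

include hp hv in
theorem m1 (m : Fin 6) : ∫ y : E, (amp (g m) (w m) y ^ 2) • y
    = (-(1 / 4) * ∫ y : E, rad P y) • w m := by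
  have hφ := phi_bump hp (w := w) m
  have hc : ∀ i : Fin 3, ContDiff ℝ ∞ (fun x : E => x i) := fun i => by
    have := inner_contDiff (e i)
    simpa only [inner_e] using this
  have hint : Integrable (fun y : E => (amp (g m) (w m) y ^ 2) • y) := by
    have hb := asq_bump hp hv m
    have hcont : Continuous (fun y : E => (amp (g m) (w m) y ^ 2) • y) :=
      hb.1.continuous.smul continuous_id
    exact hcont.integrable_of_hasCompactSupport (hb.2.1.smul_right)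
  ext i
  have h0 : (∫ y : E, (amp (g m) (w m) y ^ 2) • y) i
      = ∫ y : E, y i * amp (g m) (w m) y ^ 2 := by
    have := (EuclideanSpace.proj i : E →L[ℝ] ℝ).integral_comp_comm hint
    have h2 : (EuclideanSpace.proj i : E →L[ℝ] ℝ) (∫ y : E, (amp (g m) (w m) y ^ 2) • y)
        = (∫ y : E, (amp (g m) (w m) y ^ 2) • y) i := rfl
    rw [← h2, ← this]
    refine integral_congr_ae (Eventually.of_forall fun y => ?_)
    show (amp (g m) (w m) y ^ 2 • y) i = _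
    rw [PiLp.smul_apply, smul_eq_mul, mul_comm]
  rw [h0, PiLp.smul_apply, smul_eq_mul]
  have hl : IsBump (Metric.ball 0 1) (lap (phi Ψ Θ w m)) := by
    have := bump_sum (n := 3) fun i => bump_dd (bump_dd hφ (e i)) (e i)
    exact this
  have h3 : ∀ y : E, y i * amp (g m) (w m) y ^ 2
      = (dd (e i) (rad P) y + (1 / 4) * (y i * dd (w m) (rad P) y)) + y i * lap (phi Ψ Θ w m) y := by
    intro y
    rw [amp_decomp hp hv m, dd_p hp (e i), inner_e]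
    ring
  simp only [h3]
  have i1 := bump_integrable (bump_dd (p_bump hp) (e i))
  have i2 : Integrable (fun y : E => (1 / 4) * (y i * dd (w m) (rad P) y)) :=
    bump_integrable (bump_smul (bump_mul_left (hc i) (bump_dd (p_bump hp) _)) _)
  have i3 := bump_integrable (bump_mul_left (hc i) hl)
  have e1 : ∫ y : E, (dd (e i) (rad P) y + (1 / 4) * (y i * dd (w m) (rad P) y))
      + y i * lap (phi Ψ Θ w m) y = (∫ y : E, (dd (e i) (rad P) y
        + (1 / 4) * (y i * dd (w m) (rad P) y))) + ∫ y : E, y i * lap (phi Ψ Θ w m) y :=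
    integral_add (i1.add i2) i3
  have e2 : ∫ y : E, (dd (e i) (rad P) y + (1 / 4) * (y i * dd (w m) (rad P) y))
      = (∫ y : E, dd (e i) (rad P) y) + ∫ y : E, (1 / 4) * (y i * dd (w m) (rad P) y) :=
    integral_add i1 i2
  rw [e1, e2, integral_const_mul, mom0 (p_bump hp), mom1 (p_bump hp), mom3 hφ]
  ring


end Main

/-! ### The six directions -/

/-- The six directions. -/
def xi6 : Fin 6 → E :=
  ![rt • (e 0 + e 1), rt • (e 0 - e 1), rt • (e 1 + e 2), rt • (e 1 - e 2), rt • (e 2 + e 0), rt • (e 2 - e 0)]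

/-- Wave vectors. -/
def k6 : Fin 6 → E := ![e 2, e 2, e 0, e 0, e 1, e 1]

/-- The vector with the components `T k i l`, `k = 0, 1, 2`. -/
def tv (T : Fin 3 → Fin 3 → Fin 3 → ℝ) (i l : Fin 3) : E := ∑ k : Fin 3, T k i l • e k

/-- The weights. -/
def w6 (T : Fin 3 → Fin 3 → Fin 3 → ℝ) : Fin 6 → E :=
  ![(1 / 2 : ℝ) • (tv T 0 0 + tv T 1 1 - tv T 2 2) + tv T 0 1, (1 / 2 : ℝ) • (tv T 0 0 + tv T 1 1 - tv T 2 2) - tv T 0 1,
    (1 / 2 : ℝ) • (tv T 1 1 + tv T 2 2 - tv T 0 0) + tv T 1 2, (1 / 2 : ℝ) • (tv T 1 1 + tv T 2 2 - tv T 0 0) - tv T 1 2,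
    (1 / 2 : ℝ) • (tv T 2 2 + tv T 0 0 - tv T 1 1) + tv T 2 0, (1 / 2 : ℝ) • (tv T 2 2 + tv T 0 0 - tv T 1 1) - tv T 2 0]

theorem tv_apply (T : Fin 3 → Fin 3 → Fin 3 → ℝ) (i l k : Fin 3) : tv T i l k = T k i l := by
  unfold tv
  simp only [Fin.sum_univ_three, PiLp.add_apply, PiLp.smul_apply, e_apply, smul_eq_mul]
  fin_cases k <;> simp

theorem mulp (a b i l : Fin 3) : (rt • (e a + e b)) i * (rt • (e a + e b)) l
    = 1 / 2 * ((e a i + e b i) * (e a l + e b l)) := by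
  rw [← rt_mul]
  simp only [PiLp.smul_apply, PiLp.add_apply, smul_eq_mul]
  ring

theorem mulm (a b i l : Fin 3) : (rt • (e a - e b)) i * (rt • (e a - e b)) l
    = 1 / 2 * ((e a i - e b i) * (e a l - e b l)) := by
  rw [← rt_mul]
  simp only [PiLp.smul_apply, PiLp.sub_apply, smul_eq_mul]
  ring

theorem xi6_0 : xi6 0 = rt • (e 0 + e 1) := rfl
theorem xi6_1 : xi6 1 = rt • (e 0 - e 1) := rfl
theorem xi6_2 : xi6 2 = rt • (e 1 + e 2) := rfl
theorem xi6_3 : xi6 3 = rt • (e 1 - e 2) := rfl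
theorem xi6_4 : xi6 4 = rt • (e 2 + e 0) := rfl
theorem xi6_5 : xi6 5 = rt • (e 2 - e 0) := rfl

theorem iso6 (i l : Fin 3) : ∑ m, xi6 m i * xi6 m l = if i = l then 2 else 0 := by
  rw [Fin.sum_univ_six, xi6_0, xi6_1, xi6_2, xi6_3, xi6_4, xi6_5]
  simp only [mulp, mulm, e_apply]
  fin_cases i <;> fin_cases l <;> simp <;> norm_num

theorem w6_apply (T : Fin 3 → Fin 3 → Fin 3 → ℝ) (k : Fin 3) :
    w6 T 0 k = 1 / 2 * (T k 0 0 + T k 1 1 - T k 2 2) + T k 0 1 ∧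
    w6 T 1 k = 1 / 2 * (T k 0 0 + T k 1 1 - T k 2 2) - T k 0 1 ∧
    w6 T 2 k = 1 / 2 * (T k 1 1 + T k 2 2 - T k 0 0) + T k 1 2 ∧
    w6 T 3 k = 1 / 2 * (T k 1 1 + T k 2 2 - T k 0 0) - T k 1 2 ∧
    w6 T 4 k = 1 / 2 * (T k 2 2 + T k 0 0 - T k 1 1) + T k 2 0 ∧
    w6 T 5 k = 1 / 2 * (T k 2 2 + T k 0 0 - T k 1 1) - T k 2 0 := by
  refine ⟨?_, ?_, ?_, ?_, ?_, ?_⟩
  · show ((1 / 2 : ℝ) • (tv T 0 0 + tv T 1 1 - tv T 2 2) + tv T 0 1) k = _
    simp only [PiLp.add_apply, PiLp.sub_apply, PiLp.smul_apply, tv_apply, smul_eq_mul]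
  · show ((1 / 2 : ℝ) • (tv T 0 0 + tv T 1 1 - tv T 2 2) - tv T 0 1) k = _
    simp only [PiLp.add_apply, PiLp.sub_apply, PiLp.smul_apply, tv_apply, smul_eq_mul]
  · show ((1 / 2 : ℝ) • (tv T 1 1 + tv T 2 2 - tv T 0 0) + tv T 1 2) k = _
    simp only [PiLp.add_apply, PiLp.sub_apply, PiLp.smul_apply, tv_apply, smul_eq_mul]
  · show ((1 / 2 : ℝ) • (tv T 1 1 + tv T 2 2 - tv T 0 0) - tv T 1 2) k = _
    simp only [PiLp.add_apply, PiLp.sub_apply, PiLp.smul_apply, tv_apply, smul_eq_mul]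
  · show ((1 / 2 : ℝ) • (tv T 2 2 + tv T 0 0 - tv T 1 1) + tv T 2 0) k = _
    simp only [PiLp.add_apply, PiLp.sub_apply, PiLp.smul_apply, tv_apply, smul_eq_mul]
  · show ((1 / 2 : ℝ) • (tv T 2 2 + tv T 0 0 - tv T 1 1) - tv T 2 0) k = _
    simp only [PiLp.add_apply, PiLp.sub_apply, PiLp.smul_apply, tv_apply, smul_eq_mul]

/-- Every tensor is attained. -/
theorem iso6T (T : Fin 3 → Fin 3 → Fin 3 → ℝ) (hT : ∀ k i l, T k i l = T k l i) (k i l : Fin 3) :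
    ∑ m, w6 T m k * (xi6 m i * xi6 m l) = T k i l := by
  obtain ⟨h0, h1, h2, h3, h4, h5⟩ := w6_apply T k
  rw [Fin.sum_univ_six, h0, h1, h2, h3, h4, h5, xi6_0, xi6_1, xi6_2, xi6_3, xi6_4, xi6_5]
  simp only [mulp, mulm, e_apply]
  have s1 := hT k 1 0
  have s2 := hT k 2 1
  have s3 := hT k 0 2
  fin_cases i <;> fin_cases l <;> simp <;> linarith

theorem xi6_unit (m : Fin 6) : ‖xi6 m‖ = 1 := by
  have h : ‖xi6 m‖ ^ 2 = 1 := by
    rw [norm_sq_coord, Fin.sum_univ_three]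
    simp only [sq]
    fin_cases m
    · show xi6 0 0 * xi6 0 0 + xi6 0 1 * xi6 0 1 + xi6 0 2 * xi6 0 2 = 1
      rw [xi6_0, mulp, mulp, mulp]; simp [e_apply]; norm_num
    · show xi6 1 0 * xi6 1 0 + xi6 1 1 * xi6 1 1 + xi6 1 2 * xi6 1 2 = 1
      rw [xi6_1, mulm, mulm, mulm]; simp [e_apply]; norm_num
    · show xi6 2 0 * xi6 2 0 + xi6 2 1 * xi6 2 1 + xi6 2 2 * xi6 2 2 = 1
      rw [xi6_2, mulp, mulp, mulp]; simp [e_apply]; norm_num
    · show xi6 3 0 * xi6 3 0 + xi6 3 1 * xi6 3 1 + xi6 3 2 * xi6 3 2 = 1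
      rw [xi6_3, mulm, mulm, mulm]; simp [e_apply]; norm_num
    · show xi6 4 0 * xi6 4 0 + xi6 4 1 * xi6 4 1 + xi6 4 2 * xi6 4 2 = 1
      rw [xi6_4, mulp, mulp, mulp]; simp [e_apply]; norm_num
    · show xi6 5 0 * xi6 5 0 + xi6 5 1 * xi6 5 1 + xi6 5 2 * xi6 5 2 = 1
      rw [xi6_5, mulm, mulm, mulm]; simp [e_apply]; norm_num
  have h0 := norm_nonneg (xi6 m)
  nlinarith

theorem k6_unit (m : Fin 6) : ‖k6 m‖ = 1 := by
  fin_cases m <;> exact e_norm _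

theorem orth6 (m : Fin 6) : ⟪k6 m, xi6 m⟫ = 0 := by
  fin_cases m
  · show ⟪e 2, rt • (e 0 + e 1)⟫ = 0
    rw [real_inner_smul_right, inner_add_right, inner_e_e, inner_e_e]; simp
  · show ⟪e 2, rt • (e 0 - e 1)⟫ = 0
    rw [real_inner_smul_right, inner_sub_right, inner_e_e, inner_e_e]; simp
  · show ⟪e 0, rt • (e 1 + e 2)⟫ = 0
    rw [real_inner_smul_right, inner_add_right, inner_e_e, inner_e_e]; simp
  · show ⟪e 0, rt • (e 1 - e 2)⟫ = 0
    rw [real_inner_smul_right, inner_sub_right, inner_e_e, inner_e_e]; simp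
  · show ⟪e 1, rt • (e 2 + e 0)⟫ = 0
    rw [real_inner_smul_right, inner_add_right, inner_e_e, inner_e_e]; simp
  · show ⟪e 1, rt • (e 2 - e 0)⟫ = 0
    rw [real_inner_smul_right, inner_sub_right, inner_e_e, inner_e_e]; simp

theorem w6_norm (T : Fin 3 → Fin 3 → Fin 3 → ℝ) (hT : ∀ k i l, |T k i l| ≤ 2 / 5) (m : Fin 6) : ‖w6 T m‖ ≤ 2 := by
  have h : ∀ k : Fin 3, (w6 T m k) ^ 2 ≤ 1 := by
    intro k
    obtain ⟨h0, h1, h2, h3, h4, h5⟩ := w6_apply T k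
    have a := fun i l => abs_le.1 (hT k i l)
    have h6 : |w6 T m k| ≤ 1 := by
      fin_cases m
      · show |w6 T 0 k| ≤ 1
        rw [h0, abs_le]
        constructor <;> linarith [(a 0 0).1, (a 0 0).2, (a 1 1).1, (a 1 1).2, (a 2 2).1, (a 2 2).2, (a 0 1).1, (a 0 1).2]
      · show |w6 T 1 k| ≤ 1
        rw [h1, abs_le]
        constructor <;> linarith [(a 0 0).1, (a 0 0).2, (a 1 1).1, (a 1 1).2, (a 2 2).1, (a 2 2).2, (a 0 1).1, (a 0 1).2]
      · show |w6 T 2 k| ≤ 1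
        rw [h2, abs_le]
        constructor <;> linarith [(a 0 0).1, (a 0 0).2, (a 1 1).1, (a 1 1).2, (a 2 2).1, (a 2 2).2, (a 1 2).1, (a 1 2).2]
      · show |w6 T 3 k| ≤ 1
        rw [h3, abs_le]
        constructor <;> linarith [(a 0 0).1, (a 0 0).2, (a 1 1).1, (a 1 1).2, (a 2 2).1, (a 2 2).2, (a 1 2).1, (a 1 2).2]
      · show |w6 T 4 k| ≤ 1
        rw [h4, abs_le]
        constructor <;> linarith [(a 0 0).1, (a 0 0).2, (a 1 1).1, (a 1 1).2, (a 2 2).1, (a 2 2).2, (a 2 0).1, (a 2 0).2]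
      · show |w6 T 5 k| ≤ 1
        rw [h5, abs_le]
        constructor <;> linarith [(a 0 0).1, (a 0 0).2, (a 1 1).1, (a 1 1).2, (a 2 2).1, (a 2 2).2, (a 2 0).1, (a 2 0).2]
    have := abs_le.1 h6
    nlinarith
  have h7 : ‖w6 T m‖ ^ 2 ≤ 3 := by
    rw [norm_sq_coord, Fin.sum_univ_three]
    linarith [h 0, h 1, h 2]
  nlinarith [norm_nonneg (w6 T m)]

theorem vecs6 (T : Fin 3 → Fin 3 → Fin 3 → ℝ) (hs : ∀ k i l, T k i l = T k l i) (hT : ∀ k i l, |T k i l| ≤ 2 / 5)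
    (h3 : ∀ S : Fin 3 → Fin 3 → Fin 3 → ℝ, (∀ a b c, S a b c = S b a c) → (∀ a b c, S a b c = S a c b) →
      ∑ k, ∑ i, ∑ l, T k i l * S k i l = 0) : Vecs xi6 k6 (w6 T) := by
  refine ⟨xi6_unit, k6_unit, orth6, w6_norm T hT, fun {f} hf x => ?_, fun {p} hp x => ?_⟩
  · have h0 : ∀ m, dd (xi6 m) (dd (xi6 m) f) x
        = ∑ i : Fin 3, ∑ l : Fin 3, xi6 m i * xi6 m l * dd (e i) (dd (e l) f) x := fun m => by
      rw [dd_dd_coord hf]
      rfl
    rw [Finset.sum_congr rfl fun m _ => h0 m, Finset.sum_comm]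
    have h1 : ∀ i : Fin 3, ∑ m : Fin 6, ∑ l : Fin 3, xi6 m i * xi6 m l * dd (e i) (dd (e l) f) x
        = 2 * dd (e i) (dd (e i) f) x := by
      intro i
      rw [Finset.sum_comm]
      simp only [← Finset.sum_mul, iso6]
      simp
    simp only [h1]
    rw [← Finset.mul_sum]
    rfl
  · have h0 : ∀ m, dd (xi6 m) (dd (xi6 m) (dd (w6 T m) p)) x = ∑ k : Fin 3, ∑ i : Fin 3, ∑ l : Fin 3,
        w6 T m k * (xi6 m i * xi6 m l) * dd (e k) (dd (e i) (dd (e l) p)) x := by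
      intro m
      rw [dd_dd_coord (dd_contDiff hp _)]
      have h1 : ∀ i l : Fin 3, dd (e i) (dd (e l) (dd (w6 T m) p)) x
          = ∑ k : Fin 3, w6 T m k * dd (e k) (dd (e i) (dd (e l) p)) x := by
        intro i l
        rw [dd_comm hp (e l) (w6 T m), dd_comm (dd_contDiff hp _) (e i) (w6 T m),
          dd_coord (dd (e i) (dd (e l) p)) (w6 T m) x]
        rfl
      simp only [h1, smul_eq_mul, Fin.sum_univ_three]
      ring
    simp only [h0]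
    rw [Finset.sum_comm]
    have h2 : ∀ k : Fin 3, ∑ m : Fin 6, ∑ i : Fin 3, ∑ l : Fin 3,
        w6 T m k * (xi6 m i * xi6 m l) * dd (e k) (dd (e i) (dd (e l) p)) x
        = ∑ i : Fin 3, ∑ l : Fin 3, T k i l * dd (e k) (dd (e i) (dd (e l) p)) x := by
      intro k
      rw [Finset.sum_comm]
      refine Finset.sum_congr rfl fun i _ => ?_
      rw [Finset.sum_comm]
      refine Finset.sum_congr rfl fun l _ => ?_
      rw [← Finset.sum_mul, iso6T T hs]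
    rw [Finset.sum_congr rfl fun k _ => h2 k]
    exact h3 (fun a b c => dd (e a) (dd (e b) (dd (e c) p)) x)
      (fun a b c => by
        show dd (e a) (dd (e b) (dd (e c) p)) x = dd (e b) (dd (e a) (dd (e c) p)) x
        rw [dd_comm (dd_contDiff hp _) (e a) (e b)])
      (fun a b c => by
        show dd (e a) (dd (e b) (dd (e c) p)) x = dd (e a) (dd (e c) (dd (e b) p)) x
        rw [dd_comm hp (e b) (e c)])

/-- Base kicks with the first moments `T`. -/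
theorem base2 (h : Stmt_Profile) (η : ℝ) (hη : 0 < η) (T : Fin 3 → Fin 3 → Fin 3 → ℝ)
    (hs : ∀ k i l, T k i l = T k l i) (hT : ∀ k i l, |T k i l| ≤ 2 / 5)
    (h3 : ∀ S : Fin 3 → Fin 3 → Fin 3 → ℝ, (∀ a b c, S a b c = S b a c) → (∀ a b c, S a b c = S a c b) →
      ∑ k, ∑ i, ∑ l, T k i l * S k i l = 0) :
    ∃ (Γ₀ Γ₁ : ℝ) (a : Fin 6 → E → ℝ) (q : E → ℝ) (G : E → E), 0 < Γ₁ ∧
      Kick (Metric.ball 0 1) η 6 a k6 xi6 q G ∧ (∀ m, ∫ y : E, a m y ^ 2 = Γ₀) ∧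
      ∀ m, ∫ y : E, (a m y ^ 2) • y = Γ₁ • w6 T m := by
  obtain ⟨g, Ψ, Θ, P, s₁, hp⟩ := exists_prof h
  have hv := vecs6 T hs hT h3
  exact ⟨∫ y : E, rad (fun s => g 0 s ^ 2) y, -(1 / 4) * ∫ y : E, rad P y, fun m => amp (g m) (w6 T m),
    pr g Ψ Θ xi6 (w6 T), vec (gcomp g Ψ Θ η xi6 (w6 T)), gam1_pos hp, kick hp hv η hη,
    fun m => m0 hp hv m, fun m => m1 hp hv m⟩

end Pool.Agent.NSN.Base2
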