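import Pool.Agent.NSN.Cv

/-!
# NSN, module ConvKick: composite kicks
-/

open MeasureTheory Set Filter Topology
open scoped RealInnerProductSpace ContDiff

noncomputable section

namespace Pool.Agent.NSN

open Pool.Agent.NSD Pool.Agent.NSK Pool.Agent.NSK.Base

namespace ConvKick

theorem norm_y0 : ‖y₀‖ = 1 / 16 := by
  unfold y₀
  rw [norm_smul]
  have : ‖e 0‖ = 1 := by simp [e]
  rw [this]
  norm_num

theorem norm_lt {x : E} (h : x ∈ Metric.ball y₀ (1 / 64)) : ‖x‖ < 5 / 64 := by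
  rw [mem_ball_iff_norm] at h
  have h1 : ‖x‖ ≤ ‖x - y₀‖ + ‖y₀‖ := by
    simpa using norm_add_le (x - y₀) y₀
  rw [norm_y0] at h1
  linarith

theorem mem_of_ne {c : E → ℝ} (hc : tsupport c ⊆ Metric.ball y₀ (1 / 64)) {x : E} (h : c x ≠ 0) :
    x ∈ Metric.ball y₀ (1 / 64) := hc (subset_tsupport c h)

theorem mem_of_ne' {K : E → ℝ} {A : Set E} (hc : tsupport K ⊆ A) {x : E} (h : K x ≠ 0) : x ∈ A :=
  hc (subset_tsupport K h)

/-- The annulus. -/
def ann (r R : ℝ) : Set E := {x | r ≤ ‖x‖ ∧ ‖x‖ ≤ R}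

theorem isClosed_ann (r R : ℝ) : IsClosed (ann r R) :=
  (isClosed_le continuous_const continuous_norm).inter (isClosed_le continuous_norm continuous_const)

theorem supp_ann {K c : E → ℝ} {r R : ℝ} (hK : tsupport K ⊆ {x | r ≤ ‖x‖ ∧ ‖x‖ ≤ R})
    (hc : tsupport c ⊆ Metric.ball y₀ (1 / 64)) : tsupport (cv K c) ⊆ ann (r - 5 / 64) (R + 5 / 64) := by
  refine closure_minimal ?_ (isClosed_ann _ _)
  intro x hx
  obtain ⟨y, hy, hxy⟩ := Cv.exists_of_ne hx
  have h1 := mem_of_ne' hK hy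
  have h2 := norm_lt (mem_of_ne hc hxy)
  have h3 : ‖x‖ ≤ ‖y‖ + ‖x - y‖ := by
    simpa using norm_add_le y (x - y)
  have h4 : ‖y‖ ≤ ‖x‖ + ‖x - y‖ := by
    have := norm_sub_le x (x - y)
    simpa using this
  exact ⟨by linarith [h1.1], by linarith [h1.2]⟩

theorem supp_core {K c : E → ℝ} {ρ : ℝ} (hρ : ρ ≤ 1 / 64) (hK : tsupport K ⊆ Metric.closedBall 0 ρ)
    (hc : tsupport c ⊆ Metric.ball y₀ (1 / 64)) : tsupport (cv K c) ⊆ ann (1 / 32) (3 / 32) := by
  refine closure_minimal ?_ (isClosed_ann _ _)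
  intro x hx
  obtain ⟨y, hy, hxy⟩ := Cv.exists_of_ne hx
  have h1 : ‖y‖ ≤ 1 / 64 := by
    have := mem_of_ne' hK hy
    rw [mem_closedBall_zero_iff] at this
    linarith
  have h2 := mem_of_ne hc hxy
  rw [mem_ball_iff_norm] at h2
  have h5 : ‖x - y₀‖ ≤ 1 / 32 := by
    have : x - y₀ = y + (x - y - y₀) := by abel
    rw [this]
    have := norm_add_le y (x - y - y₀)
    linarith
  have h3 : ‖x‖ ≤ ‖x - y₀‖ + ‖y₀‖ := by
    simpa using norm_add_le (x - y₀) y₀
  have h4 : ‖y₀‖ ≤ ‖x‖ + ‖x - y₀‖ := by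
    have := norm_sub_le x (x - y₀)
    simpa using this
  rw [norm_y0] at h3 h4
  exact ⟨by linarith, by linarith⟩

theorem supp_pot {K c : E → ℝ} (hK : tsupport K ⊆ Metric.closedBall 0 (5 / 8))
    (hc : tsupport c ⊆ Metric.ball y₀ (1 / 64)) : tsupport (cv K c) ⊆ Metric.closedBall 0 (45 / 64) := by
  refine closure_minimal ?_ Metric.isClosed_closedBall
  intro x hx
  obtain ⟨y, hy, hxy⟩ := Cv.exists_of_ne hx
  have h1 := mem_of_ne' hK hy
  rw [mem_closedBall_zero_iff] at h1 ⊢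
  have h2 := norm_lt (mem_of_ne hc hxy)
  have h3 : ‖x‖ ≤ ‖y‖ + ‖x - y‖ := by
    simpa using norm_add_le y (x - y)
  linarith

theorem bump_of_closedBall {a : E → ℝ} (ha : ContDiff ℝ ∞ a) {r : ℝ} (hr : r < 1)
    (hs : tsupport a ⊆ Metric.closedBall 0 r) : IsBump (Metric.ball 0 1) a :=
  ⟨ha, (isCompact_closedBall (0 : E) r).of_isClosed_subset (isClosed_tsupport _) hs,
    hs.trans (Metric.closedBall_subset_ball hr)⟩

theorem compact_of_closedBall {a : E → ℝ} {r : ℝ}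
    (hs : tsupport a ⊆ Metric.closedBall 0 r) : HasCompactSupport a :=
  (isCompact_closedBall (0 : E) r).of_isClosed_subset (isClosed_tsupport _) hs

/-- The amplitudes are smooth. -/
theorem amp_smooth {f b : E → ℝ} {τ : ℝ} (hf : ContDiff ℝ ∞ f) (hb : ContDiff ℝ ∞ b) (hf0 : ∀ x, 0 ≤ f x)
    (hb0 : ∀ x, 0 ≤ b x) (hτ : 0 < τ) (hp : ∀ x ∈ tsupport f, 0 < b x) :
    ContDiff ℝ ∞ fun x => Real.sqrt (f x + τ * b x ^ 2) := by
  rw [contDiff_iff_contDiffAt]
  intro x
  by_cases hx : x ∈ tsupport f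
  · have h1 : f x + τ * b x ^ 2 ≠ 0 := by
      have := hp x hx
      have := hf0 x
      positivity
    exact ContDiffAt.sqrt ((hf.add (contDiff_const.mul (hb.pow 2))).contDiffAt) h1
  · have h1 : (fun x => Real.sqrt (f x + τ * b x ^ 2)) =ᶠ[𝓝 x] fun x => Real.sqrt τ * b x := by
      have h2 : (tsupport f)ᶜ ∈ 𝓝 x := (isClosed_tsupport f).isOpen_compl.mem_nhds hx
      filter_upwards [h2] with z hz
      rw [image_eq_zero_of_notMem_tsupport hz, zero_add, Real.sqrt_mul hτ.le, Real.sqrt_sq (hb0 z)]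
    exact (contDiff_const.mul hb).contDiffAt.congr_of_eventuallyEq h1

theorem amp_supp {f b : E → ℝ} {τ : ℝ} (hp : ∀ x ∈ tsupport f, 0 < b x) :
    tsupport (fun x => Real.sqrt (f x + τ * b x ^ 2)) ⊆ tsupport b := by
  refine closure_mono ?_
  intro x hx
  simp only [Function.mem_support, ne_eq] at hx ⊢
  intro h0
  apply hx
  have h1 : f x = 0 := by
    by_contra h
    exact absurd h0 (hp x (subset_tsupport f h)).ne'
  rw [h1, h0]
  norm_num

theorem amp_sq {f b : E → ℝ} {τ : ℝ} (hf0 : ∀ x, 0 ≤ f x) (hτ : 0 < τ) (x : E) :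
    Real.sqrt (f x + τ * b x ^ 2) ^ 2 = f x + τ * b x ^ 2 := by
  have := hf0 x
  rw [Real.sq_sqrt (by positivity)]

/-- The potentials. -/
theorem pot {K γ₁ ψ θ b b₂ c : E → ℝ} {τ : ℝ} (hγ : Continuous γ₁) (hγs : HasCompactSupport γ₁)
    (hc : ContDiff ℝ ∞ c) (hcs : tsupport c ⊆ Metric.ball y₀ (1 / 64)) (hψ : ContDiff ℝ ∞ ψ)
    (hψs : tsupport ψ ⊆ Metric.closedBall 0 (5 / 8)) (hK : ∀ x, K x = γ₁ x + lap ψ x)
    (hθ : IsBump (Metric.ball 0 1) θ) (hb : ∀ x, b x ^ 2 = b₂ x ^ 2 + lap θ x) :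
    ∃ Ψ : E → ℝ, IsBump (Metric.ball 0 1) Ψ ∧
      ∀ x, cv K c x + τ * b x ^ 2 = cv γ₁ c x + τ * b₂ x ^ 2 + lap Ψ x := by
  have hcc : HasCompactSupport c :=
    (isCompact_closedBall y₀ (1 / 64)).of_isClosed_subset (isClosed_tsupport _)
      (hcs.trans Metric.ball_subset_closedBall)
  have hψc := compact_of_closedBall hψs
  have h1 : ContDiff ℝ ∞ (cv ψ c) := Cv.contDiff hψ.continuous hc hcc
  have h2 : IsBump (Metric.ball 0 1) (cv ψ c) := bump_of_closedBall h1 (by norm_num) (supp_pot hψs hcs)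
  refine ⟨fun x => cv ψ c x + τ * θ x, IsBump.add h2 (IsBump.smul hθ τ), fun x => ?_⟩
  have hlc : HasCompactSupport (lap ψ) := by
    refine hψc.of_isClosed_subset (isClosed_tsupport _) (closure_minimal ?_ (isClosed_tsupport _))
    intro y hy
    by_contra hn
    apply hy
    unfold lap
    refine Finset.sum_eq_zero fun i _ => ?_
    have : y ∉ tsupport (dd (e i) (dd (e i) ψ)) := fun h =>
      hn (Cv.tsupport_dd_subset _ _ (Cv.tsupport_dd_subset _ _ h))
    exact image_eq_zero_of_notMem_tsupport this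
  have h3 : K = fun y => γ₁ y + lap ψ y := funext hK
  have h4 := lap_smul hθ.1 τ
  simp only [smul_eq_mul] at h4
  rw [lap_add h1 (contDiff_const.mul hθ.1), h4, h3, Cv.add_left hγ (lap_contDiff hψ).continuous hc.continuous hγs hlc,
    Cv.lap_left hψ hψc hc.continuous, hb x]
  simp only
  ring

theorem bump_zero (Ω : Set E) : IsBump Ω (fun _ : E => (0 : ℝ)) := by
  have h : tsupport (fun _ : E => (0 : ℝ)) = ∅ := by
    rw [tsupport_eq_empty_iff]
    rfl
  refine ⟨contDiff_const, ?_, by rw [h]; exact empty_subset _⟩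
  show IsCompact (tsupport _)
  rw [h]
  exact isCompact_empty

theorem lap_zero (x : E) : lap (fun _ : E => (0 : ℝ)) x = 0 := by
  unfold lap dd
  simp

end ConvKick

open ConvKick in
theorem convKick_proof (hG : Stmt_GenKick) : Stmt_ConvKick := by
  intro κ γ b hp η ζ c ρ τ hη hζ hc hc0 hcs hρ hρ1 hτ
  have hcc : HasCompactSupport c :=
    (isCompact_closedBall y₀ (1 / 64)).of_isClosed_subset (isClosed_tsupport _)
      (hcs.trans Metric.ball_subset_closedBall)
  have hκ := hp.κker ρ hρ hρ1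
  have hγ := hp.γker
  -- the three convolutions
  have s0 : tsupport (cv (κ ρ) c) ⊆ ann (1 / 32) (3 / 32) := supp_core hρ1 (hp.κsupp ρ hρ hρ1) hcs
  have s1 : tsupport (cv (γ 0) c) ⊆ ann (11 / 64) (25 / 64) := by
    refine (supp_ann hp.γ0supp hcs).trans ?_
    intro x hx
    exact ⟨by have := hx.1; linarith, by have := hx.2; linarith⟩
  have s2 : tsupport (cv (γ 1) c) ⊆ ann (31 / 64) (45 / 64) := by
    refine (supp_ann hp.γ1supp hcs).trans ?_
    intro x hx
    exact ⟨by have := hx.1; linarith, by have := hx.2; linarith⟩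
  have p0 : ∀ x ∈ tsupport (cv (κ ρ) c), 0 < b 0 x := fun x hx => hp.b0pos x (s0 hx).1 (s0 hx).2
  have p1 : ∀ x ∈ tsupport (cv (γ 0) c), 0 < b 1 x := fun x hx => hp.b1pos x (s1 hx).1 (s1 hx).2
  have p2 : ∀ x ∈ tsupport (cv (γ 1) c), 0 < b 2 x := fun x hx => hp.b2pos x (s2 hx).1 (s2 hx).2
  have n0 := Cv.nonneg hκ.nonneg hc0
  have n1 := Cv.nonneg (hγ 0).nonneg hc0
  have n2 := Cv.nonneg (hγ 1).nonneg hc0
  have d0 := Cv.contDiff hκ.smooth.continuous hc hcc
  have d1 := Cv.contDiff (hγ 0).smooth.continuous hc hcc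
  have d2 := Cv.contDiff (hγ 1).smooth.continuous hc hcc
  have b0s : tsupport (b 0) ⊆ Metric.closedBall 0 (50 / 64) := fun x hx => by
    rw [mem_closedBall_zero_iff]
    have := hp.b0supp hx
    have h : ‖x‖ ≤ 1 / 8 := this
    linarith
  have b1s : tsupport (b 1) ⊆ Metric.closedBall 0 (50 / 64) := fun x hx => by
    rw [mem_closedBall_zero_iff]
    have := (hp.b1supp hx).2
    linarith
  have b2s : tsupport (b 2) ⊆ Metric.closedBall 0 (50 / 64) := fun x hx => by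
    rw [mem_closedBall_zero_iff]
    exact (hp.b2supp hx).2
  -- the potentials
  have cγ : HasCompactSupport (γ 1) := compact_of_closedBall (hγ 1).supp
  obtain ⟨ψ0, hψ0, hψ0s, hψ0e⟩ := hp.potκ ρ hρ hρ1
  obtain ⟨ψ1, hψ1, hψ1s, hψ1e⟩ := hp.potγ
  obtain ⟨θ0, hθ0, hθ0e⟩ := hp.potb 0
  obtain ⟨θ1, hθ1, hθ1e⟩ := hp.potb 1
  obtain ⟨Ψ0, hΨ0, hΨ0e⟩ := pot (τ := τ) (hγ 1).smooth.continuous cγ hc hcs hψ0 hψ0s hψ0e hθ0 hθ0e
  obtain ⟨Ψ1, hΨ1, hΨ1e⟩ := pot (τ := τ) (hγ 1).smooth.continuous cγ hc hcs hψ1 hψ1s hψ1e hθ1 hθ1e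
  -- the shared part
  have t2 : tsupport (fun x => τ * b 2 x ^ 2) ⊆ tsupport (b 2) := by
    refine closure_mono ?_
    intro x hx
    simp only [Function.mem_support, ne_eq] at hx ⊢
    intro h0
    apply hx
    rw [h0]
    norm_num
  have hs : IsBump (Metric.ball 0 1) (fun x => cv (γ 1) c x + τ * b 2 x ^ 2) := by
    refine IsBump.add (bump_of_closedBall d2 (r := 45 / 64) (by norm_num) ?_)
      (bump_of_closedBall (contDiff_const.mul ((hp.b_smooth 2).pow 2)) (r := 50 / 64) (by norm_num) (t2.trans b2s))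
    intro x hx
    rw [mem_closedBall_zero_iff]
    exact (s2 hx).2
  have hbump : ∀ m, IsBump (Metric.ball 0 1) (cAmp κ γ b ρ τ c m) := by
    intro m
    fin_cases m
    · exact bump_of_closedBall (amp_smooth d0 (hp.b_smooth 0) n0 (hp.b_nonneg 0) hτ p0) (r := 50 / 64) (by norm_num)
        ((amp_supp p0).trans b0s)
    · exact bump_of_closedBall (amp_smooth d1 (hp.b_smooth 1) n1 (hp.b_nonneg 1) hτ p1) (r := 50 / 64) (by norm_num)
        ((amp_supp p1).trans b1s)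
    · exact bump_of_closedBall (amp_smooth d2 (hp.b_smooth 2) n2 (hp.b_nonneg 2) hτ p2) (r := 50 / 64) (by norm_num)
        ((amp_supp p2).trans b2s)
  have hsub : ∀ m, tsupport (cAmp κ γ b ρ τ c m) ⊆ tsupport (b m) := by
    intro m
    fin_cases m
    · exact amp_supp p0
    · exact amp_supp p1
    · exact amp_supp p2
  have hdisj : ∀ m m' : Fin 3, m ≠ m' → Disjoint (tsupport (b m)) (tsupport (b m')) := by
    have h01 : Disjoint (tsupport (b 0)) (tsupport (b 1)) := by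
      rw [Set.disjoint_left]
      intro x hx hx'
      have h1 : ‖x‖ ≤ 1 / 8 := hp.b0supp hx
      have h2 := (hp.b1supp hx').1
      linarith
    have h02 : Disjoint (tsupport (b 0)) (tsupport (b 2)) := by
      rw [Set.disjoint_left]
      intro x hx hx'
      have h1 : ‖x‖ ≤ 1 / 8 := hp.b0supp hx
      have h2 := (hp.b2supp hx').1
      linarith
    have h12 : Disjoint (tsupport (b 1)) (tsupport (b 2)) := by
      rw [Set.disjoint_left]
      intro x hx hx'
      have h1 := (hp.b1supp hx).2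
      have h2 := (hp.b2supp hx').1
      linarith
    intro m m' hm
    fin_cases m <;> fin_cases m'
    · exact absurd rfl hm
    · exact h01
    · exact h02
    · exact h01.symm
    · exact absurd rfl hm
    · exact h12
    · exact h02.symm
    · exact h12.symm
    · exact absurd rfl hm
  refine hG (Metric.ball 0 1) η ζ (cAmp κ γ b ρ τ c) ![Ψ0, Ψ1, fun _ => 0] (fun x => cv (γ 1) c x + τ * b 2 x ^ 2) hη hζ
    hbump (fun m m' hm => (hdisj m m' hm).mono (hsub m) (hsub m')) ?_ hs ?_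
  · intro m
    fin_cases m
    · exact hΨ0
    · exact hΨ1
    · exact bump_zero _
  · intro m x
    fin_cases m
    · show Real.sqrt (cv (κ ρ) c x + τ * b 0 x ^ 2) ^ 2 = _
      rw [amp_sq n0 hτ]
      exact hΨ0e x
    · show Real.sqrt (cv (γ 0) c x + τ * b 1 x ^ 2) ^ 2 = _
      rw [amp_sq n1 hτ]
      exact hΨ1e x
    · show Real.sqrt (cv (γ 1) c x + τ * b 2 x ^ 2) ^ 2 = cv (γ 1) c x + τ * b 2 x ^ 2 + lap (fun _ => 0) x
      rw [amp_sq n2 hτ, lap_zero, add_zero]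

end Pool.Agent.NSN
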