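import Pool.Agent.NSN.Net
import Pool.Agent.NSK.BaseCalc

/-!
# NSN: convolutions (library)

`cv K c x = ∫ y, K y * c (x - y)`.
-/

open MeasureTheory Set Filter Topology
open scoped RealInnerProductSpace ContDiff Convolution

noncomputable section

namespace Pool.Agent.NSN

open Pool.Agent.NSD Pool.Agent.NSK Pool.Agent.NSK.Base

namespace Cv

theorem eq_conv (K c : E → ℝ) : cv K c = (K ⋆[ContinuousLinearMap.mul ℝ ℝ, volume] c) := by
  funext x
  rfl

theorem swap (K c : E → ℝ) (x : E) : cv K c x = ∫ y, K (x - y) * c y := by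
  unfold cv
  have h := integral_sub_left_eq_self (fun y => K y * c (x - y)) (μ := (volume : Measure E)) x
  rw [← h]
  refine integral_congr_ae (Eventually.of_forall fun y => ?_)
  simp only
  rw [sub_sub_cancel]

theorem contDiff {K c : E → ℝ} (hK : Continuous K) (hc : ContDiff ℝ ∞ c) (hcs : HasCompactSupport c) :
    ContDiff ℝ ∞ (cv K c) := by
  rw [eq_conv]
  exact hcs.contDiff_convolution_right _ hK.locallyIntegrable hc

theorem integrable {K c : E → ℝ} (hK : Continuous K) (hc : Continuous c) (hKs : HasCompactSupport K) (x : E) :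
    Integrable (fun y => K y * c (x - y)) := by
  refine Continuous.integrable_of_hasCompactSupport (by fun_prop) ?_
  exact hKs.mul_right

theorem add_left {K K' c : E → ℝ} (hK : Continuous K) (hK' : Continuous K') (hc : Continuous c)
    (hKs : HasCompactSupport K) (hKs' : HasCompactSupport K') (x : E) :
    cv (fun y => K y + K' y) c x = cv K c x + cv K' c x := by
  unfold cv
  rw [← integral_add (integrable hK hc hKs x) (integrable hK' hc hKs' x)]
  refine integral_congr_ae (Eventually.of_forall fun y => ?_)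
  simp only
  ring

theorem nonneg {K c : E → ℝ} (hK : ∀ y, 0 ≤ K y) (hc : ∀ y, 0 ≤ c y) (x : E) : 0 ≤ cv K c x :=
  integral_nonneg fun y => mul_nonneg (hK y) (hc _)

/-- Points of the support. -/
theorem exists_of_ne {K c : E → ℝ} {x : E} (h : cv K c x ≠ 0) : ∃ y, K y ≠ 0 ∧ c (x - y) ≠ 0 := by
  by_contra hn
  push Not at hn
  apply h
  unfold cv
  refine integral_eq_zero_of_ae (Eventually.of_forall fun y => ?_)
  simp only [Pi.zero_apply]
  by_cases hy : K y = 0
  · rw [hy, zero_mul]
  · rw [hn y hy, mul_zero]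

theorem dd_left {ψ c : E → ℝ} (hψ : ContDiff ℝ ∞ ψ) (hψs : HasCompactSupport ψ) (hc : Continuous c) (v : E) :
    dd v (cv ψ c) = cv (dd v ψ) c := by
  funext x
  have h1 := hψs.hasFDerivAt_convolution_left (μ := (volume : Measure E)) (ContinuousLinearMap.mul ℝ ℝ)
    (hψ.of_le (by simp)) hc.locallyIntegrable x
  unfold dd
  rw [eq_conv, h1.fderiv]
  have h2 : Integrable (fun t => (ContinuousLinearMap.precompL E (ContinuousLinearMap.mul ℝ ℝ)) (fderiv ℝ ψ t) (c (x - t))) :=
    (HasCompactSupport.convolutionExists_left _ (hψs.fderiv ℝ) (hψ.continuous_fderiv (by simp)) hc.locallyIntegrable) x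
  show (∫ t, (ContinuousLinearMap.precompL E (ContinuousLinearMap.mul ℝ ℝ)) (fderiv ℝ ψ t) (c (x - t))) v = _
  rw [ContinuousLinearMap.integral_apply h2]
  rfl

theorem tsupport_dd_subset (ψ : E → ℝ) (v : E) : tsupport (dd v ψ) ⊆ tsupport ψ := by
  refine (closure_mono ?_).trans (tsupport_fderiv_subset ℝ (f := ψ))
  intro x hx
  simp only [Function.mem_support, ne_eq] at hx ⊢
  intro h0
  apply hx
  unfold dd
  rw [h0]
  rfl

theorem hasCompactSupport_dd {ψ : E → ℝ} (hψs : HasCompactSupport ψ) (v : E) : HasCompactSupport (dd v ψ) :=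
  hψs.of_isClosed_subset (isClosed_tsupport _) (tsupport_dd_subset ψ v)

theorem lap_left {ψ c : E → ℝ} (hψ : ContDiff ℝ ∞ ψ) (hψs : HasCompactSupport ψ) (hc : Continuous c) :
    lap (cv ψ c) = cv (lap ψ) c := by
  funext x
  have hd : ∀ i : Fin 3, ContDiff ℝ ∞ (dd (e i) (dd (e i) ψ)) := fun i => dd_contDiff (dd_contDiff hψ _) _
  have hs : ∀ i : Fin 3, HasCompactSupport (dd (e i) (dd (e i) ψ)) := fun i =>
    hasCompactSupport_dd (hasCompactSupport_dd hψs _) _
  have h1 : ∀ i : Fin 3, dd (e i) (dd (e i) (cv ψ c)) x = cv (dd (e i) (dd (e i) ψ)) c x := by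
    intro i
    rw [dd_left hψ hψs hc, dd_left (dd_contDiff hψ _) (hasCompactSupport_dd hψs _) hc]
  unfold lap
  rw [Finset.sum_congr rfl fun i _ => h1 i]
  unfold cv
  rw [← integral_finsetSum Finset.univ fun i _ => integrable (hd i).continuous hc (hs i) x]
  refine integral_congr_ae (Eventually.of_forall fun y => ?_)
  simp only [Finset.sum_mul]

end Cv

end Pool.Agent.NSN
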