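import Pool.Agent.NSN.Net
import Pool.Agent.NSK.Base

/-!
# MP_fd8964_an, the critical net: three waves with the directions of a frame (module GK)
-/

open MeasureTheory Set Filter Topology
open scoped RealInnerProductSpace ContDiff

noncomputable section

namespace Pool.Agent.NSN

open Pool.Agent.NSD Pool.Agent.NSK Pool.Agent.NSK.Base

namespace GK

theorem frame_sum {ζ : Fin 3 → E} (h : IsFrame ζ) (i l : Fin 3) :
    ∑ m, ζ m i * ζ m l = if i = l then (1 : ℝ) else 0 := by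
  let Z : Matrix (Fin 3) (Fin 3) ℝ := Matrix.of fun m i => ζ m i
  have h1 : Z * Z.transpose = 1 := by
    ext m m'
    rw [Matrix.mul_apply, Matrix.one_apply]
    have h2 : ∑ i, Z m i * Z.transpose i m' = ⟪ζ m, ζ m'⟫ := by
      rw [inner_coord]
      rfl
    rw [h2]
    split_ifs with hm
    · subst hm
      rw [real_inner_self_eq_norm_sq, h.1]
      norm_num
    · exact h.2 m m' hm
  have h2 : Z.transpose * Z = 1 := mul_eq_one_comm.1 h1
  have h3 := congrFun (congrFun h2 i) l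
  rw [Matrix.mul_apply, Matrix.one_apply] at h3
  exact h3

theorem frame_lap {ζ : Fin 3 → E} (h : IsFrame ζ) {f : E → ℝ} (hf : ContDiff ℝ ∞ f) (x : E) :
    ∑ m, dd (ζ m) (dd (ζ m) f) x = lap f x := by
  have h0 : ∀ m, dd (ζ m) (dd (ζ m) f) x
      = ∑ i : Fin 3, ∑ l : Fin 3, ζ m i * ζ m l * dd (e i) (dd (e l) f) x := fun m => by
    rw [dd_dd_coord hf]
    rfl
  rw [Finset.sum_congr rfl fun m _ => h0 m, Finset.sum_comm]
  have h1 : ∀ i : Fin 3, ∑ m : Fin 3, ∑ l : Fin 3, ζ m i * ζ m l * dd (e i) (dd (e l) f) x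
      = dd (e i) (dd (e i) f) x := by
    intro i
    rw [Finset.sum_comm]
    simp only [← Finset.sum_mul, frame_sum h]
    simp
  simp only [h1]
  rfl

/-- The pressure. -/
def pr (ζ : Fin 3 → E) (ψ : Fin 3 → E → ℝ) (s : E → ℝ) (y : E) : ℝ :=
  s y + ∑ m, dd (ζ m) (dd (ζ m) (ψ m)) y

/-- The components of the kick. -/
def gcomp (ζ : Fin 3 → E) (a ψ : Fin 3 → E → ℝ) (s : E → ℝ) (η : ℝ) (i : Fin 3) (x : E) : ℝ :=
  (4 * η)⁻¹ * ((∑ m, ζ m i * dd (ζ m) (fun y => a m y ^ 2) x) + (-1) * dd (e i) (pr ζ ψ s) x)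

theorem pr_bump {Ω : Set E} (ζ : Fin 3 → E) {ψ : Fin 3 → E → ℝ} {s : E → ℝ} (hψ : ∀ m, IsBump Ω (ψ m))
    (hs : IsBump Ω s) : IsBump Ω (pr ζ ψ s) :=
  IsBump.add hs (IsBump.sum fun m => IsBump.dd (IsBump.dd (hψ m) _) _)

theorem gcomp_bump {Ω : Set E} (ζ : Fin 3 → E) {a ψ : Fin 3 → E → ℝ} {s : E → ℝ} (ha : ∀ m, IsBump Ω (a m))
    (hψ : ∀ m, IsBump Ω (ψ m)) (hs : IsBump Ω s) (η : ℝ) (i : Fin 3) : IsBump Ω (gcomp ζ a ψ s η i) :=
  IsBump.smul (IsBump.add (IsBump.sum fun m => IsBump.smul (IsBump.dd (sq_bump (ha m)) _) _)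
    (IsBump.smul (IsBump.dd (pr_bump ζ hψ hs) _) _)) _

theorem main_id {Ω : Set E} {ζ : Fin 3 → E} (hζ : IsFrame ζ) {a ψ : Fin 3 → E → ℝ} {s : E → ℝ}
    (hψ : ∀ m, IsBump Ω (ψ m)) (hs : IsBump Ω s) (he : ∀ m x, a m x ^ 2 = s x + lap (ψ m) x) (x : E) :
    ∑ m, dd (ζ m) (dd (ζ m) (fun y => a m y ^ 2)) x = lap (pr ζ ψ s) x := by
  have hψ' : ∀ m, ContDiff ℝ ∞ (ψ m) := fun m => (hψ m).1
  have hL : ∀ m, dd (ζ m) (dd (ζ m) (fun y => a m y ^ 2)) x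
      = dd (ζ m) (dd (ζ m) s) x + lap (dd (ζ m) (dd (ζ m) (ψ m))) x := by
    intro m
    have h0 : (fun y => a m y ^ 2) = fun y => s y + lap (ψ m) y := by
      funext y
      exact he m y
    rw [h0, dd_add hs.1 (lap_contDiff (hψ' m)), dd_add (dd_contDiff hs.1 _) (dd_contDiff (lap_contDiff (hψ' m)) _),
      lap_dd (dd_contDiff (hψ' m) _), lap_dd (hψ' m)]
  simp only [hL, Finset.sum_add_distrib]
  have hR : pr ζ ψ s = fun y => s y + ∑ m, dd (ζ m) (dd (ζ m) (ψ m)) y := rfl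
  have c3 : ∀ m, ContDiff ℝ ∞ (dd (ζ m) (dd (ζ m) (ψ m))) := fun m => dd_contDiff (dd_contDiff (hψ' m) _) _
  rw [hR, lap_add hs.1 (ContDiff.sum fun m _ => c3 m), lap_sum Finset.univ c3, frame_lap hζ hs.1]

theorem gcomp_div {Ω : Set E} {ζ : Fin 3 → E} (hζ : IsFrame ζ) {a ψ : Fin 3 → E → ℝ} {s : E → ℝ}
    (ha : ∀ m, IsBump Ω (a m)) (hψ : ∀ m, IsBump Ω (ψ m)) (hs : IsBump Ω s)
    (he : ∀ m x, a m x ^ 2 = s x + lap (ψ m) x) (η : ℝ) (x : E) :
    ∑ i : Fin 3, dd (e i) (gcomp ζ a ψ s η i) x = 0 := by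
  have hA : ∀ m, ContDiff ℝ ∞ (fun y => a m y ^ 2) := fun m => (sq_bump (ha m)).1
  have hpr := (pr_bump ζ hψ hs).1
  have h1 : ∀ i : Fin 3, dd (e i) (gcomp ζ a ψ s η i) x = (4 * η)⁻¹ *
      ((∑ m, ζ m i * dd (e i) (dd (ζ m) (fun y => a m y ^ 2)) x) - dd (e i) (dd (e i) (pr ζ ψ s)) x) := by
    intro i
    have h2 : gcomp ζ a ψ s η i = fun x => (4 * η)⁻¹ • ((∑ m, ζ m i • dd (ζ m) (fun y => a m y ^ 2) x)
        + (-1 : ℝ) • dd (e i) (pr ζ ψ s) x) := rfl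
    have c1 : ∀ m, ContDiff ℝ ∞ (fun x => ζ m i • dd (ζ m) (fun y => a m y ^ 2) x) :=
      fun m => (dd_contDiff (hA m) _).const_smul _
    have c2 : ContDiff ℝ ∞ (fun x => (-1 : ℝ) • dd (e i) (pr ζ ψ s) x) := (dd_contDiff hpr _).const_smul _
    rw [h2, dd_smul ((ContDiff.sum fun m _ => c1 m).add c2), dd_add (ContDiff.sum fun m _ => c1 m) c2,
      dd_sum Finset.univ c1, dd_smul (dd_contDiff hpr _)]
    simp only [smul_eq_mul]
    have h3 : ∀ m, dd (e i) (fun x => ζ m i * dd (ζ m) (fun y => a m y ^ 2) x) x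
        = ζ m i * dd (e i) (dd (ζ m) (fun y => a m y ^ 2)) x := by
      intro m
      have := congrFun (dd_smul (dd_contDiff (hA m) (ζ m)) (ζ m i) (e i)) x
      simpa only [smul_eq_mul] using this
    simp only [h3]
    ring
  simp only [h1]
  rw [← Finset.mul_sum, Finset.sum_sub_distrib, Finset.sum_comm]
  have h4 : ∀ m, ∑ i : Fin 3, ζ m i * dd (e i) (dd (ζ m) (fun y => a m y ^ 2)) x
      = dd (ζ m) (dd (ζ m) (fun y => a m y ^ 2)) x := by
    intro m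
    rw [dd_coord (dd (ζ m) (fun y => a m y ^ 2)) (ζ m) x]
    rfl
  rw [Finset.sum_congr rfl fun m _ => h4 m, main_id hζ hψ hs he x]
  unfold lap
  rw [sub_self, mul_zero]

end GK

theorem genKick_proof : Stmt_GenKick := by
  intro Ω η ζ a ψ s hη hζ ha hd hψ hs he
  refine ⟨fun m => ζ (m + 1), GK.pr ζ ψ s, vec (GK.gcomp ζ a ψ s η), ?_⟩
  refine
    { bump := ha
      disj := hd
      k_unit := fun m => hζ.1 _
      ξ_unit := hζ.1
      orth := fun m => hζ.2 _ _ (by fin_cases m <;> decide)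
      pres := GK.pr_bump ζ hψ hs
      test := vec_test (GK.gcomp_bump ζ ha hψ hs η) (GK.gcomp_div hζ ha hψ hs he η)
      eq := fun x => ?_ }
  ext l
  have h1 : (∑ m, dd (ζ m) (fun y => a m y ^ 2) x • ζ m) l = ∑ m, ζ m l * dd (ζ m) (fun y => a m y ^ 2) x := by
    rw [WithLp.ofLp_sum, Finset.sum_apply]
    refine Finset.sum_congr rfl fun m _ => ?_
    rw [PiLp.smul_apply, smul_eq_mul, mul_comm]
  rw [h1, PiLp.add_apply, PiLp.smul_apply, vec_apply, gradS_coord]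
  unfold GK.gcomp
  have h4 : (4 * η) ≠ 0 := by positivity
  rw [smul_eq_mul, ← mul_assoc, mul_inv_cancel₀ h4]
  ring

end Pool.Agent.NSN
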