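import Pool.Agent.NSN.Net
import Pool.Agent.NSK.TransferAll

/-!
# MP_fd8964_an, the critical net: the families of good data
-/

open MeasureTheory Set Filter Topology
open scoped RealInnerProductSpace ContDiff

noncomputable section

namespace Pool.Agent.NSN

open Pool.Agent.NSD Pool.Agent.NSK

/-- One kick, for all large frequencies. -/
theorem step_gen (hFu : Stmt_Full) (hE4 : Stmt_E4) (hLay : Stmt_Layer) (hCT : Stmt_CompatTest) (hWk : Stmt_Weak)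
    {Ω : Set E} (hΩ : IsOpen Ω) (hb : Bornology.IsBounded Ω) {D : Data (V Ω) (L2 Ω)} (hD : IsNSData Ω D)
    {η : ℝ} (hη : 0 < η) {f f₁ : ℝ → V' Ω} (hf : IsH1loc f f₁) {h₁ : L2 Ω} (hf0 : ∀ v : V Ω, f 0 v = ⟪h₁, fld v⟫)
    {J : Set ℝ} (hJ : IsInt J) {S W : ℝ → V Ω} (hSW : IsH1loc S W)
    (hS : ∃ C, ∀ T ∈ J, SolOn D η f T S W ∧ BdOn D C T S W) (hs : InTest (S 0))
    {n : ℕ} {a : Fin n → E → ℝ} {k ξ : Fin n → E} {q : E → ℝ} {G : E → E} (hk : Kick Ω η n a k ξ q G)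
    {ε : ℝ} (hε : 0 < ε) :
    ∃ N₀ : ℝ, 1 ≤ N₀ ∧ ∀ N : ℝ, N₀ ≤ N → ∀ P₀ : V Ω, Represents Ω (fun x => G x + waveA N a k ξ x) P₀ →
      ∃ S' W' : ℝ → V Ω, IsH1loc S' W' ∧ (∃ C, ∀ T ∈ J, SolOn D η f T S' W' ∧ BdOn D C T S' W') ∧ InTest (S' 0) ∧
        S' 0 = S 0 + P₀ ∧ ∀ t ∈ J, ε ≤ t → ‖S' t - S t‖ ≤ ε := by
  obtain ⟨s, hst, hsV⟩ := hs
  obtain ⟨C₀, hC₀⟩ := hS
  have hc₀ := D.c₀_pos
  obtain ⟨M, c, hM, hc, hlay⟩ := hLay Ω hΩ hb D hD η n a k ξ q G s (S 0) hη hk hst hsV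
  obtain ⟨N₀, C, hN₀, hC, hft⟩ := hFu (V Ω) (L2 Ω) D η M c (max C₀ 0) hη hM hc (le_max_right _ _)
  set CS' : ℝ := max (max C₀ 0) C with hCS'
  have hCS'0 : 0 ≤ CS' := hC.trans (le_max_right _ _)
  obtain ⟨C₆, hC₆, H4⟩ := hE4 (V Ω) (L2 Ω) D η M c CS' ε hη hM hc hCS'0 hε
  obtain ⟨p, hp⟩ := Rep_proof Ω G hk.test
  obtain ⟨N₁, hN₁⟩ := layer_data hCT hWk hΩ hb hD hst hsV hk hp (K := ∅) isCompact_empty hε
  set κ : ℝ := √D.c₀ * ε / 2 with hκ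
  have hκ0 : 0 < κ := by have := Real.sqrt_pos.2 hc₀; positivity
  obtain ⟨N₂, hN₂⟩ := small_layer2 hM hc hε hκ0
  refine ⟨max (max N₀ N₁) (max N₂ (C₆ / κ ^ 2)), hN₀.trans ((le_max_left _ _).trans (le_max_left _ _)),
    fun N hN P₀ hP₀ => ?_⟩
  have hN0 : N₀ ≤ N := ((le_max_left _ _).trans (le_max_left _ _)).trans hN
  have hN1 : N₁ ≤ N := ((le_max_right _ _).trans (le_max_left _ _)).trans hN
  have hN2 : N₂ ≤ N := ((le_max_left _ _).trans (le_max_right _ _)).trans hN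
  have hN3 : C₆ / κ ^ 2 ≤ N := ((le_max_right _ _).trans (le_max_right _ _)).trans hN
  have h1N : 1 ≤ N := hN₀.trans hN0
  have hNpos : 0 < N := by linarith
  obtain ⟨P, P', ρ, hL, hrep⟩ := hlay N h1N
  have hPP : P 0 = P₀ := by
    refine Subtype.ext ?_
    have e1 : (P 0 : H1 Ω).fst = (P₀ : H1 Ω).fst := Lp.ext (hrep.1.trans hP₀.1.symm)
    have e2 : (P 0 : H1 Ω).snd = (P₀ : H1 Ω).snd := Lp.ext (hrep.2.trans hP₀.2.symm)
    exact (WithLp.ofLp_injective 2) (Prod.ext e1 e2)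
  obtain ⟨h1, ⟨h, hh, hcomp⟩, h3⟩ := hN₁ N hN1 (P 0) hrep
  obtain ⟨u, w, huw, hu0, ⟨C', hub⟩, hz⟩ := hft N J f f₁ S W P P' ρ (h₁ + h) hN0 (fun T hT => hJ.nonneg hT) hf
    (fun T hT => ⟨(hC₀ T hT).1, (hC₀ T hT).2.mono_const (le_max_left _ _)⟩) hSW
    (((hC₀ 0 hJ.zero_mem).2.sig 0 ⟨le_rfl, le_rfl⟩).trans (le_max_left _ _)) hL
    (by
      intro v
      rw [inner_add_left, ← hcomp v, hf0 v, hD.1 v]
      ring)
  have hCN : C₆ / N ≤ κ ^ 2 := by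
    rw [div_le_iff₀ (by positivity)] at hN3
    rw [div_le_iff₀ hNpos]
    linarith
  refine ⟨u, w, huw, ⟨C', hub⟩, by rwa [hu0], by rw [hu0, hPP], fun t ht hεt => ?_⟩
  have ht0 : 0 ≤ t := hJ.nonneg ht
  have e1 := H4 N t f S W u w P P' ρ h1N ht0 (hC₀ t ht).1
    ((hC₀ t ht).2.mono_const ((le_max_left _ _).trans (le_max_left _ _))) (hub t ht).1 hL hu0
    (fun r hr => ⟨((hz t ht).1 r hr).1.trans (div_le_div_of_nonneg_right (le_max_right _ _) hNpos.le),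
      ((hz t ht).1 r hr).2.trans (le_max_right _ _)⟩)
    ((hz t ht).2.trans (div_le_div_of_nonneg_right (le_max_right _ _) (by positivity))) t ⟨hεt, le_rfl⟩
  have e2 : D.sig (u t - S t - P t) ≤ κ := le_of_sq_le_sq (e1.trans hCN) hκ0.le
  have e3 := (hL.sigP t ht0).trans (hN₂ N hN2 h1N t hεt)
  have e4 : D.sig (u t - S t) ≤ 2 * κ := by
    have e5 := D.sig_add_le (u t - S t - P t) (P t)
    rw [sub_add_cancel] at e5
    linarith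
  have e6 := D.norm_le_sig (u t - S t)
  have e7 : √D.c₀ * ‖u t - S t‖ ≤ √D.c₀ * ε := by
    refine (e6.trans e4).trans (le_of_eq ?_)
    rw [hκ]; ring
  exact le_of_mul_le_mul_left e7 (Real.sqrt_pos.2 hc₀)

/-- The sets of good data. -/
def GdSet {Ω : Set E} (D : Data (V Ω) (L2 Ω)) (η : ℝ) (f : ℝ → V' Ω) (J : Set ℝ) (v : ℝ → V Ω) (ε : ℝ) :
    Set (V Ω) :=
  {x | ∃ S W : ℝ → V Ω, IsH1loc S W ∧ (∃ C, ∀ T ∈ J, SolOn D η f T S W ∧ BdOn D C T S W) ∧ InTest (S 0) ∧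
    S 0 = x ∧ ∀ t ∈ J, ε ≤ t → ‖S t - v t‖ ≤ ε}

theorem good_proof : Stmt_Good := by
  intro Ω hΩ hb η hη f hf J hJ v hv
  obtain ⟨D, hD⟩ := data_proof Ω hΩ hb
  obtain ⟨⟨f₁, hf₁, hf₂⟩, h₁, hh₁, hfh⟩ := hf
  have hJ' : IsInt J := hJ
  refine ⟨GdSet D η f J v, ?_, ?_, ?_⟩
  · intro ε ε' hε hεε' x hx n a k ξ q G hk
    obtain ⟨S, W, hSW, hS, hs, hS0, hSv⟩ := hx
    obtain ⟨N₀, hN₀, h⟩ := step_gen full_all (e4_proof (smoothE_proof energyId_proof gronwallInt_proof)) layer_all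
      (compatTest_proof lap_proof adv_proof) (weak_proof pairXi_proof) hΩ hb hD hη ⟨hf₁, hf₂⟩ hfh hJ' hSW hS hs hk
      (sub_pos.2 hεε')
    refine ⟨N₀, hN₀, fun N hN P hP => ?_⟩
    obtain ⟨S', W', h1, h2, h3, h4, h5⟩ := h N hN P hP
    refine ⟨S', W', h1, h2, h3, by rw [h4, hS0], fun t ht hεt => ?_⟩
    have e1 := h5 t ht (by linarith)
    have e2 := hSv t ht (by linarith)
    have e3 : S' t - v t = (S' t - S t) + (S t - v t) := by abel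
    rw [e3]
    refine (norm_add_le _ _).trans ?_
    linarith
  · intro ε hε
    have hback : ∃ (S W : ℝ → V Ω) (C : ℝ), IsH1loc S W ∧ (∀ T ∈ J, SolOn D η f T S W ∧ BdOn D C T S W) ∧
        InTest (S 0) ∧ S 0 = v 0 ∧ ∀ t ∈ J, S t = v t := by
      rcases hv with ⟨hf0, hv0⟩ | ⟨hv0, hv⟩
      · subst hf0 hv0
        have hs : D.sig 0 = 0 := by simp [Data.sig]
        refine ⟨0, 0, 0, Global.zero_h1, fun T hT => ⟨⟨Global.zero_h1, ?_⟩, ?_, ?_, ?_, ?_⟩, inTest_zero Ω, rfl,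
          fun t _ => rfl⟩
        · exact Filter.Eventually.of_forall fun t v => by simp
        · exact Filter.Eventually.of_forall fun t => by simp
        · intro t _; simp [hs]
        · simp [hs]
        · simp [hs]
      · obtain ⟨S, W, C, h1, h2, h3, h4⟩ := bdd_to hD hJ' hv
        exact ⟨S, W, C, h1, h2, by rwa [h3], h3, h4⟩
    obtain ⟨S, W, C, h1, h2, h3, h4, h5⟩ := hback
    refine ⟨S, W, h1, ⟨C, h2⟩, h3, h4, fun t ht _ => ?_⟩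
    rw [h5 t ht, sub_self, norm_zero]
    exact hε.le
  · rintro ε hε x ⟨S, W, h1, ⟨C, h2⟩, h3, h4, h5⟩
    exact ⟨S, h4, h3, bdd_of hD hJ' h1 h2, h5⟩

end Pool.Agent.NSN
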