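import Pool.Agent.NSN.Net
import Pool.Agent.NSK.KLimit

/-!
# MP_fd8964_an, module Interior (SI): a bounded smooth stress is realized in the interior

Geometric iteration of `Stmt_Sweep` with the weight `W x = A - |x - z|² / δ²`.
-/

open MeasureTheory Set Filter Topology
open scoped RealInnerProductSpace ContDiff Manifold

noncomputable section

namespace Pool.Agent.NSN.Interior

open Pool.Agent.NSD Pool.Agent.NSK Pool.Agent.NSN

/-! ### Sums of realizable functionals -/

lemma realize_zero (Ω : Set E) (η : ℝ) : Realize Ω η (fun _ => 0) 0 := ⟨[], by simp, by simp⟩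

lemma realize_add {Ω : Set E} {η : ℝ} {F F' : V Ω → ℝ} {α α' : ℝ} (h : Realize Ω η F α)
    (h' : Realize Ω η F' α') : Realize Ω η (fun φ => F φ + F' φ) (α + α') := by
  obtain ⟨L, h1, h2⟩ := h
  obtain ⟨L', h1', h2'⟩ := h'
  refine ⟨L ++ L', fun φ => ?_, fun x => ?_⟩
  · rw [List.map_append, List.sum_append, h1, h1']
  · rw [List.map_append, List.sum_append]
    exact add_le_add (h2 x) (h2' x)

lemma realize_mono {Ω : Set E} {η : ℝ} {F F' : V Ω → ℝ} {α α' : ℝ} (h : Realize Ω η F α)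
    (hF : ∀ φ, F φ = F' φ) (hα : α ≤ α') : Realize Ω η F' α' := by
  obtain ⟨L, h1, h2⟩ := h
  exact ⟨L, fun φ => (h1 φ).trans (hF φ), fun x => (h2 x).trans hα⟩

lemma realize_sum {Ω : Set E} {η : ℝ} (F : ℕ → V Ω → ℝ) (α : ℕ → ℝ) (M : ℕ)
    (h : ∀ m < M, Realize Ω η (F m) (α m)) :
    Realize Ω η (fun φ => ∑ m ∈ Finset.range M, F m φ) (∑ m ∈ Finset.range M, α m) := by
  induction M with
  | zero => simpa using realize_zero Ω η
  | succ M ih =>
    have h1 := ih fun m hm => h m (by omega)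
    have h2 := realize_add h1 (h M (by omega))
    refine realize_mono h2 (fun φ => ?_) (le_of_eq ?_)
    · rw [Finset.sum_range_succ]
    · rw [Finset.sum_range_succ]

/-! ### `PX` is additive -/

lemma px_int {Ω : Set E} (hΩ : IsOpen Ω) (hb : Bornology.IsBounded Ω) {h : E → ℝ} (hc : Continuous h) (ξ : E)
    (φ : V Ω) : Integrable (fun x => h x * ∑ i : Fin 3, ξ i * ⟪ξ, (grd φ : E → G) x i⟫) (volume.restrict Ω) := by
  obtain ⟨C, hC⟩ := hb.isCompact_closure.exists_bound_of_continuousOn (f := h) hc.continuousOn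
  refine (KLimit.intg_qf hb φ ξ).bdd_mul (c := C) hc.aestronglyMeasurable ?_
  refine ae_restrict_of_forall_mem hΩ.measurableSet fun x hx => hC x (subset_closure hx)

lemma px_add {Ω : Set E} (hΩ : IsOpen Ω) (hb : Bornology.IsBounded Ω) {h h' : E → ℝ} (hc : Continuous h)
    (hc' : Continuous h') (ξ : E) (φ : V Ω) :
    PX (fun x => h x + h' x) ξ φ = PX h ξ φ + PX h' ξ φ := by
  unfold PX
  rw [← integral_add (px_int hΩ hb hc ξ φ) (px_int hΩ hb hc' ξ φ)]
  refine integral_congr_ae (Eventually.of_forall fun x => ?_)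
  simp only [add_mul]

lemma px_zero {Ω : Set E} (ξ : E) (φ : V Ω) : PX (fun _ => 0) ξ φ = 0 := by
  unfold PX
  simp

lemma px_sum {Ω : Set E} (hΩ : IsOpen Ω) (hb : Bornology.IsBounded Ω) (h : ℕ → E → ℝ) (M : ℕ)
    (hc : ∀ m, Continuous (h m)) (ξ : E) (φ : V Ω) :
    PX (fun x => ∑ m ∈ Finset.range M, h m x) ξ φ = ∑ m ∈ Finset.range M, PX (h m) ξ φ := by
  induction M with
  | zero => simpa using px_zero ξ φ
  | succ M ih =>
    rw [Finset.sum_range_succ, ← ih, ← px_add hΩ hb (continuous_finsetSum _ fun m _ => hc m) (hc M)]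
    simp only [Finset.sum_range_succ]

/-! ### The kernel at scale `ε` -/

lemma sc_cont {g : E → ℝ} (hg : Ker g) (ε : ℝ) : Continuous (sc ε g) :=
  continuous_const.mul (hg.smooth.continuous.comp (continuous_const_smul _))

lemma sc_nonneg {g : E → ℝ} (hg : Ker g) {ε : ℝ} (hε : 0 < ε) (y : E) : 0 ≤ sc ε g y :=
  mul_nonneg (by positivity) (hg.nonneg _)

lemma sc_even {g : E → ℝ} (hg : Ker g) (ε : ℝ) (y : E) : sc ε g (-y) = sc ε g y := by
  unfold sc
  rw [smul_neg, hg.even]

lemma sc_supp {g : E → ℝ} (hg : Ker g) {ε : ℝ} (hε : 0 < ε) {y : E} (hy : sc ε g y ≠ 0) : ‖y‖ ≤ ε := by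
  have h1 : g (ε⁻¹ • y) ≠ 0 := fun h => hy (by unfold sc; rw [h, mul_zero])
  have h2 := hg.supp (subset_tsupport g h1)
  rw [mem_closedBall_zero_iff, norm_smul, Real.norm_eq_abs, abs_of_pos (by positivity)] at h2
  have := mul_le_mul_of_nonneg_left h2 hε.le
  rwa [← mul_assoc, mul_inv_cancel₀ hε.ne', one_mul, mul_one] at this

lemma sc_compact {g : E → ℝ} (hg : Ker g) {ε : ℝ} (hε : 0 < ε) : HasCompactSupport (sc ε g) := by
  refine HasCompactSupport.intro (isCompact_closedBall (0 : E) ε) fun y hy => ?_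
  by_contra h
  exact hy (mem_closedBall_zero_iff.2 (sc_supp hg hε h))

lemma sc_integral (g F : E → ℝ) {ε : ℝ} (hε : 0 < ε) :
    ∫ y, sc ε g y * F y = ∫ y, g y * F (ε • y) := by
  have h := Measure.integral_comp_smul (μ := (volume : Measure E)) (fun y => sc ε g y * F y) ε
  have h2 : ∀ y : E, sc ε g (ε • y) * F (ε • y) = ε⁻¹ ^ 3 * (g y * F (ε • y)) := by
    intro y
    unfold sc
    rw [smul_smul, inv_mul_cancel₀ hε.ne', one_smul, mul_assoc]
  simp only [h2] at h
  rw [integral_const_mul] at h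
  have h3 : Module.finrank ℝ E = 3 := by simp
  rw [h3, abs_of_pos (by positivity), smul_eq_mul, inv_pow] at h
  exact (mul_left_cancel₀ (by positivity) h).symm

/-- The second moment. -/
def mom (g : E → ℝ) : ℝ := ∫ y, g y * ‖y‖ ^ 2

lemma ker_compact {g : E → ℝ} (hg : Ker g) : HasCompactSupport g :=
  (isCompact_closedBall (0 : E) 1).of_isClosed_subset (isClosed_tsupport g) hg.supp

lemma ker_int {g : E → ℝ} (hg : Continuous g) (hg2 : HasCompactSupport g) {F : E → ℝ} (hF : Continuous F) :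
    Integrable (fun y => g y * F y) :=
  (hg.mul hF).integrable_of_hasCompactSupport hg2.mul_right

lemma mom_pos {g : E → ℝ} (hg : Ker g) : 0 < mom g := by
  have hc : Continuous fun y : E => g y * ‖y‖ ^ 2 := hg.smooth.continuous.mul (by fun_prop)
  have hi : Integrable fun y : E => g y * ‖y‖ ^ 2 := ker_int hg.smooth.continuous (ker_compact hg) (by fun_prop)
  have h0 : ∀ y : E, 0 ≤ g y * ‖y‖ ^ 2 := fun y => mul_nonneg (hg.nonneg y) (by positivity)
  refine lt_of_le_of_ne (integral_nonneg h0) fun h => ?_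
  have h1 := (integral_eq_zero_iff_of_nonneg h0 hi).1 h.symm
  have h2 := (hc.ae_eq_iff_eq volume continuous_const).1 h1
  have h3 : ∀ᵐ y : E, g y = 0 := by
    have : ∀ᵐ y : E, y ≠ 0 := by
      rw [ae_iff]
      simp
    filter_upwards [this] with y hy
    have h4 := congrFun h2 y
    have h5 : g y * ‖y‖ ^ 2 = 0 := h4
    rcases mul_eq_zero.1 h5 with h6 | h6
    · exact h6
    · exact absurd (norm_eq_zero.1 (pow_eq_zero_iff (by norm_num) |>.1 h6)) hy
  have h4 : ∫ y, g y = 0 := by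
    rw [integral_congr_ae h3]
    simp
  rw [hg.mass] at h4
  exact one_ne_zero h4

lemma mom_le {g : E → ℝ} (hg : Ker g) : mom g ≤ 1 := by
  rw [← hg.mass]
  refine integral_mono (ker_int hg.smooth.continuous (ker_compact hg) (by fun_prop))
    (hg.smooth.continuous.integrable_of_hasCompactSupport (ker_compact hg)) fun y => ?_
  show g y * ‖y‖ ^ 2 ≤ g y
  by_cases h : g y = 0
  · simp [h]
  · have h2 := hg.supp (subset_tsupport g h)
    rw [mem_closedBall_zero_iff] at h2
    have h3 : ‖y‖ ^ 2 ≤ 1 := pow_le_one₀ (norm_nonneg _) h2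
    have := mul_le_mul_of_nonneg_left h3 (hg.nonneg y)
    rwa [mul_one] at this

lemma sc_mass {g : E → ℝ} (hg : Ker g) {ε : ℝ} (hε : 0 < ε) : ∫ y, sc ε g y = 1 := by
  have h := sc_integral g (fun _ => 1) hε
  simp only [mul_one] at h
  rw [h, hg.mass]

lemma sc_mom {g : E → ℝ} {ε : ℝ} (hε : 0 < ε) : ∫ y, sc ε g y * ‖y‖ ^ 2 = ε ^ 2 * mom g := by
  rw [sc_integral g (fun y => ‖y‖ ^ 2) hε]
  unfold mom
  rw [← integral_const_mul]
  refine integral_congr_ae (Eventually.of_forall fun y => ?_)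
  show g y * ‖ε • y‖ ^ 2 = ε ^ 2 * (g y * ‖y‖ ^ 2)
  rw [norm_smul, Real.norm_eq_abs, abs_of_pos hε]
  ring

lemma sc_odd {g : E → ℝ} (hg : Ker g) (ε : ℝ) (v : E) : ∫ y, sc ε g y * ⟪v, y⟫ = 0 := by
  have h := integral_neg_eq_self (μ := (volume : Measure E)) (fun y => sc ε g y * ⟪v, y⟫)
  simp only [sc_even hg, inner_neg_right, mul_neg] at h
  rw [integral_neg] at h
  linarith

/-! ### Convolutions -/

lemma cv_contDiff {K c : E → ℝ} (hK : Continuous K) (hc : ContDiff ℝ ∞ c) (hc2 : HasCompactSupport c) :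
    ContDiff ℝ ∞ (cv K c) :=
  hc2.contDiff_convolution_right (ContinuousLinearMap.mul ℝ ℝ) (hK.locallyIntegrable) hc

/-- The weight. -/
def wt (A δ : ℝ) (z x : E) : ℝ := A - ‖x - z‖ ^ 2 / δ ^ 2

lemma cv_bound {g : E → ℝ} (hg : Ker g) {ε δ A D : ℝ} (hε : 0 < ε) (z x : E) {c : E → ℝ}
    (hc : Continuous c) (hb : ∀ y, ‖y‖ ≤ ε → |c (x - y)| ≤ D * wt A δ z (x - y)) :
    |cv (sc ε g) c x| ≤ D * (wt A δ z x - ε ^ 2 * mom g / δ ^ 2) := by
  have hK := sc_cont hg ε
  have hK2 := sc_compact hg hε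
  have h1 : |cv (sc ε g) c x| ≤ ∫ y, sc ε g y * |c (x - y)| := by
    unfold cv
    refine (abs_integral_le_integral_abs).trans (le_of_eq ?_)
    refine integral_congr_ae (Eventually.of_forall fun y => ?_)
    show |sc ε g y * c (x - y)| = _
    rw [abs_mul, abs_of_nonneg (sc_nonneg hg hε y)]
  have h2 : ∫ y, sc ε g y * |c (x - y)| ≤ ∫ y, sc ε g y * (D * wt A δ z (x - y)) := by
    refine integral_mono (ker_int hK hK2 (by fun_prop)) (ker_int hK hK2 (by unfold wt; fun_prop)) fun y => ?_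
    show sc ε g y * |c (x - y)| ≤ sc ε g y * (D * wt A δ z (x - y))
    by_cases h : sc ε g y = 0
    · simp [h]
    · exact mul_le_mul_of_nonneg_left (hb y (sc_supp hg hε h)) (sc_nonneg hg hε y)
  have h3 : ∀ y, sc ε g y * (D * wt A δ z (x - y)) = D * wt A δ z x * sc ε g y
      + 2 * D / δ ^ 2 * (sc ε g y * ⟪x - z, y⟫) - D / δ ^ 2 * (sc ε g y * ‖y‖ ^ 2) := by
    intro y
    unfold wt
    have h4 : x - y - z = (x - z) - y := by abel
    rw [h4, norm_sub_sq_real]
    ring
  have hi1 : Integrable fun y => D * wt A δ z x * sc ε g y :=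
    (hK.integrable_of_hasCompactSupport hK2).const_mul _
  have hi2 : Integrable fun y => 2 * D / δ ^ 2 * (sc ε g y * ⟪x - z, y⟫) :=
    (ker_int hK hK2 (F := fun y => ⟪x - z, y⟫) (by fun_prop)).const_mul _
  have hi3 : Integrable fun y => D / δ ^ 2 * (sc ε g y * ‖y‖ ^ 2) :=
    (ker_int hK hK2 (F := fun y => ‖y‖ ^ 2) (by fun_prop)).const_mul _
  have h4 : ∫ y, sc ε g y * (D * wt A δ z (x - y)) = D * (wt A δ z x - ε ^ 2 * mom g / δ ^ 2) := by
    simp only [h3]
    have h5 := integral_sub (hi1.add hi2) hi3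
    simp only [Pi.add_apply] at h5
    rw [h5, integral_add hi1 hi2, integral_const_mul, integral_const_mul,
      integral_const_mul, sc_mass hg hε, sc_odd hg, sc_mom hε]
    ring
  exact h1.trans (h2.trans h4.le)

/-! ### The iteration -/

/-- The iterates. -/
def it (χ K f : E → ℝ) : ℕ → E → ℝ
  | 0 => fun x => χ x * f x
  | m + 1 => fun x => χ x * cv K (it χ K f m) x

lemma it_supp (χ K f : E → ℝ) (m : ℕ) : tsupport (it χ K f m) ⊆ tsupport χ := by
  refine closure_mono fun x hx => ?_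
  rw [Function.mem_support] at hx ⊢
  intro h
  apply hx
  cases m with
  | zero => show χ x * f x = 0; rw [h, zero_mul]
  | succ m => show χ x * cv K (it χ K f m) x = 0; rw [h, zero_mul]

lemma it_smooth {χ K f : E → ℝ} (hχ : ContDiff ℝ ∞ χ) (hχ2 : HasCompactSupport χ) (hK : Continuous K)
    (hf : ContDiff ℝ ∞ f) (m : ℕ) : ContDiff ℝ ∞ (it χ K f m) ∧ HasCompactSupport (it χ K f m) := by
  have h0 : ∀ m, HasCompactSupport (it χ K f m) := fun m =>
    hχ2.of_isClosed_subset (isClosed_tsupport _) (it_supp χ K f m)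
  refine ⟨?_, h0 m⟩
  induction m with
  | zero => exact hχ.mul hf
  | succ m ih => exact hχ.mul (cv_contDiff hK ih (h0 m))

lemma sqrt_pw {q : ℝ} (hq : 0 ≤ q) (m : ℕ) : Real.sqrt (q ^ m) = Real.sqrt q ^ m := by
  have h : q ^ m = (Real.sqrt q ^ m) ^ 2 := by
    rw [← pow_mul, mul_comm, pow_mul, Real.sq_sqrt hq]
  rw [h, Real.sqrt_sq (by positivity)]

/-! ### Cut-offs -/

lemma cutoff (Ω' : Set E) {δ : ℝ} (hδ : 0 < δ) : ∃ χ : E → ℝ, ContDiff ℝ ∞ χ ∧ (∀ x, 0 ≤ χ x ∧ χ x ≤ 1) ∧
    (∀ x ∈ Ω', χ x = 1) ∧ tsupport χ ⊆ Metric.thickening (δ / 2) Ω' := by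
  obtain ⟨f, h1, h2, h3, h4⟩ := exists_contMDiff_support_eq_eq_one_iff (n := ⊤) (modelWithCornersSelf ℝ E)
    (s := Metric.thickening (δ / 4) Ω') (t := closure Ω') Metric.isOpen_thickening isClosed_closure
    (Metric.closure_subset_thickening (by positivity) Ω')
  refine ⟨f, h1.contDiff, fun x => ?_, fun x hx => (h4 x).1 (subset_closure hx), ?_⟩
  · have := h2 (mem_range_self x)
    exact ⟨this.1, this.2⟩
  · unfold tsupport
    rw [h3]
    refine (Metric.closure_thickening_subset_cthickening _ _).trans ?_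
    exact Metric.cthickening_subset_thickening' (by positivity) (by linarith) _

/-! ### The theorem -/

theorem interior_proof (hS : Stmt_Sweep) : Stmt_Interior := by
  obtain ⟨g, hg, hS⟩ := hS
  intro K hK
  obtain ⟨C₀, hC₀, hS⟩ := hS (2 * K + 1) (by positivity)
  -- constants
  set A : ℝ := (K + 1) ^ 2 + 1 with hA
  have hA1 : 1 < A := by rw [hA]; nlinarith [sq_nonneg (K + 1), mul_pos hK hK]
  set s : ℝ := mom g / 64 with hs
  have hs0 : 0 < s := div_pos (mom_pos hg) (by norm_num)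
  have hs1 : s ≤ 1 / 64 := by rw [hs]; linarith [mom_le hg]
  set q : ℝ := 1 - s / A with hq
  have hsA : s / A < 1 := by rw [div_lt_one (by linarith)]; linarith
  have hsA0 : 0 < s / A := div_pos hs0 (by linarith)
  have hq0 : 0 < q := by rw [hq]; linarith
  have hq1 : q < 1 := by rw [hq]; linarith
  have hsq0 : 0 < Real.sqrt q := Real.sqrt_pos.2 hq0
  have hsq1 : Real.sqrt q < 1 := by
    rw [Real.sqrt_lt' one_pos]
    linarith
  refine ⟨C₀ * Real.sqrt A / (1 - Real.sqrt q), by
    have : 0 < 1 - Real.sqrt q := by linarith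
    have : 0 < Real.sqrt A := Real.sqrt_pos.2 (by linarith)
    positivity, ?_⟩
  intro Ω Ω' η z δ f d ζ δ' hΩ hb hη hδ hΩ'1 hΩ'2 hf hd hfd hζ hδ'
  obtain ⟨χ, hχ, hχ01, hχ1, hχs⟩ := cutoff Ω' hδ
  set U : Set E := Metric.thickening (δ / 2) Ω' with hU
  have hU1 : U ⊆ Metric.ball z ((K + 1 / 2) * δ) := by
    intro x hx
    obtain ⟨y, hy, hxy⟩ := Metric.mem_thickening_iff.1 hx
    have h2 := Metric.mem_ball.1 (hΩ'1 hy)
    rw [Metric.mem_ball]
    calc dist x z ≤ dist x y + dist y z := dist_triangle _ _ _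
      _ < δ / 2 + K * δ := add_lt_add hxy h2
      _ = (K + 1 / 2) * δ := by ring
  have hU2 : ∀ x ∈ U, Metric.ball x (δ / 2) ⊆ Ω := by
    intro x hx w hw
    obtain ⟨y, hy, hxy⟩ := Metric.mem_thickening_iff.1 hx
    refine hΩ'2 y hy ?_
    rw [Metric.mem_ball] at hw ⊢
    calc dist w y ≤ dist w x + dist x y := dist_triangle _ _ _
      _ < δ / 2 + δ / 2 := add_lt_add hw hxy
      _ = δ := by ring
  have hχc : HasCompactSupport χ :=
    (isCompact_closedBall z ((K + 1 / 2) * δ)).of_isClosed_subset (isClosed_tsupport _)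
      (hχs.trans (hU1.trans Metric.ball_subset_closedBall))
  set ε : ℝ := δ / 2 / 4 with hε
  have hε0 : 0 < ε := by positivity
  set Kε : E → ℝ := sc ε g with hKε
  have hKc : Continuous Kε := sc_cont hg ε
  set F : ℕ → E → ℝ := it χ Kε f with hF
  have hFs : ∀ m, ContDiff ℝ ∞ (F m) := fun m => (it_smooth hχ hχc hKc hf m).1
  have hFc : ∀ m, HasCompactSupport (F m) := fun m => (it_smooth hχ hχc hKc hf m).2
  have hFt : ∀ m, tsupport (F m) ⊆ tsupport χ := it_supp χ Kε f
  have hW1 : ∀ x ∈ Metric.ball z ((K + 1) * δ), 1 ≤ wt A δ z x := by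
    intro x hx
    rw [Metric.mem_ball, dist_eq_norm] at hx
    have h1 : ‖x - z‖ ^ 2 ≤ ((K + 1) * δ) ^ 2 := pow_le_pow_left₀ (norm_nonneg _) hx.le 2
    have h2 : ‖x - z‖ ^ 2 / δ ^ 2 ≤ (K + 1) ^ 2 := by
      rw [div_le_iff₀ (by positivity), ← mul_pow]
      exact h1
    unfold wt
    rw [hA]
    linarith
  have hWA : ∀ x, wt A δ z x ≤ A := by
    intro x
    unfold wt
    have : 0 ≤ ‖x - z‖ ^ 2 / δ ^ 2 := by positivity
    linarith
  have hbd : ∀ m, ∀ x ∈ Metric.ball z ((K + 1) * δ), |F m x| ≤ d * q ^ m * wt A δ z x := by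
    intro m
    induction m with
    | zero =>
      intro x hx
      show |χ x * f x| ≤ _
      rw [abs_mul, abs_of_nonneg (hχ01 x).1, pow_zero, mul_one]
      calc χ x * |f x| ≤ 1 * d := mul_le_mul (hχ01 x).2 (hfd x) (abs_nonneg _) zero_le_one
        _ = d * 1 := by ring
        _ ≤ d * wt A δ z x := mul_le_mul_of_nonneg_left (hW1 x hx) hd.le
    | succ m ih =>
      intro x hx
      show |χ x * cv Kε (F m) x| ≤ _
      by_cases hxs : x ∈ tsupport χ
      · have hxU := Metric.mem_ball.1 (hU1 (hχs hxs))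
        have h1 : |cv Kε (F m) x| ≤ d * q ^ m * (wt A δ z x - ε ^ 2 * mom g / δ ^ 2) := by
          refine cv_bound hg hε0 z x (hFs m).continuous fun y hy => ih _ ?_
          rw [Metric.mem_ball]
          calc dist (x - y) z ≤ dist (x - y) x + dist x z := dist_triangle _ _ _
            _ < ε + (K + 1 / 2) * δ := by
              refine add_lt_add_of_le_of_lt ?_ hxU
              rw [dist_eq_norm]
              have : x - y - x = -y := by abel
              rw [this, norm_neg]
              exact hy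
            _ ≤ (K + 1) * δ := by rw [hε]; nlinarith
        have h2 : ε ^ 2 * mom g / δ ^ 2 = s := by
          rw [hε, hs]
          field_simp
          ring
        have h3 : wt A δ z x - s ≤ q * wt A δ z x := by
          have h4 : s / A * wt A δ z x ≤ s / A * A := mul_le_mul_of_nonneg_left (hWA x) hsA0.le
          rw [div_mul_cancel₀ _ (by linarith : A ≠ 0)] at h4
          rw [hq]
          linarith
        rw [h2] at h1
        have hdq : 0 < d * q ^ m := by positivity
        rw [abs_mul, abs_of_nonneg (hχ01 x).1]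
        calc χ x * |cv Kε (F m) x| ≤ 1 * |cv Kε (F m) x| :=
              mul_le_mul_of_nonneg_right (hχ01 x).2 (abs_nonneg _)
          _ = |cv Kε (F m) x| := one_mul _
          _ ≤ d * q ^ m * (wt A δ z x - s) := h1
          _ ≤ d * q ^ m * (q * wt A δ z x) := mul_le_mul_of_nonneg_left h3 hdq.le
          _ = d * q ^ (m + 1) * wt A δ z x := by ring
      · rw [image_eq_zero_of_notMem_tsupport hxs, zero_mul, abs_zero]
        have := hW1 x hx
        have hdq : 0 < d * q ^ (m + 1) := by positivity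
        have h0 : 0 ≤ wt A δ z x := by linarith
        exact mul_nonneg hdq.le h0
  have hbd2 : ∀ m x, |F m x| ≤ d * q ^ m * A := by
    intro m x
    have hdq : 0 < d * q ^ m := by positivity
    by_cases hxs : x ∈ tsupport χ
    · have hxU := hU1 (hχs hxs)
      have hxU' : x ∈ Metric.ball z ((K + 1) * δ) := Metric.ball_subset_ball (by nlinarith) hxU
      exact (hbd m x hxU').trans (mul_le_mul_of_nonneg_left (hWA x) hdq.le)
    · rw [image_eq_zero_of_notMem_tsupport (fun h => hxs (hFt m h)), abs_zero]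
      have : 0 < A := by linarith
      positivity
  -- the number of steps
  obtain ⟨M, hM⟩ : ∃ M : ℕ, d * q ^ M * A ≤ δ' / 2 := by
    have h1 : Tendsto (fun M : ℕ => d * q ^ M * A) atTop (𝓝 (d * 0 * A)) :=
      ((tendsto_pow_atTop_nhds_zero_of_lt_one hq0.le hq1).const_mul d).mul_const A
    rw [mul_zero, zero_mul] at h1
    exact (h1.eventually (ge_mem_nhds (by linarith : (0 : ℝ) < δ' / 2))).exists
  set δ'' : ℝ := δ' / 2 / (M + 1) with hδ''
  have hδ''0 : 0 < δ'' := by positivity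
  have hstep : ∀ m, ∃ h : E → ℝ, Continuous h ∧ (∀ x, |h x| ≤ δ'') ∧
      Realize Ω η (fun φ => PX (fun x => F m x + h x - cv Kε (F m) x) ζ φ)
        (C₀ * Real.sqrt (η * (d * q ^ m * A))) := by
    intro m
    refine hS Ω U η z (δ / 2) (F m) (d * q ^ m * A) ζ δ'' hΩ hb hη (by positivity) ?_ hU2 (hFs m)
      ((hFt m).trans hχs) ?_ (hbd2 m) hζ hδ''0
    · refine hU1.trans (Metric.ball_subset_ball (le_of_eq (by ring)))
    · have : 0 < A := by linarith
      positivity
  choose h hhc hhb hhR using hstep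
  have hcc : ∀ m, Continuous (fun x => F m x + h m x - cv Kε (F m) x) := fun m =>
    ((hFs m).continuous.add (hhc m)).sub (cv_contDiff hKc (hFs m) (hFc m)).continuous
  refine ⟨fun x => ∑ m ∈ Finset.range M, (F m x + h m x - cv Kε (F m) x),
    continuous_finsetSum _ fun m _ => hcc m, fun x hx => ?_, ?_⟩
  · have h1 : ∀ m, F (m + 1) x = cv Kε (F m) x := by
      intro m
      show χ x * cv Kε (F m) x = _
      rw [hχ1 x hx, one_mul]
    have h2 : ∀ m, F m x + h m x - cv Kε (F m) x = (F m x - F (m + 1) x) + h m x := by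
      intro m
      rw [h1]
      ring
    simp only [h2]
    rw [Finset.sum_add_distrib, Finset.sum_range_sub' (fun m => F m x)]
    have h3 : F 0 x = f x := by
      show χ x * f x = f x
      rw [hχ1 x hx, one_mul]
    have h4 : |∑ m ∈ Finset.range M, h m x| ≤ δ' / 2 := by
      refine (Finset.abs_sum_le_sum_abs _ _).trans ?_
      refine (Finset.sum_le_sum fun m _ => hhb m x).trans ?_
      rw [Finset.sum_const, Finset.card_range, nsmul_eq_mul, hδ'']
      rw [mul_div_assoc', div_le_iff₀ (by positivity)]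
      nlinarith
    have h5 := (hbd2 M x).trans hM
    rw [h3]
    have h6 : f x - F M x + ∑ m ∈ Finset.range M, h m x - f x
        = - F M x + ∑ m ∈ Finset.range M, h m x := by ring
    rw [h6]
    calc |-F M x + ∑ m ∈ Finset.range M, h m x| ≤ |-F M x| + |∑ m ∈ Finset.range M, h m x| := abs_add_le _ _
      _ ≤ δ' / 2 + δ' / 2 := add_le_add (by rw [abs_neg]; exact h5) h4
      _ = δ' := by ring
  · have h1 := realize_sum (fun m φ => PX (fun x => F m x + h m x - cv Kε (F m) x) ζ φ)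
      (fun m => C₀ * Real.sqrt (η * (d * q ^ m * A))) M fun m _ => hhR m
    refine realize_mono h1 (fun φ => (px_sum hΩ hb _ M hcc ζ φ).symm) ?_
    have h2 : ∀ m : ℕ, C₀ * Real.sqrt (η * (d * q ^ m * A))
        = C₀ * Real.sqrt A * Real.sqrt (η * d) * Real.sqrt q ^ m := by
      intro m
      have h3 : η * (d * q ^ m * A) = A * (η * d) * q ^ m := by ring
      have hA0 : 0 < A := by linarith
      rw [h3, Real.sqrt_mul (by positivity), Real.sqrt_mul hA0.le, sqrt_pw hq0.le]
      ring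
    simp only [h2]
    rw [← Finset.mul_sum]
    have h3 : ∑ m ∈ Finset.range M, Real.sqrt q ^ m ≤ (1 - Real.sqrt q)⁻¹ := by
      rw [← tsum_geometric_of_lt_one hsq0.le hsq1]
      exact (summable_geometric_of_lt_one hsq0.le hsq1).sum_le_tsum _ fun m _ => by positivity
    have h4 : 0 ≤ C₀ * Real.sqrt A * Real.sqrt (η * d) := by positivity
    calc C₀ * Real.sqrt A * Real.sqrt (η * d) * ∑ m ∈ Finset.range M, Real.sqrt q ^ m
        ≤ C₀ * Real.sqrt A * Real.sqrt (η * d) * (1 - Real.sqrt q)⁻¹ := mul_le_mul_of_nonneg_left h3 h4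
      _ = C₀ * Real.sqrt A / (1 - Real.sqrt q) * Real.sqrt (η * d) := by
          rw [div_eq_mul_inv]
          ring

end Pool.Agent.NSN.Interior
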