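import Pool.Agent.NSN.Net
import Pool.Agent.NSK.Weak
import Pool.Agent.NSK.KLimit

/-!
# MP_fd8964_an, critical net, module ListStep
-/

open MeasureTheory Set Filter Topology
open scoped RealInnerProductSpace ContDiff

noncomputable section

namespace Pool.Agent.NSN

open Pool.Agent.NSD Pool.Agent.NSK

namespace LS

theorem PX_int {Ω : Set E} (hb : Bornology.IsBounded Ω) {h : E → ℝ} (hh : Continuous h) (ξ : E) (φ : V Ω) :
    Integrable (fun x => h x * ∑ i : Fin 3, ξ i * ⟪ξ, (grd φ : E → G) x i⟫) (volume.restrict Ω) := by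
  have hq : Integrable (fun x => ∑ i : Fin 3, ξ i * ⟪ξ, (grd φ : E → G) x i⟫) (volume.restrict Ω) :=
    KLimit.intg_qf hb φ ξ
  obtain ⟨C, hC⟩ := hb.isCompact_closure.exists_bound_of_continuousOn hh.continuousOn
  have hb' : ∀ᵐ x ∂(volume.restrict Ω), ‖h x‖ ≤ C := by
    have h1 : ∀ᵐ x ∂(volume.restrict (closure Ω)), ‖h x‖ ≤ C := by
      filter_upwards [ae_restrict_mem isClosed_closure.measurableSet] with x hx
      exact hC x hx
    exact ae_mono (Measure.restrict_mono subset_closure le_rfl) h1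
  exact hq.bdd_mul (c := C) hh.aestronglyMeasurable hb'

theorem PX_add {Ω : Set E} (hb : Bornology.IsBounded Ω) {h h' : E → ℝ} (hh : Continuous h)
    (hh' : Continuous h') (ξ : E) (φ : V Ω) :
    PX (fun x => h x + h' x) ξ φ = PX h ξ φ + PX h' ξ φ := by
  unfold PX
  rw [← integral_add (PX_int hb hh ξ φ) (PX_int hb hh' ξ φ)]
  refine integral_congr_ae (Eventually.of_forall fun x => ?_)
  simp only
  ring

theorem PX_zero {Ω : Set E} (ξ : E) (φ : V Ω) : PX (fun _ => 0) ξ φ = 0 := by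
  unfold PX
  simp

theorem fld_zero {Ω : Set E} : fld (0 : V Ω) = 0 := rfl
theorem fld_add {Ω : Set E} (u v : V Ω) : fld (u + v) = fld u + fld v := rfl

theorem rep_zero (Ω : Set E) : Represents Ω (fun _ => (0 : E)) (0 : V Ω) := by
  refine ⟨?_, ?_⟩
  · exact Lp.coeFn_zero E 2 _
  · have : gradField (fun _ => (0 : E)) = 0 := gradField_zero
    rw [this]; exact Lp.coeFn_zero G 2 _

/-- The families of good data increase. -/
theorem mono {Ω : Set E} {η : ℝ} {Gd : ℝ → Set (V Ω)} (hG : KickClosed Ω η Gd) {ε ε' : ℝ} (hε : 0 < ε)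
    (h : ε < ε') {x : V Ω} (hx : x ∈ Gd ε) : x ∈ Gd ε' := by
  have hk : Kick Ω η 0 (fun m => Fin.elim0 m) (fun m => Fin.elim0 m) (fun m => Fin.elim0 m) (fun _ => 0)
      (fun _ => 0) := by
    refine ⟨fun m => m.elim0, fun m => m.elim0, fun m => m.elim0, fun m => m.elim0, fun m => m.elim0, ?_, ?_, ?_⟩
    · refine ⟨contDiff_const, HasCompactSupport.zero, ?_⟩
      have : tsupport (fun _ : E => (0 : ℝ)) = ∅ := by
        rw [tsupport_eq_empty_iff]; rfl
      rw [this]; exact empty_subset _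
    · exact isTest_zero Ω
    · intro x
      have : ∀ i : Fin 3, dd (e i) (fun _ : E => (0 : ℝ)) x = 0 := by
        intro i; simp [dd]
      simp [gradS, this]
  obtain ⟨N₀, _, hN⟩ := hG ε ε' hε h x hx 0 _ _ _ _ _ hk
  have := hN N₀ le_rfl 0 (by
    have e1 : (fun y : E => (0 : E) + waveA N₀ (fun m : Fin 0 => Fin.elim0 m) (fun m => Fin.elim0 m)
        (fun m => Fin.elim0 m) y) = fun _ => 0 := by
      funext y; simp [waveA]
    rw [e1]; exact rep_zero Ω)
  simpa using this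

theorem pair_rep {Ω : Set E} (hb : Bornology.IsBounded Ω) {η : ℝ} (κ : KickD Ω η) (N : ℝ) {P : V Ω}
    (hP : Represents Ω (fun y => κ.G y + waveA N κ.a κ.k κ.ξ y) P) (φ : V Ω) :
    ⟪fld P, fld φ⟫ = κ.pair φ + ∫ x in Ω, ⟪waveA N κ.a κ.k κ.ξ x, (fld φ : E → E) x⟫ := by
  have h1 : ⟪fld P, fld φ⟫ = ∫ x in Ω, ⟪κ.G x + waveA N κ.a κ.k κ.ξ x, (fld φ : E → E) x⟫ := by
    rw [L2.inner_def]
    refine integral_congr_ae ?_
    filter_upwards [hP.1] with x hx
    have hx' : (fld P : E → E) x = κ.G x + waveA N κ.a κ.k κ.ξ x := hx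
    rw [hx']
  have hI : ∀ v : E → E, IsTest Ω v → Integrable (fun x => ⟪v x, (fld φ : E → E) x⟫) (volume.restrict Ω) := by
    intro v hv
    obtain ⟨C, hC⟩ := hv.continuous.bounded_above_of_compact_support hv.compact
    refine Integrable.mono' ((KLimit.intg_fld hb φ).norm.const_mul C) ?_ ?_
    · exact hv.continuous.aestronglyMeasurable.inner (KLimit.intg_fld hb φ).aestronglyMeasurable
    · refine Eventually.of_forall fun x => ?_
      exact (norm_inner_le_norm _ _).trans (mul_le_mul_of_nonneg_right (hC x) (norm_nonneg _))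
  rw [h1]
  simp_rw [inner_add_left]
  rw [integral_add (hI _ κ.kick.test) (hI _ (Weak.isTest_waveA κ.kick.bump N))]
  rfl

end LS

theorem listStep_proof (hWT : Stmt_WaveT) : Stmt_ListStep := by
  intro Ω η Gd hΩ hb hG L
  induction L with
  | nil =>
    intro ε ε' δ x hε h hδ hx
    refine ⟨x, LS.mono hG hε h hx, fun _ _ => 0, fun _ => contDiff_const, ?_, ?_⟩
    · intro i y; simp
    · intro φ
      simp only [LS.PX_zero]
      simp only [List.map_nil, List.sum_nil, sub_self, Finset.sum_const_zero, abs_zero]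
      positivity
  | cons κ L ih =>
    intro ε ε' δ x hε h hδ hx
    obtain ⟨N₀, hN₀, hN⟩ := hG ε ((ε + ε') / 2) hε (by linarith) x hx κ.n κ.a κ.k κ.ξ κ.q κ.G κ.kick
    obtain ⟨C, hC, hW⟩ := hWT Ω η hΩ hb κ
    set N : ℝ := max N₀ (2 * C / δ) with hNdef
    have hNN₀ : N₀ ≤ N := le_max_left _ _
    have h1N : 1 ≤ N := hN₀.trans hNN₀
    have hCN : C / N ≤ δ / 2 := by
      have h2 : 2 * C / δ ≤ N := le_max_right _ _
      rw [div_le_iff₀ hδ] at h2
      rw [div_le_div_iff₀ (by linarith) (by norm_num)]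
      linarith
    obtain ⟨t₁, ht₁, ht₁b, ht₁φ⟩ := hW N h1N
    have hGW : IsTest Ω (κ.G + waveA N κ.a κ.k κ.ξ) := κ.kick.test.add (Weak.isTest_waveA κ.kick.bump N)
    obtain ⟨P, hP⟩ := Rep_proof Ω _ hGW
    have hP' : Represents Ω (fun y => κ.G y + waveA N κ.a κ.k κ.ξ y) P := hP
    have hx₁ := hN N hNN₀ P hP'
    obtain ⟨x', hx', t₂, ht₂, ht₂b, ht₂φ⟩ := ih ((ε + ε') / 2) ε' (δ / 2) (x + P) (by linarith) (by linarith)
      (by linarith) hx₁
    refine ⟨x', hx', fun i y => t₁ i y + t₂ i y, fun i => (ht₁ i).add (ht₂ i), ?_, ?_⟩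
    · intro i y
      rw [List.map_cons, List.sum_cons]
      have h1 := ht₁b i y
      have h2 := ht₂b i y
      have h3 := abs_add_le (t₁ i y) (t₂ i y)
      linarith
    · intro φ
      have h1 := ht₁φ φ
      have h2 := ht₂φ φ
      have h3 := LS.pair_rep hb κ N hP' φ
      have h4 : ∑ i, PX (fun y => t₁ i y + t₂ i y) (ζ6 i) φ
          = ∑ i, PX (t₁ i) (ζ6 i) φ + ∑ i, PX (t₂ i) (ζ6 i) φ := by
        rw [← Finset.sum_add_distrib]
        exact Finset.sum_congr rfl fun i _ => LS.PX_add hb (ht₁ i).continuous (ht₂ i).continuous _ φ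
      rw [List.map_cons, List.sum_cons, h4]
      rw [LS.fld_add, inner_add_left, h3] at h2
      have h5 : C / N * ‖φ‖ ≤ δ / 2 * ‖φ‖ := mul_le_mul_of_nonneg_right hCN (norm_nonneg _)
      rw [abs_le] at h1 h2 ⊢
      constructor <;> linarith [h1.1, h1.2, h2.1, h2.2]

end Pool.Agent.NSN
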