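import Pool.Agent.NSK.Conc
import Pool.Agent.NSK.FinalJ

/-!
# MP_fd8964_an, the critical net: definitions and interface statements

Plan: /team-store/MP_fd8964_NET.md.
-/

open MeasureTheory Set Filter Topology
open scoped RealInnerProductSpace ContDiff

noncomputable section

namespace Pool.Agent.NSN

open Pool.Agent.NSD Pool.Agent.NSK

/-! ## Families of good data -/

/-- A family of sets of data, closed under kicks with all large frequencies. -/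
def KickClosed (Ω : Set E) (η : ℝ) (Gd : ℝ → Set (V Ω)) : Prop :=
  ∀ (ε ε' : ℝ), 0 < ε → ε < ε' → ∀ x ∈ Gd ε, ∀ (n : ℕ) (a : Fin n → E → ℝ) (k ξ : Fin n → E) (q : E → ℝ)
    (G : E → E), Kick Ω η n a k ξ q G → ∃ N₀ : ℝ, 1 ≤ N₀ ∧ ∀ N : ℝ, N₀ ≤ N → ∀ P : V Ω,
      Represents Ω (fun y => G y + waveA N a k ξ y) P → x + P ∈ Gd ε'

/-- GOOD. The data with a regular solution which is `ε`-close to `v` after the time `ε`. -/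
def Stmt_Good : Prop := ∀ (Ω : Set E), IsOpen Ω → Bornology.IsBounded Ω → ∀ (η : ℝ), 0 < η →
    ∀ (f : ℝ → V' Ω), AdmissibleForce Ω f → ∀ (J : Set ℝ), (J = Ici 0 ∨ ∃ T : ℝ, 0 < T ∧ J = Icc 0 T) →
    ∀ (v : ℝ → V Ω), ((f = 0 ∧ v = 0) ∨ (InTest (v 0) ∧ IsBoundedSolution Ω η J f v)) →
    ∃ Gd : ℝ → Set (V Ω), KickClosed Ω η Gd ∧ (∀ ε, 0 < ε → v 0 ∈ Gd ε) ∧
      ∀ ε, 0 < ε → ∀ x ∈ Gd ε, ∃ u : ℝ → V Ω, u 0 = x ∧ InTest (u 0) ∧ IsBoundedSolution Ω η J f u ∧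
        ∀ t ∈ J, ε ≤ t → ‖u t - v t‖ ≤ ε

/-! ## Kicks -/

/-- Orthonormal frames. -/
def IsFrame (ζ : Fin 3 → E) : Prop := (∀ i, ‖ζ i‖ = 1) ∧ ∀ i j, i ≠ j → ⟪ζ i, ζ j⟫ = 0

/-- GK. Three waves with the directions of a frame, whose squared amplitudes differ by Laplacians. -/
def Stmt_GenKick : Prop := ∀ (Ω : Set E) (η : ℝ) (ζ : Fin 3 → E) (a ψ : Fin 3 → E → ℝ) (s : E → ℝ), 0 < η →
    IsFrame ζ → (∀ m, IsBump Ω (a m)) → (∀ m m', m ≠ m' → Disjoint (tsupport (a m)) (tsupport (a m'))) →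
    (∀ m, IsBump Ω (ψ m)) → IsBump Ω s → (∀ m x, a m x ^ 2 = s x + lap (ψ m) x) →
    ∃ (k : Fin 3 → E) (q : E → ℝ) (G : E → E), Kick Ω η 3 a k ζ q G

/-- Convolution. -/
def cv (K c : E → ℝ) (x : E) : ℝ := ∫ y, K y * c (x - y)

/-- Smooth kernels of mass `1`. -/
structure Ker (K : E → ℝ) : Prop where
  smooth : ContDiff ℝ ∞ K
  supp : tsupport K ⊆ Metric.closedBall 0 1
  nonneg : ∀ y, 0 ≤ K y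
  even : ∀ y, K (-y) = K y
  mass : ∫ y, K y = 1

/-- The point `y₀` near which the cores sit. -/
def y₀ : E := (1 / 16 : ℝ) • e 0

/-- The profiles of the composite kicks: kernels `K 0 = κ` (core), `K 1`, `K 2` (spreads), and radial functions
`b 0, b 1, b 2`, with all their potentials. -/
structure Prof (κ : ℝ → E → ℝ) (γ : Fin 2 → E → ℝ) (b : Fin 3 → E → ℝ) : Prop where
  κker : ∀ ρ : ℝ, 0 < ρ → ρ ≤ 1 / 64 → Ker (κ ρ)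
  κsupp : ∀ ρ : ℝ, 0 < ρ → ρ ≤ 1 / 64 → tsupport (κ ρ) ⊆ Metric.closedBall 0 ρ
  γker : ∀ i, Ker (γ i)
  γ0supp : tsupport (γ 0) ⊆ {x | 1 / 4 ≤ ‖x‖ ∧ ‖x‖ ≤ 5 / 16}
  γ1supp : tsupport (γ 1) ⊆ {x | 9 / 16 ≤ ‖x‖ ∧ ‖x‖ ≤ 5 / 8}
  b_smooth : ∀ i, ContDiff ℝ ∞ (b i)
  b_nonneg : ∀ i x, 0 ≤ b i x
  b0pos : ∀ x, 1 / 32 ≤ ‖x‖ → ‖x‖ ≤ 3 / 32 → 0 < b 0 x
  b0supp : tsupport (b 0) ⊆ {x | ‖x‖ ≤ 1 / 8}
  b1pos : ∀ x, 11 / 64 ≤ ‖x‖ → ‖x‖ ≤ 25 / 64 → 0 < b 1 x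
  b1supp : tsupport (b 1) ⊆ {x | 10 / 64 ≤ ‖x‖ ∧ ‖x‖ ≤ 26 / 64}
  b2pos : ∀ x, 31 / 64 ≤ ‖x‖ → ‖x‖ ≤ 45 / 64 → 0 < b 2 x
  b2supp : tsupport (b 2) ⊆ {x | 29 / 64 ≤ ‖x‖ ∧ ‖x‖ ≤ 50 / 64}
  potκ : ∀ ρ : ℝ, 0 < ρ → ρ ≤ 1 / 64 → ∃ ψ : E → ℝ, ContDiff ℝ ∞ ψ ∧ tsupport ψ ⊆ Metric.closedBall 0 (5 / 8) ∧
    ∀ x, κ ρ x = γ 1 x + lap ψ x
  potγ : ∃ ψ : E → ℝ, ContDiff ℝ ∞ ψ ∧ tsupport ψ ⊆ Metric.closedBall 0 (5 / 8) ∧ ∀ x, γ 0 x = γ 1 x + lap ψ x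
  potb : ∀ i, ∃ ψ : E → ℝ, IsBump (Metric.ball 0 1) ψ ∧ ∀ x, b i x ^ 2 = b 2 x ^ 2 + lap ψ x

/-- PF. The profiles exist. -/
def Stmt_Prof : Prop := ∃ (κ : ℝ → E → ℝ) (γ : Fin 2 → E → ℝ) (b : Fin 3 → E → ℝ), Prof κ γ b

/-- The amplitudes of the composite kick. -/
def cAmp (κ : ℝ → E → ℝ) (γ : Fin 2 → E → ℝ) (b : Fin 3 → E → ℝ) (ρ τ : ℝ) (c : E → ℝ) : Fin 3 → E → ℝ :=
  ![fun x => Real.sqrt (cv (κ ρ) c x + τ * b 0 x ^ 2), fun x => Real.sqrt (cv (γ 0) c x + τ * b 1 x ^ 2),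
    fun x => Real.sqrt (cv (γ 1) c x + τ * b 2 x ^ 2)]

/-- CK. Composite kicks. -/
def Stmt_ConvKick : Prop := ∀ (κ : ℝ → E → ℝ) (γ : Fin 2 → E → ℝ) (b : Fin 3 → E → ℝ), Prof κ γ b →
    ∀ (η : ℝ) (ζ : Fin 3 → E) (c : E → ℝ) (ρ τ : ℝ), 0 < η → IsFrame ζ → ContDiff ℝ ∞ c → (∀ x, 0 ≤ c x) →
      tsupport c ⊆ Metric.ball y₀ (1 / 64) → 0 < ρ → ρ ≤ 1 / 64 → 0 < τ →
      ∃ (k : Fin 3 → E) (q : E → ℝ) (G : E → E), Kick (Metric.ball 0 1) η 3 (cAmp κ γ b ρ τ c) k ζ q G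

/-- Kick systems in `Ω`, bundled. -/
structure KickD (Ω : Set E) (η : ℝ) where
  n : ℕ
  a : Fin n → E → ℝ
  k : Fin n → E
  ξ : Fin n → E
  q : E → ℝ
  G : E → E
  kick : Kick Ω η n a k ξ q G

/-- The amplitude. -/
def KickD.amp {Ω : Set E} {η : ℝ} (κ : KickD Ω η) (x : E) : ℝ := ∑ m, |κ.a m x|

/-- The pairing of the kick with `φ ∈ V`. -/
def KickD.pair {Ω : Set E} {η : ℝ} (κ : KickD Ω η) (φ : V Ω) : ℝ := ∫ x in Ω, ⟪κ.G x, (fld φ : E → E) x⟫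

/-- The functional `F` is the sum of finitely many kicks with total amplitude at most `α` everywhere. -/
def Realize (Ω : Set E) (η : ℝ) (F : V Ω → ℝ) (α : ℝ) : Prop :=
  ∃ L : List (KickD Ω η), (∀ φ : V Ω, (L.map fun κ => κ.pair φ).sum = F φ) ∧
    ∀ x : E, (L.map fun κ => κ.amp x).sum ≤ α

/-- `∫_Ω h ξ·(∇φ)ξ`. -/
def PX {Ω : Set E} (h : E → ℝ) (ξ : E) (φ : V Ω) : ℝ :=
  ∫ x in Ω, h x * ∑ i : Fin 3, ξ i * ⟪ξ, (grd φ : E → G) x i⟫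

/-- The kernel at the scale `ε`. -/
def sc (ε : ℝ) (g : E → ℝ) (y : E) : ℝ := ε⁻¹ ^ 3 * g (ε⁻¹ • y)

/-- PC. A stress `f ζ⊗ζ` supported in a small ball is realized up to the averages of `f` and a small error. -/
def Stmt_Piece : Prop := ∃ g : E → ℝ, Ker g ∧ ∃ C r : ℝ, 0 < C ∧ 0 < r ∧ ∀ (Ω : Set E) (η : ℝ) (p : E) (ε : ℝ)
    (f : E → ℝ) (d : ℝ) (ζ : E) (δ : ℝ), IsOpen Ω → Bornology.IsBounded Ω → 0 < η → 0 < ε →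
    Metric.ball p (2 * ε) ⊆ Ω → ContDiff ℝ ∞ f → tsupport f ⊆ Metric.ball p (r * ε) → 0 < d → (∀ x, |f x| ≤ d) →
    ‖ζ‖ = 1 → 0 < δ → ∃ h : E → ℝ, Continuous h ∧ (∀ x, |h x| ≤ δ) ∧
      Realize Ω η (fun φ => PX (fun x => f x + h x - cv (sc ε g) f x) ζ φ) (C * Real.sqrt (η * d))

/-- SW. The same for `f` with support in `U`, where `U` is in a ball of radius `K δ` and `δ`-inside `Ω`. -/
def Stmt_Sweep : Prop := ∃ g : E → ℝ, Ker g ∧ ∀ K : ℝ, 0 < K → ∃ C : ℝ, 0 < C ∧ ∀ (Ω U : Set E) (η : ℝ) (z : E)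
    (δ : ℝ) (f : E → ℝ) (d : ℝ) (ζ : E) (δ' : ℝ), IsOpen Ω → Bornology.IsBounded Ω → 0 < η → 0 < δ →
    U ⊆ Metric.ball z (K * δ) → (∀ x ∈ U, Metric.ball x δ ⊆ Ω) → ContDiff ℝ ∞ f → tsupport f ⊆ U → 0 < d →
    (∀ x, |f x| ≤ d) → ‖ζ‖ = 1 → 0 < δ' → ∃ h : E → ℝ, Continuous h ∧ (∀ x, |h x| ≤ δ') ∧
      Realize Ω η (fun φ => PX (fun x => f x + h x - cv (sc (δ / 4) g) f x) ζ φ) (C * Real.sqrt (η * d))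

/-- SI. A bounded smooth stress `f ζ⊗ζ` is realized on `Ω'`, up to a small error. -/
def Stmt_Interior : Prop := ∀ K : ℝ, 0 < K → ∃ C : ℝ, 0 < C ∧ ∀ (Ω Ω' : Set E) (η : ℝ) (z : E)
    (δ : ℝ) (f : E → ℝ) (d : ℝ) (ζ : E) (δ' : ℝ), IsOpen Ω → Bornology.IsBounded Ω → 0 < η → 0 < δ →
    Ω' ⊆ Metric.ball z (K * δ) → (∀ x ∈ Ω', Metric.ball x δ ⊆ Ω) → ContDiff ℝ ∞ f → 0 < d →
    (∀ x, |f x| ≤ d) → ‖ζ‖ = 1 → 0 < δ' → ∃ h : E → ℝ, Continuous h ∧ (∀ x ∈ Ω', |h x - f x| ≤ δ') ∧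
      Realize Ω η (fun φ => PX h ζ φ) (C * Real.sqrt (η * d))

/-! ## Waves -/

/-- `1/√2`. -/
def rt : ℝ := (Real.sqrt 2)⁻¹

/-- Six directions whose squares span the symmetric matrices. -/
def ζ6 : Fin 6 → E := ![e 0, e 1, e 2, rt • (e 0 + e 1), rt • (e 1 + e 2), rt • (e 2 + e 0)]

/-- WT. The wave field is the divergence of a bounded symmetric stress, up to `O(1/N)` in `V'`. -/
def Stmt_WaveT : Prop := ∀ (Ω : Set E) (η : ℝ), IsOpen Ω → Bornology.IsBounded Ω → ∀ κ : KickD Ω η,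
    ∃ C : ℝ, 0 ≤ C ∧ ∀ N : ℝ, 1 ≤ N → ∃ t : Fin 6 → E → ℝ, (∀ i, ContDiff ℝ ∞ (t i)) ∧
      (∀ i x, |t i x| ≤ 6 * κ.amp x) ∧ ∀ φ : V Ω,
        |(∫ x in Ω, ⟪waveA N κ.a κ.k κ.ξ x, (fld φ : E → E) x⟫) - ∑ i, PX (t i) (ζ6 i) φ| ≤ C / N * ‖φ‖

/-- LS. Kicks in a list, one after the other. -/
def Stmt_ListStep : Prop := ∀ (Ω : Set E) (η : ℝ) (Gd : ℝ → Set (V Ω)), IsOpen Ω → Bornology.IsBounded Ω →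
    KickClosed Ω η Gd → ∀ (L : List (KickD Ω η)) (ε ε' δ : ℝ) (x : V Ω), 0 < ε → ε < ε' → 0 < δ → x ∈ Gd ε →
    ∃ x' ∈ Gd ε', ∃ t : Fin 6 → E → ℝ, (∀ i, ContDiff ℝ ∞ (t i)) ∧
      (∀ i y, |t i y| ≤ 6 * (L.map fun κ => κ.amp y).sum) ∧ ∀ φ : V Ω,
        |⟪fld x', fld φ⟫ - ⟪fld x, fld φ⟫ - (L.map fun κ => κ.pair φ).sum - ∑ i, PX (t i) (ζ6 i) φ| ≤ δ * ‖φ‖

/-! ## The net -/

/-- `x` minus `l` is, on the elements of `V` supported in `Ω'`, the divergence of a symmetric stress bounded by `d`, up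
to `δ` in `V'`. -/
def Near (Ω Ω' : Set E) (x : V Ω) (l : V Ω →L[ℝ] ℝ) (d δ : ℝ) : Prop :=
  ∃ t : Fin 6 → E → ℝ, (∀ i, ContDiff ℝ ∞ (t i)) ∧ (∀ i y, |t i y| ≤ d) ∧ ∀ φ : V Ω,
    (∀ᵐ y ∂(volume.restrict Ω), y ∉ Ω' → (grd φ : E → G) y = 0) →
    |⟪fld x, fld φ⟫ - l φ - ∑ i, PX (t i) (ζ6 i) φ| ≤ δ * ‖φ‖

/-- IN. Initial bound. -/
def Stmt_NetInit : Prop := ∀ (Ω Ω' : Set E) (x : V Ω) (l : V Ω →L[ℝ] ℝ) (δ : ℝ), IsOpen Ω → Bornology.IsBounded Ω →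
    0 < δ → ∃ d : ℝ, 0 < d ∧ Near Ω Ω' x l d δ

/-- NS. One step of the net iteration. -/
def Stmt_NetStep : Prop := ∀ K : ℝ, 0 < K → ∃ C : ℝ, 0 < C ∧ ∀ (Ω Ω' : Set E) (η : ℝ) (z : E) (r : ℝ)
    (Gd : ℝ → Set (V Ω)) (l : V Ω →L[ℝ] ℝ) (ε ε' δ δ' d : ℝ) (x : V Ω), IsOpen Ω → Bornology.IsBounded Ω → 0 < η →
    KickClosed Ω η Gd → 0 < r → Ω' ⊆ Metric.ball z (K * r) → (∀ y ∈ Ω', Metric.ball y r ⊆ Ω) →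
    0 < ε → ε < ε' → 0 ≤ δ → δ < δ' → 0 < d → x ∈ Gd ε → Near Ω Ω' x l d δ →
      ∃ x' ∈ Gd ε', Near Ω Ω' x' l (C * Real.sqrt (η * d)) δ'

/-- The critical net, in terms of the families of good data. -/
def Stmt_Net : Prop := ∀ K : ℝ, 0 < K → ∃ C : ℝ, 0 < C ∧ ∀ (Ω Ω' : Set E) (η : ℝ) (z : E) (r : ℝ)
    (Gd : ℝ → Set (V Ω)) (l : V Ω →L[ℝ] ℝ) (ε : ℝ) (x : V Ω), IsOpen Ω → Bornology.IsBounded Ω → 0 < η →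
    KickClosed Ω η Gd → 0 < r → Ω' ⊆ Metric.ball z (K * r) → (∀ y ∈ Ω', Metric.ball y r ⊆ Ω) →
    0 < ε → (∀ ε', 0 < ε' → x ∈ Gd ε') →
      ∃ x' ∈ Gd ε, ∀ φ : V Ω, (∀ᵐ y ∂(volume.restrict Ω), y ∉ Ω' → (grd φ : E → G) y = 0) →
        |⟪fld x', fld φ⟫ - l φ| ≤ C * η * (∫ y in Ω, ‖(grd φ : E → G) y‖) + ε * ‖φ‖

/-- The final statement. -/
def Stmt_NetFinal : Prop := ∀ K : ℝ, 0 < K → ∃ C : ℝ, 0 < C ∧ ∀ (Ω : Set E), IsOpen Ω → Bornology.IsBounded Ω →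
    ∀ (η : ℝ), 0 < η → ∀ (f : ℝ → V' Ω), AdmissibleForce Ω f →
    ∀ (J : Set ℝ), (J = Ici 0 ∨ ∃ T : ℝ, 0 < T ∧ J = Icc 0 T) →
    ∀ (v : ℝ → V Ω), ((f = 0 ∧ v = 0) ∨ (InTest (v 0) ∧ IsBoundedSolution Ω η J f v)) →
    ∀ (Ω' : Set E) (z : E) (r : ℝ), 0 < r → Ω' ⊆ Metric.ball z (K * r) → (∀ y ∈ Ω', Metric.ball y r ⊆ Ω) →
    ∀ (l : V Ω →L[ℝ] ℝ) (ε : ℝ), 0 < ε →
      ∃ u : ℝ → V Ω, InTest (u 0) ∧ IsBoundedSolution Ω η J f u ∧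
        (∀ φ : V Ω, (∀ᵐ y ∂(volume.restrict Ω), y ∉ Ω' → (grd φ : E → G) y = 0) →
          |⟪fld (u 0), fld φ⟫ - l φ| ≤ C * η * (∫ y in Ω, ‖(grd φ : E → G) y‖) + ε * ‖φ‖) ∧
        ∀ t ∈ J, ε ≤ t → ‖u t - v t‖ ≤ ε

end Pool.Agent.NSN
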