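import Pool.Agent.NSN.Net
import Pool.Agent.NSK.KLimit
import Pool.Agent.NSK.Grad
import Pool.Agent.NSD.MainAsm

/-!
# Module NetInit: the initial bound for the critical net
-/

set_option autoImplicit false

open MeasureTheory Set Filter Topology
open scoped RealInnerProductSpace ContDiff

noncomputable section

namespace Pool.Agent.NSN.NetInit

open Pool.Agent.NSD Pool.Agent.NSK Pool.Agent.NSK.KLimit

variable {Ω : Set E}

/-- components of a field -/
def cmp (w : E → E) (l : Fin 3) (x : E) : ℝ := w x l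

theorem bump_cmp {w : E → E} (hw : IsTest Ω w) (l : Fin 3) : IsBump Ω (cmp w l) := by
  refine ⟨(EuclideanSpace.proj l : E →L[ℝ] ℝ).contDiff.comp hw.smooth, ?_, ?_⟩
  · exact hw.compact.comp_left (g := fun y : E => y l) rfl
  · refine (closure_mono fun x hx => ?_).trans hw.supp
    rw [Function.mem_support] at hx ⊢
    intro h0
    exact hx (by simp [cmp, h0])

theorem dd_cmp {w : E → E} (hw : IsTest Ω w) (v : E) (l : Fin 3) (x : E) :
    dd v (cmp w l) x = (fderiv ℝ w x v) l := by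
  have h1 : HasFDerivAt (cmp w l) ((EuclideanSpace.proj l : E →L[ℝ] ℝ).comp (fderiv ℝ w x)) x :=
    (EuclideanSpace.proj l : E →L[ℝ] ℝ).hasFDerivAt.comp x
      (hw.smooth.differentiable (by simp) x).hasFDerivAt
  rw [dd, h1.fderiv]
  rfl

theorem grd_pair {w : E → E} (hw : IsTest Ω w) (hb : Bornology.IsBounded Ω) {p : V Ω}
    (hp : Represents Ω w p) (φ : V Ω) :
    ⟪grd p, grd φ⟫ = ∑ i, ∑ l, IG φ i l (dd (e i) (cmp w l)) := by
  rw [L2.inner_def]
  unfold IG
  simp_rw [← integral_finsetSum _ fun l _ =>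
    bump_mul_int (bump_dd (bump_cmp hw l) (e _)) (intg_gc hb φ _ l)]
  rw [← integral_finsetSum]
  · refine integral_congr_ae ?_
    filter_upwards [hp.2] with x hx
    have hx' : (grd p : E → G) x = gradField w x := hx
    rw [hx', PiLp.inner_apply]
    refine Finset.sum_congr rfl fun i _ => ?_
    rw [inner_eq_sum]
    refine Finset.sum_congr rfl fun l _ => ?_
    rw [dd_cmp hw]
    rfl
  · intro i _
    exact integrable_finsetSum _ fun l _ => bump_mul_int (bump_dd (bump_cmp hw l) (e i))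
      (intg_gc hb φ i l)

theorem transp_zero {w : E → E} (hw : IsTest Ω w) (hΩ : IsOpen Ω) (hb : Bornology.IsBounded Ω)
    (φ : V Ω) : ∑ i, ∑ l, IG φ i l (dd (e l) (cmp w i)) = 0 := by
  have h1 : ∀ i l, IG φ i l (dd (e l) (cmp w i)) = - JF φ l (dd (e l) (dd (e i) (cmp w i))) := by
    intro i l
    rw [IG_eq pairXi_proof hΩ hb φ i l (bump_dd (bump_cmp hw i) (e l)),
      dd_comm (bump_cmp hw i) (e i) (e l)]
  simp_rw [h1]
  refine Finset.sum_eq_zero fun i _ => ?_
  rw [Finset.sum_neg_distrib, grad_zero grad_proof hΩ hb φ (bump_dd (bump_cmp hw i) (e i)), neg_zero]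

/-- the symmetrised gradient -/
def S (w : E → E) (i l : Fin 3) (x : E) : ℝ := dd (e i) (cmp w l) x + dd (e l) (cmp w i) x

theorem bump_S {w : E → E} (hw : IsTest Ω w) (i l : Fin 3) : IsBump Ω (S w i l) :=
  bump_add (bump_dd (bump_cmp hw l) (e i)) (bump_dd (bump_cmp hw i) (e l))

theorem grd_pair_sym {w : E → E} (hw : IsTest Ω w) (hΩ : IsOpen Ω) (hb : Bornology.IsBounded Ω)
    {p : V Ω} (hp : Represents Ω w p) (φ : V Ω) :
    ⟪grd p, grd φ⟫ = ∑ i, ∑ l, IG φ i l (S w i l) := by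
  have h1 : ∀ i l, IG φ i l (S w i l) =
      IG φ i l (dd (e i) (cmp w l)) + IG φ i l (dd (e l) (cmp w i)) := by
    intro i l
    unfold IG
    rw [← integral_add (bump_mul_int (bump_dd (bump_cmp hw l) (e i)) (intg_gc hb φ i l))
      (bump_mul_int (bump_dd (bump_cmp hw i) (e l)) (intg_gc hb φ i l))]
    refine integral_congr_ae (Eventually.of_forall fun x => ?_)
    simp only [S]
    ring
  simp_rw [h1, Finset.sum_add_distrib]
  rw [transp_zero hw hΩ hb φ, add_zero, grd_pair hw hb hp φ]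

/-- the six stresses -/
def tt (w : E → E) : Fin 6 → E → ℝ :=
  ![fun x => S w 0 0 x + (-1) * (S w 0 1 x + S w 2 0 x),
    fun x => S w 1 1 x + (-1) * (S w 0 1 x + S w 1 2 x),
    fun x => S w 2 2 x + (-1) * (S w 1 2 x + S w 2 0 x),
    fun x => 2 * S w 0 1 x, fun x => 2 * S w 1 2 x, fun x => 2 * S w 2 0 x]

theorem bump_tt {w : E → E} (hw : IsTest Ω w) (m : Fin 6) : IsBump Ω (tt w m) := by
  fin_cases m
  · exact bump_add (bump_S hw 0 0) (bump_cmul (bump_add (bump_S hw 0 1) (bump_S hw 2 0)) (-1))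
  · exact bump_add (bump_S hw 1 1) (bump_cmul (bump_add (bump_S hw 0 1) (bump_S hw 1 2)) (-1))
  · exact bump_add (bump_S hw 2 2) (bump_cmul (bump_add (bump_S hw 1 2) (bump_S hw 2 0)) (-1))
  · exact bump_cmul (bump_S hw 0 1) 2
  · exact bump_cmul (bump_S hw 1 2) 2
  · exact bump_cmul (bump_S hw 2 0) 2

theorem S_symm (w : E → E) (i l : Fin 3) (x : E) : S w i l x = S w l i x := by
  simp only [S]
  ring

theorem rt_sq : rt * rt = 1 / 2 := by
  unfold rt
  rw [← mul_inv, Real.mul_self_sqrt (by norm_num)]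
  norm_num

theorem qf_e (φ : V Ω) (a : Fin 3) (x : E) : qf φ (e a) x = gc φ a a x := by
  rw [qf_eq]
  simp only [e_apply, ite_mul, one_mul, zero_mul, Finset.sum_ite_eq', Finset.mem_univ, if_true,
    mul_ite, mul_zero]

theorem qf_ee (φ : V Ω) (a b : Fin 3) (hab : a ≠ b) (x : E) : qf φ (rt • (e a + e b)) x =
    1 / 2 * (gc φ a a x + gc φ b b x + gc φ a b x + gc φ b a x) := by
  have h1 : ∀ i : Fin 3, (rt • (e a + e b) : E) i =
      rt * ((if i = a then 1 else 0) + (if i = b then 1 else 0)) := by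
    intro i
    simp only [PiLp.smul_apply, PiLp.add_apply, e_apply, smul_eq_mul]
  rw [qf_eq]
  simp only [h1]
  have h2 : ∀ u v g : ℝ, rt * u * (rt * v) * g = 1 / 2 * (u * v * g) := by
    intro u v g
    linear_combination (u * v * g) * rt_sq
  simp only [h2, ← Finset.mul_sum]
  congr 1
  fin_cases a <;> fin_cases b <;> first
    | exact absurd rfl hab
    | (simp [Fin.sum_univ_three]; try ring)

theorem pair_tt {w : E → E} (hw : IsTest Ω w) (hb : Bornology.IsBounded Ω) (φ : V Ω) :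
    ∑ i, ∑ l, IG φ i l (S w i l) = ∑ m, PX (tt w m) (ζ6 m) φ := by
  unfold IG PX
  simp_rw [← integral_finsetSum _ fun l _ => bump_mul_int (bump_S hw _ l) (intg_gc hb φ _ l)]
  rw [← integral_finsetSum, ← integral_finsetSum]
  · refine integral_congr_ae (Eventually.of_forall fun x => ?_)
    change ∑ i, ∑ l, S w i l x * gc φ i l x = ∑ m, tt w m x * qf φ (ζ6 m) x
    have e0 : qf φ (ζ6 0) x = gc φ 0 0 x := qf_e φ 0 x
    have e1 : qf φ (ζ6 1) x = gc φ 1 1 x := qf_e φ 1 x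
    have e2 : qf φ (ζ6 2) x = gc φ 2 2 x := qf_e φ 2 x
    have e3 : qf φ (ζ6 3) x = _ := qf_ee φ 0 1 (by decide) x
    have e4 : qf φ (ζ6 4) x = _ := qf_ee φ 1 2 (by decide) x
    have e5 : qf φ (ζ6 5) x = _ := qf_ee φ 2 0 (by decide) x
    have t0 : tt w 0 x = S w 0 0 x + (-1) * (S w 0 1 x + S w 2 0 x) := rfl
    have t1 : tt w 1 x = S w 1 1 x + (-1) * (S w 0 1 x + S w 1 2 x) := rfl
    have t2 : tt w 2 x = S w 2 2 x + (-1) * (S w 1 2 x + S w 2 0 x) := rfl
    have t3 : tt w 3 x = 2 * S w 0 1 x := rfl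
    have t4 : tt w 4 x = 2 * S w 1 2 x := rfl
    have t5 : tt w 5 x = 2 * S w 2 0 x := rfl
    rw [Fin.sum_univ_six, e0, e1, e2, e3, e4, e5, t0, t1, t2, t3, t4, t5, Fin.sum_univ_three,
      Fin.sum_univ_three, Fin.sum_univ_three, Fin.sum_univ_three, S_symm w 1 0, S_symm w 2 1,
      S_symm w 0 2]
    ring
  · intro m _
    exact bump_mul_int (bump_tt hw m) (intg_qf hb φ (ζ6 m))
  · intro i _
    exact integrable_finsetSum _ fun l _ => bump_mul_int (bump_S hw i l) (intg_gc hb φ i l)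

theorem coer (hb : Bornology.IsBounded Ω) : IsCoercive (aFormM Ω) := by
  obtain ⟨c, hc, h⟩ := Poincare_proof Ω hb
  refine ⟨c, hc, fun u => ?_⟩
  rw [aFormM_apply, real_inner_self_eq_norm_sq]
  have := h u
  nlinarith

theorem grd_sub (u v : V Ω) : grd (u - v) = grd u - grd v := rfl

end Pool.Agent.NSN.NetInit

namespace Pool.Agent.NSN

open Pool.Agent.NSD Pool.Agent.NSK Pool.Agent.NSK.KLimit NetInit

theorem netInit_proof : Stmt_NetInit := by
  intro Ω Ω' x l δ hΩ hb hδ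
  -- Riesz representation for the Dirichlet form
  let m : V Ω →L[ℝ] ℝ := (innerSL ℝ (fld x)).comp (fldLM Ω) - l
  have hm : ∀ φ : V Ω, m φ = ⟪fld x, fld φ⟫ - l φ := fun φ => rfl
  let hco := coer (Ω := Ω) hb
  let ψ : V Ω := hco.continuousLinearEquivOfBilin.symm ((InnerProductSpace.toDual ℝ (V Ω)).symm m)
  have hψ : ∀ φ : V Ω, ⟪grd ψ, grd φ⟫ = m φ := by
    intro φ
    have h1 := hco.continuousLinearEquivOfBilin_apply ψ φ
    rw [aFormM_apply, ContinuousLinearEquiv.apply_symm_apply,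
      InnerProductSpace.toDual_symm_apply] at h1
    exact h1.symm
  -- approximation by a test field
  obtain ⟨W, p, hWp, hlim⟩ := Approx_proof Ω ψ
  obtain ⟨n, hn⟩ := ((Metric.tendsto_nhds.1 hlim) δ hδ).exists
  have hw := (hWp n).1
  have hp := (hWp n).2
  have hbd : ∃ d : ℝ, 0 < d ∧ ∀ (i : Fin 6) (y : E), |tt (W n) i y| ≤ d := by
    choose C hC0 hC using fun i => bump_bdd (bump_tt hw i)
    refine ⟨∑ i, C i + 1, by have := Finset.sum_nonneg fun i (_ : i ∈ Finset.univ) => hC0 i; linarith,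
      fun i y => ?_⟩
    have h1 := Finset.single_le_sum (fun i _ => hC0 i) (Finset.mem_univ i)
    have h2 := hC i y
    linarith
  obtain ⟨d, hd, hdt⟩ := hbd
  refine ⟨d, hd, tt (W n), fun i => (bump_tt hw i).1, hdt, fun φ _ => ?_⟩
  rw [← pair_tt hw hb φ, ← grd_pair_sym hw hΩ hb hp φ, ← hm, ← hψ, ← inner_sub_left, ← grd_sub]
  calc |⟪grd (ψ - p n), grd φ⟫| ≤ ‖grd (ψ - p n)‖ * ‖grd φ‖ := abs_real_inner_le_norm _ _
    _ ≤ ‖ψ - p n‖ * ‖φ‖ := mul_le_mul (norm_grd_le _) (norm_grd_le _) (norm_nonneg _)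
      (norm_nonneg _)
    _ ≤ δ * ‖φ‖ := by
      gcongr
      rw [dist_comm, dist_eq_norm] at hn
      exact hn.le

end Pool.Agent.NSN
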