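import Pool.Agent.NSN.Net
import Pool.Agent.NSK.KLimit

/-!
# MP_fd8964_an, critical net, module NetIter
-/

open MeasureTheory Set Filter Topology
open scoped RealInnerProductSpace ContDiff

noncomputable section

namespace Pool.Agent.NSN

open Pool.Agent.NSD Pool.Agent.NSK

namespace NI

theorem norm_ζ6 (i : Fin 6) : ‖ζ6 i‖ = 1 := by
  have hrt : rt * rt * 2 = 1 := by
    unfold rt
    have h2 : Real.sqrt 2 * Real.sqrt 2 = 2 := Real.mul_self_sqrt (by norm_num)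
    have h3 : Real.sqrt 2 ≠ 0 := by positivity
    field_simp
    nlinarith
  have hee : ∀ i : Fin 3, ‖e i‖ = 1 := fun i => by simp [e]
  have hs : ∀ j l : Fin 3, j ≠ l → ‖rt • (e j + e l)‖ = 1 := by
    intro j l hjl
    have h1 : ‖rt • (e j + e l)‖ ^ 2 = 1 := by
      rw [← real_inner_self_eq_norm_sq, inner_smul_left, inner_smul_right, inner_add_left, inner_add_right,
        inner_add_right, real_inner_self_eq_norm_sq, real_inner_self_eq_norm_sq, hee, hee]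
      have h2 : ⟪e j, e l⟫ = 0 := by
        rw [KLimit.inner_e, KLimit.e_apply, if_neg hjl]
      have h3 : ⟪e l, e j⟫ = 0 := by rw [real_inner_comm]; exact h2
      rw [h2, h3]
      simp only [conj_trivial]
      linarith
    have h4 := norm_nonneg (rt • (e j + e l))
    nlinarith
  fin_cases i
  · exact hee 0
  · exact hee 1
  · exact hee 2
  · exact hs 0 1 (by decide)
  · exact hs 1 2 (by decide)
  · exact hs 2 0 (by decide)

theorem qf_le (ξ : E) (hξ : ‖ξ‖ = 1) (g : G) : |∑ i : Fin 3, ξ i * ⟪ξ, g i⟫| ≤ ‖g‖ := by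
  have h1 : |∑ i : Fin 3, ξ i * ⟪ξ, g i⟫| ≤ ∑ i : Fin 3, ‖ξ i‖ * ‖g i‖ := by
    refine (Finset.abs_sum_le_sum_abs _ _).trans (Finset.sum_le_sum fun i _ => ?_)
    rw [abs_mul]
    refine mul_le_mul_of_nonneg_left ?_ (abs_nonneg _)
    have := abs_real_inner_le_norm ξ (g i)
    rwa [hξ, one_mul] at this
  refine h1.trans ?_
  have h2 : (∑ i : Fin 3, ‖ξ i‖ * ‖g i‖) ^ 2 ≤ (∑ i : Fin 3, ‖ξ i‖ ^ 2) * ∑ i : Fin 3, ‖g i‖ ^ 2 :=
    Finset.sum_mul_sq_le_sq_mul_sq _ _ _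
  have h3 : ∑ i : Fin 3, ‖ξ i‖ ^ 2 = 1 := by
    rw [← EuclideanSpace.norm_sq_eq, hξ, one_pow]
  have h4 : ∑ i : Fin 3, ‖g i‖ ^ 2 = ‖g‖ ^ 2 := (PiLp.norm_sq_eq_of_L2 _ g).symm
  rw [h3, h4, one_mul] at h2
  exact le_of_sq_le_sq h2 (norm_nonneg _)

theorem PX_le {Ω : Set E} (hb : Bornology.IsBounded Ω) {h : E → ℝ} {d : ℝ} (hd : ∀ x, |h x| ≤ d) {ξ : E}
    (hξ : ‖ξ‖ = 1) (φ : V Ω) : |PX h ξ φ| ≤ d * ∫ y in Ω, ‖(grd φ : E → G) y‖ := by
  unfold PX
  rw [← Real.norm_eq_abs, ← integral_const_mul]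
  refine norm_integral_le_of_norm_le ((KLimit.intg_grd hb φ).norm.const_mul d) (Eventually.of_forall fun x => ?_)
  rw [Real.norm_eq_abs, abs_mul]
  exact mul_le_mul (hd x) (qf_le ξ hξ _) (abs_nonneg _) ((abs_nonneg _).trans (hd x))

end NI

theorem netIter_proof (hIn : Stmt_NetInit) (hSt : Stmt_NetStep) : Stmt_Net := by
  intro K hK
  obtain ⟨C, hC, hst⟩ := hSt K hK
  refine ⟨12 * C ^ 2, by positivity, ?_⟩
  intro Ω Ω' η z r Gd l ε x hΩ hb hη hG hr hΩ' hball hε hx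
  obtain ⟨d₀, hd₀, hn₀⟩ := hIn Ω Ω' x l (ε / 4) hΩ hb (by positivity)
  -- the sequence of bounds
  let d : ℕ → ℝ := fun n => Nat.rec d₀ (fun _ y => C * Real.sqrt (η * y)) n
  have hds : ∀ n, d (n + 1) = C * Real.sqrt (η * d n) := fun n => rfl
  have hdpos : ∀ n, 0 < d n := by
    intro n
    induction n with
    | zero => exact hd₀
    | succ n ih => rw [hds]; positivity
  have hsq : ∀ n, d (n + 1) ^ 2 = C ^ 2 * η * d n := by
    intro n
    rw [hds, mul_pow, Real.sq_sqrt (by have := hdpos n; positivity)]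
    ring
  set D : ℝ := C ^ 2 * η with hD
  have hDpos : 0 < D := by positivity
  have hdich : ∀ n, d n ≤ 2 * D ∨ d n ≤ d₀ * (3 / 4) ^ n := by
    intro n
    induction n with
    | zero => right; simp [d]
    | succ n ih =>
      have h1 := hsq n
      have h2 := hdpos n
      have h3 := hdpos (n + 1)
      rcases le_or_gt (d n) (2 * D) with h4 | h4
      · left
        nlinarith
      · right
        have h5 : d n ≤ d₀ * (3 / 4) ^ n := by
          rcases ih with h | h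
          · linarith
          · exact h
        have h6 : d (n + 1) ≤ 3 / 4 * d n := by nlinarith
        rw [pow_succ]
        linarith
  have hex : ∃ n, d n ≤ 2 * D := by
    have ht : Tendsto (fun n : ℕ => d₀ * (3 / 4 : ℝ) ^ n) atTop (𝓝 (d₀ * 0)) :=
      (tendsto_pow_atTop_nhds_zero_of_lt_one (by norm_num) (by norm_num)).const_mul _
    rw [mul_zero] at ht
    obtain ⟨n, hn⟩ := (ht.eventually (ge_mem_nhds (by positivity : (0 : ℝ) < 2 * D))).exists
    rcases hdich n with h | h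
    · exact ⟨n, h⟩
    · exact ⟨n, h.trans hn⟩
  obtain ⟨n, hn⟩ := hex
  -- the iteration
  let s : ℕ → ℝ := fun j => ε * (1 - (1 / 2) ^ (j + 1))
  have hs1 : ∀ j, 0 < s j := by
    intro j
    have : (1 / 2 : ℝ) ^ (j + 1) < 1 := pow_lt_one₀ (by norm_num) (by norm_num) (by omega)
    have : 0 < 1 - (1 / 2 : ℝ) ^ (j + 1) := by linarith
    positivity
  have hs2 : ∀ j, s j < s (j + 1) := by
    intro j
    have h1 : (1 / 2 : ℝ) ^ (j + 1 + 1) < (1 / 2 : ℝ) ^ (j + 1) :=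
      pow_lt_pow_right_of_lt_one₀ (by norm_num) (by norm_num) (by omega)
    exact mul_lt_mul_of_pos_left (by linarith) hε
  have hs3 : ∀ j, s j < ε := by
    intro j
    have : 0 < (1 / 2 : ℝ) ^ (j + 1) := by positivity
    have : ε * (1 - (1 / 2) ^ (j + 1)) < ε * 1 := mul_lt_mul_of_pos_left (by linarith) hε
    simpa [s] using this
  have hit : ∀ j, ∃ y ∈ Gd (s j), Near Ω Ω' y l (d j) (s j) := by
    intro j
    induction j with
    | zero =>
      refine ⟨x, hx _ (hs1 0), ?_⟩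
      obtain ⟨t, h1, h2, h3⟩ := hn₀
      refine ⟨t, h1, h2, fun φ hφ => (h3 φ hφ).trans ?_⟩
      refine mul_le_mul_of_nonneg_right ?_ (norm_nonneg _)
      change ε / 4 ≤ ε * (1 - (1 / 2) ^ (0 + 1))
      norm_num
      linarith
    | succ j ih =>
      obtain ⟨y, hy, hny⟩ := ih
      exact hst Ω Ω' η z r Gd l (s j) (s (j + 1)) (s j) (s (j + 1)) (d j) y hΩ hb hη hG hr hΩ' hball (hs1 j)
        (hs2 j) (hs1 j).le (hs2 j) (hdpos j) hy hny
  obtain ⟨y, hy, hny⟩ := hit n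
  obtain ⟨x', hx', t, -, ht2, ht3⟩ := hst Ω Ω' η z r Gd l (s n) ε (s n) ε (d n) y hΩ hb hη hG hr hΩ' hball (hs1 n)
    (hs3 n) (hs1 n).le (hs3 n) (hdpos n) hy hny
  refine ⟨x', hx', fun φ hφ => ?_⟩
  have h1 := ht3 φ hφ
  have hd2 : C * Real.sqrt (η * d n) ≤ 2 * D := by
    rw [← hds]
    have h2 := hsq n
    have h3 := hdpos (n + 1)
    nlinarith
  have hI : 0 ≤ ∫ y in Ω, ‖(grd φ : E → G) y‖ := integral_nonneg fun _ => norm_nonneg _
  have h2 : |∑ i, PX (t i) (ζ6 i) φ| ≤ 6 * (2 * D * ∫ y in Ω, ‖(grd φ : E → G) y‖) := by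
    refine (Finset.abs_sum_le_sum_abs _ _).trans ?_
    calc ∑ i : Fin 6, |PX (t i) (ζ6 i) φ|
        ≤ ∑ _i : Fin 6, (2 * D * ∫ y in Ω, ‖(grd φ : E → G) y‖) := by
          refine Finset.sum_le_sum fun i _ => ?_
          refine (NI.PX_le hb (ht2 i) (NI.norm_ζ6 i) φ).trans ?_
          exact mul_le_mul_of_nonneg_right hd2 hI
      _ = 6 * (2 * D * ∫ y in Ω, ‖(grd φ : E → G) y‖) := by simp
  have h3 : (12 * C ^ 2 * η * ∫ y in Ω, ‖(grd φ : E → G) y‖)
      = 6 * (2 * D * ∫ y in Ω, ‖(grd φ : E → G) y‖) := by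
    rw [hD]; ring
  rw [h3]
  rw [abs_le] at h1 h2 ⊢
  constructor <;> linarith [h1.1, h1.2, h2.1, h2.2]

end Pool.Agent.NSN
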