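import Pool.Agent.NSN.Net
import Pool.Agent.NSK.KLimit
import Pool.Agent.NSK.Weak

/-!
# MP_fd8964_an, the critical net: one step of the iteration (module NetStep)
-/

open MeasureTheory Set Filter Topology
open scoped RealInnerProductSpace ContDiff

noncomputable section

namespace Pool.Agent.NSN.NetStep

open Pool.Agent.NSD Pool.Agent.NSK Pool.Agent.NSK.KLimit

variable {Ω : Set E}

lemma norm_e (i : Fin 3) : ‖e i‖ = 1 := by
  simp [e]

lemma inner_ee (i j : Fin 3) : ⟪e i, e j⟫ = if i = j then (1 : ℝ) else 0 := by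
  rw [inner_e, e_apply]

lemma norm_two {i j : Fin 3} (hij : i ≠ j) : ‖rt • (e i + e j)‖ = 1 := by
  have h1 : ‖e i + e j‖ ^ 2 = 2 := by
    rw [norm_add_sq_real, norm_e, norm_e, inner_ee, if_neg hij]
    norm_num
  have h2 : ‖e i + e j‖ = Real.sqrt 2 := by
    rw [← h1, Real.sqrt_sq (norm_nonneg _)]
  have h3 : 0 < Real.sqrt 2 := Real.sqrt_pos.2 (by norm_num)
  rw [norm_smul, h2, rt, norm_inv, Real.norm_of_nonneg h3.le, inv_mul_cancel₀ h3.ne']

lemma norm_ζ6 (i : Fin 6) : ‖ζ6 i‖ = 1 := by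
  fin_cases i
  · exact norm_e 0
  · exact norm_e 1
  · exact norm_e 2
  · exact norm_two (by decide)
  · exact norm_two (by decide)
  · exact norm_two (by decide)

lemma cont_mul_int (hΩ : IsOpen Ω) (hb : Bornology.IsBounded Ω) {f : E → ℝ} (hf : Continuous f) {F : E → ℝ}
    (hF : Integrable F (volume.restrict Ω)) : Integrable (fun x => f x * F x) (volume.restrict Ω) := by
  obtain ⟨C, hC⟩ := hb.isCompact_closure.exists_bound_of_continuousOn hf.continuousOn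
  refine hF.bdd_mul (c := C) hf.aestronglyMeasurable ?_
  refine (ae_restrict_mem hΩ.measurableSet).mono fun x hx => hC x (subset_closure hx)

lemma abs_qf_le (φ : V Ω) (ξ : E) (hξ : ‖ξ‖ = 1) (x : E) : |qf φ ξ x| ≤ 3 * ‖(grd φ : E → G) x‖ := by
  have h1 : ∀ i : Fin 3, |ξ i * ⟪ξ, (grd φ : E → G) x i⟫| ≤ ‖(grd φ : E → G) x‖ := by
    intro i
    rw [abs_mul]
    have h2 : |ξ i| ≤ 1 := by
      have := PiLp.norm_apply_le ξ i
      rw [hξ] at this
      simpa using this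
    have h3 : |⟪ξ, (grd φ : E → G) x i⟫| ≤ ‖(grd φ : E → G) x‖ := by
      refine (abs_real_inner_le_norm _ _).trans ?_
      rw [hξ, one_mul]
      exact PiLp.norm_apply_le _ i
    calc |ξ i| * |⟪ξ, (grd φ : E → G) x i⟫| ≤ 1 * ‖(grd φ : E → G) x‖ :=
          mul_le_mul h2 h3 (abs_nonneg _) zero_le_one
      _ = _ := one_mul _
  unfold qf
  refine (Finset.abs_sum_le_sum_abs _ _).trans ((Finset.sum_le_sum fun i _ => h1 i).trans ?_)
  simp

lemma PX_eq (h : E → ℝ) (ξ : E) (φ : V Ω) : PX h ξ φ = ∫ x in Ω, h x * qf φ ξ x := rfl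

/-- The main estimate: two close functions pair almost equally. -/
lemma PX_close (hΩ : IsOpen Ω) (hb : Bornology.IsBounded Ω) {Ω' : Set E} {h t : E → ℝ} (hh : Continuous h)
    (ht : Continuous t) {δ c : ℝ} (hδ : 0 ≤ δ) (hcl : ∀ x ∈ Ω', |h x - (- t x)| ≤ δ)
    (hc : ∀ φ : V Ω, ∫ x in Ω, ‖(grd φ : E → G) x‖ ≤ c * ‖φ‖) {ξ : E} (hξ : ‖ξ‖ = 1) (φ : V Ω)
    (hφ : ∀ᵐ y ∂(volume.restrict Ω), y ∉ Ω' → (grd φ : E → G) y = 0) :
    |PX h ξ φ + PX t ξ φ| ≤ 3 * δ * (c * ‖φ‖) := by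
  rw [PX_eq, PX_eq, ← integral_add (cont_mul_int hΩ hb hh (intg_qf hb φ ξ))
    (cont_mul_int hΩ hb ht (intg_qf hb φ ξ))]
  have hi : Integrable (fun x => 3 * δ * ‖(grd φ : E → G) x‖) (volume.restrict Ω) :=
    (intg_grd hb φ).norm.const_mul _
  have hle : ∀ᵐ x ∂(volume.restrict Ω), ‖h x * qf φ ξ x + t x * qf φ ξ x‖ ≤ 3 * δ * ‖(grd φ : E → G) x‖ := by
    filter_upwards [hφ] with x hx
    by_cases hx' : x ∈ Ω'
    · have h1 := hcl x hx'
      rw [sub_neg_eq_add] at h1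
      rw [← add_mul, Real.norm_eq_abs, abs_mul]
      calc |h x + t x| * |qf φ ξ x| ≤ δ * (3 * ‖(grd φ : E → G) x‖) :=
            mul_le_mul h1 (abs_qf_le φ ξ hξ x) (abs_nonneg _) hδ
        _ = _ := by ring
    · have h0 : (grd φ : E → G) x = 0 := hx hx'
      have hq : qf φ ξ x = 0 := by
        have := abs_qf_le φ ξ hξ x
        rw [h0, norm_zero, mul_zero] at this
        exact abs_eq_zero.1 (le_antisymm this (abs_nonneg _))
      rw [hq, h0]
      simp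
  have h2 := norm_integral_le_of_norm_le hi hle
  rw [Real.norm_eq_abs, integral_const_mul] at h2
  exact h2.trans (mul_le_mul_of_nonneg_left (hc φ) (by positivity))

lemma concat_real {η : ℝ} (n : ℕ) (F : Fin n → V Ω → ℝ) (α : ℝ) (hF : ∀ i, Realize Ω η (F i) α) :
    Realize Ω η (fun φ => ∑ i, F i φ) (n * α) := by
  induction n with
  | zero =>
    refine ⟨[], fun φ => by simp, fun x => by simp⟩
  | succ n ih =>
    obtain ⟨L, hL1, hL2⟩ := ih (fun i => F i.castSucc) (fun i => hF i.castSucc)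
    obtain ⟨M, hM1, hM2⟩ := hF (Fin.last n)
    refine ⟨L ++ M, fun φ => ?_, fun x => ?_⟩
    · rw [List.map_append, List.sum_append, hL1, hM1]
      exact (Fin.sum_univ_castSucc (fun i => F i φ)).symm
    · rw [List.map_append, List.sum_append]
      have := hL2 x
      have := hM2 x
      push_cast
      linarith

theorem netStep_proof (hSI : Stmt_Interior) (hLS : Stmt_ListStep) : Stmt_NetStep := by
  intro K hK
  obtain ⟨C, hC, hI⟩ := hSI K hK
  refine ⟨36 * C, by positivity, ?_⟩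
  intro Ω Ω' η z r Gd l ε ε' δ δ' d x hΩ hb hη hGd hr hΩ1 hΩ2 hε hεε hδ hδδ hd hx hN
  obtain ⟨t, ht1, ht2, ht3⟩ := hN
  have := cpt_finite hb
  obtain ⟨c, hc0, hc⟩ := Weak.int_norm_le (Ω := Ω)
  obtain ⟨γ, hγ⟩ : ∃ γ : ℝ, γ = (δ' - δ) / 2 := ⟨_, rfl⟩
  have hγ0 : 0 < γ := by rw [hγ]; linarith
  obtain ⟨δ₁, hδ₁⟩ : ∃ δ₁ : ℝ, δ₁ = γ / (18 * (c + 1)) := ⟨_, rfl⟩
  have hδ₁0 : 0 < δ₁ := by rw [hδ₁]; positivity
  have hbd : 18 * δ₁ * c ≤ γ := by
    have h1 : 18 * δ₁ * (c + 1) = γ := by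
      rw [hδ₁]
      field_simp
    have h2 : 18 * δ₁ * c ≤ 18 * δ₁ * (c + 1) := mul_le_mul_of_nonneg_left (by linarith) (by positivity)
    linarith
  have hS : ∀ i : Fin 6, ∃ h : E → ℝ, Continuous h ∧ (∀ y ∈ Ω', |h y - (- t i y)| ≤ δ₁) ∧
      Realize Ω η (fun φ => PX h (ζ6 i) φ) (C * Real.sqrt (η * d)) := by
    intro i
    refine hI Ω Ω' η z r (fun y => - t i y) d (ζ6 i) δ₁ hΩ hb hη hr hΩ1 hΩ2 (ht1 i).neg hd ?_ (norm_ζ6 i) hδ₁0
    intro y
    rw [abs_neg]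
    exact ht2 i y
  choose h hh1 hh2 hh3 using hS
  obtain ⟨L, hL1, hL2⟩ := concat_real 6 (fun i φ => PX (h i) (ζ6 i) φ) _ hh3
  obtain ⟨x', hx', t', ht'1, ht'2, ht'3⟩ := hLS Ω η Gd hΩ hb hGd L ε ε' γ x hε hεε hγ0 hx
  refine ⟨x', hx', t', ht'1, fun i y => ?_, fun φ hφ => ?_⟩
  · refine (ht'2 i y).trans ?_
    have := hL2 y
    push_cast at this
    linarith
  · have h1 := ht'3 φ
    have h2 := ht3 φ hφ
    rw [hL1 φ] at h1
    have h3 : |∑ i, (PX (h i) (ζ6 i) φ + PX (t i) (ζ6 i) φ)| ≤ γ * ‖φ‖ := by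
      refine (Finset.abs_sum_le_sum_abs _ _).trans ?_
      refine (Finset.sum_le_sum fun i _ => PX_close hΩ hb (hh1 i) (ht1 i).continuous hδ₁0.le (hh2 i) hc
        (norm_ζ6 i) φ hφ).trans ?_
      have h4 : ∑ _i : Fin 6, 3 * δ₁ * (c * ‖φ‖) = 18 * δ₁ * c * ‖φ‖ := by
        simp
        ring
      rw [h4]
      exact mul_le_mul_of_nonneg_right hbd (norm_nonneg _)
    rw [Finset.sum_add_distrib] at h3
    have h5 : δ' * ‖φ‖ = γ * ‖φ‖ + δ * ‖φ‖ + γ * ‖φ‖ := by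
      rw [hγ]
      ring
    rw [h5]
    rw [abs_le] at h1 h2 h3 ⊢
    constructor <;> linarith [h1.1, h1.2, h2.1, h2.2, h3.1, h3.2]

end Pool.Agent.NSN.NetStep

namespace Pool.Agent.NSN

theorem netStep_proof (hSI : Stmt_Interior) (hLS : Stmt_ListStep) : Stmt_NetStep :=
  NetStep.netStep_proof hSI hLS

end Pool.Agent.NSN
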