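import Pool.Agent.NSN.Net
import Pool.Agent.NSK.PairXi
import Pool.Agent.NSK.Grad
import Pool.Agent.NSK.Scale
import Pool.Agent.NSK.KLimit

/-!
# MP_fd8964_an, module Piece: a stress `f ζ ⊗ ζ` supported in a small ball is realized by six
composite kicks, up to averages of `f` and a small error
-/

set_option autoImplicit false

open MeasureTheory Set Filter Topology
open scoped RealInnerProductSpace ContDiff

noncomputable section

namespace Pool.Agent.NSN.PieceL

open Pool.Agent.NSD Pool.Agent.NSK Pool.Agent.NSN Pool.Agent.NSK.KLimit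

variable {Ω : Set E}

/-! ### The pairing `PX` -/

lemma PX_add (hb : Bornology.IsBounded Ω) (φ : V Ω) (ξ : E) {f g : E → ℝ} (hf : IsBump Ω f)
    (hg : IsBump Ω g) : PX (fun x => f x + g x) ξ φ = PX f ξ φ + PX g ξ φ := by
  have h1 := bump_mul_int hf (intg_qf hb φ ξ)
  have h2 := bump_mul_int hg (intg_qf hb φ ξ)
  have h3 : ∀ h : E → ℝ, PX h ξ φ = ∫ x in Ω, h x * qf φ ξ x := fun h => rfl
  rw [h3, h3, h3, ← integral_add h1 h2]
  refine integral_congr_ae (Eventually.of_forall fun x => ?_)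
  simp only
  ring

lemma PX_cmul (φ : V Ω) (ξ : E) (c : ℝ) (f : E → ℝ) :
    PX (fun x => c * f x) ξ φ = c * PX f ξ φ := by
  unfold PX
  rw [← integral_const_mul]
  refine integral_congr_ae (Eventually.of_forall fun x => ?_)
  simp only
  ring

/-- The pairing of a kick with `φ`. -/
lemma pair_eq (hΩ : IsOpen Ω) (hb : Bornology.IsBounded Ω) {η : ℝ} (hη : 0 < η) (D : KickD Ω η)
    (φ : V Ω) : D.pair φ = -(1 / (4 * η)) * ∑ m, PX (fun x => D.a m x ^ 2) (D.ξ m) φ := by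
  have hq := grad_proof Ω hΩ hb D.q D.kick.pres φ
  have h2 : ∀ x, 4 * η * ⟪D.G x, (fld φ : E → E) x⟫
      = (∑ m, dd (D.ξ m) (fun y => D.a m y ^ 2) x * ⟪D.ξ m, (fld φ : E → E) x⟫)
        - ⟪gradS D.q x, (fld φ : E → E) x⟫ := by
    intro x
    have h3 := congrArg (fun z => ⟪z, (fld φ : E → E) x⟫) (D.kick.eq x)
    simp only [inner_add_left, inner_smul_left, sum_inner, conj_trivial] at h3
    linarith
  have hI1 : ∀ m, Integrable
      (fun x => dd (D.ξ m) (fun y => D.a m y ^ 2) x * ⟪D.ξ m, (fld φ : E → E) x⟫)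
      (volume.restrict Ω) := fun m =>
    bump_mul_int (bump_dd (bump_sq (D.kick.bump m)) (D.ξ m)) (intg_inner hb φ (D.ξ m))
  have hI2 : Integrable (fun x => ⟪gradS D.q x, (fld φ : E → E) x⟫) (volume.restrict Ω) := by
    have h4 : (fun x => ⟪gradS D.q x, (fld φ : E → E) x⟫)
        = fun x => ∑ i : Fin 3, dd (e i) D.q x * ⟪e i, (fld φ : E → E) x⟫ := by
      funext x
      simp only [gradS, sum_inner, inner_smul_left, conj_trivial]
    rw [h4]
    exact integrable_finsetSum _ fun i _ =>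
      bump_mul_int (bump_dd D.kick.pres (e i)) (intg_inner hb φ (e i))
  have key : 4 * η * D.pair φ = - ∑ m, PX (fun x => D.a m x ^ 2) (D.ξ m) φ := by
    unfold KickD.pair
    rw [← integral_const_mul]
    simp_rw [h2]
    rw [integral_sub (integrable_finsetSum _ fun m _ => hI1 m) hI2, hq, sub_zero,
      integral_finsetSum _ fun m _ => hI1 m, ← Finset.sum_neg_distrib]
    refine Finset.sum_congr rfl fun m _ => ?_
    exact pairXi_proof Ω hΩ hb (fun y => D.a m y ^ 2) (D.ξ m) (D.ξ m)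
      (bump_sq (D.kick.bump m)) φ
  have h5 : (4 * η) ≠ 0 := by positivity
  have h6 : D.pair φ = (4 * η)⁻¹ * (4 * η * D.pair φ) := by
    rw [← mul_assoc, inv_mul_cancel₀ h5, one_mul]
  rw [h6, key, one_div]
  ring

/-- The sum over an orthonormal basis vanishes. -/
lemma PX_frame (hΩ : IsOpen Ω) (hb : Bornology.IsBounded Ω) (φ : V Ω)
    (B : OrthonormalBasis (Fin 3) ℝ E) {h : E → ℝ} (hh : IsBump Ω h) :
    PX h (B 0) φ + PX h (B 1) φ + PX h (B 2) φ = 0 := by
  have h0 : ∀ m, PX h (B m) φ = ∫ x in Ω, h x * qf φ (B m) x := fun m => rfl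
  have hI : ∀ m, Integrable (fun x => h x * qf φ (B m) x) (volume.restrict Ω) := fun m =>
    bump_mul_int hh (intg_qf hb φ (B m))
  have hsum : PX h (B 0) φ + PX h (B 1) φ + PX h (B 2) φ = ∑ m, PX h (B m) φ := by
    rw [Fin.sum_univ_three]
  rw [hsum]
  simp only [h0]
  rw [← integral_finsetSum _ fun m _ => hI m]
  have hδ : ∀ i l : Fin 3, ∑ m, B m i * B m l = if i = l then 1 else 0 := by
    intro i l
    have h1 := B.sum_inner_mul_inner (e i) (e l)
    have h2 : ∀ m, ⟪e i, B m⟫ * ⟪B m, e l⟫ = B m i * B m l := by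
      intro m
      rw [inner_e, real_inner_comm, inner_e]
    rw [Finset.sum_congr rfl fun m _ => h2 m] at h1
    rw [h1, inner_e, e_apply]
  have hpt : ∀ x, ∑ m, h x * qf φ (B m) x = ∑ i : Fin 3, h x * gc φ i i x := by
    intro x
    rw [← Finset.mul_sum, ← Finset.mul_sum]
    congr 1
    simp only [qf_eq]
    rw [Finset.sum_comm]
    refine Finset.sum_congr rfl fun i _ => ?_
    rw [Finset.sum_comm]
    have h3 : ∀ l : Fin 3, ∑ m, B m i * B m l * gc φ i l x =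
        (if i = l then 1 else 0) * gc φ i l x := by
      intro l
      rw [← Finset.sum_mul, hδ]
    rw [Finset.sum_congr rfl fun l _ => h3 l]
    simp
  have h4 : ∫ x in Ω, ∑ m, h x * qf φ (B m) x = ∫ x in Ω, ∑ i : Fin 3, h x * gc φ i i x := by
    simp_rw [hpt]
  rw [h4, integral_finsetSum _ fun i _ => bump_mul_int hh (intg_gc hb φ i i)]
  exact div_zero pairXi_proof grad_proof hΩ hb φ hh

lemma exists_basis (ζ : E) (hζ : ‖ζ‖ = 1) : ∃ B : OrthonormalBasis (Fin 3) ℝ E, B 0 = ζ := by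
  have hv : Orthonormal ℝ (({0} : Set (Fin 3)).domRestrict fun _ => ζ) := by
    constructor
    · intro i; exact hζ
    · intro i j hij
      exact absurd (Subsingleton.elim i j) hij
  obtain ⟨B, hB⟩ := hv.exists_orthonormalBasis_extension_of_card_eq (by simp [E])
  exact ⟨B, hB 0 rfl⟩

lemma isFrame_perm (B : OrthonormalBasis (Fin 3) ℝ E) (σ : Fin 3 → Fin 3)
    (hσ : Function.Injective σ) : IsFrame (fun i => B (σ i)) := by
  refine ⟨fun i => B.norm_eq_one _, fun i j hij => ?_⟩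
  rw [B.inner_eq_ite, if_neg fun h => hij (hσ h)]

/-! ### Convolutions -/

lemma ker_compact {K : E → ℝ} (hK : Ker K) : HasCompactSupport K :=
  (isCompact_closedBall (0 : E) 1).of_isClosed_subset (isClosed_tsupport _) hK.supp

lemma ker_int {K : E → ℝ} (hK : Ker K) {g : E → ℝ} (hg : Continuous g) :
    Integrable (fun y => K y * g y) :=
  (hK.smooth.continuous.mul hg).integrable_of_hasCompactSupport (ker_compact hK).mul_right

lemma ker_int0 {K : E → ℝ} (hK : Ker K) : Integrable K :=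
  hK.smooth.continuous.integrable_of_hasCompactSupport (ker_compact hK)

lemma cv_nonneg {K c : E → ℝ} (hK : Ker K) (hc : ∀ x, 0 ≤ c x) (x : E) : 0 ≤ cv K c x :=
  integral_nonneg fun y => mul_nonneg (hK.nonneg y) (hc _)

lemma cv_le {K c : E → ℝ} (hK : Ker K) (hcc : Continuous c) {M : ℝ} (hc : ∀ x, c x ≤ M)
    (x : E) : cv K c x ≤ M := by
  have h1 : cv K c x ≤ ∫ y, K y * M := by
    unfold cv
    apply integral_mono (ker_int hK (by fun_prop : Continuous fun y => c (x - y)))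
      ((ker_int0 hK).mul_const M)
    intro y
    exact mul_le_mul_of_nonneg_left (hc _) (hK.nonneg y)
  rwa [integral_mul_const, hK.mass, one_mul] at h1

lemma cv_sc (K f : E → ℝ) {ε : ℝ} (hε : 0 < ε) (x : E) :
    cv (sc ε K) f x = ∫ y, K y * f (x - ε • y) := by
  have h1 := subst_int f K x hε
  have h2 := integral_sub_left_eq_self (fun z => f z * K (ε⁻¹ • (x - z))) volume x
  have h3 : cv (sc ε K) f x = ε⁻¹ ^ 3 * ∫ y, f (x - y) * K (ε⁻¹ • (x - (x - y))) := by
    unfold cv sc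
    rw [← integral_const_mul]
    refine integral_congr_ae (Eventually.of_forall fun y => ?_)
    simp only [sub_sub_cancel]
    ring
  rw [h3, h2, h1, ← mul_assoc, ← mul_pow, inv_mul_cancel₀ hε.ne', one_pow, one_mul]
  refine integral_congr_ae (Eventually.of_forall fun y => ?_)
  simp only
  ring

/-- The kernels of the composite kicks. -/
def Kf (κ : ℝ → E → ℝ) (γ : Fin 2 → E → ℝ) (ρ : ℝ) : Fin 3 → E → ℝ := ![κ ρ, γ 0, γ 1]

lemma Kf_ker {κ : ℝ → E → ℝ} {γ : Fin 2 → E → ℝ} {b : Fin 3 → E → ℝ} (hP : Prof κ γ b) {ρ : ℝ}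
    (h0 : 0 < ρ) (h1 : ρ ≤ 1 / 64) (i : Fin 3) : Ker (Kf κ γ ρ i) := by
  fin_cases i
  · exact hP.κker ρ h0 h1
  · exact hP.γker 0
  · exact hP.γker 1

lemma cAmp_eq (κ : ℝ → E → ℝ) (γ : Fin 2 → E → ℝ) (b : Fin 3 → E → ℝ) (ρ τ : ℝ) (c : E → ℝ)
    (i : Fin 3) (x : E) :
    cAmp κ γ b ρ τ c i x = Real.sqrt (cv (Kf κ γ ρ i) c x + τ * b i x ^ 2) := by
  fin_cases i <;> rfl

lemma b_bdd {κ : ℝ → E → ℝ} {γ : Fin 2 → E → ℝ} {b : Fin 3 → E → ℝ} (hP : Prof κ γ b) :
    ∃ B : ℝ, 0 ≤ B ∧ ∀ i x, b i x ^ 2 ≤ B := by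
  have hsub : ∀ i, tsupport (b i) ⊆ Metric.closedBall 0 1 := by
    intro i x hx
    rw [mem_closedBall_zero_iff]
    fin_cases i
    · have := hP.b0supp hx
      simp only [Set.mem_ofPred_eq] at this
      linarith
    · have := hP.b1supp hx
      simp only [Set.mem_ofPred_eq] at this
      linarith [this.2]
    · have := hP.b2supp hx
      simp only [Set.mem_ofPred_eq] at this
      linarith [this.2]
  have hC : ∀ i, ∃ C : ℝ, ∀ x, ‖b i x‖ ≤ C := fun i =>
    (hP.b_smooth i).continuous.bounded_above_of_compact_support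
      ((isCompact_closedBall (0 : E) 1).of_isClosed_subset (isClosed_tsupport _) (hsub i))
  choose C hC using hC
  refine ⟨∑ i, C i ^ 2, Finset.sum_nonneg fun i _ => sq_nonneg _, fun i x => ?_⟩
  have h1 : b i x ^ 2 ≤ C i ^ 2 := by
    have h2 := hC i x
    rw [Real.norm_eq_abs] at h2
    exact sq_le_sq' (by linarith [neg_abs_le (b i x)]) ((le_abs_self _).trans h2)
  exact h1.trans (Finset.single_le_sum (f := fun i => C i ^ 2) (fun j _ => sq_nonneg _)
    (Finset.mem_univ i))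

/-! ### One composite kick -/

/-- The squared amplitudes of the scaled composite kick. -/
def Sf (K b : Fin 3 → E → ℝ) (τ ε : ℝ) (x₀ : E) (c : E → ℝ) (i : Fin 3) (x : E) : ℝ :=
  cv (K i) c (ε⁻¹ • (x - x₀)) + τ * b i (ε⁻¹ • (x - x₀)) ^ 2

lemma exists_kickD (hCK : Stmt_ConvKick) {κ : ℝ → E → ℝ} {γ : Fin 2 → E → ℝ}
    {b : Fin 3 → E → ℝ} (hP : Prof κ γ b) {B : ℝ} (hB : ∀ i x, b i x ^ 2 ≤ B)
    (hΩ : IsOpen Ω) (hb : Bornology.IsBounded Ω) {η ε ρ τ M : ℝ} {x₀ : E} (hη : 0 < η)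
    (hε : 0 < ε) (hρ : 0 < ρ) (hρ' : ρ ≤ 1 / 64) (hτ : 0 < τ) (hball : Metric.ball x₀ ε ⊆ Ω)
    {c : E → ℝ} (hc : ContDiff ℝ ∞ c) (hc0 : ∀ x, 0 ≤ c x) (hcM : ∀ x, c x ≤ M)
    (hcs : tsupport c ⊆ Metric.ball y₀ (1 / 64)) (ζ : Fin 3 → E) (hζ : IsFrame ζ) :
    (∀ i, IsBump Ω (Sf (Kf κ γ ρ) b τ ε x₀ c i)) ∧
    ∃ D : KickD Ω η, (∀ φ : V Ω, D.pair φ = -(1 / (4 * η)) *
        (PX (Sf (Kf κ γ ρ) b τ ε x₀ c 0) (ζ 0) φ + PX (Sf (Kf κ γ ρ) b τ ε x₀ c 1) (ζ 1) φ +
          PX (Sf (Kf κ γ ρ) b τ ε x₀ c 2) (ζ 2) φ)) ∧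
      ∀ x, D.amp x ≤ 3 * Real.sqrt (M + τ * B) := by
  obtain ⟨k, q, G, hK⟩ := hCK κ γ b hP η ζ c ρ τ hη hζ hc hc0 hcs hρ hρ' hτ
  have hS := scale_proof Ω η 3 _ k ζ q G x₀ ε hε hK hball
  have hnn : ∀ i x, 0 ≤ cv (Kf κ γ ρ i) c x + τ * b i x ^ 2 := fun i x =>
    add_nonneg (cv_nonneg (Kf_ker hP hρ hρ' i) hc0 x) (by positivity)
  have hsq : ∀ i x, cAmp κ γ b ρ τ c i (ε⁻¹ • (x - x₀)) ^ 2 = Sf (Kf κ γ ρ) b τ ε x₀ c i x := by
    intro i x
    rw [cAmp_eq, Real.sq_sqrt (hnn i _)]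
    rfl
  refine ⟨fun i => ?_, ⟨3, _, k, ζ, _, _, hS⟩, fun φ => ?_, fun x => ?_⟩
  · have h1 := bump_sq (hS.bump i)
    have h2 : (fun x => cAmp κ γ b ρ τ c i (ε⁻¹ • (x - x₀)) ^ 2) =
        Sf (Kf κ γ ρ) b τ ε x₀ c i := funext fun x => hsq i x
    rwa [h2] at h1
  · rw [pair_eq hΩ hb hη]
    have h2 : ∀ i, (fun x => cAmp κ γ b ρ τ c i (ε⁻¹ • (x - x₀)) ^ 2) =
        Sf (Kf κ γ ρ) b τ ε x₀ c i := fun i => funext fun x => hsq i x
    congr 1
    change ∑ m : Fin 3, PX (fun x => cAmp κ γ b ρ τ c m (ε⁻¹ • (x - x₀)) ^ 2) (ζ m) φ = _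
    rw [Fin.sum_univ_three, h2, h2, h2]
  · change ∑ m : Fin 3, |cAmp κ γ b ρ τ c m (ε⁻¹ • (x - x₀))| ≤ _
    have h3 : ∀ m : Fin 3, |cAmp κ γ b ρ τ c m (ε⁻¹ • (x - x₀))| ≤ Real.sqrt (M + τ * B) := by
      intro m
      rw [cAmp_eq, abs_of_nonneg (Real.sqrt_nonneg _)]
      apply Real.sqrt_le_sqrt
      have h4 := cv_le (Kf_ker hP hρ hρ' m) hc.continuous hcM (ε⁻¹ • (x - x₀))
      have h5 := hB m (ε⁻¹ • (x - x₀))
      have h6 : τ * b m (ε⁻¹ • (x - x₀)) ^ 2 ≤ τ * B := by gcongr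
      linarith
    rw [Fin.sum_univ_three]
    linarith [h3 0, h3 1, h3 2]

/-! ### The six kicks -/

/-- Perturbation identity for the squared amplitudes. -/
lemma Sf_sub {K b : Fin 3 → E → ℝ} (hK : ∀ i, Ker (K i)) {τ ε : ℝ} {x₀ : E} (hε : 0 < ε)
    {η : ℝ} {f χ : E → ℝ} (hf : Continuous f) (hχ : Continuous χ) (i : Fin 3) (x : E) :
    Sf K b τ ε x₀ (fun y => -(2 * η) * f (x₀ + ε • y) + χ y) i x
      = Sf K b τ ε x₀ χ i x + -(2 * η) * cv (sc ε (K i)) f x := by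
  unfold Sf
  have h1 : cv (K i) (fun y => -(2 * η) * f (x₀ + ε • y) + χ y) (ε⁻¹ • (x - x₀)) =
      -(2 * η) * cv (sc ε (K i)) f x + cv (K i) χ (ε⁻¹ • (x - x₀)) := by
    rw [cv_sc (K i) f hε x]
    unfold cv
    rw [← integral_const_mul, ← integral_add]
    · refine integral_congr_ae (Eventually.of_forall fun y => ?_)
      have h2 : x₀ + ε • (ε⁻¹ • (x - x₀) - y) = x - ε • y := by
        rw [smul_sub, smul_smul, mul_inv_cancel₀ hε.ne', one_smul]
        abel
      simp only [h2]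
      ring
    · exact (ker_int (hK i) (by fun_prop : Continuous fun y => f (x - ε • y))).const_mul _
    · exact ker_int (hK i) (by fun_prop : Continuous fun y => χ (ε⁻¹ • (x - x₀) - y))
  rw [h1]
  ring

/-- The algebra of the six kicks. -/
lemma six (hΩ : IsOpen Ω) (hb : Bornology.IsBounded Ω) (φ : V Ω) {η : ℝ} (hη : 0 < η)
    (B : OrthonormalBasis (Fin 3) ℝ E) {SA SB : Fin 3 → E → ℝ} (hA : ∀ i, IsBump Ω (SA i))
    (hB : ∀ i, IsBump Ω (SB i)) {T : Fin 3 → E → ℝ}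
    (hT : ∀ i x, SA i x = SB i x + -(2 * η) * T i x) {H : E → ℝ}
    (hH : ∀ x, H x = T 0 x - (T 1 x + T 2 x) / 2) :
    -(1 / (4 * η)) * (PX (SA 0) (B 0) φ + PX (SA 1) (B 1) φ + PX (SA 2) (B 2) φ) +
    (-(1 / (4 * η)) * (PX (SA 0) (B 0) φ + PX (SA 1) (B 2) φ + PX (SA 2) (B 1) φ) +
    (-(1 / (4 * η)) * (PX (SB 0) (B 1) φ + PX (SB 1) (B 0) φ + PX (SB 2) (B 2) φ) +
    (-(1 / (4 * η)) * (PX (SB 0) (B 1) φ + PX (SB 1) (B 2) φ + PX (SB 2) (B 0) φ) +
    (-(1 / (4 * η)) * (PX (SB 0) (B 2) φ + PX (SB 1) (B 0) φ + PX (SB 2) (B 1) φ) +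
    -(1 / (4 * η)) * (PX (SB 0) (B 2) φ + PX (SB 1) (B 1) φ + PX (SB 2) (B 0) φ)))))
      = PX H (B 0) φ := by
  -- the differences
  set U : Fin 3 → E → ℝ := fun i x => SA i x + -1 * SB i x with hU
  have hUb : ∀ i, IsBump Ω (U i) := fun i => bump_add (hA i) (bump_cmul (hB i) (-1))
  have hAdd : ∀ i m, PX (SA i) (B m) φ = PX (SB i) (B m) φ + PX (U i) (B m) φ := by
    intro i m
    rw [← PX_add hb φ (B m) (hB i) (hUb i)]
    congr 1
    funext x
    simp only [hU]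
    ring
  have hUT : ∀ i x, U i x = -(2 * η) * T i x := by
    intro i x
    simp only [hU]
    rw [hT i x]; ring
  have hHU : PX H (B 0) φ = -(1 / (4 * η)) *
      (2 * PX (U 0) (B 0) φ - (PX (U 1) (B 0) φ + PX (U 2) (B 0) φ)) := by
    have h1 : H = fun x => -(1 / (4 * η)) * (2 * U 0 x + -1 * (U 1 x + U 2 x)) := by
      funext x
      rw [hH x, hUT, hUT, hUT]
      field_simp
      ring
    rw [h1, PX_cmul, PX_add hb φ (B 0) (bump_cmul (hUb 0) 2)
      (bump_cmul (bump_add (hUb 1) (hUb 2)) (-1)), PX_cmul, PX_cmul,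
      PX_add hb φ (B 0) (hUb 1) (hUb 2)]
    ring
  have e1 := PX_frame hΩ hb φ B (hB 0)
  have e2 := PX_frame hΩ hb φ B (hB 1)
  have e3 := PX_frame hΩ hb φ B (hB 2)
  have e4 := PX_frame hΩ hb φ B (hUb 1)
  have e5 := PX_frame hΩ hb φ B (hUb 2)
  rw [hHU]
  simp only [hAdd]
  linear_combination (-(1 / (4 * η))) * (2 * e1 + 2 * e2 + 2 * e3 + e4 + e5)

/-! ### The error `κ_ρ * f - f` -/

lemma cv_near {K f : E → ℝ} (hK : Ker K) {ρ ε δ δ₀ : ℝ} (hε : 0 < ε)
    (hs : tsupport K ⊆ Metric.closedBall 0 ρ) (hρ : ε * ρ < δ₀) (hf : Continuous f)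
    (hu : ∀ x y : E, dist x y < δ₀ → dist (f x) (f y) < δ) (x : E) :
    |cv (sc ε K) f x - f x| ≤ δ := by
  have h1 : cv (sc ε K) f x - f x = ∫ y, K y * (f (x - ε • y) - f x) := by
    rw [cv_sc K f hε x]
    have h2 : f x = ∫ y, K y * f x := by rw [integral_mul_const, hK.mass, one_mul]
    conv_lhs => rw [h2]
    rw [← integral_sub (ker_int hK (by fun_prop : Continuous fun y => f (x - ε • y)))
      ((ker_int0 hK).mul_const _)]
    refine integral_congr_ae (Eventually.of_forall fun y => ?_)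
    simp only
    ring
  have h3 : ‖∫ y, K y * (f (x - ε • y) - f x)‖ ≤ ∫ y, K y * δ := by
    refine norm_integral_le_of_norm_le ((ker_int0 hK).mul_const δ)
      (Eventually.of_forall fun y => ?_)
    rw [norm_mul, Real.norm_eq_abs, abs_of_nonneg (hK.nonneg y)]
    by_cases hy : K y = 0
    · rw [hy, zero_mul, zero_mul]
    · have hy2 : y ∈ tsupport K := subset_tsupport K hy
      have hy3 := hs hy2
      rw [mem_closedBall_zero_iff] at hy3
      have h4 : dist (x - ε • y) x < δ₀ := by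
        rw [dist_eq_norm]
        have h5 : x - ε • y - x = -(ε • y) := by abel
        rw [h5, norm_neg, norm_smul, Real.norm_eq_abs, abs_of_pos hε]
        calc ε * ‖y‖ ≤ ε * ρ := by gcongr
          _ < δ₀ := hρ
      have h6 := hu _ _ h4
      rw [Real.dist_eq] at h6
      rw [Real.norm_eq_abs]
      exact mul_le_mul_of_nonneg_left h6.le (hK.nonneg y)
  rw [integral_mul_const, hK.mass, one_mul, Real.norm_eq_abs] at h3
  rwa [h1]

lemma ker_avg {K L : E → ℝ} (hK : Ker K) (hL : Ker L) : Ker fun y => (K y + L y) / 2 := by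
  refine ⟨(hK.smooth.add hL.smooth).div_const 2, ?_, fun y => ?_, fun y => ?_, ?_⟩
  · have h1 : tsupport (fun y => (K y + L y) / 2) ⊆ tsupport K ∪ tsupport L := by
      refine closure_minimal (fun y hy => ?_) ((isClosed_tsupport K).union (isClosed_tsupport L))
      by_cases h : K y = 0
      · by_cases h' : L y = 0
        · exact absurd (by simp [h, h']) hy
        · exact Or.inr (subset_tsupport L h')
      · exact Or.inl (subset_tsupport K h)
    exact h1.trans (union_subset hK.supp hL.supp)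
  · have := hK.nonneg y
    have := hL.nonneg y
    positivity
  · rw [hK.even, hL.even]
  · rw [integral_div, integral_add (ker_int0 hK) (ker_int0 hL), hK.mass, hL.mass]
    norm_num

lemma cv_avg {K L f : E → ℝ} (hK : Ker K) (hL : Ker L) (hf : Continuous f) {ε : ℝ} (hε : 0 < ε)
    (x : E) : cv (sc ε fun y => (K y + L y) / 2) f x =
      (cv (sc ε K) f x + cv (sc ε L) f x) / 2 := by
  rw [cv_sc _ f hε, cv_sc _ f hε, cv_sc _ f hε]
  have h1 := ker_int hK (by fun_prop : Continuous fun y => f (x - ε • y))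
  have h2 := ker_int hL (by fun_prop : Continuous fun y => f (x - ε • y))
  rw [← integral_add h1 h2, ← integral_div]
  refine integral_congr_ae (Eventually.of_forall fun y => ?_)
  simp only
  ring

/-- The cutoff function. -/
def chB : ContDiffBump y₀ := ⟨1 / 128, 1 / 100, by norm_num, by norm_num⟩

lemma chB_one {y : E} (hy : y ∈ Metric.closedBall y₀ (1 / 128)) : chB y = 1 :=
  chB.one_of_mem_closedBall hy

lemma chB_supp : tsupport (chB : E → ℝ) ⊆ Metric.ball y₀ (1 / 64) := by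
  rw [chB.tsupport_eq]
  apply Metric.closedBall_subset_ball
  change (1 / 100 : ℝ) < 1 / 64
  norm_num

lemma norm_y₀ : ‖y₀‖ = 1 / 16 := by
  unfold y₀
  rw [norm_smul]
  simp [e]

lemma ball_sub {p : E} {ε : ℝ} (hε : 0 < ε) :
    Metric.ball (p - ε • y₀) ε ⊆ Metric.ball p (2 * ε) := by
  intro x hx
  rw [Metric.mem_ball, dist_eq_norm] at hx ⊢
  have h1 : x - p = (x - (p - ε • y₀)) + -(ε • y₀) := by abel
  rw [h1]
  calc ‖(x - (p - ε • y₀)) + -(ε • y₀)‖ ≤ ‖x - (p - ε • y₀)‖ + ‖-(ε • y₀)‖ := norm_add_le _ _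
    _ < ε + ε * (1 / 16) := by
      rw [norm_neg, norm_smul, norm_y₀, Real.norm_eq_abs, abs_of_pos hε]
      linarith
    _ ≤ 2 * ε := by linarith

end Pool.Agent.NSN.PieceL

namespace Pool.Agent.NSN

open Pool.Agent.NSD Pool.Agent.NSK Pool.Agent.NSK.KLimit PieceL

/-- PC from PF and CK. -/
theorem piece_proof (hPr : Stmt_Prof) (hCK : Stmt_ConvKick) : Stmt_Piece := by
  obtain ⟨κ, γ, b, hP⟩ := hPr
  obtain ⟨B, hB0, hB⟩ := b_bdd hP
  refine ⟨fun y => (γ 0 y + γ 1 y) / 2, ker_avg (hP.γker 0) (hP.γker 1),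
    18 * Real.sqrt (4 + B), 1 / 128, by positivity, by norm_num, ?_⟩
  intro Ω η p ε f d ζ δ hΩ hb hη hε hball hf hfs hd hfd hζ hδ
  set x₀ : E := p - ε • y₀ with hx₀
  have hball' : Metric.ball x₀ ε ⊆ Ω := (ball_sub hε).trans hball
  -- uniform continuity
  have hfc : HasCompactSupport f :=
    (isCompact_closedBall p (1 / 128 * ε)).of_isClosed_subset (isClosed_tsupport _)
      (hfs.trans Metric.ball_subset_closedBall)
  have hfuc := hfc.uniformContinuous_of_continuous hf.continuous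
  obtain ⟨δ₀, hδ₀, hu⟩ := Metric.uniformContinuous_iff.mp hfuc δ hδ
  -- the core scale
  obtain ⟨ρ, hρ, hρ', hρ''⟩ : ∃ ρ : ℝ, 0 < ρ ∧ ρ ≤ 1 / 64 ∧ ε * ρ < δ₀ := by
    refine ⟨min (1 / 64) (δ₀ / (2 * ε)), by positivity, min_le_left _ _, ?_⟩
    calc ε * min (1 / 64) (δ₀ / (2 * ε)) ≤ ε * (δ₀ / (2 * ε)) := by
          gcongr
          exact min_le_right _ _
      _ = δ₀ / 2 := by field_simp
      _ < δ₀ := by linarith
  obtain ⟨Bs, hBs⟩ := exists_basis ζ hζ
  -- the functions on the unit ball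
  set τ : ℝ := η * d with hτdef
  have hτ : 0 < τ := by positivity
  set cB : E → ℝ := fun y => 2 * τ * chB y with hcB
  set cA : E → ℝ := fun y => -(2 * η) * f (x₀ + ε • y) + cB y with hcA
  have hcBs : ContDiff ℝ ∞ cB := contDiff_const.mul chB.contDiff
  have hFs : ContDiff ℝ ∞ fun y : E => -(2 * η) * f (x₀ + ε • y) :=
    contDiff_const.mul (hf.comp (contDiff_const.add (contDiff_const_smul ε)))
  have hcAs : ContDiff ℝ ∞ cA := hFs.add hcBs
  have hFsupp : tsupport (fun y : E => -(2 * η) * f (x₀ + ε • y)) ⊆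
      Metric.ball y₀ (1 / 128) := by
    have h1 : tsupport (fun y : E => -(2 * η) * f (x₀ + ε • y)) ⊆
        (fun y : E => x₀ + ε • y) ⁻¹' tsupport f := by
      refine closure_minimal (fun y hy => ?_)
        (IsClosed.preimage (by fun_prop) (isClosed_tsupport f))
      apply subset_tsupport f
      intro h0
      apply hy
      simp only [h0, mul_zero]
    intro y hy
    have h2 := hfs (h1 hy)
    rw [Metric.mem_ball, dist_eq_norm] at h2 ⊢
    have h3 : x₀ + ε • y - p = ε • (y - y₀) := by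
      rw [hx₀, smul_sub]; abel
    rw [h3, norm_smul, Real.norm_eq_abs, abs_of_pos hε] at h2
    by_contra hcon
    rw [not_lt] at hcon
    have : ε * (1 / 128) ≤ ε * ‖y - y₀‖ := by gcongr
    linarith
  have hcBsupp : tsupport cB ⊆ Metric.ball y₀ (1 / 64) := by
    have h1 : tsupport cB ⊆ tsupport (chB : E → ℝ) := by
      refine closure_mono fun y hy h0 => hy ?_
      simp only [hcB]
      rw [h0, mul_zero]
    exact h1.trans chB_supp
  have hcAsupp : tsupport cA ⊆ Metric.ball y₀ (1 / 64) := by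
    refine (tsupport_add _ _).trans (union_subset (hFsupp.trans ?_) hcBsupp)
    exact Metric.ball_subset_ball (by norm_num)
  have hcB0 : ∀ y, 0 ≤ cB y := fun y => by
    have := chB.nonneg (x := y)
    positivity
  have hcB1 : ∀ y, cB y ≤ 2 * τ := fun y => by
    have h1 := chB.le_one (x := y)
    have h2 : 2 * τ * chB y ≤ 2 * τ * 1 := by gcongr
    linarith
  have hFabs : ∀ y, |(-(2 * η) * f (x₀ + ε • y))| ≤ 2 * τ := by
    intro y
    rw [abs_mul, abs_neg, abs_of_pos (by positivity : (0 : ℝ) < 2 * η)]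
    calc 2 * η * |f (x₀ + ε • y)| ≤ 2 * η * d := by
          gcongr
          exact hfd _
      _ = 2 * τ := by rw [hτdef]; ring
  have hcA0 : ∀ y, 0 ≤ cA y := by
    intro y
    by_cases h0 : -(2 * η) * f (x₀ + ε • y) = 0
    · simp only [hcA]
      rw [h0, zero_add]
      exact hcB0 y
    · have h1 : y ∈ Metric.ball y₀ (1 / 128) := hFsupp (subset_tsupport _ h0)
      have h2 : cB y = 2 * τ := by
        simp only [hcB]
        rw [chB_one (Metric.ball_subset_closedBall h1), mul_one]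
      simp only [hcA]
      rw [h2]
      have := neg_abs_le (-(2 * η) * f (x₀ + ε • y))
      linarith [hFabs y]
  have hcA1 : ∀ y, cA y ≤ 4 * τ := by
    intro y
    simp only [hcA]
    have := le_abs_self (-(2 * η) * f (x₀ + ε • y))
    linarith [hFabs y, hcB1 y]
  have hcB1' : ∀ y, cB y ≤ 4 * τ := fun y => by linarith [hcB1 y]
  -- the kicks
  have mkA : ∀ ζ' : Fin 3 → E, IsFrame ζ' → _ := fun ζ' hζ' =>
    exists_kickD hCK hP hB hΩ hb hη hε hρ hρ' hτ hball' hcAs hcA0 hcA1 hcAsupp ζ' hζ'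
  have mkB : ∀ ζ' : Fin 3 → E, IsFrame ζ' → _ := fun ζ' hζ' =>
    exists_kickD hCK hP hB hΩ hb hη hε hρ hρ' hτ hball' hcBs hcB0 hcB1' hcBsupp ζ' hζ'
  have fr : ∀ σ : Fin 3 → Fin 3, Function.Injective σ → IsFrame fun i => Bs (σ i) :=
    fun σ hσ => isFrame_perm Bs σ hσ
  obtain ⟨bA, D1, p1, a1⟩ := mkA _ (fr ![0, 1, 2] (by decide))
  obtain ⟨-, D2, p2, a2⟩ := mkA _ (fr ![0, 2, 1] (by decide))
  obtain ⟨bB, D3, p3, a3⟩ := mkB _ (fr ![1, 0, 2] (by decide))
  obtain ⟨-, D4, p4, a4⟩ := mkB _ (fr ![1, 2, 0] (by decide))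
  obtain ⟨-, D5, p5, a5⟩ := mkB _ (fr ![2, 0, 1] (by decide))
  obtain ⟨-, D6, p6, a6⟩ := mkB _ (fr ![2, 1, 0] (by decide))
  -- the identity for the amplitudes
  have hK : ∀ i, Ker (Kf κ γ ρ i) := Kf_ker hP hρ hρ'
  have hT : ∀ i x, Sf (Kf κ γ ρ) b τ ε x₀ cA i x = Sf (Kf κ γ ρ) b τ ε x₀ cB i x +
      -(2 * η) * cv (sc ε (Kf κ γ ρ i)) f x := fun i x =>
    Sf_sub hK hε hf.continuous hcBs.continuous i x
  have hcvcont : Continuous fun x => cv (sc ε (κ ρ)) f x := by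
    have h1 : (fun x => cv (sc ε (κ ρ)) f x) = fun x => -(1 / (2 * η)) *
        (Sf (Kf κ γ ρ) b τ ε x₀ cA 0 x - Sf (Kf κ γ ρ) b τ ε x₀ cB 0 x) := by
      funext x
      rw [hT 0 x]
      change cv (sc ε (Kf κ γ ρ 0)) f x = _
      field_simp
      ring
    rw [h1]
    exact continuous_const.mul ((bA 0).1.continuous.sub (bB 0).1.continuous)
  refine ⟨fun x => cv (sc ε (κ ρ)) f x - f x, hcvcont.sub hf.continuous, fun x => ?_, ?_⟩
  · exact cv_near (hP.κker ρ hρ hρ') hε (hP.κsupp ρ hρ hρ') hρ'' hf.continuous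
      (fun x y hxy => hu hxy) x
  · refine ⟨[D1, D2, D3, D4, D5, D6], fun φ => ?_, fun x => ?_⟩
    · have hH : ∀ x, f x + (cv (sc ε (κ ρ)) f x - f x) -
          cv (sc ε fun y => (γ 0 y + γ 1 y) / 2) f x =
          cv (sc ε (Kf κ γ ρ 0)) f x -
            (cv (sc ε (Kf κ γ ρ 1)) f x + cv (sc ε (Kf κ γ ρ 2)) f x) / 2 := by
        intro x
        rw [cv_avg (hP.γker 0) (hP.γker 1) hf.continuous hε]
        change f x + (cv (sc ε (κ ρ)) f x - f x) - _ = cv (sc ε (κ ρ)) f x -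
          (cv (sc ε (γ 0)) f x + cv (sc ε (γ 1)) f x) / 2
        ring
      have key := six hΩ hb φ hη Bs bA bB hT hH
      rw [← hBs]
      refine Eq.trans ?_ key
      simp only [List.map_cons, List.map_nil, List.sum_cons, List.sum_nil, add_zero]
      rw [p1, p2, p3, p4, p5, p6]
      rfl
    · simp only [List.map_cons, List.map_nil, List.sum_cons, List.sum_nil, add_zero]
      have h1 : Real.sqrt (4 * τ + τ * B) = Real.sqrt (4 + B) * Real.sqrt (η * d) := by
        rw [← Real.sqrt_mul (by positivity), hτdef]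
        congr 1
        ring
      have b1 := a1 x
      have b2 := a2 x
      have b3 := a3 x
      have b4 := a4 x
      have b5 := a5 x
      have b6 := a6 x
      rw [h1] at b1 b2 b3 b4 b5 b6
      linarith

end Pool.Agent.NSN

end
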