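import Pool.Agent.NSN.Net
import Pool.Agent.NSK.BasePot
import Pool.Agent.NSK.BaseMom

/-!
# NSN, module Prof: radial profiles of the composite kicks
-/

open MeasureTheory Set Filter Topology
open scoped RealInnerProductSpace ContDiff

noncomputable section

namespace Pool.Agent.NSN

open Pool.Agent.NSD Pool.Agent.NSK Pool.Agent.NSK.Base

namespace ProfX

/-- Radial potentials with control of the support. -/
theorem radPot' (c : ℝ) {h : ℝ → ℝ} (hh : ContDiff ℝ ∞ h) {δ : ℝ} (hδ : 0 < δ) (hlo : ∀ s ≤ δ, h s = 0)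
    {s₂ : ℝ} (h2 : s₂ ≤ 1) (hhi : ∀ s, s₂ ≤ s → h s = 0) (hz : ∫ s in (0 : ℝ)..1, s ^ c * h s = 0) :
    ∃ Ψ : ℝ → ℝ, ContDiff ℝ ∞ Ψ ∧ (∀ s, s₂ ≤ s → Ψ s = 0) ∧
      ∀ s, 4 * s * deriv (deriv Ψ) s + (4 * (c + 1)) * deriv Ψ s = h s := by
  have hk : ContDiff ℝ ∞ (fun s => s ^ c * h s) := rpow_mul_contDiff hh hδ hlo c
  have hki : ∀ a b : ℝ, IntervalIntegrable (fun s => s ^ c * h s) volume a b := fun a b =>
    hk.continuous.intervalIntegrable a b
  set H : ℝ → ℝ := fun s => ∫ x in (0 : ℝ)..s, x ^ c * h x with hH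
  have hHc : ContDiff ℝ ∞ H := prim_contDiff hk 0
  have hHlo : ∀ s ≤ δ, H s = 0 := by
    intro s hs'
    rw [hH]
    refine intervalIntegral.integral_zero_ae (Eventually.of_forall fun x hx => ?_)
    have : x ≤ δ := by
      rcases le_total 0 s with h0 | h0
      · rw [uIoc_of_le h0] at hx
        exact hx.2.trans hs'
      · rw [uIoc_of_ge h0] at hx
        linarith [hx.2]
    rw [hlo x this, mul_zero]
  have hHhi : ∀ s, s₂ ≤ s → H s = 0 := by
    intro s hs'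
    have h1 : H s = (∫ x in (0 : ℝ)..1, x ^ c * h x) + ∫ x in (1 : ℝ)..s, x ^ c * h x :=
      (intervalIntegral.integral_add_adjacent_intervals (hki 0 1) (hki 1 s)).symm
    rw [h1, hz, zero_add]
    refine intervalIntegral.integral_zero_ae (Eventually.of_forall fun x hx => ?_)
    have : s₂ ≤ x := by
      rcases le_total 1 s with h0 | h0
      · rw [uIoc_of_le h0] at hx
        linarith [hx.1]
      · rw [uIoc_of_ge h0] at hx
        linarith [hx.1]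
    rw [hhi x this, mul_zero]
  set Fn : ℝ → ℝ := fun s => (1 / 4) * (s ^ (-(c + 1)) * H s) with hF
  have hFc : ContDiff ℝ ∞ Fn := contDiff_const.mul (rpow_mul_contDiff hHc hδ hHlo _)
  have hFlo : ∀ s ≤ δ, Fn s = 0 := by
    intro s hs'
    rw [hF]
    simp only [hHlo s hs', mul_zero]
  have hFhi : ∀ s, s₂ ≤ s → Fn s = 0 := by
    intro s hs'
    rw [hF]
    simp only [hHhi s hs', mul_zero]
  refine ⟨fun s => ∫ x in (1 : ℝ)..s, Fn x, prim_contDiff hFc 1, fun s hs' => ?_, fun s => ?_⟩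
  · refine intervalIntegral.integral_zero_ae (Eventually.of_forall fun x hx => ?_)
    have : s₂ ≤ x := by
      rcases le_total 1 s with h0 | h0
      · rw [uIoc_of_le h0] at hx
        linarith [hx.1]
      · rw [uIoc_of_ge h0] at hx
        linarith [hx.1]
    exact hFhi x this
  · have hd : deriv (fun s => ∫ x in (1 : ℝ)..s, Fn x) = Fn := by
      funext s
      exact (prim_hasDerivAt hFc.continuous 1 s).deriv
    rw [hd]
    rcases le_or_gt s 0 with h0 | h0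
    · have hev : Fn =ᶠ[𝓝 s] fun _ => 0 := by
        filter_upwards [Iio_mem_nhds (show s < δ by linarith)] with x hx
        exact hFlo x (le_of_lt hx)
      rw [hev.deriv_eq, hFlo s (by linarith), hlo s (by linarith)]
      simp
    · have hH' : HasDerivAt H (s ^ c * h s) s := prim_hasDerivAt hk.continuous 0 s
      have hp : HasDerivAt (fun s : ℝ => s ^ (-(c + 1))) (-(c + 1) * s ^ (-(c + 1) - 1)) s :=
        Real.hasDerivAt_rpow_const (Or.inl h0.ne')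
      have hF' : HasDerivAt Fn ((1 / 4) * (-(c + 1) * s ^ (-(c + 1) - 1) * H s
          + s ^ (-(c + 1)) * (s ^ c * h s))) s := (hp.mul hH').const_mul (1 / 4)
      rw [hF'.deriv]
      have e1 : s * s ^ (-(c + 1) - 1) = s ^ (-(c + 1)) := by
        rw [Real.rpow_sub_one h0.ne']
        field_simp
      have e2 : s * (s ^ (-(c + 1)) * s ^ c) = 1 := by
        rw [← Real.rpow_add h0]
        have : -(c + 1) + c = (-1 : ℝ) := by ring
        rw [this, Real.rpow_neg_one, mul_inv_cancel₀ h0.ne']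
      simp only [hF]
      calc 4 * s * (1 / 4 * (-(c + 1) * s ^ (-(c + 1) - 1) * H s + s ^ (-(c + 1)) * (s ^ c * h s)))
          + 4 * (c + 1) * (1 / 4 * (s ^ (-(c + 1)) * H s))
          = -(c + 1) * H s * (s * s ^ (-(c + 1) - 1)) + (s * (s ^ (-(c + 1)) * s ^ c)) * h s
            + (c + 1) * (s ^ (-(c + 1)) * H s) := by ring
        _ = h s := by rw [e1, e2]; ring

/-- A smooth bump on the interval `(α, β)`. -/
def bb (α β s : ℝ) : ℝ := expNegInvGlue (s - α) * expNegInvGlue (β - s)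

theorem bb_contDiff (α β : ℝ) : ContDiff ℝ ∞ (bb α β) :=
  (expNegInvGlue.contDiff.comp (contDiff_id.sub contDiff_const)).mul
    (expNegInvGlue.contDiff.comp (contDiff_const.sub contDiff_id))

theorem bb_nonneg (α β s : ℝ) : 0 ≤ bb α β s :=
  mul_nonneg (expNegInvGlue.nonneg _) (expNegInvGlue.nonneg _)

theorem bb_pos {α β s : ℝ} (h1 : α < s) (h2 : s < β) : 0 < bb α β s :=
  mul_pos (expNegInvGlue.pos_of_pos (by linarith)) (expNegInvGlue.pos_of_pos (by linarith))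

theorem bb_lo {α β s : ℝ} (h : s ≤ α) : bb α β s = 0 := by
  unfold bb
  rw [expNegInvGlue.zero_of_nonpos (by linarith), zero_mul]

theorem bb_hi {α β s : ℝ} (h : β ≤ s) : bb α β s = 0 := by
  unfold bb
  rw [expNegInvGlue.zero_of_nonpos (x := β - s) (by linarith), mul_zero]

/-- The radial integral. -/
def II (P : ℝ → ℝ) : ℝ := ∫ s in (0 : ℝ)..1, s ^ (1 / 2 : ℝ) * P s

theorem cont_half {P : ℝ → ℝ} (hP : Continuous P) : Continuous fun s : ℝ => s ^ (1 / 2 : ℝ) * P s :=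
  (continuous_id.rpow_const fun _ => Or.inr (by norm_num)).mul hP

theorem II_sub {P Q : ℝ → ℝ} (hP : Continuous P) (hQ : Continuous Q) (a b : ℝ) :
    II (fun s => a * P s - b * Q s) = a * II P - b * II Q := by
  unfold II
  rw [← intervalIntegral.integral_const_mul, ← intervalIntegral.integral_const_mul,
    ← intervalIntegral.integral_sub]
  · refine intervalIntegral.integral_congr fun s _ => ?_
    simp only
    ring
  · exact (continuous_const.mul (cont_half hP)).intervalIntegrable _ _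
  · exact (continuous_const.mul (cont_half hQ)).intervalIntegrable _ _

theorem II_pos {P : ℝ → ℝ} (hP : Continuous P) (h0 : ∀ s, 0 ≤ P s) {s : ℝ} (hs0 : 0 < s) (hs1 : s ≤ 1)
    (hs : 0 < P s) : 0 < II P := by
  refine intervalIntegral.integral_pos zero_lt_one (cont_half hP).continuousOn ?_ ⟨s, ⟨hs0.le, hs1⟩, ?_⟩
  · intro x hx
    exact mul_nonneg (Real.rpow_nonneg hx.1.le _) (h0 x)
  · exact mul_pos (Real.rpow_pos_of_pos hs0 _) hs

theorem tsupport_rad_subset {P : ℝ → ℝ} {α β : ℝ} (hlo : ∀ s, s ≤ α → P s = 0) (hhi : ∀ s, β ≤ s → P s = 0) :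
    tsupport (rad P) ⊆ {x : E | α ≤ ‖x‖ ^ 2 ∧ ‖x‖ ^ 2 ≤ β} := by
  refine closure_minimal ?_ ?_
  · intro y hy
    rw [Function.mem_support] at hy
    constructor
    · by_contra h
      exact hy (hlo _ (not_le.1 h).le)
    · by_contra h
      exact hy (hhi _ (not_le.1 h).le)
  · have hc : Continuous fun x : E => ‖x‖ ^ 2 := by fun_prop
    exact (isClosed_le continuous_const hc).inter (isClosed_le hc continuous_const)

theorem tsupport_rad_subset_hi {P : ℝ → ℝ} {β : ℝ} (hhi : ∀ s, β ≤ s → P s = 0) :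
    tsupport (rad P) ⊆ {x : E | ‖x‖ ^ 2 ≤ β} := by
  refine closure_minimal ?_ (isClosed_le (by fun_prop) continuous_const)
  intro y hy
  rw [Function.mem_support] at hy
  by_contra h
  exact hy (hhi _ (not_le.1 h).le)

theorem sq_le_iff {r : ℝ} (hr : 0 ≤ r) (x : E) : ‖x‖ ^ 2 ≤ r ^ 2 ↔ ‖x‖ ≤ r :=
  ⟨fun h => by nlinarith [norm_nonneg x], fun h => pow_le_pow_left₀ (norm_nonneg x) h 2⟩

theorem le_sq_iff {r : ℝ} (hr : 0 ≤ r) (x : E) : r ^ 2 ≤ ‖x‖ ^ 2 ↔ r ≤ ‖x‖ :=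
  ⟨fun h => by nlinarith [norm_nonneg x], fun h => pow_le_pow_left₀ hr h 2⟩

/-- A profile: smooth, nonnegative, vanishing outside `[α², β²]`, radial integral `1`. -/
structure IsP (P : ℝ → ℝ) (α β : ℝ) : Prop where
  smooth : ContDiff ℝ ∞ P
  nonneg : ∀ s, 0 ≤ P s
  lo : ∀ s, s ≤ α ^ 2 → P s = 0
  hi : ∀ s, β ^ 2 ≤ s → P s = 0
  int : II P = 1

/-- Difference of two profiles is a Laplacian. -/
theorem pot {P Q : ℝ → ℝ} {α β α' β' r : ℝ} (hP : IsP P α β) (hQ : IsP Q α' β') (hα : 0 < α) (hα' : 0 < α')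
    (hβ : 0 ≤ β) (hβ' : 0 ≤ β') (hr : β ≤ r) (hr' : β' ≤ r) (hr1 : r ≤ 1) :
    ∃ Ψ : ℝ → ℝ, ContDiff ℝ ∞ Ψ ∧ (∀ s, r ^ 2 ≤ s → Ψ s = 0) ∧ ∀ x : E, rad P x = rad Q x + lap (rad Ψ) x := by
  have hr0 : 0 ≤ r := hβ.trans hr
  have hII := II_sub hP.smooth.continuous hQ.smooth.continuous 1 1
  rw [hP.int, hQ.int] at hII
  have hhi : ∀ s, r ^ 2 ≤ s → (1 * P s - 1 * Q s) = 0 := by
    intro s hs
    rw [hP.hi s (le_trans (pow_le_pow_left₀ hβ hr 2) hs), hQ.hi s (le_trans (pow_le_pow_left₀ hβ' hr' 2) hs)]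
    ring
  have hlo : ∀ s, s ≤ min (α ^ 2) (α' ^ 2) → (1 * P s - 1 * Q s) = 0 := by
    intro s hs
    rw [hP.lo s (hs.trans (min_le_left _ _)), hQ.lo s (hs.trans (min_le_right _ _))]
    ring
  obtain ⟨Ψ, h1, h2, h3⟩ := radPot' (1 / 2) (h := fun s => 1 * P s - 1 * Q s)
    ((contDiff_const.mul hP.smooth).sub (contDiff_const.mul hQ.smooth))
    (δ := min (α ^ 2) (α' ^ 2)) (lt_min (by positivity) (by positivity)) hlo
    (s₂ := r ^ 2) (pow_le_one₀ hr0 hr1) hhi (by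
      have : II (fun s => 1 * P s - 1 * Q s) = 0 := by rw [hII]; ring
      exact this)
  refine ⟨Ψ, h1, h2, fun x => ?_⟩
  rw [lap_rad h1]
  have := h3 (‖x‖ ^ 2)
  simp only [rad]
  linarith

theorem exists_P {α β : ℝ} (hα : 0 < α) (hαβ : α < β) (hβ : β ≤ 1) :
    ∃ P : ℝ → ℝ, IsP P α β ∧ ∀ s, α ^ 2 < s → s < β ^ 2 → 0 < P s := by
  have h2 : α ^ 2 < β ^ 2 := pow_lt_pow_left₀ hαβ hα.le (by norm_num)
  have hm1 : (α ^ 2 + β ^ 2) / 2 ≤ 1 := by
    have : β ^ 2 ≤ 1 := pow_le_one₀ (by linarith) hβ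
    linarith
  have hI : 0 < II (bb (α ^ 2) (β ^ 2)) :=
    II_pos (bb_contDiff _ _).continuous (bb_nonneg _ _) (s := (α ^ 2 + β ^ 2) / 2) (by positivity) hm1
      (bb_pos (by linarith) (by linarith))
  refine ⟨fun s => (II (bb (α ^ 2) (β ^ 2)))⁻¹ * bb (α ^ 2) (β ^ 2) s,
    ⟨contDiff_const.mul (bb_contDiff _ _), fun s => ?_, fun s hs => ?_, fun s hs => ?_, ?_⟩, fun s h1 h2 => ?_⟩
  · exact mul_nonneg (inv_nonneg.2 hI.le) (bb_nonneg _ _ _)
  · rw [bb_lo hs, mul_zero]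
  · rw [bb_hi hs, mul_zero]
  · have := II_sub (bb_contDiff (α ^ 2) (β ^ 2)).continuous (bb_contDiff (α ^ 2) (β ^ 2)).continuous
      (II (bb (α ^ 2) (β ^ 2)))⁻¹ 0
    simp only [zero_mul, sub_zero] at this
    rw [this, inv_mul_cancel₀ hI.ne']
  · exact mul_pos (inv_pos.2 hI) (bb_pos h1 h2)

theorem exists_B {α β : ℝ} (hα : 0 < α) (hαβ : α < β) (hβ : β ≤ 1) :
    ∃ B : ℝ → ℝ, ContDiff ℝ ∞ B ∧ (∀ s, 0 ≤ B s) ∧ IsP (fun s => B s ^ 2) α β ∧
      (∀ s, s ≤ α ^ 2 → B s = 0) ∧ (∀ s, β ^ 2 ≤ s → B s = 0) ∧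
      ∀ s, α ^ 2 < s → s < β ^ 2 → 0 < B s := by
  have h2 : α ^ 2 < β ^ 2 := pow_lt_pow_left₀ hαβ hα.le (by norm_num)
  have hm1 : (α ^ 2 + β ^ 2) / 2 ≤ 1 := by
    have : β ^ 2 ≤ 1 := pow_le_one₀ (by linarith) hβ
    linarith
  have hI : 0 < II (fun s => bb (α ^ 2) (β ^ 2) s ^ 2) :=
    II_pos ((bb_contDiff _ _).continuous.pow 2) (fun s => by positivity) (s := (α ^ 2 + β ^ 2) / 2)
      (by positivity) hm1 (pow_pos (bb_pos (by linarith) (by linarith)) 2)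
  set J := II (fun s => bb (α ^ 2) (β ^ 2) s ^ 2) with hJ
  have hs : 0 < Real.sqrt J⁻¹ := Real.sqrt_pos.2 (inv_pos.2 hI)
  have hlo : ∀ s, s ≤ α ^ 2 → Real.sqrt J⁻¹ * bb (α ^ 2) (β ^ 2) s = 0 := fun s hs => by
    rw [bb_lo hs, mul_zero]
  have hhi : ∀ s, β ^ 2 ≤ s → Real.sqrt J⁻¹ * bb (α ^ 2) (β ^ 2) s = 0 := fun s hs => by
    rw [bb_hi hs, mul_zero]
  have hsm : ContDiff ℝ ∞ (fun s => Real.sqrt J⁻¹ * bb (α ^ 2) (β ^ 2) s) :=
    contDiff_const.mul (bb_contDiff _ _)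
  refine ⟨fun s => Real.sqrt J⁻¹ * bb (α ^ 2) (β ^ 2) s, hsm,
    fun s => mul_nonneg hs.le (bb_nonneg _ _ _), ⟨hsm.pow 2, fun s => by positivity,
      fun s hs => ?_, fun s hs => ?_, ?_⟩, hlo, hhi, fun s h1 h2 => mul_pos hs (bb_pos h1 h2)⟩
  · simp only; rw [hlo s hs]; norm_num
  · simp only; rw [hhi s hs]; norm_num
  · have := II_sub (P := fun s => bb (α ^ 2) (β ^ 2) s ^ 2) (Q := fun s => bb (α ^ 2) (β ^ 2) s ^ 2)
      ((bb_contDiff (α ^ 2) (β ^ 2)).continuous.pow 2) ((bb_contDiff (α ^ 2) (β ^ 2)).continuous.pow 2) J⁻¹ 0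
    simp only [zero_mul, sub_zero] at this
    have e : (fun s => (Real.sqrt J⁻¹ * bb (α ^ 2) (β ^ 2) s) ^ 2) =
        fun s => J⁻¹ * bb (α ^ 2) (β ^ 2) s ^ 2 := by
      funext s
      rw [mul_pow, Real.sq_sqrt (inv_nonneg.2 hI.le)]
    rw [e, this, inv_mul_cancel₀ hI.ne']

/-- The common mass. -/
theorem mass_eq {P Q : ℝ → ℝ} {α β α' β' : ℝ} (hP : IsP P α β) (hQ : IsP Q α' β') (hα : 0 < α) (hα' : 0 < α')
    (hβ : 0 ≤ β) (hβ' : 0 ≤ β') (hβ1 : β < 1) (hβ1' : β' < 1) : ∫ x, rad P x = ∫ x, rad Q x := by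
  obtain ⟨Ψ, h1, h2, h3⟩ := pot (r := max β β') hP hQ hα hα' hβ hβ' (le_max_left _ _) (le_max_right _ _)
    (max_le hβ1.le hβ1'.le)
  have hm : max β β' < 1 := max_lt hβ1 hβ1'
  have hm0 : 0 ≤ max β β' := hβ.trans (le_max_left _ _)
  have bΨ : IsBump (Metric.ball 0 1) (rad Ψ) :=
    rad_bump h1 (s₁ := max β β' ^ 2) (pow_lt_one₀ hm0 hm (by norm_num)) h2
  have bQ : IsBump (Metric.ball 0 1) (rad Q) :=
    rad_bump hQ.smooth (s₁ := β' ^ 2) (pow_lt_one₀ hβ' hβ1' (by norm_num)) hQ.hi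
  have bl : IsBump (Metric.ball 0 1) (lap (rad Ψ)) := by
    have := IsBump.sum (n := 3) fun i => IsBump.dd (IsBump.dd bΨ (e i)) (e i)
    exact this
  simp only [h3]
  rw [integral_add (bump_integrable bQ) (bump_integrable bl), mom2 bΨ, add_zero]

theorem mass_pos {P : ℝ → ℝ} {α β : ℝ} (hP : IsP P α β) (hβ : 0 ≤ β) (hβ1 : β < 1) (s : ℝ) (hs : 0 ≤ s)
    (h : 0 < P s) : 0 < ∫ x, rad P x := by
  have bP : IsBump (Metric.ball 0 1) (rad P) :=
    rad_bump hP.smooth (s₁ := β ^ 2) (pow_lt_one₀ hβ hβ1 (by norm_num)) hP.hi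
  refine bP.1.continuous.integral_pos_of_hasCompactSupport_nonneg_nonzero bP.2.1
    (fun x => hP.nonneg _) (x := Real.sqrt s • e 0) ?_
  have hn : ‖Real.sqrt s • e 0‖ ^ 2 = s := by
    rw [norm_smul, mul_pow, Real.norm_eq_abs, sq_abs, Real.sq_sqrt hs]
    have : ‖e 0‖ = 1 := by simp [e]
    rw [this]; ring
  unfold rad
  rw [hn]
  exact h.ne'

theorem ker_of {P : ℝ → ℝ} {α β M : ℝ} (hP : IsP P α β) (hβ : 0 ≤ β) (hβ1 : β < 1) (hM : 0 < M)
    (h : ∫ x, rad P x = M) : Ker (fun x => M⁻¹ * rad P x) := by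
  refine ⟨contDiff_const.mul (rad_contDiff hP.smooth), ?_, fun y => mul_nonneg (inv_nonneg.2 hM.le) (hP.nonneg _),
    fun y => by simp [rad], ?_⟩
  · refine (tsupport_mul_subset_right.trans (tsupport_rad_subset_hi hP.hi)).trans ?_
    intro x hx
    rw [mem_closedBall_zero_iff]
    exact ((sq_le_iff hβ x).1 hx).trans hβ1.le
  · rw [integral_const_mul, h, inv_mul_cancel₀ hM.ne']

theorem supp_of {P : ℝ → ℝ} {α β M : ℝ} (hP : IsP P α β) (hα : 0 ≤ α) (hβ : 0 ≤ β) :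
    tsupport (fun x => M⁻¹ * rad P x) ⊆ {x : E | α ≤ ‖x‖ ∧ ‖x‖ ≤ β} := by
  refine (tsupport_mul_subset_right.trans (tsupport_rad_subset hP.lo hP.hi)).trans ?_
  intro x hx
  exact ⟨(le_sq_iff hα x).1 hx.1, (sq_le_iff hβ x).1 hx.2⟩

theorem supp_rad {P : ℝ → ℝ} {α β : ℝ} (hlo : ∀ s, s ≤ α ^ 2 → P s = 0) (hhi : ∀ s, β ^ 2 ≤ s → P s = 0)
    (hα : 0 ≤ α) (hβ : 0 ≤ β) : tsupport (rad P) ⊆ {x : E | α ≤ ‖x‖ ∧ ‖x‖ ≤ β} := by
  refine (tsupport_rad_subset hlo hhi).trans ?_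
  intro x hx
  exact ⟨(le_sq_iff hα x).1 hx.1, (sq_le_iff hβ x).1 hx.2⟩

theorem pos_rad {P : ℝ → ℝ} {α β : ℝ} (h : ∀ s, α ^ 2 < s → s < β ^ 2 → 0 < P s) (hα : 0 ≤ α)
    {x : E} (h1 : α < ‖x‖) (h2 : ‖x‖ < β) : 0 < rad P x :=
  h _ (pow_lt_pow_left₀ h1 hα (by norm_num)) (pow_lt_pow_left₀ h2 (norm_nonneg _) (by norm_num))

theorem potM {P Q : ℝ → ℝ} {α β α' β' r : ℝ} (M : ℝ) (hP : IsP P α β) (hQ : IsP Q α' β') (hα : 0 < α)
    (hα' : 0 < α') (hβ : 0 ≤ β) (hβ' : 0 ≤ β') (hr : β ≤ r) (hr' : β' ≤ r) (hr1 : r ≤ 1) :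
    ∃ ψ : E → ℝ, ContDiff ℝ ∞ ψ ∧ tsupport ψ ⊆ Metric.closedBall 0 r ∧
      ∀ x : E, M⁻¹ * rad P x = M⁻¹ * rad Q x + lap ψ x := by
  obtain ⟨Ψ, h1, h2, h3⟩ := pot hP hQ hα hα' hβ hβ' hr hr' hr1
  have e1 : (fun x : E => M⁻¹ * rad Ψ x) = rad (fun s => M⁻¹ * Ψ s) := rfl
  have h1' : ContDiff ℝ ∞ (fun s => M⁻¹ * Ψ s) := contDiff_const.mul h1
  refine ⟨rad (fun s => M⁻¹ * Ψ s), rad_contDiff h1', ?_, fun x => ?_⟩
  · refine (tsupport_rad_subset_hi (β := r ^ 2) fun s hs => ?_).trans ?_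
    · rw [h2 s hs, mul_zero]
    · intro x hx
      rw [mem_closedBall_zero_iff]
      exact (sq_le_iff (hβ.trans hr) x).1 hx
  · have hd : deriv (fun s => M⁻¹ * Ψ s) = fun s => M⁻¹ * deriv Ψ s := by
      funext s
      exact deriv_const_mul M⁻¹ (h1.differentiable (by simp) s)
    have hd2 : deriv (fun s => M⁻¹ * deriv Ψ s) = fun s => M⁻¹ * deriv (deriv Ψ) s := by
      funext s
      exact deriv_const_mul M⁻¹ ((deriv_contDiff h1).differentiable (by simp) s)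
    have := h3 x
    rw [lap_rad h1] at this
    rw [lap_rad h1', hd, hd2, this]
    ring

end ProfX

open ProfX in
theorem prof_proof : Stmt_Prof := by
  have hκ : ∀ ρ : ℝ, ∃ P : ℝ → ℝ, 0 < ρ → ρ ≤ 1 / 64 → IsP P (ρ / 2) ρ := by
    intro ρ
    by_cases h : 0 < ρ ∧ ρ ≤ 1 / 64
    · obtain ⟨P, hP, -⟩ := exists_P (α := ρ / 2) (β := ρ) (by linarith [h.1]) (by linarith [h.1])
        (by linarith [h.2])
      exact ⟨P, fun _ _ => hP⟩
    · exact ⟨0, fun h1 h2 => absurd ⟨h1, h2⟩ h⟩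
  choose Pκ hPκ using hκ
  obtain ⟨G0, hG0, -⟩ := exists_P (α := 17 / 64) (β := 19 / 64) (by norm_num) (by norm_num) (by norm_num)
  obtain ⟨G1, hG1, hG1p⟩ := exists_P (α := 37 / 64) (β := 39 / 64) (by norm_num) (by norm_num) (by norm_num)
  obtain ⟨B0, hB0s, hB0n, hB0P, hB0l, hB0h, hB0p⟩ := exists_B (α := 1 / 64) (β := 1 / 8) (by norm_num)
    (by norm_num) (by norm_num)
  obtain ⟨B1, hB1s, hB1n, hB1P, hB1l, hB1h, hB1p⟩ := exists_B (α := 10 / 64) (β := 26 / 64) (by norm_num)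
    (by norm_num) (by norm_num)
  obtain ⟨B2, hB2s, hB2n, hB2P, hB2l, hB2h, hB2p⟩ := exists_B (α := 29 / 64) (β := 50 / 64) (by norm_num)
    (by norm_num) (by norm_num)
  set M : ℝ := ∫ x, rad G1 x with hM
  have hM0 : 0 < M := mass_pos hG1 (by norm_num) (by norm_num) ((38 / 64) ^ 2) (by norm_num)
    (hG1p _ (by norm_num) (by norm_num))
  have hbump : ∀ Ψ : ℝ → ℝ, ContDiff ℝ ∞ Ψ → (∀ s, (50 / 64 : ℝ) ^ 2 ≤ s → Ψ s = 0) →
      IsBump (Metric.ball 0 1) (rad Ψ) := fun Ψ h1 h2 => rad_bump h1 (s₁ := (50 / 64) ^ 2) (by norm_num) h2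
  refine ⟨fun ρ x => M⁻¹ * rad (Pκ ρ) x, ![fun x => M⁻¹ * rad G0 x, fun x => M⁻¹ * rad G1 x],
    ![rad B0, rad B1, rad B2], ?_⟩
  refine
    { κker := ?_, κsupp := ?_, γker := ?_, γ0supp := ?_, γ1supp := ?_, b_smooth := ?_, b_nonneg := ?_,
      b0pos := ?_, b0supp := ?_, b1pos := ?_, b1supp := ?_, b2pos := ?_, b2supp := ?_, potκ := ?_,
      potγ := ?_, potb := ?_ }
  · intro ρ h0 h1
    exact ker_of (hPκ ρ h0 h1) h0.le (by linarith) hM0 (mass_eq (hPκ ρ h0 h1) hG1 (by linarith) (by norm_num)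
      h0.le (by norm_num) (by linarith) (by norm_num))
  · intro ρ h0 h1
    refine (supp_of (hPκ ρ h0 h1) (by linarith) h0.le).trans ?_
    intro x hx
    rw [mem_closedBall_zero_iff]
    exact hx.2
  · intro i
    fin_cases i
    · exact ker_of hG0 (by norm_num) (by norm_num) hM0 (mass_eq hG0 hG1 (by norm_num) (by norm_num)
        (by norm_num) (by norm_num) (by norm_num) (by norm_num))
    · exact ker_of hG1 (by norm_num) (by norm_num) hM0 rfl
  · refine (supp_of (M := M) hG0 (by norm_num) (by norm_num)).trans ?_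
    intro x hx
    exact ⟨by linarith [hx.1], by linarith [hx.2]⟩
  · refine (supp_of (M := M) hG1 (by norm_num) (by norm_num)).trans ?_
    intro x hx
    exact ⟨by linarith [hx.1], by linarith [hx.2]⟩
  · intro i
    fin_cases i
    · exact rad_contDiff hB0s
    · exact rad_contDiff hB1s
    · exact rad_contDiff hB2s
  · intro i x
    fin_cases i
    · exact hB0n _
    · exact hB1n _
    · exact hB2n _
  · intro x h1 h2
    exact pos_rad hB0p (by norm_num) (by linarith) (by linarith)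
  · refine (supp_rad hB0l hB0h (by norm_num) (by norm_num)).trans ?_
    intro x hx
    exact hx.2
  · intro x h1 h2
    exact pos_rad hB1p (by norm_num) (by linarith) (by linarith)
  · exact supp_rad hB1l hB1h (by norm_num) (by norm_num)
  · intro x h1 h2
    exact pos_rad hB2p (by norm_num) (by linarith) (by linarith)
  · exact supp_rad hB2l hB2h (by norm_num) (by norm_num)
  · intro ρ h0 h1
    exact potM M (hPκ ρ h0 h1) hG1 (by linarith) (by norm_num) h0.le (by norm_num) (by linarith)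
      (by norm_num) (by norm_num)
  · exact potM M hG0 hG1 (by norm_num) (by norm_num) (by norm_num) (by norm_num) (by norm_num)
      (by norm_num) (by norm_num)
  · intro i
    fin_cases i
    · obtain ⟨Ψ, h1, h2, h3⟩ := pot (r := 50 / 64) hB0P hB2P (by norm_num) (by norm_num) (by norm_num)
        (by norm_num) (by norm_num) (by norm_num) (by norm_num)
      exact ⟨rad Ψ, hbump Ψ h1 h2, h3⟩
    · obtain ⟨Ψ, h1, h2, h3⟩ := pot (r := 50 / 64) hB1P hB2P (by norm_num) (by norm_num) (by norm_num)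
        (by norm_num) (by norm_num) (by norm_num) (by norm_num)
      exact ⟨rad Ψ, hbump Ψ h1 h2, h3⟩
    · obtain ⟨Ψ, h1, h2, h3⟩ := pot (r := 50 / 64) hB2P hB2P (by norm_num) (by norm_num) (by norm_num)
        (by norm_num) (by norm_num) (by norm_num) (by norm_num)
      exact ⟨rad Ψ, hbump Ψ h1 h2, h3⟩

end Pool.Agent.NSN
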