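import Pool.Agent.NSN.RLib

/-!
# MP_fd8964_an, critical net: module Sweep
-/

set_option autoImplicit false

open MeasureTheory Set Filter Topology
open scoped RealInnerProductSpace ContDiff Manifold

noncomputable section

namespace Pool.Agent.NSN

open Pool.Agent.NSD Pool.Agent.NSK

namespace SweepX

open RLib

/-- a finite net, scale free. -/
lemma net (K r : ℝ) (hr : 0 < r) : ∃ t : Finset E, Metric.closedBall (0 : E) K ⊆
    ⋃ c ∈ t, Metric.ball c r := by
  obtain ⟨t, -, hfin, hcov⟩ := (isCompact_closedBall (0 : E) K).finite_cover_balls hr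
  refine ⟨hfin.toFinset, hcov.trans ?_⟩
  intro x hx
  simp only [mem_iUnion, exists_prop, Set.Finite.mem_toFinset] at hx ⊢
  exact hx

/-- smooth decomposition of a function. -/
lemma decomp {ι : Type} [Fintype ι] {f : E → ℝ} (hf : ContDiff ℝ ∞ f) {B : ι → Set E}
    (hB : ∀ i, IsOpen (B i)) (hcov : tsupport f ⊆ ⋃ i, B i) {d : ℝ} (hd : ∀ x, |f x| ≤ d) :
    ∃ F : ι → E → ℝ, (∀ i, ContDiff ℝ ∞ (F i)) ∧ (∀ i, tsupport (F i) ⊆ B i) ∧
      (∀ i, tsupport (F i) ⊆ tsupport f) ∧ (∀ i x, |F i x| ≤ d) ∧ ∀ x, f x = ∑ i, F i x := by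
  obtain ⟨ρ, hρ⟩ := SmoothPartitionOfUnity.exists_isSubordinate 𝓘(ℝ, E) (isClosed_tsupport f) B hB
    hcov
  refine ⟨fun i x => ρ i x * f x, fun i => ?_, fun i => ?_, fun i => ?_, fun i x => ?_,
    fun x => ?_⟩
  · exact ((ρ i).contMDiff.contDiff).mul hf
  · exact (tsupport_mul_subset_left).trans (hρ i)
  · exact tsupport_mul_subset_right
  · rw [abs_mul, abs_of_nonneg (ρ.nonneg i x)]
    have h1 := ρ.le_one i x
    calc ρ i x * |f x| ≤ 1 * |f x| := mul_le_mul_of_nonneg_right h1 (abs_nonneg _)
      _ ≤ d := by rw [one_mul]; exact hd x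
  · simp only
    rw [← Finset.sum_mul]
    by_cases hx : x ∈ tsupport f
    · have h1 := ρ.sum_eq_one hx
      rw [finsum_eq_sum_of_fintype] at h1
      rw [h1, one_mul]
    · rw [image_eq_zero_of_notMem_tsupport hx, mul_zero]

end SweepX

open RLib in
theorem sweep_proof (hP : Stmt_Piece) : Stmt_Sweep := by
  obtain ⟨g, hg, C, r, hC, hr, hP⟩ := hP
  refine ⟨g, hg, fun K hK => ?_⟩
  have hr1 : 0 < min r 1 / 4 := by positivity
  obtain ⟨t, ht⟩ := SweepX.net K (min r 1 / 4) hr1
  refine ⟨(t.card + 1) * C, by positivity, ?_⟩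
  intro Ω U η z δ f d ζ δ' hΩ hb hη hδ hU hin hf hsupp hd hfd hζ hδ'
  have hε : 0 < δ / 4 := by positivity
  -- the cover
  have hcov : tsupport f ⊆ ⋃ c : t, Metric.ball (z + δ • (c : E)) (min r 1 * (δ / 4)) := by
    intro x hx
    have h1 : δ⁻¹ • (x - z) ∈ Metric.closedBall (0 : E) K := by
      have h2 := hU (hsupp hx)
      rw [Metric.mem_ball, dist_eq_norm] at h2
      rw [mem_closedBall_zero_iff, norm_smul, norm_inv, Real.norm_of_nonneg hδ.le]
      rw [inv_mul_le_iff₀ hδ]
      linarith
    have h3 := ht h1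
    simp only [mem_iUnion, exists_prop] at h3
    obtain ⟨c, hc, hxc⟩ := h3
    refine mem_iUnion.mpr ⟨⟨c, hc⟩, ?_⟩
    rw [Metric.mem_ball, dist_eq_norm] at hxc ⊢
    have h4 : x - (z + δ • c) = δ • (δ⁻¹ • (x - z) - c) := by
      rw [smul_sub, smul_inv_smul₀ hδ.ne']
      abel
    change ‖x - (z + δ • c)‖ < _
    rw [h4, norm_smul, Real.norm_of_nonneg hδ.le]
    calc δ * ‖δ⁻¹ • (x - z) - c‖ < δ * (min r 1 / 4) := mul_lt_mul_of_pos_left hxc hδ
      _ = min r 1 * (δ / 4) := by ring
  obtain ⟨F, hF, hFB, hFf, hFd, hsum⟩ := SweepX.decomp hf (fun _ => Metric.isOpen_ball) hcov hfd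
  have hδn : 0 < δ' / (t.card + 1) := by positivity
  have hone : ∀ c : t, ∃ h : E → ℝ, Continuous h ∧ (∀ x, |h x| ≤ δ' / (t.card + 1)) ∧
      Realize Ω η (fun φ => PX (fun x => F c x + h x - cv (sc (δ / 4) g) (F c) x) ζ φ)
        (C * Real.sqrt (η * d)) := by
    intro c
    by_cases hne : (tsupport (F c)).Nonempty
    · obtain ⟨x, hx⟩ := hne
      refine hP Ω η (z + δ • (c : E)) (δ / 4) (F c) d ζ (δ' / (t.card + 1)) hΩ hb hη hε ?_ (hF c) ?_
        hd (hFd c) hζ hδn
      · intro y hy
        have h1 := hFB c hx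
        have h2 := hin x (hsupp (hFf c hx))
        apply h2
        rw [Metric.mem_ball] at h1 hy ⊢
        have h3 : min r 1 * (δ / 4) ≤ δ / 4 := by
          calc min r 1 * (δ / 4) ≤ 1 * (δ / 4) :=
                mul_le_mul_of_nonneg_right (min_le_right _ _) hε.le
            _ = δ / 4 := one_mul _
        have h4 := dist_triangle_right y x (z + δ • (c : E))
        linarith
      · refine (hFB c).trans (Metric.ball_subset_ball ?_)
        exact mul_le_mul_of_nonneg_right (min_le_left _ _) hε.le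
    · have h0 : F c = fun _ => 0 := by
        funext x
        apply image_eq_zero_of_notMem_tsupport
        intro hx
        exact hne ⟨x, hx⟩
      refine ⟨fun _ => 0, continuous_const, fun x => by simpa using hδn.le, ?_⟩
      refine realize_of_zero (fun φ => ?_) (by positivity)
      have : (fun x => F c x + 0 - cv (sc (δ / 4) g) (F c) x) = fun _ => (0 : ℝ) := by
        funext x
        rw [h0, cv_zero]
        ring
      rw [this, PX_zero]
  choose h hhc hhb hhR using hone
  have hgs : ContDiff ℝ ∞ (sc (δ / 4) g) := sc_smooth hg.smooth _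
  have hgc : HasCompactSupport (sc (δ / 4) g) := sc_compact (ker_compact hg) hε
  refine ⟨fun x => ∑ c, h c x, continuous_finsetSum _ fun c _ => hhc c, fun x => ?_, ?_⟩
  · refine (Finset.abs_sum_le_sum_abs _ _).trans ?_
    refine (Finset.sum_le_sum fun c _ => hhb c x).trans ?_
    rw [Finset.sum_const, nsmul_eq_mul]
    have h1 : ((Finset.univ : Finset t).card : ℝ) = t.card := by simp
    rw [h1, mul_div_assoc', div_le_iff₀ (by positivity)]
    nlinarith
  · have hR := realize_sum (Finset.univ : Finset t) fun c _ => hhR c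
    refine realize_mono (realize_congr hR fun φ => ?_) ?_
    · rw [← PX_sum hΩ hb Finset.univ]
      · congr 1
        funext x
        have e1 : cv (sc (δ / 4) g) f x = ∑ c, cv (sc (δ / 4) g) (F c) x := by
          have : f = fun y => ∑ c, F c y := funext hsum
          conv_lhs => rw [this]
          exact cv_sum Finset.univ hgs.continuous hgc (fun c => (hF c).continuous) x
        rw [e1, hsum x, ← Finset.sum_add_distrib, ← Finset.sum_sub_distrib]
      · intro c
        exact ((hF c).continuous.add (hhc c)).sub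
          (cv_continuous hgs.continuous hgc (hF c).continuous)
    · rw [Finset.sum_const, nsmul_eq_mul]
      have h1 : ((Finset.univ : Finset t).card : ℝ) = t.card := by simp
      rw [h1]
      have h2 : 0 ≤ C * Real.sqrt (η * d) := by positivity
      nlinarith

end Pool.Agent.NSN
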