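import Pool.Agent.NSN.Net
import Pool.Agent.NSK.Weak
import Pool.Agent.NSK.KLimit
import Pool.Agent.NSK.PairXi
import Pool.Agent.NSK.Wave

/-!
# MP_fd8964_an, the critical net: module WT (the wave field is the divergence of a bounded symmetric stress)
-/

open MeasureTheory Set Filter Topology
open scoped RealInnerProductSpace ContDiff

noncomputable section

namespace Pool.Agent.NSN

open Pool.Agent.NSD Pool.Agent.NSK

namespace WaveT

variable {Ω : Set E}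

/-- `ζ·∂_v φ`. -/
def bf (v ζ : E) (φ : V Ω) (x : E) : ℝ := ∑ i : Fin 3, v i * ⟪ζ, (grd φ : E → G) x i⟫

theorem bf_abs_le {v ζ : E} (hv : ‖v‖ = 1) (hζ : ‖ζ‖ = 1) (φ : V Ω) (x : E) :
    |bf v ζ φ x| ≤ 3 * ‖(grd φ : E → G) x‖ := Weak.aux_bound v ζ hv hζ _

theorem bf_int (hb : Bornology.IsBounded Ω) {v ζ : E} (hv : ‖v‖ = 1) (hζ : ‖ζ‖ = 1) (φ : V Ω) :
    Integrable (bf v ζ φ) (volume.restrict Ω) := by
  have := Weak.finiteMeasure hb
  exact Weak.aux_integrable hv hζ φ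

theorem int_fld_le (hb : Bornology.IsBounded Ω) : ∃ c : ℝ, 0 ≤ c ∧
    ∀ φ : V Ω, ∫ x in Ω, ‖(fld φ : E → E) x‖ ≤ c * ‖φ‖ := by
  have := Weak.finiteMeasure hb
  refine ⟨(volume.restrict Ω univ ^ (1 / 2 : ℝ)).toReal, ENNReal.toReal_nonneg, fun φ => ?_⟩
  have h1 := eLpNorm_le_eLpNorm_mul_rpow_measure_univ (μ := volume.restrict Ω) (p := 1) (q := 2)
    (f := (fld φ : E → E)) (by norm_num) (Lp.aestronglyMeasurable (fld φ))
  have h2 : (volume.restrict Ω) univ ≠ ⊤ := measure_ne_top _ _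
  have h3 : ∫ x in Ω, ‖(fld φ : E → E) x‖ = (eLpNorm (fld φ : E → E) 1 (volume.restrict Ω)).toReal := by
    rw [eLpNorm_one_eq_lintegral_enorm, integral_norm_eq_lintegral_enorm (Lp.aestronglyMeasurable (fld φ))]
  have h4 : ‖fld φ‖ ≤ ‖φ‖ := by
    have := WithLp.prod_norm_eq_of_L2 (φ : H1 Ω)
    have h5 : ‖φ‖ = ‖(φ : H1 Ω)‖ := rfl
    rw [h5, this]
    exact Real.le_sqrt_of_sq_le (by have := sq_nonneg ‖(φ : H1 Ω).snd‖; unfold fld; linarith)
  rw [h3]
  have h6 : eLpNorm (fld φ : E → E) 2 (volume.restrict Ω) ≠ ⊤ := (Lp.memLp (fld φ)).2.ne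
  calc (eLpNorm (fld φ : E → E) 1 (volume.restrict Ω)).toReal
      ≤ (eLpNorm (fld φ : E → E) 2 (volume.restrict Ω)
        * (volume.restrict Ω) univ ^ (1 / 2 : ℝ)).toReal := by
        refine ENNReal.toReal_mono (ENNReal.mul_ne_top h6 (ENNReal.rpow_ne_top_of_nonneg (by norm_num) h2)) ?_
        refine h1.trans (le_of_eq ?_)
        norm_num
    _ = ‖fld φ‖ * ((volume.restrict Ω) univ ^ (1 / 2 : ℝ)).toReal := by
        rw [ENNReal.toReal_mul]; rfl
    _ ≤ ((volume.restrict Ω) univ ^ (1 / 2 : ℝ)).toReal * ‖φ‖ := by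
        rw [mul_comm]
        exact mul_le_mul_of_nonneg_left h4 ENNReal.toReal_nonneg

/-- Oscillatory integrals are `O(1/N)`. -/
theorem osc (hΩ : IsOpen Ω) (hb : Bornology.IsBounded Ω) {k : E} (hk : ‖k‖ = 1) {b : E → ℝ} (hbb : IsBump Ω b) :
    ∃ C : ℝ, 0 ≤ C ∧ ∀ N : ℝ, 1 ≤ N → ∀ φ : V Ω,
      |∫ x in Ω, (Real.sin (N * ⟪k, x⟫) * b x) * ⟪k, (fld φ : E → E) x⟫| ≤ C / N * ‖φ‖ := by
  have hfin := Weak.finiteMeasure hb
  obtain ⟨c1, hc1, hc1'⟩ := int_fld_le hb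
  obtain ⟨c2, hc2, hc2'⟩ := Weak.int_norm_le (Ω := Ω)
  obtain ⟨A, hA, hA'⟩ := Weak.bump_bound hbb
  obtain ⟨B, hB, hB'⟩ := Weak.bump_bound (Weak.isBump_dd hbb k)
  refine ⟨B * c1 + A * 3 * c2, by positivity, fun N hN φ => ?_⟩
  have hN0 : 0 < N := by linarith
  -- the function `h = cos b`
  set h : E → ℝ := fun x => Real.cos (N * ⟪k, x⟫) * b x with hh
  have hhb : IsBump Ω h := by
    refine ⟨?_, ?_, ?_⟩
    · exact (Real.contDiff_cos.comp (contDiff_const.mul (contDiff_const.inner ℝ contDiff_id))).mul hbb.1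
    · exact hbb.2.1.mul_left
    · exact tsupport_mul_subset_right.trans hbb.2.2
  have hdd : ∀ x, dd k h x = Real.cos (N * ⟪k, x⟫) * dd k b x - N * (Real.sin (N * ⟪k, x⟫) * b x) := by
    intro x
    have h1 : HasFDerivAt b (fderiv ℝ b x) x := (hbb.1.differentiable (by simp) x).hasFDerivAt
    have h2 : HasFDerivAt (fun y => Real.cos (N * ⟪k, y⟫) * b y) _ x := (hasFDerivAt_cos N k x).mul h1
    unfold dd
    rw [hh, h2.fderiv]
    simp only [add_apply, smul_apply, innerSL_apply_apply, smul_eq_mul]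
    rw [real_inner_self_eq_norm_sq, hk]
    ring
  have hP := pairXi_proof Ω hΩ hb h k k hhb φ
  simp_rw [hdd] at hP
  have i1 : Integrable (fun x => (Real.cos (N * ⟪k, x⟫) * dd k b x) * ⟪k, (fld φ : E → E) x⟫)
      (volume.restrict Ω) := by
    have hb2 := Weak.isBump_dd hbb k
    refine Weak.mul_integrable ?_ ?_ ((Weak.fld_integrable φ).const_inner k)
    · have := hb2.1.continuous
      fun_prop
    · exact hb2.2.1.mul_left
  have i2 : Integrable (fun x => (Real.sin (N * ⟪k, x⟫) * b x) * ⟪k, (fld φ : E → E) x⟫)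
      (volume.restrict Ω) := by
    refine Weak.mul_integrable ?_ ?_ ((Weak.fld_integrable φ).const_inner k)
    · have := hbb.1.continuous
      fun_prop
    · exact hbb.2.1.mul_left
  have h3 : ∀ x, (Real.cos (N * ⟪k, x⟫) * dd k b x - N * (Real.sin (N * ⟪k, x⟫) * b x))
      * ⟪k, (fld φ : E → E) x⟫ = (Real.cos (N * ⟪k, x⟫) * dd k b x) * ⟪k, (fld φ : E → E) x⟫
        - N * ((Real.sin (N * ⟪k, x⟫) * b x) * ⟪k, (fld φ : E → E) x⟫) := by
    intro x; ring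
  simp_rw [h3] at hP
  rw [integral_sub i1 (i2.const_mul N), integral_const_mul] at hP
  set I := ∫ x in Ω, (Real.sin (N * ⟪k, x⟫) * b x) * ⟪k, (fld φ : E → E) x⟫ with hI
  set J := ∫ x in Ω, (Real.cos (N * ⟪k, x⟫) * dd k b x) * ⟪k, (fld φ : E → E) x⟫ with hJ
  set K := ∫ x in Ω, h x * ∑ i : Fin 3, k i * ⟪k, (grd φ : E → G) x i⟫ with hK
  have hJb : |J| ≤ B * (c1 * ‖φ‖) := by
    rw [← Real.norm_eq_abs]
    refine (norm_integral_le_of_norm_le ((Weak.fld_integrable φ).norm.const_mul B)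
      (Eventually.of_forall fun x => ?_)).trans ?_
    · rw [norm_mul, norm_mul]
      have e1 : ‖Real.cos (N * ⟪k, x⟫)‖ ≤ 1 := Real.abs_cos_le_one _
      have e2 : ‖dd k b x‖ ≤ B := hB' x
      have e3 : ‖⟪k, (fld φ : E → E) x⟫‖ ≤ ‖(fld φ : E → E) x‖ := by
        have := norm_inner_le_norm (𝕜 := ℝ) k ((fld φ : E → E) x)
        rwa [hk, one_mul] at this
      calc _ ≤ (1 * B) * ‖(fld φ : E → E) x‖ :=
            mul_le_mul (mul_le_mul e1 e2 (norm_nonneg _) zero_le_one) e3 (norm_nonneg _) (by linarith)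
        _ = _ := by ring
    · rw [integral_const_mul]
      exact mul_le_mul_of_nonneg_left (hc1' φ) hB
  have hKb : |K| ≤ A * 3 * (c2 * ‖φ‖) := by
    rw [← Real.norm_eq_abs]
    refine (norm_integral_le_of_norm_le ((Weak.grd_integrable φ).norm.const_mul (A * 3))
      (Eventually.of_forall fun x => ?_)).trans ?_
    · rw [norm_mul]
      have e1 : ‖h x‖ ≤ A := by
        rw [hh]
        simp only [norm_mul]
        calc ‖Real.cos (N * ⟪k, x⟫)‖ * ‖b x‖ ≤ 1 * A :=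
              mul_le_mul (Real.abs_cos_le_one _) (hA' x) (norm_nonneg _) zero_le_one
          _ = A := one_mul _
      have e2 : ‖∑ i : Fin 3, k i * ⟪k, (grd φ : E → G) x i⟫‖ ≤ 3 * ‖(grd φ : E → G) x‖ :=
        bf_abs_le hk hk φ x
      calc _ ≤ A * (3 * ‖(grd φ : E → G) x‖) := mul_le_mul e1 e2 (norm_nonneg _) hA
        _ = _ := by ring
    · rw [integral_const_mul]
      exact mul_le_mul_of_nonneg_left (hc2' φ) (by positivity)
  have h4 : N * I = J + K := by linarith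
  have h5 : |N * I| ≤ (B * c1 + A * 3 * c2) * ‖φ‖ := by
    rw [h4]
    calc |J + K| ≤ |J| + |K| := abs_add_le _ _
      _ ≤ B * (c1 * ‖φ‖) + A * 3 * (c2 * ‖φ‖) := add_le_add hJb hKb
      _ = _ := by ring
  rw [abs_mul, abs_of_pos hN0] at h5
  rw [div_mul_eq_mul_div, le_div_iff₀ hN0, mul_comm]
  exact h5

theorem dd_gS (N : ℝ) {k ξ : E} (hkξ : ⟪k, ξ⟫ = 0) {a : E → ℝ} (ha : ContDiff ℝ ∞ a) (x : E) :
    dd ξ (gS N k a) x = Real.sin (N * ⟪k, x⟫) * dd ξ a x := by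
  have h1 : HasFDerivAt a (fderiv ℝ a x) x := (ha.differentiable (by simp) x).hasFDerivAt
  have h2 : HasFDerivAt (fun y => Real.sin (N * ⟪k, y⟫) * a y) _ x := (hasFDerivAt_sin N k x).mul h1
  have h3 : gS N k a = fun y => Real.sin (N * ⟪k, y⟫) * a y := rfl
  unfold dd
  rw [h3, h2.fderiv]
  simp only [add_apply, smul_apply, innerSL_apply_apply, smul_eq_mul, hkξ]
  ring

/-- The symmetrised pairing. -/
theorem wave_one (hΩ : IsOpen Ω) (hb : Bornology.IsBounded Ω) {k ξ : E} (hk : ‖k‖ = 1) (hξ : ‖ξ‖ = 1)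
    (hkξ : ⟪k, ξ⟫ = 0) {a : E → ℝ} (ha : IsBump Ω a) :
    ∃ C : ℝ, 0 ≤ C ∧ ∀ N : ℝ, 1 ≤ N → ∀ φ : V Ω,
      |(∫ x in Ω, ⟪stream k ξ (gS N k a) x, (fld φ : E → E) x⟫)
        - ∫ x in Ω, - gS N k a x * (bf k ξ φ x + bf ξ k φ x)| ≤ C / N * ‖φ‖ := by
  obtain ⟨C, hC, hC'⟩ := osc hΩ hb hk (Weak.isBump_dd ha ξ)
  refine ⟨2 * C, by positivity, fun N hN φ => ?_⟩
  have hg : IsBump Ω (gS N k a) := Weak.isBump_gS ha
  have h1 := Weak.pair_stream pairXi_proof hΩ hb hk hξ hg φ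
  have h2 := pairXi_proof Ω hΩ hb (gS N k a) ξ k hg φ
  simp_rw [dd_gS N hkξ ha.1] at h2
  have h3 := hC' N hN φ
  have i1 : Integrable (fun x => gS N k a x * bf k ξ φ x) (volume.restrict Ω) :=
    Weak.mul_integrable hg.1.continuous hg.2.1 (bf_int hb hk hξ φ)
  have i2 : Integrable (fun x => gS N k a x * bf ξ k φ x) (volume.restrict Ω) :=
    Weak.mul_integrable hg.1.continuous hg.2.1 (bf_int hb hξ hk φ)
  have h4 : ∫ x in Ω, gS N k a x * Weak.Fm k ξ φ x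
      = (∫ x in Ω, gS N k a x * bf k ξ φ x) - ∫ x in Ω, gS N k a x * bf ξ k φ x := by
    rw [← integral_sub i1 i2]
    refine integral_congr_ae (Eventually.of_forall fun x => ?_)
    simp only [Weak.Fm, bf]
    ring
  have h5 : ∫ x in Ω, - gS N k a x * (bf k ξ φ x + bf ξ k φ x)
      = -(∫ x in Ω, gS N k a x * bf k ξ φ x) - ∫ x in Ω, gS N k a x * bf ξ k φ x := by
    have i1' : Integrable (fun x => -(gS N k a x * bf k ξ φ x)) (volume.restrict Ω) := i1.neg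
    rw [← integral_neg, ← integral_sub i1' i2]
    refine integral_congr_ae (Eventually.of_forall fun x => ?_)
    simp only
    ring
  have h6 : ∫ x in Ω, gS N k a x * bf ξ k φ x
      = - ∫ x in Ω, (Real.sin (N * ⟪k, x⟫) * dd ξ a x) * ⟪k, (fld φ : E → E) x⟫ := by
    rw [h2, neg_neg]
    rfl
  rw [h1, h4, h5]
  have h7 : (-((∫ x in Ω, gS N k a x * bf k ξ φ x) - ∫ x in Ω, gS N k a x * bf ξ k φ x))
      - (-(∫ x in Ω, gS N k a x * bf k ξ φ x) - ∫ x in Ω, gS N k a x * bf ξ k φ x)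
      = 2 * ∫ x in Ω, gS N k a x * bf ξ k φ x := by ring
  rw [h7, h6, abs_mul, abs_neg, abs_two]
  calc _ ≤ 2 * (C / N * ‖φ‖) := mul_le_mul_of_nonneg_left h3 (by norm_num)
    _ = _ := by ring

/-! ### Six directions -/

/-- The coefficients. -/
def M (k ξ : E) (i l : Fin 3) : ℝ := k i * ξ l + ξ i * k l

/-- The six coefficients of the symmetric matrix `M`. -/
def m6 (k ξ : E) : Fin 6 → ℝ :=
  ![M k ξ 0 0 - M k ξ 0 1 - M k ξ 2 0, M k ξ 1 1 - M k ξ 0 1 - M k ξ 1 2, M k ξ 2 2 - M k ξ 1 2 - M k ξ 2 0,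
    2 * M k ξ 0 1, 2 * M k ξ 1 2, 2 * M k ξ 2 0]

theorem abs_M_le {k ξ : E} (hk : ‖k‖ = 1) (hξ : ‖ξ‖ = 1) (i l : Fin 3) : |M k ξ i l| ≤ 2 := by
  have h1 : ∀ (u : E), ‖u‖ = 1 → ∀ j, |u j| ≤ 1 := by
    intro u hu j
    have := PiLp.norm_apply_le u j
    rw [Real.norm_eq_abs] at this
    linarith
  have a1 := h1 k hk i
  have a2 := h1 k hk l
  have a3 := h1 ξ hξ i
  have a4 := h1 ξ hξ l
  unfold M
  calc |k i * ξ l + ξ i * k l| ≤ |k i * ξ l| + |ξ i * k l| := abs_add_le _ _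
    _ = |k i| * |ξ l| + |ξ i| * |k l| := by rw [abs_mul, abs_mul]
    _ ≤ 1 * 1 + 1 * 1 := add_le_add (mul_le_mul a1 a4 (abs_nonneg _) zero_le_one)
        (mul_le_mul a3 a2 (abs_nonneg _) zero_le_one)
    _ = 2 := by norm_num

theorem abs_m6_le {k ξ : E} (hk : ‖k‖ = 1) (hξ : ‖ξ‖ = 1) (i : Fin 6) : |m6 k ξ i| ≤ 6 := by
  have h := fun i l => abs_le.1 (abs_M_le hk hξ i l)
  have h00 := h 0 0
  have h11 := h 1 1
  have h22 := h 2 2
  have h01 := h 0 1
  have h12 := h 1 2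
  have h20 := h 2 0
  rw [abs_le]
  fin_cases i <;> simp [m6] <;> constructor <;> linarith

theorem rt_sq : rt * rt = 1 / 2 := by
  unfold rt
  rw [← mul_inv, Real.mul_self_sqrt (by norm_num)]
  norm_num

theorem six (k ξ : E) (φ : V Ω) (x : E) :
    bf k ξ φ x + bf ξ k φ x = ∑ i, m6 k ξ i * KLimit.qf φ (ζ6 i) x := by
  have hbf : ∀ (v ζ : E), bf v ζ φ x = ∑ i : Fin 3, ∑ l : Fin 3, v i * ζ l * KLimit.gc φ i l x := by
    intro v ζ
    simp only [bf, KLimit.inner_eq_sum, KLimit.gc, Finset.mul_sum, mul_assoc]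
  have e0 : ∀ i j : Fin 3, e i j = if j = i then 1 else 0 := KLimit.e_apply
  rw [hbf, hbf]
  simp only [KLimit.qf_eq, Fin.sum_univ_succ, Fin.sum_univ_zero, m6, ζ6, M]
  simp [e0]
  rw [rt_sq]
  ring

/-! ### The sum of the waves -/

theorem waveT_aux (hΩ : IsOpen Ω) (hb : Bornology.IsBounded Ω) {η : ℝ} (κ : KickD Ω η) :
    ∃ C : ℝ, 0 ≤ C ∧ ∀ N : ℝ, 1 ≤ N → ∃ t : Fin 6 → E → ℝ, (∀ i, ContDiff ℝ ∞ (t i)) ∧
      (∀ i x, |t i x| ≤ 6 * κ.amp x) ∧ ∀ φ : V Ω,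
        |(∫ x in Ω, ⟪waveA N κ.a κ.k κ.ξ x, (fld φ : E → E) x⟫) - ∑ i, PX (t i) (ζ6 i) φ| ≤ C / N * ‖φ‖ := by
  have hfin := Weak.finiteMeasure hb
  have hK := κ.kick
  choose C hC0 hC using fun m => wave_one hΩ hb (hK.k_unit m) (hK.ξ_unit m) (hK.orth m) (hK.bump m)
  refine ⟨∑ m, C m, Finset.sum_nonneg fun m _ => hC0 m, fun N hN => ?_⟩
  have hg : ∀ m, IsBump Ω (gS N (κ.k m) (κ.a m)) := fun m => Weak.isBump_gS (hK.bump m)
  refine ⟨fun i x => ∑ m, - (m6 (κ.k m) (κ.ξ m) i * gS N (κ.k m) (κ.a m) x), ?_, ?_, ?_⟩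
  · intro i
    exact ContDiff.sum fun m _ => (contDiff_const.mul (hg m).1).neg
  · intro i x
    refine (Finset.abs_sum_le_sum_abs _ _).trans ?_
    unfold KickD.amp
    rw [Finset.mul_sum]
    refine Finset.sum_le_sum fun m _ => ?_
    rw [abs_neg, abs_mul]
    refine mul_le_mul (abs_m6_le (hK.k_unit m) (hK.ξ_unit m) i) ?_ (abs_nonneg _) (by norm_num)
    unfold gS
    rw [abs_mul]
    calc |Real.sin (N * ⟪κ.k m, x⟫)| * |κ.a m x| ≤ 1 * |κ.a m x| :=
          mul_le_mul_of_nonneg_right (Real.abs_sin_le_one _) (abs_nonneg _)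
      _ = |κ.a m x| := one_mul _
  · intro φ
    -- the left integral
    have h2 : ∀ m, Integrable (fun x => ⟪stream (κ.k m) (κ.ξ m) (gS N (κ.k m) (κ.a m)) x, (fld φ : E → E) x⟫)
        (volume.restrict Ω) := by
      intro m
      have ht := Weak.isTest_stream (k := κ.k m) (ξ := κ.ξ m) (hg m)
      obtain ⟨A, hA⟩ := ht.smooth.continuous.bounded_above_of_compact_support ht.compact
      refine Integrable.mono' ((Weak.fld_integrable φ).norm.const_mul A)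
        (ht.smooth.continuous.aestronglyMeasurable.inner (Weak.fld_integrable φ).1) ?_
      refine Filter.Eventually.of_forall fun x => ?_
      exact (norm_inner_le_norm _ _).trans (mul_le_mul_of_nonneg_right (hA x) (norm_nonneg _))
    have h3 : ∫ x in Ω, ⟪waveA N κ.a κ.k κ.ξ x, (fld φ : E → E) x⟫
        = ∑ m, ∫ x in Ω, ⟪stream (κ.k m) (κ.ξ m) (gS N (κ.k m) (κ.a m)) x, (fld φ : E → E) x⟫ := by
      rw [← integral_finsetSum _ fun m _ => h2 m]
      refine integral_congr_ae (Filter.Eventually.of_forall fun x => ?_)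
      simp only [waveA]
      rw [sum_inner]
    -- the right integral
    have h4 : ∀ i m, Integrable (fun x => - (m6 (κ.k m) (κ.ξ m) i * gS N (κ.k m) (κ.a m) x)
        * KLimit.qf φ (ζ6 i) x) (volume.restrict Ω) := by
      intro i m
      refine Weak.mul_integrable ?_ ?_ (KLimit.intg_qf hb φ (ζ6 i))
      · exact ((continuous_const.mul (hg m).1.continuous)).neg
      · exact ((hg m).2.1.mul_left).neg
    have h5 : ∑ i, PX (fun x => ∑ m, - (m6 (κ.k m) (κ.ξ m) i * gS N (κ.k m) (κ.a m) x)) (ζ6 i) φ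
        = ∑ m, ∫ x in Ω, - gS N (κ.k m) (κ.a m) x
            * (bf (κ.k m) (κ.ξ m) φ x + bf (κ.ξ m) (κ.k m) φ x) := by
      have h6 : ∀ i, PX (fun x => ∑ m, - (m6 (κ.k m) (κ.ξ m) i * gS N (κ.k m) (κ.a m) x)) (ζ6 i) φ
          = ∑ m, ∫ x in Ω, - (m6 (κ.k m) (κ.ξ m) i * gS N (κ.k m) (κ.a m) x) * KLimit.qf φ (ζ6 i) x := by
        intro i
        rw [← integral_finsetSum _ fun m _ => h4 i m]
        unfold PX
        refine integral_congr_ae (Filter.Eventually.of_forall fun x => ?_)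
        simp only [Finset.sum_mul]
        rfl
      simp_rw [h6]
      rw [Finset.sum_comm]
      refine Finset.sum_congr rfl fun m _ => ?_
      rw [← integral_finsetSum _ fun i _ => h4 i m]
      refine integral_congr_ae (Filter.Eventually.of_forall fun x => ?_)
      simp only
      rw [six, Finset.mul_sum]
      exact Finset.sum_congr rfl fun i _ => by ring
    rw [h3, h5, ← Finset.sum_sub_distrib]
    refine (Finset.abs_sum_le_sum_abs _ _).trans ?_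
    rw [Finset.sum_div, Finset.sum_mul]
    exact Finset.sum_le_sum fun m _ => hC m N hN φ

end WaveT

/-- WT. -/
theorem waveT_proof : Stmt_WaveT := fun _ _ hΩ hb κ => WaveT.waveT_aux hΩ hb κ

end Pool.Agent.NSN
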