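import Pool.Agent.NSN.NetFinal
import Pool.Agent.NSN.NetIter
import Pool.Agent.NSN.NetInit
import Pool.Agent.NSN.NetStep
import Pool.Agent.NSN.Interior
import Pool.Agent.NSN.ListStep
import Pool.Agent.NSN.WaveT
import Pool.Agent.NSN.Sweep
import Pool.Agent.NSN.Piece
import Pool.Agent.NSN.Prof
import Pool.Agent.NSN.ConvKick
import Pool.Agent.NSN.GenKick

/-!
# MP_fd8964_an, the critical net: the complete theorem
-/

open MeasureTheory Set Filter Topology
open scoped RealInnerProductSpace ContDiff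

noncomputable section

namespace Pool.Agent.NSN

theorem net_all : Stmt_Net :=
  netIter_proof netInit_proof (netStep_proof (Interior.interior_proof (sweep_proof (piece_proof prof_proof
    (convKick_proof genKick_proof)))) (listStep_proof waveT_proof))

theorem netFinal_all : Stmt_NetFinal := netFinal_proof net_all good_proof

end Pool.Agent.NSN

namespace Pool.Agent.NSNT

open Pool.Agent

theorem absN_all (K : ℝ) (hK : 0 < K) : ∃ C : ℝ, 0 < C ∧
    ∀ (Ω : Set NSDS.R3), IsOpen Ω → Bornology.IsBounded Ω → ∀ (Ω' : Set NSDS.R3) (z : NSDS.R3) (r : ℝ), 0 < r →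
      Ω' ⊆ Metric.ball z (K * r) → (∀ y ∈ Ω', Metric.ball y r ⊆ Ω) →
      AbsN (NSDS.V Ω) (NSDS.L2E Ω) (NSDS.L2G Ω) NSDS.fld NSDS.grd NSDS.trilin (NSDS.H Ω) NSKS.IsSmooth C
        (OffS Ω') W1S := absN_sealed NSN.netFinal_all K hK

end Pool.Agent.NSNT
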