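import Pool.Agent.NSN.Good

/-!
# MP_fd8964_an, the critical net: the theorem over `Pool.Agent.NSD.Defs`, and its transfer
-/

open MeasureTheory Set Filter Topology
open scoped RealInnerProductSpace ContDiff

noncomputable section

namespace Pool.Agent.NSN

open Pool.Agent.NSD Pool.Agent.NSK

theorem netFinal_proof (hN : Stmt_Net) (hG : Stmt_Good) : Stmt_NetFinal := by
  intro K hK
  obtain ⟨C, hC, h⟩ := hN K hK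
  refine ⟨C, hC, fun Ω hΩ hb η hη f hf J hJ v hv Ω' z r hr hΩ' hball l ε hε => ?_⟩
  obtain ⟨Gd, hGd, hv0, hsol⟩ := hG Ω hΩ hb η hη f hf J hJ v hv
  obtain ⟨x, hx, hφ⟩ := h Ω Ω' η z r Gd l ε (v 0) hΩ hb hη hGd hr hΩ' hball hε hv0
  obtain ⟨u, hu0, hut, hus, huv⟩ := hsol ε hε x hx
  exact ⟨u, hut, hus, by rw [hu0]; exact hφ, huv⟩

end Pool.Agent.NSN

namespace Pool.Agent.NSNT

open Pool.Agent Pool.Agent.NSKT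

section
variable (VV LE LG : Type) [NormedAddCommGroup VV] [InnerProductSpace ℝ VV] [NormedAddCommGroup LE]
  [InnerProductSpace ℝ LE] [NormedAddCommGroup LG] [InnerProductSpace ℝ LG]

/-- The theorem for a fixed domain, in terms of abstract spaces. -/
def AbsN (fl : VV → LE) (gr : VV → LG) (tri : VV → VV → VV → ℝ) (Hs : Submodule ℝ LE) (Test : VV → Prop)
    (C : ℝ) (Off : VV → Prop) (W1 : VV → ℝ) : Prop :=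
  ∀ (η : ℝ), 0 < η → ∀ (f : ℝ → (VV →L[ℝ] ℝ)), Adm VV LE fl Hs f →
    ∀ (J : Set ℝ), (J = Ici 0 ∨ ∃ T : ℝ, 0 < T ∧ J = Icc 0 T) →
    ∀ (v : ℝ → VV), ((f = 0 ∧ v = 0) ∨ (Test (v 0) ∧ RegJ VV LE LG fl gr tri η J f v)) →
    ∀ (l : VV →L[ℝ] ℝ) (ε : ℝ), 0 < ε →
      ∃ u : ℝ → VV, Test (u 0) ∧ RegJ VV LE LG fl gr tri η J f u ∧
        (∀ φ : VV, Off φ → |⟪fl (u 0), fl φ⟫ - l φ| ≤ C * η * W1 φ + ε * ‖φ‖) ∧ ∀ t ∈ J, ε ≤ t → ‖u t - v t‖ ≤ ε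

end

def OffD {Ω : Set NSD.E} (Ω' : Set NSD.E) (φ : NSD.V Ω) : Prop :=
  ∀ᵐ y ∂(volume.restrict Ω), y ∉ Ω' → (NSD.grd φ : NSD.E → NSD.G) y = 0

def W1D {Ω : Set NSD.E} (φ : NSD.V Ω) : ℝ := ∫ y in Ω, ‖(NSD.grd φ : NSD.E → NSD.G) y‖

def OffS {Ω : Set NSDS.R3} (Ω' : Set NSDS.R3) (φ : NSDS.V Ω) : Prop :=
  ∀ᵐ y ∂(volume.restrict Ω), y ∉ Ω' → NSDS.gfn (NSDS.grd φ) y = 0

def W1S {Ω : Set NSDS.R3} (φ : NSDS.V Ω) : ℝ := ∫ y in Ω, ‖NSDS.gfn (NSDS.grd φ) y‖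

theorem absN_unsealed (h : NSN.Stmt_NetFinal) (K : ℝ) (hK : 0 < K) : ∃ C : ℝ, 0 < C ∧
    ∀ (Ω : Set NSD.E), IsOpen Ω → Bornology.IsBounded Ω → ∀ (Ω' : Set NSD.E) (z : NSD.E) (r : ℝ), 0 < r →
      Ω' ⊆ Metric.ball z (K * r) → (∀ y ∈ Ω', Metric.ball y r ⊆ Ω) →
      AbsN (NSD.V Ω) (NSD.L2 Ω) (NSD.L2G Ω) NSD.fld NSD.grd NSD.trilin (NSD.Hspace Ω) NSK.InTest C (OffD Ω') W1D := by
  obtain ⟨C, hC, h1⟩ := h K hK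
  exact ⟨C, hC, fun Ω hΩ hb Ω' z r hr h2 h3 η hη f hf J hJ v hv l ε hε =>
    h1 Ω hΩ hb η hη f hf J hJ v hv Ω' z r hr h2 h3 l ε hε⟩

theorem key (Ω : Set NSD.E) (C : ℝ) (Ω' : Set NSD.E) :
    AbsN (NSD.V Ω) (NSD.L2 Ω) (NSD.L2G Ω) NSD.fld NSD.grd NSD.trilin (NSD.Hspace Ω) NSK.InTest C (OffD Ω') W1D →
    AbsN (NSDS.V Ω) (NSDS.L2E Ω) (NSDS.L2G Ω) NSDS.fld NSDS.grd NSDS.trilin (NSDS.H Ω) NSKS.IsSmooth C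
      (OffS Ω') W1S := by
  delta OffS W1S OffD W1D NSKS.IsSmooth NSDS.trilin NSDS.fld NSDS.grd NSDS.H NSDS.vI NSDS.vN NSDS.V NSDS.Vsub NSDS.pgrd
    NSDS.pfld NSDS.pairI NSDS.pairN NSDS.Pair NSDS.gfn NSDS.l2gI NSDS.l2gN NSDS.L2G NSDS.fn NSDS.l2I
    NSDS.l2N NSDS.L2E NSDS.IsTest NSDS.divField NSDS.gradField NSDS.row NSDS.g3I NSDS.g3N NSDS.G3
    NSDS.bas NSDS.coord NSDS.r3M NSDS.r3I NSDS.r3N NSDS.R3 NSK.InTest NSD.trilin NSD.fld NSD.grd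
    NSD.Hspace NSD.V NSD.Represents NSD.IsTest NSD.divField NSD.gradField NSD.e NSD.L2 NSD.L2G NSD.H1
    NSD.G NSD.E
  exact fun h => h

theorem absN_sealed (h : NSN.Stmt_NetFinal) (K : ℝ) (hK : 0 < K) : ∃ C : ℝ, 0 < C ∧
    ∀ (Ω : Set NSDS.R3), IsOpen Ω → Bornology.IsBounded Ω → ∀ (Ω' : Set NSDS.R3) (z : NSDS.R3) (r : ℝ), 0 < r →
      Ω' ⊆ Metric.ball z (K * r) → (∀ y ∈ Ω', Metric.ball y r ⊆ Ω) →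
      AbsN (NSDS.V Ω) (NSDS.L2E Ω) (NSDS.L2G Ω) NSDS.fld NSDS.grd NSDS.trilin (NSDS.H Ω) NSKS.IsSmooth C
        (OffS Ω') W1S := by
  obtain ⟨C, hC, h1⟩ := absN_unsealed h K hK
  exact ⟨C, hC, fun Ω hΩ hb Ω' z r hr h2 h3 => key Ω C Ω' (h1 Ω hΩ hb Ω' z r hr h2 h3)⟩

end Pool.Agent.NSNT
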