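import Pool.Agent.NSN.Ang3
import Pool.Agent.NSN.Good

/-!
# MP_fd8964_an: density of the good data in `B^{-1}_{∞,q}`, `q > 2`
-/

open MeasureTheory Set Filter Topology
open scoped RealInnerProductSpace ContDiff

noncomputable section

namespace Pool.Agent.NSN

open Pool.Agent.NSD Pool.Agent.NSK

/-- PURE. Every `u ∈ V` with `u - x₀ ∈ curlW Ω` is approximated by good data in `B^{-1}_{∞,q}`, and uniformly on compact
subsets of `V`. -/
def Stmt_Pure : Prop := ∀ (Ω : Set E), IsOpen Ω → Bornology.IsBounded Ω → ∀ (η : ℝ), 0 < η →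
    ∀ (Gd : ℝ → Set (V Ω)), KickClosed Ω η Gd → ∀ (x₀ : V Ω), (∀ ε, 0 < ε → x₀ ∈ Gd ε) →
    ∀ (u : V Ω), u - x₀ ∈ curlW Ω → ∀ (K : Set (V Ω)) (q ε : ℝ), IsCompact K → 2 < q → 0 < ε → ∃ x ∈ Gd ε,
      (∀ φ ∈ K, |⟪fld x, fld φ⟫ - ⟪fld u, fld φ⟫| < ε) ∧ besov (x - u) q ≤ ENNReal.ofReal ε

theorem pure_proof (hL : Stmt_Lac) (hVD : Stmt_VDense) : Stmt_Pure := by
  intro Ω hΩ hb η hη Gd hGd x₀ hx₀ u hu K q ε hK hq hε
  obtain ⟨C, hC, hadd⟩ := besov_add_proof (Ω := Ω) hb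
  obtain ⟨R, hR0, hR⟩ : ∃ R : ℝ, 0 < R ∧ ∀ φ ∈ K, ‖φ‖ ≤ R := by
    obtain ⟨R, hR⟩ := hK.isBounded.exists_norm_le
    exact ⟨max R 1, lt_max_of_lt_right one_pos, fun φ hφ => (hR φ hφ).trans (le_max_left _ _)⟩
  set A : ℝ := 2 ^ (q - 1) * (1 + C ^ q * 2) with hA
  have hA0 : 0 < A := by positivity
  set δ : ℝ := min 1 (min (ε / A) (ε / (2 * (1 + R)))) with hδ
  have hδ0 : 0 < δ := lt_min one_pos (lt_min (by positivity) (by positivity))
  have hδ1 : δ ≤ 1 := min_le_left _ _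
  have hδ2 : A * δ ≤ ε := by
    have h1 : δ ≤ ε / A := (min_le_right _ _).trans (min_le_left _ _)
    rw [le_div_iff₀ hA0] at h1
    linarith
  have hδ3 : δ + δ * R < ε := by
    have h1 : δ ≤ ε / (2 * (1 + R)) := (min_le_right _ _).trans (min_le_right _ _)
    rw [le_div_iff₀ (by positivity)] at h1
    nlinarith
  obtain ⟨n, G, p, hG, hp, hn⟩ := hVD Ω hΩ hb η hη _ hu δ hδ0
  obtain ⟨x, hx, hxK, hB⟩ := hL Ω hΩ hb η Gd hGd x₀ hx₀ n G p hG hp K hK q ε δ hq hε hδ0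
  set y : V Ω := x₀ + ∑ i, p i with hy
  have hyu : ‖y - u‖ ≤ δ := by
    have e1 : y - u = (∑ i, p i) - (u - x₀) := by rw [hy]; abel
    rw [e1]
    exact hn
  refine ⟨x, hx, fun φ hφ => ?_, ?_⟩
  · have h1 := hxK φ hφ
    have h2 : |⟪fld y, fld φ⟫ - ⟪fld u, fld φ⟫| ≤ δ * R := by
      rw [← inner_sub_left]
      have e1 : fld y - fld u = fld (y - u) := rfl
      rw [e1]
      calc |⟪fld (y - u), fld φ⟫| ≤ ‖fld (y - u)‖ * ‖fld φ‖ := abs_real_inner_le_norm _ _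
        _ ≤ ‖y - u‖ * ‖φ‖ := mul_le_mul (norm_fld_le _) (norm_fld_le _) (norm_nonneg _) (norm_nonneg _)
        _ ≤ δ * R := mul_le_mul hyu (hR φ hφ) (norm_nonneg _) hδ0.le
    calc |⟪fld x, fld φ⟫ - ⟪fld u, fld φ⟫|
        = |(⟪fld x, fld φ⟫ - ⟪fld y, fld φ⟫) + (⟪fld y, fld φ⟫ - ⟪fld u, fld φ⟫)| := by congr 1; ring
      _ ≤ |⟪fld x, fld φ⟫ - ⟪fld y, fld φ⟫| + |⟪fld y, fld φ⟫ - ⟪fld u, fld φ⟫| := abs_add_le _ _
      _ < ε := by linarith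
  · have e1 : x - u = (x - y) + (y - u) := by abel
    rw [e1]
    refine (hadd (x - y) (y - u) q hq.le).trans ?_
    have h1 : (C * ‖y - u‖) ^ q * 2 ≤ C ^ q * 2 * δ := by
      rw [Real.mul_rpow hC (norm_nonneg _)]
      have h2 : ‖y - u‖ ^ q ≤ δ := by
        calc ‖y - u‖ ^ q ≤ δ ^ q := Real.rpow_le_rpow (norm_nonneg _) hyu (by linarith)
          _ ≤ δ ^ (1 : ℝ) := Real.rpow_le_rpow_of_exponent_ge hδ0 hδ1 (by linarith)
          _ = δ := Real.rpow_one _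
      have h3 : 0 ≤ C ^ q := Real.rpow_nonneg hC _
      nlinarith
    have e2 : (2 : ENNReal) ^ (q - 1) = ENNReal.ofReal (2 ^ (q - 1)) := by
      rw [← ENNReal.ofReal_rpow_of_pos (by norm_num)]
      norm_num
    calc (2 : ENNReal) ^ (q - 1) * (besov (x - y) q + ENNReal.ofReal ((C * ‖y - u‖) ^ q * 2))
        ≤ (2 : ENNReal) ^ (q - 1) * (ENNReal.ofReal δ + ENNReal.ofReal (C ^ q * 2 * δ)) := by
          gcongr
      _ = ENNReal.ofReal (A * δ) := by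
          rw [e2, ← ENNReal.ofReal_add hδ0.le (by positivity), ← ENNReal.ofReal_mul (by positivity), hA]
          congr 1
          ring
      _ ≤ ENNReal.ofReal ε := ENNReal.ofReal_le_ofReal hδ2

end Pool.Agent.NSN
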