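import Pool.Agent.NSN.Net
import Pool.Agent.NSK.KLimit

/-!
# MP_fd8964_an, critical net: library for `PX`, `cv`, `sc` and `Realize`
-/

set_option autoImplicit false

open MeasureTheory Set Filter Topology
open scoped RealInnerProductSpace ContDiff

noncomputable section

namespace Pool.Agent.NSN.RLib

open Pool.Agent.NSD Pool.Agent.NSK Pool.Agent.NSN

variable {Ω : Set E}

/-! ### `PX` -/

lemma PX_eq (h : E → ℝ) (ξ : E) (φ : V Ω) : PX h ξ φ = ∫ x in Ω, h x * KLimit.qf φ ξ x := rfl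

lemma intg_mul (hΩ : IsOpen Ω) (hb : Bornology.IsBounded Ω) {h : E → ℝ} (hc : Continuous h)
    {F : E → ℝ} (hF : Integrable F (volume.restrict Ω)) :
    Integrable (fun x => h x * F x) (volume.restrict Ω) := by
  obtain ⟨C, hC⟩ := (hb.isCompact_closure).exists_bound_of_continuousOn (f := h) hc.continuousOn
  refine hF.bdd_mul (c := C) hc.aestronglyMeasurable ?_
  refine (ae_restrict_iff' hΩ.measurableSet).mpr (Eventually.of_forall fun x hx => ?_)
  exact hC x (subset_closure hx)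

lemma intg_PX (hΩ : IsOpen Ω) (hb : Bornology.IsBounded Ω) {h : E → ℝ} (hc : Continuous h)
    (ξ : E) (φ : V Ω) : Integrable (fun x => h x * KLimit.qf φ ξ x) (volume.restrict Ω) :=
  intg_mul hΩ hb hc (KLimit.intg_qf hb φ ξ)

lemma PX_zero (ξ : E) (φ : V Ω) : PX (fun _ => 0) ξ φ = 0 := by
  simp [PX]

lemma PX_add (hΩ : IsOpen Ω) (hb : Bornology.IsBounded Ω) {h₁ h₂ : E → ℝ} (hc₁ : Continuous h₁)
    (hc₂ : Continuous h₂) (ξ : E) (φ : V Ω) :
    PX (fun x => h₁ x + h₂ x) ξ φ = PX h₁ ξ φ + PX h₂ ξ φ := by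
  rw [PX_eq, PX_eq, PX_eq, ← integral_add (intg_PX hΩ hb hc₁ ξ φ) (intg_PX hΩ hb hc₂ ξ φ)]
  refine integral_congr_ae (Eventually.of_forall fun x => ?_)
  simp only
  ring

lemma PX_cmul (c : ℝ) (h : E → ℝ) (ξ : E) (φ : V Ω) :
    PX (fun x => c * h x) ξ φ = c * PX h ξ φ := by
  rw [PX_eq, PX_eq, ← integral_const_mul]
  refine integral_congr_ae (Eventually.of_forall fun x => ?_)
  simp only
  ring

lemma PX_neg (h : E → ℝ) (ξ : E) (φ : V Ω) : PX (fun x => - h x) ξ φ = - PX h ξ φ := by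
  have := PX_cmul (-1) h ξ φ
  simpa using this

lemma PX_sub (hΩ : IsOpen Ω) (hb : Bornology.IsBounded Ω) {h₁ h₂ : E → ℝ} (hc₁ : Continuous h₁)
    (hc₂ : Continuous h₂) (ξ : E) (φ : V Ω) :
    PX (fun x => h₁ x - h₂ x) ξ φ = PX h₁ ξ φ - PX h₂ ξ φ := by
  have h := PX_add (h₂ := fun x => - h₂ x) hΩ hb hc₁ hc₂.neg ξ φ
  rw [PX_neg] at h
  simpa [sub_eq_add_neg] using h

lemma PX_sum (hΩ : IsOpen Ω) (hb : Bornology.IsBounded Ω) {ι : Type*} (s : Finset ι)
    {h : ι → E → ℝ} (hc : ∀ i, Continuous (h i)) (ξ : E) (φ : V Ω) :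
    PX (fun x => ∑ i ∈ s, h i x) ξ φ = ∑ i ∈ s, PX (h i) ξ φ := by
  classical
  induction s using Finset.induction_on with
  | empty => simp [PX_zero]
  | insert a s ha ih =>
    simp only [Finset.sum_insert ha]
    rw [← ih]
    exact PX_add hΩ hb (hc a) (continuous_finsetSum s fun i _ => hc i) ξ φ

/-! ### Kernels -/

lemma ker_compact {K : E → ℝ} (hK : Ker K) : HasCompactSupport K :=
  (isCompact_closedBall (0 : E) 1).of_isClosed_subset (isClosed_tsupport _) hK.supp

lemma sc_smooth {K : E → ℝ} (hK : ContDiff ℝ ∞ K) (ε : ℝ) : ContDiff ℝ ∞ (sc ε K) := by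
  unfold sc
  exact contDiff_const.mul (hK.comp (contDiff_const_smul _))

lemma sc_compact {K : E → ℝ} (hK : HasCompactSupport K) {ε : ℝ} (hε : 0 < ε) :
    HasCompactSupport (sc ε K) := by
  have h : HasCompactSupport (fun y => K (ε⁻¹ • y)) := hK.comp_smul (inv_ne_zero hε.ne')
  exact h.mul_left

lemma intg_cv {K c : E → ℝ} (hK : Continuous K) (hKc : HasCompactSupport K) (hc : Continuous c)
    (x : E) : Integrable (fun y => K y * c (x - y)) :=
  (hK.mul (hc.comp (continuous_const.sub continuous_id))).integrable_of_hasCompactSupport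
    hKc.mul_right

lemma cv_eq_conv (K c : E → ℝ) :
    cv K c = convolution K c (ContinuousLinearMap.mul ℝ ℝ) volume := rfl

lemma cv_contDiff {K c : E → ℝ} (hK : ContDiff ℝ ∞ K) (hKc : HasCompactSupport K)
    (hc : Continuous c) : ContDiff ℝ ∞ (cv K c) := by
  rw [cv_eq_conv]
  exact hKc.contDiff_convolution_left _ hK hc.locallyIntegrable

lemma cv_continuous {K c : E → ℝ} (hK : Continuous K) (hKc : HasCompactSupport K)
    (hc : Continuous c) : Continuous (cv K c) := by
  rw [cv_eq_conv]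
  exact hKc.continuous_convolution_left _ hK hc.locallyIntegrable

lemma cv_add {K c₁ c₂ : E → ℝ} (hK : Continuous K) (hKc : HasCompactSupport K)
    (hc₁ : Continuous c₁) (hc₂ : Continuous c₂) (x : E) :
    cv K (fun y => c₁ y + c₂ y) x = cv K c₁ x + cv K c₂ x := by
  unfold cv
  rw [← integral_add (intg_cv hK hKc hc₁ x) (intg_cv hK hKc hc₂ x)]
  refine integral_congr_ae (Eventually.of_forall fun y => ?_)
  simp only
  ring

lemma cv_zero (K : E → ℝ) (x : E) : cv K (fun _ => 0) x = 0 := by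
  simp [cv]

lemma cv_cmul (K c : E → ℝ) (t : ℝ) (x : E) : cv K (fun y => t * c y) x = t * cv K c x := by
  unfold cv
  rw [← integral_const_mul]
  refine integral_congr_ae (Eventually.of_forall fun y => ?_)
  simp only
  ring

lemma cv_sum {ι : Type*} (s : Finset ι) {K : E → ℝ} {c : ι → E → ℝ} (hK : Continuous K)
    (hKc : HasCompactSupport K) (hc : ∀ i, Continuous (c i)) (x : E) :
    cv K (fun y => ∑ i ∈ s, c i y) x = ∑ i ∈ s, cv K (c i) x := by
  classical
  induction s using Finset.induction_on with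
  | empty => simp [cv_zero]
  | insert a s ha ih =>
    simp only [Finset.sum_insert ha]
    rw [← ih]
    exact cv_add hK hKc (hc a) (continuous_finsetSum s fun i _ => hc i) x

/-- Monotonicity: a bound for the averages. -/
lemma cv_abs_le {K c : E → ℝ} (hK : Continuous K) (hKc : HasCompactSupport K)
    (hK0 : ∀ y, 0 ≤ K y) {B : E → ℝ} (hc : Continuous c) (hB : Continuous B) (x : E)
    (h : ∀ y, K y ≠ 0 → |c (x - y)| ≤ B (x - y)) : |cv K c x| ≤ cv K B x := by
  unfold cv
  refine (abs_integral_le_integral_abs).trans ?_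
  refine integral_mono (intg_cv hK hKc hc x).abs (intg_cv hK hKc hB x) fun y => ?_
  simp only [abs_mul, abs_of_nonneg (hK0 y)]
  by_cases hy : K y = 0
  · simp [hy]
  · exact mul_le_mul_of_nonneg_left (h y hy) (hK0 y)

/-! ### `Realize` -/

lemma realize_zero (η : ℝ) : Realize Ω η (fun _ => 0) 0 :=
  ⟨[], by simp, by simp⟩

lemma realize_mono {η : ℝ} {F : V Ω → ℝ} {α β : ℝ} (h : Realize Ω η F α) (hab : α ≤ β) :
    Realize Ω η F β := by
  obtain ⟨L, h1, h2⟩ := h
  exact ⟨L, h1, fun x => (h2 x).trans hab⟩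

lemma realize_congr {η : ℝ} {F F' : V Ω → ℝ} {α : ℝ} (h : Realize Ω η F α)
    (hFF : ∀ φ, F φ = F' φ) : Realize Ω η F' α := by
  obtain ⟨L, h1, h2⟩ := h
  exact ⟨L, fun φ => (h1 φ).trans (hFF φ), h2⟩

lemma realize_add {η : ℝ} {F F' : V Ω → ℝ} {α β : ℝ} (h : Realize Ω η F α)
    (h' : Realize Ω η F' β) : Realize Ω η (fun φ => F φ + F' φ) (α + β) := by
  obtain ⟨L, h1, h2⟩ := h
  obtain ⟨L', h1', h2'⟩ := h'
  refine ⟨L ++ L', fun φ => ?_, fun x => ?_⟩
  · rw [List.map_append, List.sum_append, h1, h1']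
  · rw [List.map_append, List.sum_append]
    exact add_le_add (h2 x) (h2' x)

lemma realize_sum {η : ℝ} {ι : Type*} (s : Finset ι) {F : ι → V Ω → ℝ} {α : ι → ℝ}
    (h : ∀ i ∈ s, Realize Ω η (F i) (α i)) :
    Realize Ω η (fun φ => ∑ i ∈ s, F i φ) (∑ i ∈ s, α i) := by
  classical
  induction s using Finset.induction_on with
  | empty => simpa using realize_zero η
  | insert a s ha ih =>
    simp only [Finset.sum_insert ha]
    exact realize_add (h a (Finset.mem_insert_self a s))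
      (ih fun i hi => h i (Finset.mem_insert_of_mem hi))

lemma realize_of_zero {η : ℝ} {F : V Ω → ℝ} {α : ℝ} (hF : ∀ φ, F φ = 0) (hα : 0 ≤ α) :
    Realize Ω η F α :=
  realize_congr (realize_mono (realize_zero η) hα) fun φ => (hF φ).symm

end Pool.Agent.NSN.RLib
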