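import Pool.Agent.NSN.Base2
import Pool.Agent.NSN.Besov
import Pool.Agent.NSK.KLimit

/-!
# MP_fd8964_an: sums of kicks are dense, in the norm of `V`, in the closure of `{curl (A ∇χ)}`
-/

open MeasureTheory Set Filter Topology
open scoped RealInnerProductSpace ContDiff

noncomputable section

namespace Pool.Agent.NSN

open Pool.Agent.NSD Pool.Agent.NSK

/-- The Levi-Civita symbol. -/
def lc (i j k : Fin 3) : ℝ :=
  (((j : ℕ) : ℝ) - ((i : ℕ) : ℝ)) * (((k : ℕ) : ℝ) - ((i : ℕ) : ℝ)) * (((k : ℕ) : ℝ) - ((j : ℕ) : ℝ)) / 2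

/-- `curl (A ∇χ)`: its component `l` is `∑ lc l k m A m i ∂ₖ ∂ᵢ χ`. -/
def curlA (A : Fin 3 → Fin 3 → ℝ) (χ : E → ℝ) : E → E :=
  Base.vec fun l x => ∑ k : Fin 3, ∑ i : Fin 3, (∑ m : Fin 3, lc l k m * A m i) * dd (e k) (dd (e i) χ) x

/-- VD. If `Λ ∈ V` has nonnegative `V`-inner product with all kicks, it is orthogonal to all `curl (A ∇χ)`. -/
def Stmt_VOrth : Prop := ∀ (Ω : Set E), IsOpen Ω → Bornology.IsBounded Ω → ∀ η : ℝ, 0 < η → ∀ Λ : V Ω,
    (∀ (G : E → E) (p : V Ω), IsKick Ω η G → Represents Ω G p → 0 ≤ ⟪p, Λ⟫) →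
    ∀ (A : Fin 3 → Fin 3 → ℝ) (χ : E → ℝ) (p : V Ω), IsBump Ω χ → Represents Ω (curlA A χ) p → ⟪p, Λ⟫ = 0

namespace VDense

open KLimit

variable {Ω : Set E}

/-! ### Calculus -/

/-- `(1 - Δ) h`. -/
def DD (h : E → ℝ) (x : E) : ℝ := h x - lap h x

lemma lap_bump {h : E → ℝ} (hh : IsBump Ω h) : IsBump Ω (lap h) := by
  have := Base2.bump_sum (n := 3) fun i => bump_dd (bump_dd hh (e i)) (e i)
  exact this

lemma DD_bump {h : E → ℝ} (hh : IsBump Ω h) : IsBump Ω (DD h) := by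
  have h1 := bump_add hh (bump_cmul (lap_bump hh) (-1))
  have e1 : (fun x => h x + -1 * lap h x) = DD h := by
    funext x
    simp only [DD]
    ring
  rwa [e1] at h1

lemma inner_V (p Λ : V Ω) : ⟪p, Λ⟫ = ⟪fld p, fld Λ⟫ + ⟪grd p, grd Λ⟫ := by
  have h : ⟪p, Λ⟫ = ⟪(p : H1 Ω), (Λ : H1 Ω)⟫ := rfl
  rw [h, WithLp.prod_inner_apply]
  rfl

lemma dd_comp {F : E → E} (hF : ContDiff ℝ ∞ F) (v : E) (l : Fin 3) :
    (fun x => dd v F x l) = dd v (fun x => F x l) := by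
  funext x
  have h1 : HasFDerivAt (fun x => F x l) ((EuclideanSpace.proj l : E →L[ℝ] ℝ).comp (fderiv ℝ F x)) x :=
    (EuclideanSpace.proj l : E →L[ℝ] ℝ).hasFDerivAt.comp x ((hF.differentiable (by simp) x).hasFDerivAt)
  unfold dd
  rw [h1.fderiv]
  rfl

lemma lap_comp {F : E → E} (hF : ContDiff ℝ ∞ F) (l : Fin 3) (x : E) :
    lap F x l = lap (fun x => F x l) x := by
  have h1 : ∀ i : Fin 3, dd (e i) (dd (e i) F) x l = dd (e i) (dd (e i) (fun x => F x l)) x := by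
    intro i
    have h2 := congrFun (dd_comp (Base.dd_contDiff hF (e i)) (e i) l) x
    rw [dd_comp hF (e i) l] at h2
    exact h2
  unfold lap
  simp only [Fin.sum_univ_three, PiLp.add_apply, h1]

/-- Chain rule. -/
lemma dd_scale {h : E → ℝ} (hh : ContDiff ℝ ∞ h) (v z : E) (c : ℝ) :
    dd v (fun x => h (c • (x - z))) = fun x => c * dd v h (c • (x - z)) := by
  funext x
  have h1 : HasFDerivAt (fun x : E => c • (x - z)) (c • ContinuousLinearMap.id ℝ E) x :=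
    ((hasFDerivAt_id x).sub_const z).const_smul c
  have h2 := (hh.differentiable (by simp) (c • (x - z))).hasFDerivAt.comp x h1
  unfold dd
  have e1 : (fun x => h (c • (x - z))) = h ∘ fun x => c • (x - z) := rfl
  rw [e1, h2.fderiv]
  simp

lemma lap_scale {h : E → ℝ} (hh : ContDiff ℝ ∞ h) (z x : E) (c : ℝ) :
    lap (fun x => h (c • (x - z))) x = c ^ 2 * lap h (c • (x - z)) := by
  unfold lap
  rw [Finset.mul_sum]
  refine Finset.sum_congr rfl fun i _ => ?_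
  have h1 := Base.dd_contDiff hh (e i)
  rw [dd_scale hh]
  have h2 := dd_scale h1 (e i) z c
  have h3 : dd (e i) (fun x => c * dd (e i) h (c • (x - z))) x = c * dd (e i) (fun x => dd (e i) h (c • (x - z))) x := by
    have h4 : ContDiff ℝ ∞ (fun x => dd (e i) h (c • (x - z))) :=
      h1.comp ((contDiff_id.sub contDiff_const).const_smul _)
    have := congrFun (Base.dd_smul h4 c (e i)) x
    simpa only [smul_eq_mul] using this
  rw [h3, h2]
  ring

/-! ### Convolutions -/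

lemma conv_dd {χ b : E → ℝ} (hχ : ContDiff ℝ ∞ χ) (hb : ContDiff ℝ ∞ b) (hbc : HasCompactSupport b) (v x : E)
    (ε : ℝ) : ∫ y, χ (x - ε • y) * dd v b y = ε * ∫ y, dd v χ (x - ε • y) * b y := by
  have hu : ContDiff ℝ ∞ (fun y => χ (x - ε • y)) := hχ.comp (contDiff_const.sub (contDiff_id.const_smul ε))
  rw [Heat.ibp v hu hb hbc, ← integral_neg, ← integral_const_mul]
  refine integral_congr_ae (Eventually.of_forall fun y => ?_)
  have h1 : HasFDerivAt (fun y : E => x - ε • y) (-(ε • ContinuousLinearMap.id ℝ E)) y :=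
    ((hasFDerivAt_id y).const_smul ε).const_sub x
  have h2 := (hχ.differentiable (by simp) (x - ε • y)).hasFDerivAt.comp y h1
  have e1 : dd v (fun y => χ (x - ε • y)) y = -(ε * dd v χ (x - ε • y)) := by
    unfold dd
    have e2 : (fun y => χ (x - ε • y)) = χ ∘ fun y => x - ε • y := rfl
    rw [e2, h2.fderiv]
    simp
  simp only
  rw [e1]
  ring

lemma conv_lap {χ b : E → ℝ} (hχ : IsBump Ω χ) {Ω' : Set E} (hb : IsBump Ω' b) (x : E) (ε : ℝ) :
    ∫ y, χ (x - ε • y) * lap b y = ε ^ 2 * ∫ y, lap χ (x - ε • y) * b y := by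
  have hI : ∀ (χ' b' : E → ℝ), ContDiff ℝ ∞ χ' → IsBump Ω' b' → Integrable fun y => χ' (x - ε • y) * b' y := by
    intro χ' b' h1 h2
    refine Continuous.integrable_of_hasCompactSupport ?_ h2.2.1.mul_left
    have := h1.continuous
    have := h2.1.continuous
    fun_prop
  have h1 : ∀ i : Fin 3, ∫ y, χ (x - ε • y) * dd (e i) (dd (e i) b) y
      = ε ^ 2 * ∫ y, dd (e i) (dd (e i) χ) (x - ε • y) * b y := by
    intro i
    rw [conv_dd hχ.1 (bump_dd hb (e i)).1 (bump_dd hb (e i)).2.1,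
      conv_dd (bump_dd hχ (e i)).1 hb.1 hb.2.1]
    ring
  unfold lap
  simp only [Finset.mul_sum, Finset.sum_mul]
  rw [integral_finsetSum _ fun i _ => hI χ _ hχ.1 (bump_dd (bump_dd hb (e i)) (e i)),
    integral_finsetSum _ fun i _ => hI _ b (bump_dd (bump_dd hχ (e i)) (e i)).1 hb, Finset.mul_sum]
  exact Finset.sum_congr rfl fun i _ => h1 i

/-- Averaging commutes with `1 - Δ`. -/
lemma avg {χ b g : E → ℝ} (hχ : IsBump Ω χ) {Ω' : Set E} (hb : IsBump Ω' b) {μ : Measure E} [SFinite μ]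
    (hg : Integrable g μ) {ε : ℝ} (hε : 0 < ε) :
    Integrable (fun z => χ z * ∫ x, DD (fun x => b (ε⁻¹ • (x - z))) x * g x ∂μ) ∧
    ∫ z, χ z * ∫ x, DD (fun x => b (ε⁻¹ • (x - z))) x * g x ∂μ
      = ∫ z, DD χ z * ∫ x, b (ε⁻¹ • (x - z)) * g x ∂μ := by
  set β : E → ℝ := fun y => b y + (-(ε⁻¹ ^ 2)) * lap b y with hβ
  have hβb : IsBump Ω' β := bump_add hb (bump_cmul (lap_bump hb) _)
  have e1 : ∀ z x, DD (fun x => b (ε⁻¹ • (x - z))) x = β (ε⁻¹ • (x - z)) := by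
    intro z x
    simp only [DD, hβ]
    rw [lap_scale hb.1]
    ring
  simp_rw [e1]
  obtain ⟨C, -, hC⟩ := bump_bdd hβb
  obtain ⟨C', -, hC'⟩ := bump_bdd hb
  have hDχ := DD_bump hχ
  refine ⟨fubini_z hχ.1.continuous hχ.2.1 hβb.1.continuous hC hg ε, ?_⟩
  rw [fubini hχ.1.continuous hχ.2.1 hβb.1.continuous hC hg hε,
    fubini hDχ.1.continuous hDχ.2.1 hb.1.continuous hC' hg hε]
  congr 1
  refine integral_congr_ae (Eventually.of_forall fun x => ?_)
  simp only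
  congr 1
  have hI : ∀ (χ' b' : E → ℝ), ContDiff ℝ ∞ χ' → IsBump Ω' b' → Integrable fun y => χ' (x - ε • y) * b' y := by
    intro χ' b' h1 h2
    refine Continuous.integrable_of_hasCompactSupport ?_ h2.2.1.mul_left
    have := h1.continuous
    have := h2.1.continuous
    fun_prop
  have e2 : ∀ y, χ (x - ε • y) * β y = χ (x - ε • y) * b y + (-(ε⁻¹ ^ 2)) * (χ (x - ε • y) * lap b y) := by
    intro y
    simp only [hβ]
    ring
  have e3 : ∀ y, DD χ (x - ε • y) * b y = χ (x - ε • y) * b y - lap χ (x - ε • y) * b y := by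
    intro y
    simp only [DD]
    ring
  simp_rw [e2, e3]
  rw [integral_add (hI χ b hχ.1 hb) ((hI χ _ hχ.1 (lap_bump hb)).const_mul _), integral_const_mul,
    conv_lap hχ hb, integral_sub (hI χ b hχ.1 hb) (hI _ b (lap_bump hχ).1 hb)]
  have hε0 : ε ≠ 0 := hε.ne'
  field_simp
  ring

/-! ### The pairing with test fields -/

lemma pairV (hL : Stmt_Lap) (hΩ : IsOpen Ω) (hb : Bornology.IsBounded Ω) {F : E → E} {p : V Ω} (hF : IsTest Ω F)
    (hp : Represents Ω F p) (Λ : V Ω) :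
    ⟪p, Λ⟫ = ∑ l, ∫ x in Ω, DD (fun x => F x l) x * fc Λ l x ∧
    ⟪fld p, fld Λ⟫ = ∑ l, ∫ x in Ω, F x l * fc Λ l x := by
  have hc : ∀ l, IsBump Ω (fun x => F x l) := fun l =>
    ⟨(cpt_comp hF l).1, (cpt_comp hF l).2.1, (cpt_comp hF l).2.2.1⟩
  have h1 : ⟪fld p, fld Λ⟫ = ∑ l, ∫ x in Ω, F x l * fc Λ l x := by
    rw [L2.inner_def, ← integral_finsetSum _ fun l _ => bump_mul_int (hc l) (intg_fc hb Λ l)]
    refine integral_congr_ae ?_
    filter_upwards [hp.1] with x hx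
    have hx' : (fld p : E → E) x = F x := hx
    rw [hx', inner_eq_sum]
    rfl
  refine ⟨?_, h1⟩
  rw [inner_V, h1, hL Ω hΩ hb F p hF hp Λ]
  have h2 : ∫ x in Ω, ⟪lap F x, (fld Λ : E → E) x⟫ = ∑ l, ∫ x in Ω, lap (fun x => F x l) x * fc Λ l x := by
    rw [← integral_finsetSum _ fun l _ => bump_mul_int (lap_bump (hc l)) (intg_fc hb Λ l)]
    refine integral_congr_ae (Eventually.of_forall fun x => ?_)
    simp only
    rw [inner_eq_sum]
    refine Finset.sum_congr rfl fun l _ => ?_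
    rw [lap_comp hF.smooth]
    rfl
  rw [h2, ← sub_eq_add_neg, ← Finset.sum_sub_distrib]
  refine Finset.sum_congr rfl fun l _ => ?_
  rw [← integral_sub (bump_mul_int (hc l) (intg_fc hb Λ l)) (bump_mul_int (lap_bump (hc l)) (intg_fc hb Λ l))]
  refine integral_congr_ae (Eventually.of_forall fun x => ?_)
  simp only [DD]
  ring

/-- The averaged inequality. -/
lemma avg_ineq (hL : Stmt_Lap) (hX : Stmt_PairXi) (hG : Stmt_Grad) (hS : Stmt_Scale) (hΩ : IsOpen Ω)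
    (hb : Bornology.IsBounded Ω) {η : ℝ} (hη : 0 < η) (Λ : V Ω)
    (hΛ : ∀ (G : E → E) (p : V Ω), IsKick Ω η G → Represents Ω G p → 0 ≤ ⟪p, Λ⟫)
    {n : ℕ} {a : Fin n → E → ℝ} {k ξ : Fin n → E} {q : E → ℝ} {G : E → E}
    (hK : Kick (Metric.ball 0 1) η n a k ξ q G) {χ : E → ℝ} (hχ : IsBump Ω χ) (hχ0 : ∀ x, 0 ≤ χ x)
    {ε : ℝ} (hε : 0 < ε) (hthick : ∀ z ∈ tsupport χ, Metric.ball z ε ⊆ Ω) :
    ∑ m, ∫ x in Ω, (∫ y, DD χ (x - ε • y) * a m y ^ 2) * qf Λ (ξ m) x ≤ 0 := by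
  have hsq : ∀ m, IsBump (Metric.ball 0 1) (fun y => a m y ^ 2) := fun m => bump_sq (hK.bump m)
  have hbd : ∀ m, ∃ C : ℝ, 0 ≤ C ∧ ∀ y, |a m y ^ 2| ≤ C := fun m => bump_bdd (hsq m)
  choose B hB0 hB using hbd
  have hFi : ∀ m, Integrable (qf Λ (ξ m)) (volume.restrict Ω) := fun m => intg_qf hb Λ (ξ m)
  have hDχ := DD_bump hχ
  have hGc : ∀ l, IsBump (Metric.ball 0 1) (fun x => G x l) := fun l =>
    ⟨(cpt_comp hK.test l).1, (cpt_comp hK.test l).2.1, (cpt_comp hK.test l).2.2.1⟩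
  -- the kicks
  have hz : ∀ z ∈ tsupport χ, 0 ≤ ∑ l, ∫ x in Ω, DD (fun x => G (ε⁻¹ • (x - z)) l) x * fc Λ l x ∧
      4 * η * ∑ l, ∫ x in Ω, G (ε⁻¹ • (x - z)) l * fc Λ l x
        = ε * (- ∑ m, ∫ x in Ω, a m (ε⁻¹ • (x - z)) ^ 2 * qf Λ (ξ m) x) := by
    intro z hz
    have hK' := hS Ω η n a k ξ q G z ε hε hK (hthick z hz)
    obtain ⟨p, hp⟩ := Rep_proof Ω _ hK'.test
    obtain ⟨h1, h2⟩ := pairV hL hΩ hb hK'.test hp Λ
    have h3 := hΛ _ p ⟨n, _, _, _, _, hK'⟩ hp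
    have h4 := pair_kick hX hG hΩ hb hK' p Λ hp
    have e1 : ∀ l x, (ε⁻¹ • G (ε⁻¹ • (x - z))) l = ε⁻¹ * G (ε⁻¹ • (x - z)) l := fun l x => rfl
    have e2 : ∀ l x, DD (fun x => (ε⁻¹ • G (ε⁻¹ • (x - z))) l) x = ε⁻¹ * DD (fun x => G (ε⁻¹ • (x - z)) l) x := by
      intro l x
      simp only [DD, e1]
      have hs : ContDiff ℝ ∞ (fun x => G (ε⁻¹ • (x - z)) l) :=
        (hGc l).1.comp ((contDiff_id.sub contDiff_const).const_smul _)
      have h5 := congrFun (Base.lap_smul hs ε⁻¹) x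
      simp only [smul_eq_mul] at h5
      rw [h5]
      ring
    simp_rw [e2] at h1
    simp_rw [e1] at h2
    simp only [mul_assoc, integral_const_mul, ← Finset.mul_sum] at h1 h2
    rw [h1] at h3
    rw [h2] at h4
    refine ⟨?_, ?_⟩
    · have := mul_nonneg hε.le h3
      rwa [← mul_assoc, mul_inv_cancel₀ hε.ne', one_mul] at this
    · rw [← h4]
      field_simp
  -- the averaged pairing
  have hav := fun l => avg hχ (hGc l) (intg_fc hb Λ l) hε
  have h5 : 0 ≤ ∫ z, ∑ l, χ z * ∫ x in Ω, DD (fun x => G (ε⁻¹ • (x - z)) l) x * fc Λ l x := by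
    refine integral_nonneg fun z => ?_
    simp only [Pi.zero_apply]
    rw [← Finset.mul_sum]
    by_cases hzz : z ∈ tsupport χ
    · exact mul_nonneg (hχ0 z) (hz z hzz).1
    · rw [image_eq_zero_of_notMem_tsupport hzz, zero_mul]
  rw [integral_finsetSum _ fun l _ => (hav l).1] at h5
  simp_rw [fun l => (hav l).2] at h5
  have hbG : ∀ l, ∃ C : ℝ, 0 ≤ C ∧ ∀ y, |G y l| ≤ C := fun l => bump_bdd (hGc l)
  choose B' hB'0 hB' using hbG
  rw [← integral_finsetSum _ fun l _ =>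
    fubini_z hDχ.1.continuous hDχ.2.1 (hGc l).1.continuous (hB' l) (intg_fc hb Λ l) ε] at h5
  have hsub : tsupport (DD χ) ⊆ tsupport χ := by
    refine closure_minimal (fun x hx => ?_) (isClosed_tsupport _)
    by_contra h
    apply hx
    have h6 : lap χ x = 0 := by
      unfold lap
      refine Finset.sum_eq_zero fun i _ => ?_
      refine image_eq_zero_of_notMem_tsupport fun h7 => h ?_
      exact (dd_support _ _) ((dd_support _ _) h7)
    simp only [DD, h6, image_eq_zero_of_notMem_tsupport h, sub_zero]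
  have h6 : 4 * η * ∫ z, ∑ l, DD χ z * ∫ x in Ω, G (ε⁻¹ • (x - z)) l * fc Λ l x
      = - (ε * (ε ^ 3 * ∑ m, ∫ x in Ω, (∫ y, DD χ (x - ε • y) * a m y ^ 2) * qf Λ (ξ m) x)) := by
    have h7 : ε ^ 3 * ∑ m, ∫ x in Ω, (∫ y, DD χ (x - ε • y) * a m y ^ 2) * qf Λ (ξ m) x
        = ∫ z, ∑ m, DD χ z * ∫ x in Ω, a m (ε⁻¹ • (x - z)) ^ 2 * qf Λ (ξ m) x := by
      rw [Finset.mul_sum, integral_finsetSum _ fun m _ =>
        fubini_z hDχ.1.continuous hDχ.2.1 (hsq m).1.continuous (hB m) (hFi m) ε]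
      refine Finset.sum_congr rfl fun m _ => ?_
      exact (fubini hDχ.1.continuous hDχ.2.1 (hsq m).1.continuous (hB m) (hFi m) hε).symm
    rw [h7, ← integral_const_mul, ← integral_const_mul, ← integral_neg]
    refine integral_congr_ae (Eventually.of_forall fun z => ?_)
    simp only
    rw [← Finset.mul_sum, ← Finset.mul_sum]
    by_cases hzz : z ∈ tsupport (DD χ)
    · have h8 := (hz z (hsub hzz)).2
      calc 4 * η * (DD χ z * ∑ l, ∫ x in Ω, G (ε⁻¹ • (x - z)) l * fc Λ l x)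
          = DD χ z * (4 * η * ∑ l, ∫ x in Ω, G (ε⁻¹ • (x - z)) l * fc Λ l x) := by ring
        _ = _ := by rw [h8]; ring
    · rw [image_eq_zero_of_notMem_tsupport hzz]
      ring
  have h9 : 0 ≤ 4 * η * ∫ z, ∑ l, DD χ z * ∫ x in Ω, G (ε⁻¹ • (x - z)) l * fc Λ l x := by positivity
  rw [h6] at h9
  by_contra hcon
  push Not at hcon
  have : 0 < ε * (ε ^ 3 * ∑ m, ∫ x in Ω, (∫ y, DD χ (x - ε • y) * a m y ^ 2) * qf Λ (ξ m) x) := by positivity
  linarith

/-- The limit of the averaged inequality (as in `KLimit.limit_ineq`). -/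
lemma limit_core (hb : Bornology.IsBounded Ω) (Λ : V Ω) {n : ℕ} {a : Fin n → E → ℝ} {ξ w : Fin n → E}
    (ha : ∀ m, IsBump (Metric.ball 0 1) (a m)) {Γ₀ Γ₁ : ℝ} (hΓ : 0 < Γ₁)
    (hm0 : ∀ m, ∫ y : E, a m y ^ 2 = Γ₀) (hm1 : ∀ m, ∫ y : E, (a m y ^ 2) • y = Γ₁ • w m)
    {χ : E → ℝ} (hχ : IsBump Ω χ) {δ : ℝ} (hδ : 0 < δ)
    (hT : ∀ ε : ℝ, 0 < ε → ε < δ →
      ∑ m, ∫ x in Ω, (∫ y, χ (x - ε • y) * a m y ^ 2) * qf Λ (ξ m) x ≤ 0)
    (h0 : ∑ m, ∫ x in Ω, χ x * qf Λ (ξ m) x = 0) :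
    0 ≤ ∑ m, ∫ x in Ω, dd (w m) χ x * qf Λ (ξ m) x := by
  have hsq : ∀ m, IsBump (Metric.ball 0 1) (fun y => a m y ^ 2) := fun m => bump_sq (ha m)
  have hbd : ∀ m, ∃ C : ℝ, 0 ≤ C ∧ ∀ y, |a m y ^ 2| ≤ C := fun m => bump_bdd (hsq m)
  choose B hB0 hB using hbd
  have hex := fun m => expand hχ (hsq m) (hm0 m) (hm1 m)
  choose C hC0 hC using hex
  have hFi : ∀ m, Integrable (qf Λ (ξ m)) (volume.restrict Ω) := fun m => intg_qf hb Λ (ξ m)
  have hmain : ∀ ε : ℝ, 0 < ε → |(∑ m, ∫ x in Ω, (∫ y, χ (x - ε • y) * a m y ^ 2) * qf Λ (ξ m) x)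
      + ε * Γ₁ * ∑ m, ∫ x in Ω, dd (w m) χ x * qf Λ (ξ m) x|
      ≤ (∑ m, C m * ∫ x in Ω, |qf Λ (ξ m) x|) * ε ^ 2 := by
    intro ε hε
    have h1 : ∀ m, ∫ x in Ω, (∫ y, χ (x - ε • y) * a m y ^ 2) * qf Λ (ξ m) x
        = (∫ x in Ω, ((∫ y, χ (x - ε • y) * a m y ^ 2) - (Γ₀ * χ x - ε * Γ₁ * dd (w m) χ x)) * qf Λ (ξ m) x)
          + (Γ₀ * ∫ x in Ω, χ x * qf Λ (ξ m) x) - ε * Γ₁ * ∫ x in Ω, dd (w m) χ x * qf Λ (ξ m) x := by
      intro m
      have i1 : Integrable (fun x => (∫ y, χ (x - ε • y) * a m y ^ 2) * qf Λ (ξ m) x) (volume.restrict Ω) :=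
        fubini_x hχ.1.continuous hχ.2.1 (hsq m).1.continuous (hB m) (hFi m) hε
      have i2 : Integrable (fun x => Γ₀ * (χ x * qf Λ (ξ m) x)) (volume.restrict Ω) :=
        (bump_mul_int hχ (hFi m)).const_mul _
      have i3 : Integrable (fun x => ε * Γ₁ * (dd (w m) χ x * qf Λ (ξ m) x)) (volume.restrict Ω) :=
        (bump_mul_int (bump_dd hχ (w m)) (hFi m)).const_mul _
      have i23 : Integrable (fun x => Γ₀ * (χ x * qf Λ (ξ m) x) - ε * Γ₁ * (dd (w m) χ x * qf Λ (ξ m) x))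
        (volume.restrict Ω) := i2.sub i3
      have h2 : ∀ x, ((∫ y, χ (x - ε • y) * a m y ^ 2) - (Γ₀ * χ x - ε * Γ₁ * dd (w m) χ x)) * qf Λ (ξ m) x
          = (∫ y, χ (x - ε • y) * a m y ^ 2) * qf Λ (ξ m) x
            - (Γ₀ * (χ x * qf Λ (ξ m) x) - ε * Γ₁ * (dd (w m) χ x * qf Λ (ξ m) x)) := by
        intro x; ring
      simp_rw [h2]
      rw [integral_sub i1 i23, integral_sub i2 i3, integral_const_mul, integral_const_mul]
      ring
    have h3 : (∑ m, ∫ x in Ω, (∫ y, χ (x - ε • y) * a m y ^ 2) * qf Λ (ξ m) x)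
        + ε * Γ₁ * ∑ m, ∫ x in Ω, dd (w m) χ x * qf Λ (ξ m) x
        = ∑ m, ∫ x in Ω, ((∫ y, χ (x - ε • y) * a m y ^ 2)
            - (Γ₀ * χ x - ε * Γ₁ * dd (w m) χ x)) * qf Λ (ξ m) x := by
      rw [Finset.sum_congr rfl fun m _ => h1 m]
      rw [Finset.sum_sub_distrib, Finset.sum_add_distrib, ← Finset.mul_sum, ← Finset.mul_sum, h0]
      ring
    rw [h3, Finset.sum_mul]
    refine (Finset.abs_sum_le_sum_abs _ _).trans (Finset.sum_le_sum fun m _ => ?_)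
    rw [← Real.norm_eq_abs]
    calc ‖∫ x in Ω, ((∫ y, χ (x - ε • y) * a m y ^ 2) - (Γ₀ * χ x - ε * Γ₁ * dd (w m) χ x)) * qf Λ (ξ m) x‖
        ≤ ∫ x in Ω, C m * ε ^ 2 * |qf Λ (ξ m) x| := by
          refine norm_integral_le_of_norm_le ((hFi m).abs.const_mul _) (Eventually.of_forall fun x => ?_)
          rw [norm_mul, Real.norm_eq_abs, Real.norm_eq_abs]
          exact mul_le_mul_of_nonneg_right (hC m ε x) (abs_nonneg _)
      _ = _ := by rw [integral_const_mul]; ring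
  set J := ∑ m, ∫ x in Ω, dd (w m) χ x * qf Λ (ξ m) x with hJ
  set K := ∑ m, C m * ∫ x in Ω, |qf Λ (ξ m) x| with hKd
  have hK0 : 0 ≤ K := Finset.sum_nonneg fun m _ => mul_nonneg (hC0 m) (integral_nonneg fun x => abs_nonneg _)
  by_contra hcon
  push Not at hcon
  have hJ' : 0 < - (Γ₁ * J) := by nlinarith
  set ε := min (δ / 2) (- (Γ₁ * J) / (2 * (K + 1))) with hεd
  have hε : 0 < ε := lt_min (by linarith) (by positivity)
  have hε1 : ε < δ := lt_of_le_of_lt (min_le_left _ _) (by linarith)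
  have hε2 : ε * (2 * (K + 1)) ≤ - (Γ₁ * J) := by
    have h5 := min_le_right (δ / 2) (- (Γ₁ * J) / (2 * (K + 1)))
    rw [← hεd, le_div_iff₀ (by positivity)] at h5
    exact h5
  have h6 := (abs_le.1 (hmain ε hε)).1
  have h7 := hT ε hε hε1
  have h8 : ε * (- (Γ₁ * J)) ≤ K * ε ^ 2 := by nlinarith
  have h9 : - (Γ₁ * J) ≤ K * ε := by
    have : ε * (- (Γ₁ * J)) ≤ ε * (K * ε) := by rw [pow_two] at h8; linarith
    exact le_of_mul_le_mul_left this hε
  nlinarith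

/-! ### The tensors -/

/-- The first moments. -/
def TA (A : Fin 3 → Fin 3 → ℝ) (k i l : Fin 3) : ℝ := ∑ m : Fin 3, (lc l k m * A m i + lc i k m * A m l)

lemma TA_symm (A : Fin 3 → Fin 3 → ℝ) (k i l : Fin 3) : TA A k i l = TA A k l i := by
  unfold TA
  exact Finset.sum_congr rfl fun m _ => add_comm _ _

lemma lc_abs (i j k : Fin 3) : |lc i j k| ≤ 1 := by
  unfold lc
  fin_cases i <;> fin_cases j <;> fin_cases k <;> norm_num

lemma lc_symm (i j k : Fin 3) : lc i j k = - lc j i k := by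
  unfold lc
  ring

lemma TA_abs {A : Fin 3 → Fin 3 → ℝ} (hA : ∀ m i, |A m i| ≤ 1 / 16) (k i l : Fin 3) : |TA A k i l| ≤ 2 / 5 := by
  unfold TA
  refine (Finset.abs_sum_le_sum_abs _ _).trans ?_
  have h1 : ∀ m : Fin 3, |lc l k m * A m i + lc i k m * A m l| ≤ 1 / 8 := by
    intro m
    refine (abs_add_le _ _).trans ?_
    rw [abs_mul, abs_mul]
    have a1 := mul_le_mul (lc_abs l k m) (hA m i) (abs_nonneg _) zero_le_one
    have a2 := mul_le_mul (lc_abs i k m) (hA m l) (abs_nonneg _) zero_le_one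
    linarith
  refine (Finset.sum_le_sum fun m _ => h1 m).trans ?_
  simp
  norm_num

lemma TA_three (A : Fin 3 → Fin 3 → ℝ) (S : Fin 3 → Fin 3 → Fin 3 → ℝ) (h1 : ∀ a b c, S a b c = S b a c)
    (h2 : ∀ a b c, S a b c = S a c b) : ∑ k, ∑ i, ∑ l, TA A k i l * S k i l = 0 := by
  have e1 : S 0 1 0 = S 0 0 1 := h2 0 1 0
  have e2 : S 1 0 0 = S 0 0 1 := by rw [h1, h2]
  have e3 : S 0 2 0 = S 0 0 2 := h2 0 2 0
  have e4 : S 2 0 0 = S 0 0 2 := by rw [h1, h2]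
  have e5 : S 1 1 0 = S 0 1 1 := by rw [h2, h1]
  have e6 : S 1 0 1 = S 0 1 1 := h1 1 0 1
  have e7 : S 1 2 1 = S 1 1 2 := h2 1 2 1
  have e8 : S 2 1 1 = S 1 1 2 := by rw [h1, h2]
  have e9 : S 2 0 2 = S 0 2 2 := h1 2 0 2
  have e10 : S 2 2 0 = S 0 2 2 := by rw [h2, h1]
  have e11 : S 2 1 2 = S 1 2 2 := h1 2 1 2
  have e12 : S 2 2 1 = S 1 2 2 := by rw [h2, h1]
  have e13 : S 0 2 1 = S 0 1 2 := h2 0 2 1
  have e14 : S 1 0 2 = S 0 1 2 := h1 1 0 2
  have e15 : S 1 2 0 = S 0 1 2 := by rw [h2, h1]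
  have e16 : S 2 0 1 = S 0 1 2 := by rw [h1, h2]
  have e17 : S 2 1 0 = S 0 1 2 := by rw [h2, e16]
  simp only [Fin.sum_univ_three, TA, e1, e2, e3, e4, e5, e6, e7, e8, e9, e10, e11, e12, e13, e14, e15, e16, e17]
  simp only [lc]
  norm_num
  ring

/-! ### Conclusion -/

lemma curlA_test {A : Fin 3 → Fin 3 → ℝ} {χ : E → ℝ} (hχ : IsBump Ω χ) : IsTest Ω (curlA A χ) := by
  have hb : ∀ (c : ℝ) (k i : Fin 3), IsBump Ω (fun x => c * dd (e k) (dd (e i) χ) x) := fun c k i =>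
    bump_cmul (bump_dd (bump_dd hχ (e i)) (e k)) c
  have hcomp : ∀ l : Fin 3, IsBump Ω (fun x => ∑ k : Fin 3, ∑ i : Fin 3,
      (∑ m : Fin 3, lc l k m * A m i) * dd (e k) (dd (e i) χ) x) := fun l =>
    Base2.bump_sum (n := 3) fun k => Base2.bump_sum (n := 3) fun i => hb _ k i
  refine Base.vec_test hcomp fun x => ?_
  have h1 : ∀ l : Fin 3, dd (e l) (fun x => ∑ k : Fin 3, ∑ i : Fin 3,
      (∑ m : Fin 3, lc l k m * A m i) * dd (e k) (dd (e i) χ) x) x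
      = ∑ k : Fin 3, ∑ i : Fin 3, (∑ m : Fin 3, lc l k m * A m i) * dd (e l) (dd (e k) (dd (e i) χ)) x := by
    intro l
    have hs : ∀ (k i : Fin 3), ContDiff ℝ ∞ (fun x => (∑ m : Fin 3, lc l k m * A m i) • dd (e k) (dd (e i) χ) x) :=
      fun k i => (hb _ k i).1
    have h2 := congrFun (Base.dd_sum Finset.univ (fun k : Fin 3 =>
      (ContDiff.sum fun i _ => hs k i : ContDiff ℝ ∞ (fun x => ∑ i : Fin 3,
        (∑ m : Fin 3, lc l k m * A m i) • dd (e k) (dd (e i) χ) x))) (e l)) x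
    simp only [smul_eq_mul] at h2
    rw [h2]
    refine Finset.sum_congr rfl fun k _ => ?_
    have h3 := congrFun (Base.dd_sum Finset.univ (fun i : Fin 3 => hs k i) (e l)) x
    simp only [smul_eq_mul] at h3
    rw [h3]
    refine Finset.sum_congr rfl fun i _ => ?_
    have h4 := congrFun (Base.dd_smul (bump_dd (bump_dd hχ (e i)) (e k)).1 (∑ m : Fin 3, lc l k m * A m i) (e l)) x
    simpa only [smul_eq_mul] using h4
  simp only [h1]
  have hS1 : ∀ a b c, dd (e a) (dd (e b) (dd (e c) χ)) x = dd (e b) (dd (e a) (dd (e c) χ)) x := fun a b c => by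
    rw [Base.dd_comm (bump_dd hχ (e c)).1 (e a) (e b)]
  have hS2 : ∀ a b c, dd (e a) (dd (e b) (dd (e c) χ)) x = dd (e a) (dd (e c) (dd (e b) χ)) x := fun a b c => by
    rw [Base.dd_comm hχ.1 (e b) (e c)]
  set S : Fin 3 → Fin 3 → Fin 3 → ℝ := fun a b c => dd (e a) (dd (e b) (dd (e c) χ)) x with hS
  have e1 : S 1 0 0 = S 0 1 0 := hS1 1 0 0
  have e2 : S 1 0 1 = S 0 1 1 := hS1 1 0 1
  have e3 : S 1 0 2 = S 0 1 2 := hS1 1 0 2
  have e4 : S 2 0 0 = S 0 2 0 := hS1 2 0 0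
  have e5 : S 2 0 1 = S 0 2 1 := hS1 2 0 1
  have e6 : S 2 0 2 = S 0 2 2 := hS1 2 0 2
  have e7 : S 2 1 0 = S 1 2 0 := hS1 2 1 0
  have e8 : S 2 1 1 = S 1 2 1 := hS1 2 1 1
  have e9 : S 2 1 2 = S 1 2 2 := hS1 2 1 2
  change ∑ l, ∑ k, ∑ i, (∑ m, lc l k m * A m i) * S l k i = 0
  simp only [Fin.sum_univ_three, e1, e2, e3, e4, e5, e6, e7, e8, e9]
  simp only [lc]
  norm_num
  ring

/-- The second order term. -/
lemma second (hX : Stmt_PairXi) (hΩ : IsOpen Ω) (hb : Bornology.IsBounded Ω) (Λ : V Ω)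
    (T : Fin 3 → Fin 3 → Fin 3 → ℝ) (hT : ∀ k i l, T k i l = T k l i) {χ : E → ℝ} (hχ : IsBump Ω χ) :
    ∑ m, ∫ x in Ω, dd (Base2.w6 T m) χ x * qf Λ (Base2.xi6 m) x
      = - ∑ k, ∑ i, ∑ l, T k i l * JF Λ l (dd (e i) (dd (e k) χ)) := by
  have hI : ∀ i l r : Fin 3, Integrable (fun x => dd (e r) χ x * gc Λ i l x) (volume.restrict Ω) :=
    fun i l r => bump_mul_int (bump_dd hχ (e r)) (intg_gc hb Λ i l)
  have h1 : ∀ x, ∑ m, dd (Base2.w6 T m) χ x * qf Λ (Base2.xi6 m) x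
      = ∑ k : Fin 3, ∑ i : Fin 3, ∑ l : Fin 3, T k i l * (dd (e k) χ x * gc Λ i l x) := by
    intro x
    have h2 : ∀ m, dd (Base2.w6 T m) χ x = ∑ k : Fin 3, Base2.w6 T m k * dd (e k) χ x := by
      intro m
      rw [Base.dd_coord χ (Base2.w6 T m) x]
      rfl
    have h3 : ∀ m, dd (Base2.w6 T m) χ x * qf Λ (Base2.xi6 m) x = ∑ k : Fin 3, ∑ i : Fin 3, ∑ l : Fin 3,
        Base2.w6 T m k * (Base2.xi6 m i * Base2.xi6 m l) * (dd (e k) χ x * gc Λ i l x) := by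
      intro m
      rw [h2 m, qf_eq]
      simp only [Fin.sum_univ_three]
      ring
    simp only [h3]
    rw [Finset.sum_comm]
    refine Finset.sum_congr rfl fun k _ => ?_
    rw [Finset.sum_comm]
    refine Finset.sum_congr rfl fun i _ => ?_
    rw [Finset.sum_comm]
    refine Finset.sum_congr rfl fun l _ => ?_
    rw [← Finset.sum_mul, Base2.iso6T T hT]
  rw [← integral_finsetSum _ fun m _ => bump_mul_int (bump_dd hχ (Base2.w6 T m)) (intg_qf hb Λ (Base2.xi6 m))]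
  simp_rw [h1]
  rw [integral_finsetSum _ fun k _ => integrable_finsetSum _ fun i _ => integrable_finsetSum _ fun l _ =>
    (hI i l k).const_mul _, ← Finset.sum_neg_distrib]
  refine Finset.sum_congr rfl fun k _ => ?_
  rw [integral_finsetSum _ fun i _ => integrable_finsetSum _ fun l _ => (hI i l k).const_mul _,
    ← Finset.sum_neg_distrib]
  refine Finset.sum_congr rfl fun i _ => ?_
  rw [integral_finsetSum _ fun l _ => (hI i l k).const_mul _, ← Finset.sum_neg_distrib]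
  refine Finset.sum_congr rfl fun l _ => ?_
  rw [integral_const_mul]
  have h4 := IG_eq hX hΩ hb Λ i l (bump_dd hχ (e k))
  unfold IG at h4
  rw [h4]
  ring

/-- The pairing of `curl (A ∇χ)` with `Λ`. -/
lemma pair_curlA (hL : Stmt_Lap) (hΩ : IsOpen Ω) (hb : Bornology.IsBounded Ω) (Λ : V Ω) (A : Fin 3 → Fin 3 → ℝ)
    {χ : E → ℝ} (hχ : IsBump Ω χ) {p : V Ω} (hp : Represents Ω (curlA A χ) p) :
    ⟪p, Λ⟫ = ∑ k, ∑ i, ∑ l, TA A k i l * JF Λ l (dd (e i) (dd (e k) (DD χ))) := by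
  rw [(pairV hL hΩ hb (curlA_test hχ) hp Λ).1]
  have hD := DD_bump hχ
  have hI : ∀ k i l : Fin 3, Integrable (fun x => dd (e i) (dd (e k) (DD χ)) x * fc Λ l x) (volume.restrict Ω) :=
    fun k i l => bump_mul_int (bump_dd (bump_dd hD (e k)) (e i)) (intg_fc hb Λ l)
  -- `(1 - Δ)` of the components
  have h1 : ∀ l x, DD (fun x => curlA A χ x l) x
      = ∑ k : Fin 3, ∑ i : Fin 3, (∑ m : Fin 3, lc l k m * A m i) * dd (e k) (dd (e i) (DD χ)) x := by
    intro l x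
    have e0 : (fun x => curlA A χ x l) = fun x => ∑ k : Fin 3, ∑ i : Fin 3,
        (∑ m : Fin 3, lc l k m * A m i) • dd (e k) (dd (e i) χ) x := by
      funext x
      rw [curlA, Base.vec_apply]
      rfl
    have hs : ∀ (k i : Fin 3), ContDiff ℝ ∞ (fun x => (∑ m : Fin 3, lc l k m * A m i) • dd (e k) (dd (e i) χ) x) :=
      fun k i => (bump_dd (bump_dd hχ (e i)) (e k)).1.const_smul _
    have h2 : lap (fun x => ∑ k : Fin 3, ∑ i : Fin 3,
        (∑ m : Fin 3, lc l k m * A m i) • dd (e k) (dd (e i) χ) x) x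
        = ∑ k : Fin 3, ∑ i : Fin 3, (∑ m : Fin 3, lc l k m * A m i) * dd (e k) (dd (e i) (lap χ)) x := by
      have h3 := congrFun (Base.lap_sum Finset.univ (fun k : Fin 3 =>
        (ContDiff.sum fun i _ => hs k i : ContDiff ℝ ∞ (fun x => ∑ i : Fin 3,
          (∑ m : Fin 3, lc l k m * A m i) • dd (e k) (dd (e i) χ) x)))) x
      rw [h3]
      refine Finset.sum_congr rfl fun k _ => ?_
      have h4 := congrFun (Base.lap_sum Finset.univ (fun i : Fin 3 => hs k i)) x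
      rw [h4]
      refine Finset.sum_congr rfl fun i _ => ?_
      have h5 := congrFun (Base.lap_smul (bump_dd (bump_dd hχ (e i)) (e k)).1 (∑ m : Fin 3, lc l k m * A m i)) x
      rw [h5, Base.lap_dd (bump_dd hχ (e i)).1, Base.lap_dd hχ.1]
      rfl
    have h6 : ∀ k i : Fin 3, dd (e k) (dd (e i) (DD χ)) x
        = dd (e k) (dd (e i) χ) x - dd (e k) (dd (e i) (lap χ)) x := by
      intro k i
      have e1 : DD χ = fun y => χ y - lap χ y := rfl
      rw [e1, Base.dd_sub hχ.1 (lap_bump hχ).1,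
        Base.dd_sub (bump_dd hχ (e i)).1 (bump_dd (lap_bump hχ) (e i)).1]
    show (fun x => curlA A χ x l) x - lap (fun x => curlA A χ x l) x = _
    rw [e0, h2]
    simp only [h6, smul_eq_mul, mul_sub, Finset.sum_sub_distrib]
  simp_rw [h1]
  have h2 : ∀ l, ∫ x in Ω, (∑ k : Fin 3, ∑ i : Fin 3, (∑ m : Fin 3, lc l k m * A m i) *
      dd (e k) (dd (e i) (DD χ)) x) * fc Λ l x
      = ∑ k : Fin 3, ∑ i : Fin 3, (∑ m : Fin 3, lc l k m * A m i) * JF Λ l (dd (e k) (dd (e i) (DD χ))) := by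
    intro l
    have e1 : ∀ x, (∑ k : Fin 3, ∑ i : Fin 3, (∑ m : Fin 3, lc l k m * A m i) *
        dd (e k) (dd (e i) (DD χ)) x) * fc Λ l x = ∑ k : Fin 3, ∑ i : Fin 3, (∑ m : Fin 3, lc l k m * A m i) *
        (dd (e k) (dd (e i) (DD χ)) x * fc Λ l x) := by
      intro x
      rw [Finset.sum_mul]
      refine Finset.sum_congr rfl fun k _ => ?_
      rw [Finset.sum_mul]
      exact Finset.sum_congr rfl fun i _ => mul_assoc _ _ _
    simp_rw [e1]
    rw [integral_finsetSum _ fun k _ => integrable_finsetSum _ fun i _ => (hI i k l).const_mul _]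
    refine Finset.sum_congr rfl fun k _ => ?_
    rw [integral_finsetSum _ fun i _ => (hI i k l).const_mul _]
    refine Finset.sum_congr rfl fun i _ => ?_
    rw [integral_const_mul]
    rfl
  rw [Finset.sum_congr rfl fun l _ => h2 l]
  set J : Fin 3 → Fin 3 → Fin 3 → ℝ := fun l k i => JF Λ l (dd (e k) (dd (e i) (DD χ))) with hJ
  have hs : ∀ l k i, J l k i = J l i k := by
    intro l k i
    simp only [hJ]
    rw [Base.dd_comm hD.1 (e k) (e i)]
  have a0 : J 0 1 0 = J 0 0 1 := hs _ _ _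
  have a1 : J 0 2 0 = J 0 0 2 := hs _ _ _
  have a2 : J 0 2 1 = J 0 1 2 := hs _ _ _
  have a3 : J 1 1 0 = J 1 0 1 := hs _ _ _
  have a4 : J 1 2 0 = J 1 0 2 := hs _ _ _
  have a5 : J 1 2 1 = J 1 1 2 := hs _ _ _
  have a6 : J 2 1 0 = J 2 0 1 := hs _ _ _
  have a7 : J 2 2 0 = J 2 0 2 := hs _ _ _
  have a8 : J 2 2 1 = J 2 1 2 := hs _ _ _
  change ∑ l, ∑ k, ∑ i, (∑ m, lc l k m * A m i) * J l k i = ∑ k, ∑ i, ∑ l, TA A k i l * J l i k
  simp only [Fin.sum_univ_three, TA, a0, a1, a2, a3, a4, a5, a6, a7, a8]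
  simp only [lc]
  norm_num
  ring

end VDense

open VDense KLimit in
theorem vOrth_proof (hL : Stmt_Lap) (hX : Stmt_PairXi) (hG : Stmt_Grad) (hS : Stmt_Scale) (hP : Stmt_Profile) :
    Stmt_VOrth := by
  intro Ω hΩ hb η hη Λ hΛ A χ p hχ hp
  -- small tensors, nonnegative bumps
  have key : ∀ (B : Fin 3 → Fin 3 → ℝ), (∀ m i, |B m i| ≤ 1 / 16) → ∀ ψ : E → ℝ, IsBump Ω ψ → (∀ x, 0 ≤ ψ x) →
      ∑ k, ∑ i, ∑ l, TA B k i l * JF Λ l (dd (e i) (dd (e k) (DD ψ))) ≤ 0 := by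
    intro B hB ψ hψ hψ0
    obtain ⟨Γ₀, Γ₁, a, q, G, hΓ, hK, hm0, hm1⟩ := Base2.base2 hP η hη (TA B) (TA_symm B) (TA_abs hB) (TA_three B)
    obtain ⟨δ, hδ, hthick⟩ := hψ.2.1.isCompact.exists_thickening_subset_open hΩ hψ.2.2
    have h1 := limit_core (χ := DD ψ) hb Λ hK.bump hΓ hm0 hm1 (DD_bump hψ) hδ (fun ε hε hεδ =>
      avg_ineq hL hX hG hS hΩ hb hη Λ hΛ hK hψ hψ0 hε fun z hz =>
        (Metric.ball_subset_ball hεδ.le).trans ((Metric.ball_subset_thickening hz δ).trans hthick))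
      (first_order hX hG hΩ hb Λ Base2.iso6 (DD_bump hψ))
    rw [second hX hΩ hb Λ (TA B) (TA_symm B) (DD_bump hψ)] at h1
    linarith
  have hlin : ∀ (B : Fin 3 → Fin 3 → ℝ) (c : ℝ) (ψ : E → ℝ),
      ∑ k, ∑ i, ∑ l, TA (fun m i => c * B m i) k i l * JF Λ l (dd (e i) (dd (e k) (DD ψ)))
        = c * ∑ k, ∑ i, ∑ l, TA B k i l * JF Λ l (dd (e i) (dd (e k) (DD ψ))) := by
    intro B c ψ
    simp only [Finset.mul_sum]
    refine Finset.sum_congr rfl fun k _ => Finset.sum_congr rfl fun i _ => Finset.sum_congr rfl fun l _ => ?_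
    have : TA (fun m i => c * B m i) k i l = c * TA B k i l := by
      unfold TA
      rw [Finset.mul_sum]
      exact Finset.sum_congr rfl fun m _ => by ring
    rw [this]
    ring
  -- all matrices, nonnegative bumps
  have key2 : ∀ (B : Fin 3 → Fin 3 → ℝ) (ψ : E → ℝ) (p : V Ω), IsBump Ω ψ → (∀ x, 0 ≤ ψ x) →
      Represents Ω (curlA B ψ) p → ⟪p, Λ⟫ = 0 := by
    intro B ψ p hψ hψ0 hp
    rw [pair_curlA hL hΩ hb Λ B hψ hp]
    set S : ℝ := ∑ m, ∑ i, |B m i| with hS'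
    have hS0 : 0 ≤ S := Finset.sum_nonneg fun m _ => Finset.sum_nonneg fun i _ => abs_nonneg _
    have hB : ∀ m i, |B m i| ≤ S := fun m i =>
      (Finset.single_le_sum (f := fun i => |B m i|) (fun i _ => abs_nonneg _) (Finset.mem_univ i)).trans
        (Finset.single_le_sum (f := fun m => ∑ i, |B m i|) (fun m _ => Finset.sum_nonneg fun i _ => abs_nonneg _)
          (Finset.mem_univ m))
    set c : ℝ := 1 / (16 * (S + 1)) with hc
    have hc0 : 0 < c := by positivity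
    have hcB : ∀ m i, c * |B m i| ≤ 1 / 16 := by
      intro m i
      calc c * |B m i| ≤ c * (S + 1) := mul_le_mul_of_nonneg_left (by linarith [hB m i]) hc0.le
        _ = 1 / 16 := by rw [hc]; field_simp
    have h1 := key (fun m i => c * B m i) (fun m i => by rw [abs_mul, abs_of_pos hc0]; exact hcB m i) ψ hψ hψ0
    have h2 := key (fun m i => (-c) * B m i) (fun m i => by rw [abs_mul, abs_neg, abs_of_pos hc0]; exact hcB m i)
      ψ hψ hψ0
    rw [hlin] at h1 h2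
    nlinarith
  -- all bumps
  obtain ⟨ψ, hψ, hψ0, hψ1⟩ := cutoff hΩ hχ
  obtain ⟨C, hC0, hC⟩ := bump_bdd hχ
  have h1 : IsBump Ω (fun x => χ x + C * ψ x) := bump_add hχ (bump_cmul hψ C)
  have h2 : ∀ x, 0 ≤ χ x + C * ψ x := by
    intro x
    by_cases hx : x ∈ tsupport χ
    · rw [hψ1 x hx, mul_one]
      linarith [(abs_le.1 (hC x)).1]
    · rw [image_eq_zero_of_notMem_tsupport hx, zero_add]
      exact mul_nonneg hC0 (hψ0 x)
  obtain ⟨r, hr⟩ := Rep_proof Ω _ (curlA_test (A := A) hψ)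
  have h3 := key2 A ψ r hψ hψ0 hr
  have h4 : curlA A (fun x => χ x + C * ψ x) = curlA A χ + C • curlA A ψ := by
    funext x
    ext l
    have e1 : (curlA A χ + C • curlA A ψ) x l = curlA A χ x l + C * curlA A ψ x l := rfl
    rw [e1]
    simp only [curlA, Base.vec_apply]
    have e2 : ∀ k i : Fin 3, dd (e k) (dd (e i) (fun x => χ x + C * ψ x)) x
        = dd (e k) (dd (e i) χ) x + C * dd (e k) (dd (e i) ψ) x := by
      intro k i
      have c1 : ContDiff ℝ ∞ (fun x => C • ψ x) := hψ.1.const_smul _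
      have e3 : (fun x => χ x + C * ψ x) = fun x => χ x + C • ψ x := rfl
      have c2 : ContDiff ℝ ∞ (fun x => C • dd (e i) ψ x) := (bump_dd hψ (e i)).1.const_smul _
      rw [e3, Base.dd_add hχ.1 c1, Base.dd_smul hψ.1, Base.dd_add (bump_dd hχ (e i)).1 c2,
        Base.dd_smul (bump_dd hψ (e i)).1]
      rfl
    simp only [e2, Fin.sum_univ_three]
    ring
  have h5 : Represents Ω (curlA A (fun x => χ x + C * ψ x)) (p + C • r : V Ω) := by
    rw [h4]
    exact rep_add (curlA_test hχ).differentiable ((curlA_test hψ).smul C).differentiable hp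
      (rep_smul C (curlA_test hψ).differentiable hr)
  have h6 := key2 A _ _ h1 h2 h5
  have h7 : ⟪C • r, Λ⟫ = C * ⟪r, Λ⟫ := real_inner_smul_left r Λ C
  rw [inner_add_left, h7, h3, mul_zero, add_zero] at h6
  exact h6

/-- The closure in `V` of the fields `curl (A ∇χ)` with `A` a matrix and `χ` a test function. -/
def curlW (Ω : Set E) : Submodule ℝ (V Ω) :=
  (Submodule.span ℝ {p : V Ω | ∃ (A : Fin 3 → Fin 3 → ℝ) (χ : E → ℝ), IsBump Ω χ ∧
    Represents Ω (curlA A χ) p}).topologicalClosure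

/-- VDENSE. Sums of kicks are dense in `curlW Ω` in the norm of `V`. -/
def Stmt_VDense : Prop := ∀ (Ω : Set E), IsOpen Ω → Bornology.IsBounded Ω → ∀ η : ℝ, 0 < η →
    ∀ u ∈ curlW Ω, ∀ ε : ℝ, 0 < ε → ∃ (n : ℕ) (G : Fin n → E → E) (p : Fin n → V Ω),
      (∀ i, IsKick Ω η (G i)) ∧ (∀ i, Represents Ω (G i) (p i)) ∧ ‖(∑ i, p i) - u‖ ≤ ε

namespace VDense

/-- Sums of kicks. -/
def CV (Ω : Set E) (η : ℝ) : Set (V Ω) :=
  {x | ∃ (n : ℕ) (G : Fin n → E → E) (p : Fin n → V Ω), (∀ i, IsKick Ω η (G i)) ∧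
    (∀ i, Represents Ω (G i) (p i)) ∧ x = ∑ i, p i}

lemma CV_zero (Ω : Set E) (η : ℝ) : (0 : V Ω) ∈ CV Ω η :=
  ⟨0, Fin.elim0, Fin.elim0, fun i => i.elim0, fun i => i.elim0, by simp⟩

lemma CV_add {Ω : Set E} {η : ℝ} {x y : V Ω} (hx : x ∈ CV Ω η) (hy : y ∈ CV Ω η) : x + y ∈ CV Ω η := by
  obtain ⟨n, G, p, h1, h2, h3⟩ := hx
  obtain ⟨n', G', p', h1', h2', h3'⟩ := hy
  refine ⟨n + n', Fin.append G G', Fin.append p p', fun i => ?_, fun i => ?_, ?_⟩
  · refine Fin.addCases (fun i => ?_) (fun i => ?_) i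
    · rw [Fin.append_left]; exact h1 i
    · rw [Fin.append_right]; exact h1' i
  · refine Fin.addCases (fun i => ?_) (fun i => ?_) i
    · rw [Fin.append_left, Fin.append_left]; exact h2 i
    · rw [Fin.append_right, Fin.append_right]; exact h2' i
  · rw [h3, h3', Fin.sum_univ_add]
    simp only [Fin.append_left, Fin.append_right]

lemma CV_smul {Ω : Set E} {η : ℝ} (hC : Stmt_Cone) {x : V Ω} (hx : x ∈ CV Ω η) {c : ℝ} (hc : 0 ≤ c) :
    c • x ∈ CV Ω η := by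
  obtain ⟨n, G, p, h1, h2, h3⟩ := hx
  exact ⟨n, fun i x => c • G i x, fun i => c • p i, fun i => hC Ω η (G i) c hc (h1 i),
    fun i => KDense.rep_smul (h1 i) (h2 i) c, by rw [h3, Finset.smul_sum]⟩

lemma CV_kick {Ω : Set E} {η : ℝ} {G : E → E} {p : V Ω} (hG : IsKick Ω η G) (h : Represents Ω G p) :
    p ∈ CV Ω η :=
  ⟨1, fun _ => G, fun _ => p, fun _ => hG, fun _ => h, by simp⟩

lemma CV_convex {Ω : Set E} {η : ℝ} (hC : Stmt_Cone) : Convex ℝ (CV Ω η) := by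
  intro x hx y hy a b ha hb _
  exact CV_add (CV_smul hC hx ha) (CV_smul hC hy hb)

end VDense

open VDense in
theorem vDense_proof (hO : Stmt_VOrth) (hC : Stmt_Cone) : Stmt_VDense := by
  intro Ω hΩ hb η hη u hu ε hε
  have hmem : u ∈ closure (CV Ω η) := by
    by_contra hne
    obtain ⟨f, c, h1, h2⟩ := geometric_hahn_banach_closed_point (CV_convex hC (Ω := Ω) (η := η)).closure
      isClosed_closure hne
    have hc : 0 < c := by
      have := h1 0 (subset_closure (CV_zero Ω η))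
      simpa using this
    have hle : ∀ a ∈ CV Ω η, f a ≤ 0 := by
      intro a ha
      by_contra hpos
      push Not at hpos
      have h3 := h1 ((c / f a) • a) (subset_closure (CV_smul hC ha (by positivity)))
      rw [map_smul, smul_eq_mul, div_mul_cancel₀ _ hpos.ne'] at h3
      exact lt_irrefl _ h3
    obtain ⟨φ, hφ⟩ : ∃ φ : V Ω, ∀ v, ⟪φ, v⟫ = - f v :=
      ⟨(InnerProductSpace.toDual ℝ (V Ω)).symm (-f), fun v => by
        rw [InnerProductSpace.toDual_symm_apply]; rfl⟩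
    have h0 : ∀ (A : Fin 3 → Fin 3 → ℝ) (χ : E → ℝ) (p : V Ω), IsBump Ω χ → Represents Ω (curlA A χ) p →
        ⟪p, φ⟫ = 0 := by
      refine hO Ω hΩ hb η hη φ fun G p hG hp => ?_
      have h4 := hle _ (CV_kick hG hp)
      have h5 := hφ p
      rw [real_inner_comm] at h5
      linarith
    have h6 : ∀ v ∈ curlW Ω, ⟪φ, v⟫ = 0 := by
      intro v hv
      have hcl : IsClosed {v : V Ω | ⟪φ, v⟫ = 0} := isClosed_eq (continuous_const.inner continuous_id) continuous_const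
      have hsub : (Submodule.span ℝ {p : V Ω | ∃ (A : Fin 3 → Fin 3 → ℝ) (χ : E → ℝ), IsBump Ω χ ∧
          Represents Ω (curlA A χ) p} : Set (V Ω)) ⊆ {v : V Ω | ⟪φ, v⟫ = 0} := by
        intro v hv
        induction hv using Submodule.span_induction with
        | mem x hx =>
          obtain ⟨A, χ, hχ, hx⟩ := hx
          have := h0 A χ x hχ hx
          rw [real_inner_comm] at this
          exact this
        | zero => exact inner_zero_right φ
        | add x y _ _ hx hy =>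
          have hx' : ⟪φ, x⟫ = 0 := hx
          have hy' : ⟪φ, y⟫ = 0 := hy
          show ⟪φ, x + y⟫ = 0
          rw [inner_add_right, hx', hy', add_zero]
        | smul c x _ hx =>
          have hx' : ⟪φ, x⟫ = 0 := hx
          show ⟪φ, c • x⟫ = 0
          exact (real_inner_smul_right φ x c).trans (by rw [hx', mul_zero])
      exact hcl.closure_subset_iff.2 hsub hv
    have h7 := h6 u hu
    rw [hφ u] at h7
    linarith
  obtain ⟨y, ⟨n, G, p, h1, h2, h3⟩, hy⟩ := Metric.mem_closure_iff.1 hmem ε hε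
  refine ⟨n, G, p, h1, h2, ?_⟩
  rw [← h3, ← dist_eq_norm, dist_comm]
  exact hy.le

/-- BESOVV. Pure version: every `u ∈ V` with `u - x₀ ∈ curlW Ω` is approximated by good data, in the norm of `V` plus
`B^{-1}_{∞,q}`. -/
def Stmt_BesovV : Prop := ∀ (Ω : Set E), IsOpen Ω → Bornology.IsBounded Ω → ∀ (η : ℝ), 0 < η →
    ∀ (Gd : ℝ → Set (V Ω)), KickClosed Ω η Gd → ∀ (x₀ : V Ω), (∀ ε, 0 < ε → x₀ ∈ Gd ε) →
    ∀ (u : V Ω), u - x₀ ∈ curlW Ω → ∀ (q ε : ℝ), 2 < q → 0 < ε → ∃ x ∈ Gd ε, ∃ y : V Ω,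
      ‖y - u‖ ≤ ε ∧ besov (x - y) q ≤ ENNReal.ofReal ε

theorem besovV_proof (hL : Stmt_Lac) (hVD : Stmt_VDense) : Stmt_BesovV := by
  intro Ω hΩ hb η hη Gd hGd x₀ hx₀ u hu q ε hq hε
  obtain ⟨n, G, p, hG, hp, hn⟩ := hVD Ω hΩ hb η hη _ hu ε hε
  obtain ⟨x, hx, -, hB⟩ := hL Ω hΩ hb η Gd hGd x₀ hx₀ n G p hG hp ∅ isCompact_empty q ε ε hq hε hε
  refine ⟨x, hx, x₀ + ∑ i, p i, ?_, hB⟩
  have e1 : x₀ + ∑ i, p i - u = (∑ i, p i) - (u - x₀) := by abel
  rw [e1]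
  exact hn

end Pool.Agent.NSN
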